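import Pool.Agent.Lib.JC.Core

/-!
# JC.Agree : determinism and dependence on finitely many oracle answers

* `halts_det`: induction on the first derivation; the action of a configuration is unique, so the
 second derivation ends with the same rule (`cases`, `h.symm.trans`), same next configuration.
* `halts_agree`: if `M` halts from `C` with oracle `φ` at total cost `t ≤ T`, every answer `φ m` has length
 `≥ m + 1`, and `φ m = φ' m` for all `m < T`, then the same holds for `φ'`. Induction on the derivation:
 in the query case with `m = C.qval` the cost is `t + (φ m).length ≤ T`, so `m + 1 ≤ T`, `m < T`,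
 `φ m = φ' m`; the remaining cost is `≤ T` too.
-/

open Set Filter Topology

namespace JC

theorem halts_det {M : OTM} {φ : ℕ → List Sym} {C : Cfg M} {t t' : ℕ} {b b' : Bool}
    (h : Halts M φ C t b) (h' : Halts M φ C t' b') : t = t' ∧ b = b' := by
  induction h generalizing t' b' with
  | halt h =>
    cases h' with
    | halt h2 =>
      have e := h.symm.trans h2
      injection e with e1
      exact ⟨rfl, e1⟩
    | move h2 _ => exact absurd (h.symm.trans h2) (fun e => by injection e)
    | query h2 _ => exact absurd (h.symm.trans h2) (fun e => by injection e)
  | move h _ ih =>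
    cases h' with
    | halt h2 => exact absurd (h.symm.trans h2) (fun e => by injection e)
    | move h2 h3 =>
      have e := h.symm.trans h2
      injection e with e1 e2 e3
      subst e1 e2 e3
      obtain ⟨h4, h5⟩ := ih h3
      exact ⟨by rw [h4], h5⟩
    | query h2 _ => exact absurd (h.symm.trans h2) (fun e => by injection e)
  | query h _ ih =>
    cases h' with
    | halt h2 => exact absurd (h.symm.trans h2) (fun e => by injection e)
    | move h2 _ => exact absurd (h.symm.trans h2) (fun e => by injection e)
    | query h2 h3 =>
      have e := h.symm.trans h2
      injection e with e1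
      subst e1
      obtain ⟨h4, h5⟩ := ih h3
      exact ⟨by rw [h4], h5⟩

theorem halts_agree {M : OTM} {φ φ' : ℕ → List Sym} {C : Cfg M} {t T : ℕ} {b : Bool}
    (hlen : ∀ m, m + 1 ≤ (φ m).length) (hag : ∀ m < T, φ m = φ' m) (ht : t ≤ T)
    (h : Halts M φ C t b) : Halts M φ' C t b := by
  induction h with
  | halt h => exact Halts.halt h
  | move h _ ih => exact Halts.move h (ih (by omega))
  | @query C q t b h _ ih =>
    have h1 := hlen C.qval
    have h2 : φ C.qval = φ' C.qval := hag _ (by omega)
    have h3 := ih (by omega)
    rw [h2] at h3 ⊢
    exact Halts.query h h3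

end JC
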