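import Pool.Agent.Lib.JC.Core

/-!
# JC.BrBasic : elementary facts about branch words

All proofs are one or two line inductions on the word.

* `fr_fc_iter`: induction on `k`, `fc c x = fr c x` for real `c`, `x` (push_cast).
* `fr_iter_neg`, `fc_iter_neg`: `k = j + 1`, `Function.iterate_succ_apply`, and
  `fr c (-x) = fr c x`.
* `br_continuous`: induction on `w`, `Real.continuous_sqrt` (real roots are total and continuous).
* `br_append`, `ok_append`: induction on `w1`.
* `ok_mono`: induction on `w`.
* `iter_br`: induction on `w`: for `w = s :: v`, `fr c (br c (s :: v) y)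
  = s ^ 2 * (br c v y - c) + c = br c v y`, since `s ^ 2 = 1` and `c < br c v y`; then
  `Function.iterate_succ_apply`.
* `flip1`: cases on `w`. `rep`: `rep (k + 1) w = w ++ rep k w`; induction on `k`, with
  `Function.iterate_succ_apply'`.
* `ok_rep`: induction on `k` with `ok_append`, `ok_mono`: the set `br c (rep k w) '' I` consists of
  the points `(br c w)^[k] y`, which lie in `J`.
-/

open Set Filter Topology

namespace JC

theorem fr_fc (c x : ℝ) : fc (c : ℂ) (x : ℂ) = ((fr c x : ℝ) : ℂ) := by
  simp only [fc, fr]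
  push_cast
  ring

theorem fr_fc_iter (c x : ℝ) (k : ℕ) : (fc (c : ℂ))^[k] (x : ℂ) = (((fr c)^[k] x : ℝ) : ℂ) := by
  induction k with
  | zero => rfl
  | succ k ih => rw [Function.iterate_succ_apply', Function.iterate_succ_apply', ih, fr_fc]

theorem fr_iter_neg (c x : ℝ) {k : ℕ} (hk : k ≠ 0) : (fr c)^[k] (-x) = (fr c)^[k] x := by
  obtain ⟨j, rfl⟩ := Nat.exists_eq_succ_of_ne_zero hk
  have h : fr c (-x) = fr c x := by simp only [fr]; ring
  rw [Nat.succ_eq_add_one, Function.iterate_succ_apply, Function.iterate_succ_apply, h]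

theorem fc_iter_neg (c z : ℂ) {k : ℕ} (hk : k ≠ 0) : (fc c)^[k] (-z) = (fc c)^[k] z := by
  obtain ⟨j, rfl⟩ := Nat.exists_eq_succ_of_ne_zero hk
  have h : fc c (-z) = fc c z := by simp only [fc]; ring
  rw [Nat.succ_eq_add_one, Function.iterate_succ_apply, Function.iterate_succ_apply, h]

theorem br_continuous (w : List ℝ) : Continuous fun p : ℝ × ℝ => br p.1 w p.2 := by
  induction w with
  | nil => exact continuous_snd
  | cons s v ih =>
    have h : Continuous fun p : ℝ × ℝ => s * Real.sqrt (br p.1 v p.2 - p.1) :=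
      continuous_const.mul (Real.continuous_sqrt.comp (ih.sub continuous_fst))
    exact h

theorem br_append (c : ℝ) (w1 w2 : List ℝ) (y : ℝ) :
    br c (w1 ++ w2) y = br c w1 (br c w2 y) := by
  induction w1 with
  | nil => rfl
  | cons s v ih => simp only [List.cons_append, br, ih]

theorem ok_append {c : ℝ} {w1 w2 : List ℝ} {I : Set ℝ} :
    Ok c (w1 ++ w2) I ↔ Ok c w2 I ∧ Ok c w1 (br c w2 '' I) := by
  induction w1 with
  | nil => simp only [List.nil_append, Ok, and_true]
  | cons s v ih =>
    simp only [List.cons_append, Ok, ih]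
    constructor
    · rintro ⟨h1, ⟨h2, h3⟩, h4⟩
      refine ⟨h2, h1, h3, ?_⟩
      rintro _ ⟨y, hy, rfl⟩
      have h5 := h4 y hy
      rwa [br_append] at h5
    · rintro ⟨h2, h1, h3, h4⟩
      refine ⟨h1, ⟨h2, h3⟩, fun y hy => ?_⟩
      rw [br_append]
      exact h4 _ ⟨y, hy, rfl⟩

theorem ok_mono {c : ℝ} {w : List ℝ} {I J : Set ℝ} (h : Ok c w I) (hJ : J ⊆ I) : Ok c w J := by
  induction w with
  | nil => trivial
  | cons s v ih => exact ⟨h.1, ih h.2.1, fun y hy => h.2.2 y (hJ hy)⟩

theorem iter_br {c : ℝ} {w : List ℝ} {I : Set ℝ} {y : ℝ} (h : Ok c w I) (hy : y ∈ I) :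
    (fr c)^[w.length] (br c w y) = y := by
  induction w with
  | nil => rfl
  | cons s v ih =>
    have h1 : fr c (br c (s :: v) y) = br c v y := by
      have h2 : (0 : ℝ) ≤ br c v y - c := (sub_pos.2 (h.2.2 y hy)).le
      have h3 : s ^ 2 = 1 := by rcases h.1 with h | h <;> rw [h] <;> norm_num
      simp only [fr, br, mul_pow, Real.sq_sqrt h2, h3]
      ring
    rw [List.length_cons, Function.iterate_succ_apply, h1]
    exact ih h.2.1

theorem ok_flip1 {c e : ℝ} {w : List ℝ} {I : Set ℝ} (he : e = 1 ∨ e = -1) (h : Ok c w I) :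
    Ok c (flip1 e w) I := by
  cases w with
  | nil => trivial
  | cons s v =>
    refine ⟨?_, h.2.1, h.2.2⟩
    rcases he with rfl | rfl <;> rcases h.1 with rfl | rfl
    · left; norm_num
    · right; norm_num
    · right; norm_num
    · left; norm_num

theorem br_flip1 {w : List ℝ} (hw : w ≠ []) (c e y : ℝ) : br c (flip1 e w) y = e * br c w y := by
  cases w with
  | nil => exact absurd rfl hw
  | cons s v => simp only [flip1, br, mul_assoc]

theorem length_flip1 (e : ℝ) (w : List ℝ) : (flip1 e w).length = w.length := by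
  cases w with
  | nil => rfl
  | cons s v => rfl

theorem prod_flip1 {w : List ℝ} (hw : w ≠ []) (e : ℝ) : (flip1 e w).prod = e * w.prod := by
  cases w with
  | nil => exact absurd rfl hw
  | cons s v => simp only [flip1, List.prod_cons, mul_assoc]

theorem br_rep (c : ℝ) (w : List ℝ) (k : ℕ) (y : ℝ) : br c (rep k w) y = (br c w)^[k] y := by
  induction k with
  | zero => rfl
  | succ k ih =>
    have h : rep (k + 1) w = w ++ rep k w := by simp only [rep, List.replicate_succ, List.flatten_cons]
    rw [h, br_append, ih, Function.iterate_succ_apply']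

theorem length_rep (k : ℕ) (w : List ℝ) : (rep k w).length = k * w.length := by
  induction k with
  | zero => simp [rep]
  | succ k ih =>
    have h : rep (k + 1) w = w ++ rep k w := by simp only [rep, List.replicate_succ, List.flatten_cons]
    rw [h, List.length_append, ih]
    ring

theorem prod_rep (k : ℕ) (w : List ℝ) : (rep k w).prod = w.prod ^ k := by
  induction k with
  | zero => simp [rep]
  | succ k ih =>
    have h : rep (k + 1) w = w ++ rep k w := by simp only [rep, List.replicate_succ, List.flatten_cons]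
    rw [h, List.prod_append, ih, pow_succ']

theorem ok_rep {c : ℝ} {w : List ℝ} {I J : Set ℝ} {k : ℕ} (h : Ok c w J)
    (hk : ∀ y ∈ I, ∀ j < k, (br c w)^[j] y ∈ J) : Ok c (rep k w) I := by
  induction k with
  | zero => trivial
  | succ k ih =>
    have h1 : rep (k + 1) w = w ++ rep k w := by simp only [rep, List.replicate_succ, List.flatten_cons]
    rw [h1, ok_append]
    refine ⟨ih fun y hy j hj => hk y hy j (by omega), ok_mono h ?_⟩
    rintro _ ⟨y, hy, rfl⟩
    rw [br_rep]
    exact hk y hy k (by omega)

end JC
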