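import Pool.Agent.Lib.JC.Core

/-!
# JC.KBasic : basic facts about filled Julia sets, `‖c‖ ≤ 2`

* `filled_iff`: if `‖z‖ > 2 ≥ ‖c‖` then `‖fc c z‖ ≥ ‖z‖^2 - ‖c‖ ≥ ‖z‖^2 - 2 > ‖z‖ ≥ 2`, more precisely
 with `‖z‖ = 2 + e`: `‖fc c z‖ ≥ (2+e)^2 - 2 ≥ 2 + 4 e`, so `‖(fc c)^[k] z‖ ≥ 2 + 4^k e` is unbounded.
 If some iterate of `z` has norm `> 2` then the orbit of that iterate, hence of `z`, is unbounded.
* `isClosed_filled2`: `{p | ‖p.1‖ ≤ 2 ∧ p.2 ∈ filled p.1}` is the intersection of closed sets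
 (`(c, z) ↦ (fc c)^[k] z` is continuous, `fc_iter_continuous`).
* `isCompact_filled`: closed and inside `closedBall 0 2`.
* `map_mem_filled_iff`: shift the orbit (one more term, finite change of the bound).
* `neg_mem_filled_iff`: `fc c (-z) = fc c z`; the orbits of `z`, `-z` agree from time `1` on.
* `map_mem_julia_iff`: `fc c` is continuous and open (nonconstant entire; e.g.
 `AnalyticOnNhd.is_constant_or_isOpenMap`), so `fc c ⁻¹' frontier K = frontier (fc c ⁻¹' K)`
 (`IsOpenMap.preimage_frontier_eq_frontier_preimage`) and `fc c ⁻¹' K = K`.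
* `neg_mem_julia_iff`: negation is a homeomorphism preserving `K`.
* `julia_subset`: `K` is closed, so `frontier K ⊆ K`.
-/

open Set Filter Topology

namespace JC

theorem fc_iter_continuous (k : ℕ) : Continuous fun p : ℂ × ℂ => (fc p.1)^[k] p.2 := by
  induction k with
  | zero => simpa using continuous_snd
  | succ k ih =>
    simp only [Function.iterate_succ_apply']
    simp only [fc] at ih ⊢
    exact (ih.pow 2).add continuous_fst

theorem fc_iter_differentiable (c : ℂ) (k : ℕ) : Differentiable ℂ fun z => (fc c)^[k] z := by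
  induction k with
  | zero => simpa using differentiable_id
  | succ k ih =>
    simp only [Function.iterate_succ_apply']
    simp only [fc] at ih ⊢
    exact (ih.pow 2).add_const c

namespace KBasicAux

theorem grow {c : ℂ} (hc : ‖c‖ ≤ 2) {t : ℝ} (ht : 0 ≤ t) {u : ℂ} (hu : 2 + t ≤ ‖u‖) :
    2 + 2 * t ≤ ‖fc c u‖ := by
  have h1 : ‖u‖ ^ 2 ≤ ‖fc c u‖ + ‖c‖ := by
    calc ‖u‖ ^ 2 = ‖u ^ 2‖ := (norm_pow u 2).symm
      _ = ‖fc c u - c‖ := by simp [fc]
      _ ≤ ‖fc c u‖ + ‖c‖ := norm_sub_le _ _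
  have h2 : (2 + t) ^ 2 ≤ ‖u‖ ^ 2 := pow_le_pow_left₀ (by linarith) hu 2
  nlinarith

theorem grow_iter {c : ℂ} (hc : ‖c‖ ≤ 2) {t : ℝ} (ht : 0 ≤ t) {u : ℂ} (hu : 2 + t ≤ ‖u‖)
    (j : ℕ) : 2 + 2 ^ j * t ≤ ‖(fc c)^[j] u‖ := by
  induction j with
  | zero => simpa using hu
  | succ j ih =>
    rw [Function.iterate_succ_apply']
    have := grow hc (by positivity) ih
    rw [pow_succ]
    linarith

theorem isOpenMap_fc (c : ℂ) : IsOpenMap (fc c) := by
  have h1 : Differentiable ℂ (fc c) := by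
    have := fc_iter_differentiable c 1
    simpa using this
  have h2 : AnalyticOnNhd ℂ (fc c) univ := fun z _ => h1.analyticAt z
  rcases h2.is_constant_or_isOpenMap with ⟨w, hw⟩ | h3
  · exfalso
    have e0 := hw 0
    have e1 := hw 1
    rw [← e0] at e1
    simp [fc] at e1
  · exact h3

theorem continuous_fc (c : ℂ) : Continuous (fc c) := by
  have := (fc_iter_differentiable c 1).continuous
  simpa using this

end KBasicAux

theorem filled_iff {c : ℂ} (hc : ‖c‖ ≤ 2) (z : ℂ) :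
    z ∈ filled c ↔ ∀ k : ℕ, ‖(fc c)^[k] z‖ ≤ 2 := by
  constructor
  · rintro ⟨B, hB⟩ k
    by_contra hk
    push Not at hk
    have ht : 0 < ‖(fc c)^[k] z‖ - 2 := by linarith
    obtain ⟨j, hj⟩ := pow_unbounded_of_one_lt (B / (‖(fc c)^[k] z‖ - 2)) (one_lt_two (α := ℝ))
    have h1 := KBasicAux.grow_iter hc ht.le (u := (fc c)^[k] z) (by linarith) j
    rw [← Function.iterate_add_apply] at h1
    have h2 := hB (j + k)
    rw [div_lt_iff₀ ht] at hj
    linarith
  · intro h
    exact ⟨2, h⟩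

theorem isClosed_filled2 : IsClosed {p : ℂ × ℂ | ‖p.1‖ ≤ 2 ∧ p.2 ∈ filled p.1} := by
  have h1 : {p : ℂ × ℂ | ‖p.1‖ ≤ 2 ∧ p.2 ∈ filled p.1}
      = {p : ℂ × ℂ | ‖p.1‖ ≤ 2} ∩ ⋂ k : ℕ, {p : ℂ × ℂ | ‖(fc p.1)^[k] p.2‖ ≤ 2} := by
    ext p
    simp only [mem_setOf_eq, mem_inter_iff, mem_iInter]
    exact and_congr_right fun h => filled_iff h p.2
  rw [h1]
  refine (isClosed_le continuous_fst.norm continuous_const).inter (isClosed_iInter fun k => ?_)
  exact isClosed_le (fc_iter_continuous k).norm continuous_const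

theorem isCompact_filled {c : ℂ} (hc : ‖c‖ ≤ 2) : IsCompact (filled c) := by
  have h1 : IsClosed (filled c) := by
    have h2 := isClosed_filled2.preimage (f := fun z : ℂ => ((c, z) : ℂ × ℂ)) (by fun_prop)
    have h3 : (fun z : ℂ => ((c, z) : ℂ × ℂ)) ⁻¹' {p : ℂ × ℂ | ‖p.1‖ ≤ 2 ∧ p.2 ∈ filled p.1}
        = filled c := by
      ext z
      simp [hc]
    rwa [h3] at h2
  refine (isCompact_closedBall (0 : ℂ) 2).of_isClosed_subset h1 ?_
  intro z hz
  have := (filled_iff hc z).1 hz 0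
  simpa using this

theorem map_mem_filled_iff {c z : ℂ} : fc c z ∈ filled c ↔ z ∈ filled c := by
  constructor
  · rintro ⟨B, hB⟩
    refine ⟨max B ‖z‖, fun k => ?_⟩
    cases k with
    | zero => exact le_max_right _ _
    | succ k =>
      rw [Function.iterate_succ_apply]
      exact (hB k).trans (le_max_left _ _)
  · rintro ⟨B, hB⟩
    refine ⟨B, fun k => ?_⟩
    rw [← Function.iterate_succ_apply]
    exact hB (k + 1)

theorem iter_mem_filled_iff {c z : ℂ} (k : ℕ) : (fc c)^[k] z ∈ filled c ↔ z ∈ filled c := by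
  induction k with
  | zero => simp
  | succ k ih => rw [Function.iterate_succ_apply', map_mem_filled_iff, ih]

theorem neg_mem_filled_iff {c z : ℂ} : -z ∈ filled c ↔ z ∈ filled c := by
  have h1 : fc c (-z) = fc c z := by simp [fc]
  rw [← map_mem_filled_iff, h1, map_mem_filled_iff]

theorem map_mem_julia_iff {c z : ℂ} : fc c z ∈ julia c ↔ z ∈ julia c := by
  have h1 := (KBasicAux.isOpenMap_fc c).preimage_frontier_eq_frontier_preimage
    (KBasicAux.continuous_fc c) (filled c)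
  have h2 : fc c ⁻¹' filled c = filled c := by
    ext z
    exact map_mem_filled_iff
  rw [h2] at h1
  have h3 : z ∈ fc c ⁻¹' julia c ↔ z ∈ julia c := by
    simp only [julia]
    rw [h1]
  exact h3

theorem iter_mem_julia_iff {c z : ℂ} (k : ℕ) : (fc c)^[k] z ∈ julia c ↔ z ∈ julia c := by
  induction k with
  | zero => simp
  | succ k ih => rw [Function.iterate_succ_apply', map_mem_julia_iff, ih]

theorem neg_mem_julia_iff {c z : ℂ} : -z ∈ julia c ↔ z ∈ julia c := by
  have h1 : fc c (-z) = fc c z := by simp [fc]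
  rw [← map_mem_julia_iff, h1, map_mem_julia_iff]

theorem julia_subset {c : ℂ} (hc : ‖c‖ ≤ 2) : julia c ⊆ filled c :=
  (isCompact_filled hc).isClosed.frontier_subset

end JC
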