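import Pool.Agent.Lib.JC.Core
import Pool.Agent.Lib.JC.KBasic
import Pool.Agent.Lib.JC.BrBasic

/-!
# JC.BetaK : the real interval and the imaginary hair in the filled Julia set

`c` real, `-2 ≤ c ≤ 0`, `B = bet c = (1 + √(1 - 4 c)) / 2`, so `B ^ 2 + c = B`, `1 ≤ B ≤ 2`, `c ≥ -B`
(since `B ^ 2 - B = -c` and `B ≤ 2` give `-c = B (B - 1) ≤ B`).
* `real_mem_filled`: `|x| ≤ B` implies `fr c x ∈ [c, B^2 + c] ⊆ [-B, B]`, so the orbit stays bounded.
* `hair_mem_filled`: `fc c (i s) = c - s^2` is real, `≤ c ≤ 0 ≤ B` and `≥ -B` if `s^2 ≤ c + B`. Use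
 `map_mem_filled_iff`.
* `bet_mem_julia`: `B` is fixed, so in the filled set. For real `x = B + e`, `e > 0`,
 `fr c x = B + (2 B e + e^2) ≥ B + 2 e`, so `fr c`-iterates of `x` are `≥ B + 2^k e`: unbounded, `x` is not in
 the filled set. So `B` is in the closure of the complement and in the set: in the frontier
 (`frontier_eq_closure_inter_closure`).
* `add_bet_pos`: for `-2 < c ≤ 0`: `c + B > 0`, as `-c = B (B-1) < B` because `B < 2`.
-/

open Set Filter Topology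

namespace JC

theorem bet_facts {c : ℝ} (h1 : -2 ≤ c) (h2 : c ≤ 0) :
    bet c ^ 2 + c = bet c ∧ 1 ≤ bet c ∧ bet c ≤ 2 ∧ -bet c ≤ c := by
  have hr0 : 0 ≤ Real.sqrt (1 - 4 * c) := Real.sqrt_nonneg _
  have hr : Real.sqrt (1 - 4 * c) ^ 2 = 1 - 4 * c := Real.sq_sqrt (by linarith)
  have hr1 : 1 ≤ Real.sqrt (1 - 4 * c) := by nlinarith
  have hr3 : Real.sqrt (1 - 4 * c) ≤ 3 := by nlinarith
  have e1 : bet c ^ 2 + c = bet c := by
    unfold bet
    nlinarith
  have e2 : 1 ≤ bet c := by unfold bet; linarith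
  have e3 : bet c ≤ 2 := by unfold bet; linarith
  exact ⟨e1, e2, e3, by nlinarith⟩

theorem add_bet_pos {c : ℝ} (h1 : -2 < c) (h2 : c ≤ 0) : 0 < c + bet c := by
  have hr0 : 0 ≤ Real.sqrt (1 - 4 * c) := Real.sqrt_nonneg _
  have hr : Real.sqrt (1 - 4 * c) ^ 2 = 1 - 4 * c := Real.sq_sqrt (by linarith)
  have hr3 : Real.sqrt (1 - 4 * c) < 3 := by nlinarith
  obtain ⟨e1, e2, -, -⟩ := bet_facts h1.le h2
  have e3 : bet c < 2 := by unfold bet; linarith
  nlinarith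

namespace BetaKAux

theorem iter_bound {c x : ℝ} (h1 : -2 ≤ c) (h2 : c ≤ 0) (hx : |x| ≤ bet c) (k : ℕ) :
    |(fr c)^[k] x| ≤ bet c := by
  obtain ⟨e1, e2, e3, e4⟩ := bet_facts h1 h2
  induction k with
  | zero => exact hx
  | succ k ih =>
    rw [Function.iterate_succ_apply']
    have h3 := abs_le.1 ih
    have h4 : ((fr c)^[k] x) ^ 2 ≤ bet c ^ 2 := sq_le_sq' h3.1 h3.2
    unfold fr
    rw [abs_le]
    constructor
    · have := sq_nonneg ((fr c)^[k] x)
      unfold fr at this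
      linarith
    · unfold fr at h4
      linarith

theorem iter_grow {c e : ℝ} (h1 : -2 ≤ c) (h2 : c ≤ 0) (he : 0 < e) (k : ℕ) :
    bet c + 2 ^ k * e ≤ (fr c)^[k] (bet c + e) := by
  obtain ⟨e1, e2, e3, e4⟩ := bet_facts h1 h2
  induction k with
  | zero => simp
  | succ k ih =>
    rw [Function.iterate_succ_apply']
    have hp : 0 < (2 : ℝ) ^ k * e := by positivity
    have h3 : (bet c + 2 ^ k * e) ^ 2 ≤ ((fr c)^[k] (bet c + e)) ^ 2 :=
      pow_le_pow_left₀ (by linarith) ih 2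
    unfold fr
    unfold fr at h3
    rw [pow_succ]
    nlinarith

theorem norm_iter (c x : ℝ) (k : ℕ) : ‖(fc (c : ℂ))^[k] (x : ℂ)‖ = |(fr c)^[k] x| := by
  rw [fr_fc_iter, Complex.norm_real, Real.norm_eq_abs]

end BetaKAux

theorem real_mem_filled {c x : ℝ} (h1 : -2 ≤ c) (h2 : c ≤ 0) (hx : |x| ≤ bet c) :
    (x : ℂ) ∈ filled (c : ℂ) :=
  ⟨bet c, fun k => by
    rw [BetaKAux.norm_iter]
    exact BetaKAux.iter_bound h1 h2 hx k⟩

theorem hair_mem_filled {c s : ℝ} (h1 : -2 ≤ c) (h2 : c ≤ 0) (hs : s ^ 2 ≤ c + bet c) :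
    (s : ℂ) * Complex.I ∈ filled (c : ℂ) := by
  obtain ⟨e1, e2, e3, e4⟩ := bet_facts h1 h2
  rw [← map_mem_filled_iff]
  have e5 : fc (c : ℂ) ((s : ℂ) * Complex.I) = ((c - s ^ 2 : ℝ) : ℂ) := by
    unfold fc
    rw [mul_pow, Complex.I_sq]
    push_cast
    ring
  rw [e5]
  apply real_mem_filled h1 h2
  rw [abs_le]
  constructor
  · linarith
  · have := sq_nonneg s
    linarith

theorem bet_mem_julia {c : ℝ} (h1 : -2 ≤ c) (h2 : c ≤ 0) : (bet c : ℂ) ∈ julia (c : ℂ) := by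
  obtain ⟨e1, e2, e3, e4⟩ := bet_facts h1 h2
  unfold julia
  rw [frontier_eq_closure_inter_closure]
  constructor
  · apply subset_closure
    apply real_mem_filled h1 h2
    rw [abs_of_nonneg (by linarith)]
  · rw [Metric.mem_closure_iff]
    intro ε hε
    refine ⟨((bet c + ε / 2 : ℝ) : ℂ), ?_, ?_⟩
    · rintro ⟨M, hM⟩
      obtain ⟨k, hk⟩ := pow_unbounded_of_one_lt (M / (ε / 2)) (one_lt_two : (1 : ℝ) < 2)
      have h3 := hM k
      rw [BetaKAux.norm_iter] at h3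
      have h4 := BetaKAux.iter_grow (c := c) (e := ε / 2) h1 h2 (by linarith) k
      have h5 := le_abs_self ((fr c)^[k] (bet c + ε / 2))
      have h6 : M < 2 ^ k * (ε / 2) := by
        rwa [div_lt_iff₀ (by linarith)] at hk
      linarith
    · rw [dist_comm, Complex.dist_eq, ← Complex.ofReal_sub, Complex.norm_real, Real.norm_eq_abs]
      have e5 : bet c + ε / 2 - bet c = ε / 2 := by ring
      rw [e5, abs_of_pos (by linarith)]
      linarith

end JC
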