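import Pool.Agent.Lib.JC.Core
import Pool.Agent.Lib.JC.KBasic

/-!
# JC.Expand : a criterion for belonging to the Julia set

If `a ∈ filled c`, `w l → a` and `d ≤ ‖f^(k l) (w l) - f^(k l) a‖` for all large `l`, `d > 0`, then
`a ∈ julia c`.
Proof. Otherwise `a` is an interior point of `K = filled c`: `ball a r ⊆ K`. By `filled_iff` all
iterates satisfy `‖(fc c)^[k] z‖ ≤ 2` on `ball a r`, so by the Schwarz lemma
`‖f^k w - f^k a‖ ≤ (4/r) ‖w - a‖` for `w ∈ ball a r`, which tends to `0` along `w l`: contradiction.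
-/

open Set Filter Topology

namespace JC

theorem julia_of_expand {c : ℂ} (hc : ‖c‖ ≤ 2) {a : ℂ} (ha : a ∈ filled c) {w : ℕ → ℂ}
    (hw : Tendsto w atTop (𝓝 a)) {k : ℕ → ℕ} {d : ℝ} (hd : 0 < d)
    (h : ∀ᶠ l in atTop, d ≤ ‖(fc c)^[k l] (w l) - (fc c)^[k l] a‖) : a ∈ julia c := by
  by_contra hnot
  have hint : a ∈ interior (filled c) := by
    by_contra hni
    apply hnot
    exact ⟨subset_closure ha, hni⟩
  obtain ⟨r, hr, hball⟩ := Metric.isOpen_iff.1 isOpen_interior a hint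
  have hsub : Metric.ball a r ⊆ filled c := fun z hz => interior_subset (hball hz)
  have key : ∀ (n : ℕ) (z : ℂ), z ∈ Metric.ball a r →
      dist ((fc c)^[n] z) ((fc c)^[n] a) ≤ 4 / r * dist z a := by
    intro n z hz
    refine Complex.dist_le_div_mul_dist_of_mapsTo_ball
      ((fc_iter_differentiable c n).differentiableOn) ?_ hz
    intro y hy
    have h1 := (filled_iff hc y).1 (hsub hy) n
    have h2 := (filled_iff hc a).1 ha n
    rw [Metric.mem_closedBall, dist_eq_norm]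
    calc ‖(fc c)^[n] y - (fc c)^[n] a‖ ≤ ‖(fc c)^[n] y‖ + ‖(fc c)^[n] a‖ := norm_sub_le _ _
      _ ≤ 4 := by linarith
  have hdist : Tendsto (fun l => 4 / r * dist (w l) a) atTop (𝓝 0) := by
    have h0 : Tendsto (fun l => dist (w l) a) atTop (𝓝 0) := tendsto_iff_dist_tendsto_zero.1 hw
    simpa using h0.const_mul (4 / r)
  have e1 : ∀ᶠ l in atTop, w l ∈ Metric.ball a r := hw (Metric.ball_mem_nhds a hr)
  have e2 : ∀ᶠ l in atTop, 4 / r * dist (w l) a < d := hdist.eventually_lt_const hd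
  obtain ⟨l, hl1, hl2, hl3⟩ := (h.and (e1.and e2)).exists
  have h3 := key (k l) (w l) hl2
  rw [dist_eq_norm] at h3
  linarith

end JC
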