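import Pool.Agent.Lib.JC.StTheta
import Pool.Agent.Lib.JC.KBasic
import Pool.Agent.Lib.JC.BetaK
import Pool.Agent.Lib.JC.Expand

/-!
# JC.AlphaJ : the point `α` and the targets `x_i` are in the Julia set

`c ∈ S.seg`, `α = S.al c`, `s = S.s ≥ 1` (`S.hη`).
* `al_iter`: `f^(s l) α = ε α` for `l ≥ 1`: `f^s α = f^s (-α) = f^s (θ α) = ε α` (`fr_iter_neg`, `theta_al`, `iter_theta`),
 then induction (`f^s (ε α) = f^s α`).
* `al_mem_filled`: `f^(k+s) α = f^k α` for `k ≥ 1` (`f^(1+s) α = f (ε α) = f α`), so the norm of `f^k α` is at most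
 the sum of the norms for `k < 2 s` (or `k ≤ s`): strong induction.
* `al_mem_julia`: `julia_of_expand` with `a = α`, `w l = (-θ)^l 0 → α` (`negtheta_tendsto`), `k l = s * l`, `d = |α| > 0`:
 for `l ≥ 1` `f^(s l) (w l) = ε * 0` (`iter_negtheta`) and `f^(s l) α = ε α`. `‖c‖ ≤ 2` from `S.cneg`.
* `xs_iter`: `iter_theta_pow` at `y = α`. `xs_succ_iter`: `θ^(i+1) α = θ^i (-α)` (`theta_al`), `iter_theta_pow` at `y = -α`.
* `xs_mem_julia`: `xs_iter`, `iter_mem_julia_iff`, `neg_mem_julia_iff`.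
-/

open Set Filter Topology

namespace JC

namespace St

variable {S : St} {c : ℝ}

theorem al_iter (hc : c ∈ S.seg) {l : ℕ} (hl : 1 ≤ l) : (fr c)^[S.s * l] (S.al c) = S.ε * S.al c := by
  have hal := al_mem hc
  have hm : S.al c ∈ Icc (-S.R) S.R := ⟨hal.1.le, by linarith [S.hR, hal.2]⟩
  have h1 := iter_negtheta hc hm hl
  have h2 : (fun x => -S.theta c x)^[l] (S.al c) = S.al c := by
    apply Function.iterate_fixed
    show -S.theta c (S.al c) = S.al c
    rw [theta_al hc]; ring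
  rw [h2] at h1
  exact h1

private theorem s_pos_aux (S : St) : 1 ≤ S.s := by
  have := S.hη
  unfold St.s
  exact List.length_pos_iff.mpr this

theorem al_mem_filled (hc : c ∈ S.seg) : (S.al c : ℂ) ∈ filled (c : ℂ) := by
  have hs := s_pos_aux S
  -- periodicity for real orbit
  have h1 : (fr c)^[S.s + 1] (S.al c) = fr c (S.al c) := by
    have h := al_iter hc (l := 1) le_rfl
    rw [mul_one] at h
    rw [Function.iterate_succ_apply', h]
    unfold fr
    rcases S.hε with h' | h' <;> rw [h'] <;> ring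
  have hper : ∀ k, (fr c)^[k + (S.s + 1)] (S.al c) = (fr c)^[k + 1] (S.al c) := by
    intro k
    rw [Function.iterate_add_apply, h1, Function.iterate_succ_apply]
  refine ⟨∑ k ∈ Finset.range (S.s + 1), ‖(fc (c : ℂ))^[k] (S.al c : ℂ)‖, ?_⟩
  intro k
  induction k using Nat.strong_induction_on with
  | _ k ih =>
    rcases Nat.lt_or_ge k (S.s + 1) with h | h
    · exact Finset.single_le_sum (f := fun k => ‖(fc (c : ℂ))^[k] (S.al c : ℂ)‖)
        (fun i _ => norm_nonneg _) (Finset.mem_range.mpr h)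
    · obtain ⟨j, rfl⟩ := Nat.exists_eq_add_of_le h
      have e : (fc (c : ℂ))^[S.s + 1 + j] (S.al c : ℂ) = (fc (c : ℂ))^[j + 1] (S.al c : ℂ) := by
        rw [fr_fc_iter, fr_fc_iter, add_comm (S.s + 1) j, hper]
      rw [e]
      exact ih (j + 1) (by omega)

private theorem norm_le_two_aux (hc : c ∈ S.seg) : ‖(c : ℂ)‖ ≤ 2 := by
  have := S.cneg c hc
  rw [Complex.norm_real, Real.norm_eq_abs, abs_le]
  constructor <;> linarith [this.1, this.2]

theorem al_mem_julia (hc : c ∈ S.seg) : (S.al c : ℂ) ∈ julia (c : ℂ) := by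
  have hal := al_mem hc
  have h0 : (0 : ℝ) ∈ Icc (-S.R) S.R := ⟨by linarith [S.hR], S.hR.le⟩
  refine julia_of_expand (norm_le_two_aux hc) (al_mem_filled hc)
    (w := fun l => (((fun x => -S.theta c x)^[l] 0 : ℝ) : ℂ)) ?_ (k := fun l => S.s * l)
    (d := |S.al c|) (abs_pos.mpr hal.2.ne) ?_
  · exact (Complex.continuous_ofReal.tendsto _).comp (negtheta_tendsto hc h0)
  · filter_upwards [eventually_ge_atTop 1] with l hl
    rw [fr_fc_iter, fr_fc_iter, iter_negtheta hc h0 hl, al_iter hc hl]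
    rw [mul_zero, ← Complex.ofReal_sub, Complex.norm_real, zero_sub, norm_neg, Real.norm_eq_abs,
      abs_mul]
    rcases S.hε with h' | h' <;> rw [h'] <;> simp

theorem xs_iter (hc : c ∈ S.seg) {i : ℕ} (hi : 1 ≤ i) :
    (fr c)^[S.s * i] (S.xs c i) = S.ε * S.al c := by
  have hal := al_mem hc
  exact iter_theta_pow hc ⟨hal.1.le, by linarith [S.hR, hal.2]⟩ hi

theorem xs_succ_iter (hc : c ∈ S.seg) {i : ℕ} (hi : 1 ≤ i) :
    (fr c)^[S.s * i] (S.xs c (i + 1)) = S.ε * -S.al c := by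
  have hal := al_mem hc
  have hm : -S.al c ∈ Icc (-S.R) S.R := ⟨by linarith [S.hR, hal.2], by linarith [hal.1]⟩
  have h := iter_theta_pow hc hm hi
  rw [← h]
  unfold St.xs
  rw [Function.iterate_succ_apply, theta_al hc]

theorem xs_mem_julia (hc : c ∈ S.seg) {i : ℕ} (hi : 1 ≤ i) :
    (S.xs c i : ℂ) ∈ julia (c : ℂ) := by
  rw [← iter_mem_julia_iff (S.s * i), fr_fc_iter, xs_iter hc hi]
  have := al_mem_julia hc
  rcases S.hε with h' | h' <;> rw [h']
  · simpa using this
  · rw [← neg_mem_julia_iff]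
    simpa using this

end St

end JC
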