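import Pool.Agent.Lib.JC.Core2

/-!
# JC.AnDef : the analytic data at the cusp (definition only)

`c0 = S.ct t0`, `g = S.G c0`, `ξ m = (S.Gr c0)^[m] (S.y0 c0)` increases to `b`, `Φ` is the left coordinate,
`χ` the right coordinate with base point `p = S.pf c0`, `X` the coordinate function (`χ (X Y) = Y`).
-/

open Set Filter Topology

namespace JC

structure AnData (S : St) (t0 : ℝ) (Φ : ℂ → ℂ) (rL : ℝ) (χ : ℂ → ℂ) (κ : ℝ) (X : ℝ → ℝ) :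
    Prop where
  hrL : 0 < rL
  Φd : DifferentiableOn ℂ Φ (Metric.ball (S.y0 (S.ct t0) : ℂ) rL)
  Φ0 : Φ (S.y0 (S.ct t0) : ℂ) = 0
  Φ1 : deriv Φ (S.y0 (S.ct t0) : ℂ) ≠ 0
  Φb : ∀ z ∈ Metric.ball (S.y0 (S.ct t0) : ℂ) rL, ‖Φ z‖ ≤ 1 / 32
  ΦL : TendstoUniformlyOn
    (Lm (S.G (S.ct t0)) fun m => (S.Gr (S.ct t0))^[m] (S.y0 (S.ct t0))) Φ atTop
    (Metric.ball (S.y0 (S.ct t0) : ℂ) rL)
  χd : DifferentiableOn ℂ χ (Metric.ball 0 (1 / 8))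
  χ1 : deriv χ 0 ≠ 0
  χr : ∀ x : ℝ, |x| < 1 / 8 → (χ (x : ℂ)).im = 0
  hκ : 0 < κ
  κR : S.pf (S.ct t0) + κ < S.R
  X1 : ∀ Y, |Y - S.pf (S.ct t0)| < κ → |X Y| ≤ 1 / 32 ∧ χ (X Y : ℂ) = (Y : ℂ) ∧
    TendstoUniformlyOn (Fm (S.G (S.ct t0)) fun m => (S.h (S.ct t0))^[m] Y)
      (fun ρ => χ ((X Y : ℂ) + ρ)) atTop (Metric.ball 0 (1 / 16))
  Xm : StrictMonoOn X (Ioo (S.pf (S.ct t0) - κ) (S.pf (S.ct t0) + κ))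
  Xp : X (S.pf (S.ct t0)) = 0
  Xc : ContinuousAt X (S.pf (S.ct t0))

end JC
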