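import Pool.Agent.Lib.JC.Core2

/-!
# JC.Ct : the affine parametrization of the parameter segment
-/

open Set Filter Topology

namespace JC

theorem PreSt.ct_memu (S : PreSt) {t : ℝ} (h0 : 0 ≤ t) (h1 : t ≤ 1) : S.ct t ∈ uIcc S.a0 S.a1 := by
  unfold PreSt.ct
  rcases le_total S.a0 S.a1 with h | h
  · rw [uIcc_of_le h]
    constructor <;> nlinarith
  · rw [uIcc_of_ge h]
    constructor <;> nlinarith

theorem PreSt.ct_mem_seg (S : PreSt) {t : ℝ} (h0 : 0 ≤ t) (h1 : t ≤ 1) : S.ct t ∈ S.seg :=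
  S.ct_memu h0 h1

theorem PreSt.ct_sub (S : PreSt) (t t0 : ℝ) : S.ct t - S.ct t0 = (t - t0) * (S.a1 - S.a0) := by
  unfold PreSt.ct
  ring

theorem PreSt.ct_continuous (S : PreSt) : Continuous S.ct := by
  unfold PreSt.ct
  fun_prop

theorem St.ct_neg (S : St) {t : ℝ} (h0 : 0 ≤ t) (h1 : t ≤ 1) : -2 < S.ct t ∧ S.ct t < 0 :=
  S.cneg _ (S.ct_memu h0 h1)

theorem St.norm_ct (S : St) {t : ℝ} (h0 : 0 ≤ t) (h1 : t ≤ 1) : ‖((S.ct t : ℝ) : ℂ)‖ ≤ 2 := by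
  obtain ⟨h, h'⟩ := S.ct_neg h0 h1
  rw [Complex.norm_real, Real.norm_eq_abs, abs_le]
  constructor <;> linarith

end JC
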