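import Pool.Agent.Lib.JC.StBasic

/-!
# JC.StOrbit : iterates of the return map, the parametrization of the segment

* `G_iter`: induction on `k ≥ 1`: `G (G^k z) = ε f^n (ε f^(k n) z) = ε f^n (f^(k n) z)`, since `ε = 1` or `-1` and
 `f^n` is even (`fc_iter_neg`, `n ≠ 0`). `Gr_iter` likewise with `fr_iter_neg`.
* `G_iter_real`: induction with `G_real`.
* `orbit_passes`: `e ∈ [y0, R]`: `y0 < e` by `before 0` if `N > 0`, and `e = y0` by `hit` if `N = 0`.
 Every `h^j e`, `j ≤ N`, is in `[y0, R]` (`before`, `hit`, and `h_lt`, `eR`). Induction on `k`: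
 `Gr (h^(N-k) e) = Gr (h (h^(N-k-1) e)) = h^(N-k-1) e` by `Gr_h`.
* `ct` is affine: `ct 0 = a0`, `ct 1 = a1`, continuous, injective (`a0 ≠ a1`), and `ct '' [s, t] = uIcc (ct s) (ct t)`.
-/

open Set Filter Topology

namespace JC

namespace PreSt

variable (S : PreSt)

theorem G_iter (c : ℝ) (z : ℂ) {k : ℕ} (hk : 1 ≤ k) :
    (S.G c)^[k] z = (S.ε : ℂ) * (fc (c : ℂ))^[k * S.n] z := by
  induction k, hk using Nat.le_induction with
  | base => simp only [Function.iterate_one, one_mul]; rfl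
  | succ k hk ih =>
    rw [Function.iterate_succ_apply', ih]
    have h1 : S.G c ((S.ε : ℂ) * (fc (c : ℂ))^[k * S.n] z) = S.G c ((fc (c : ℂ))^[k * S.n] z) := by
      rcases S.hε with h | h
      · rw [h]; simp
      · rw [h]
        push_cast
        rw [neg_one_mul, G_neg]
    rw [h1, show (k + 1) * S.n = S.n + k * S.n by ring, Function.iterate_add_apply]
    rfl

theorem Gr_iter (c x : ℝ) {k : ℕ} (hk : 1 ≤ k) :
    (S.Gr c)^[k] x = S.ε * (fr c)^[k * S.n] x := by
  induction k, hk using Nat.le_induction with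
  | base => simp only [Function.iterate_one, one_mul]; rfl
  | succ k hk ih =>
    rw [Function.iterate_succ_apply', ih]
    have h1 : S.Gr c (S.ε * (fr c)^[k * S.n] x) = S.Gr c ((fr c)^[k * S.n] x) := by
      rcases S.hε with h | h
      · rw [h]; simp
      · rw [h, neg_one_mul, Gr_neg]
    rw [h1, show (k + 1) * S.n = S.n + k * S.n by ring, Function.iterate_add_apply]
    rfl

theorem G_iter_real (c x : ℝ) (k : ℕ) : (S.G c)^[k] (x : ℂ) = (((S.Gr c)^[k] x : ℝ) : ℂ) := by
  induction k with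
  | zero => rfl
  | succ k ih => rw [Function.iterate_succ_apply', Function.iterate_succ_apply', ih, G_real]

theorem ct_zero : S.ct 0 = S.a0 := by
  simp [ct]

theorem ct_one : S.ct 1 = S.a1 := by
  simp [ct]

theorem ct_cont : Continuous S.ct := by
  unfold ct
  fun_prop

theorem ct_inj : Function.Injective S.ct := by
  intro s t h
  have h1 : S.a1 - S.a0 ≠ 0 := sub_ne_zero.2 S.hne.symm
  have h2 : (s - t) * (S.a1 - S.a0) = 0 := by
    simp only [ct] at h
    linear_combination h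
  rcases mul_eq_zero.1 h2 with h3 | h3
  · linarith
  · exact absurd h3 h1

theorem StOrbitAux.between (S : PreSt) {s t r : ℝ} (hr : r ∈ Icc s t) :
    S.ct r ∈ uIcc (S.ct s) (S.ct t) := by
  have h1 := hr.1
  have h2 := hr.2
  unfold ct
  rcases le_total S.a0 S.a1 with h | h
  · rw [uIcc_of_le (by nlinarith)]
    constructor <;> nlinarith
  · rw [uIcc_of_ge (by nlinarith)]
    constructor <;> nlinarith

theorem ct_mem {t : ℝ} (ht : t ∈ Icc (0 : ℝ) 1) : S.ct t ∈ S.seg := by
  have h := StOrbitAux.between S ht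
  rw [ct_zero, ct_one] at h
  exact h

theorem mem_uIcc_ct {s t c : ℝ} (hst : s ≤ t) :
    c ∈ uIcc (S.ct s) (S.ct t) ↔ ∃ r ∈ Icc s t, S.ct r = c := by
  constructor
  · intro h
    have h1 := intermediate_value_uIcc (a := s) (b := t) (f := S.ct) (ct_cont S).continuousOn h
    rw [uIcc_of_le hst] at h1
    exact h1
  · rintro ⟨r, hr, rfl⟩
    exact StOrbitAux.between S hr

theorem ct_surj {c : ℝ} (hc : c ∈ S.seg) : ∃ t ∈ Icc (0 : ℝ) 1, S.ct t = c := by
  refine (mem_uIcc_ct S zero_le_one).1 ?_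
  rw [ct_zero, ct_one]
  exact hc

theorem uIcc_ct_subset {s t : ℝ} (hs : s ∈ Icc (0 : ℝ) 1) (ht : t ∈ Icc (0 : ℝ) 1) :
    uIcc (S.ct s) (S.ct t) ⊆ S.seg :=
  uIcc_subset_uIcc (ct_mem S hs) (ct_mem S ht)

variable {S}

theorem passes_mem {c e : ℝ} {N : ℕ} (hc : c ∈ S.seg) (h : Passes S c N e) {j : ℕ} (hj : j ≤ N) :
    (S.h c)^[j] e ∈ Icc (S.y0 c) S.R := by
  have low : ∀ i ≤ N, S.y0 c ≤ (S.h c)^[i] e := by
    intro i hi
    rcases eq_or_lt_of_le hi with h1 | h1
    · rw [h1, h.hit]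
    · exact (h.before i h1).le
  have he : e ∈ Icc (-S.R) S.R := ⟨(y0_mem hc).1.trans (low 0 (Nat.zero_le _)), h.eR⟩
  exact ⟨low j hj, (h_iter_maps hc he j).2⟩

theorem orbit_passes {c e : ℝ} {N : ℕ} (hc : c ∈ S.seg) (h : Passes S c N e) {k : ℕ}
    (hk : k ≤ N) : (S.Gr c)^[k] (S.y0 c) = (S.h c)^[N - k] e := by
  induction k with
  | zero => simp only [Function.iterate_zero, id_eq, Nat.sub_zero]; exact h.hit.symm
  | succ k ih =>
    rw [Function.iterate_succ_apply', ih (by omega)]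
    obtain ⟨m, hm⟩ : ∃ m, N - k = m + 1 := ⟨N - k - 1, by omega⟩
    have hm2 : N - (k + 1) = m := by omega
    rw [hm, hm2, Function.iterate_succ_apply']
    exact Gr_h hc (passes_mem hc h (by omega))

end PreSt

end JC
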