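import Pool.Agent.Lib.JC.Core

/-!
# JC.FixPt : fixed points of maps with the expansion inequality (purely real, elementary)

* `fix_unique`. `g` is continuous on `[p, q]`, `g p > p`, `g q < q`, so the closed set
  `F = {x ∈ [p, q] | g x = x}` is nonempty; let `x1 = sInf F`, `x2 = sSup F`, both in `F`, both in
  `Ioo p q`. On `[p, x1)` we have `g y > y` (sign is constant there by the intermediate value
  theorem), on `(x2, q]` `g y < y`. Hence the derivative of `g` at `x1` is `≤ 1` (difference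
  quotients from the left: `(g x1 - g y) / (x1 - y) < 1` for `y < x1`), and at `x2` it is `≤ 1`
  (difference quotients from the right). Also both derivatives: if `x1 < x2` then the inequality
  `pk` at `(x1, x2)` gives `(x1 - x2)^2 < g' x1 * g' x2 * (x1 - x2)^2`, so `g' x1 * g' x2 > 1`;
  with `g' x1 ≤ 1`, `g' x2 ≤ 1` this forces both negative and product `> 1`: to exclude it the
  hypothesis `0 ≤ g'` (`hpos`) is included. So `x1 = x2`.
* `tangent_unique`. At a point `b` of the open interval with `g b = b`, `g ≤ id` around: the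
  function `g - id` has a local maximum, so `g' b = 1` (`IsLocalMax.hasDerivAt_eq_zero`). Two such
  points contradict `pk`.
* `iter_tendsto`. For `y ≤ x` the sequence `g^[l] y` is increasing (`y ≤ g y`, monotone) and
  bounded by `x`; it converges to some `x' ∈ [y, x]`, and by continuity `g x' = x'`, so `x' = x`
  (otherwise `x' < g x'`). Similarly for `y ≥ x`.
-/

open Set Filter Topology

namespace JC

namespace FixPtAux

theorem deriv_le_left {h : ℝ → ℝ} {d p x : ℝ} (hd : HasDerivAt h d x) (hpx : p < x)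
    (hge : ∀ y ∈ Ioo p x, h x ≤ h y) : d ≤ 0 := by
  have h1 : Tendsto (slope h x) (𝓝[<] x) (𝓝 d) :=
    (hasDerivAt_iff_tendsto_slope.1 hd).mono_left (nhdsWithin_mono _ fun y hy => ne_of_lt hy)
  refine le_of_tendsto h1 ?_
  filter_upwards [Ioo_mem_nhdsLT hpx] with y hy
  rw [slope_def_field]
  have h2 := hge y hy
  exact div_nonpos_of_nonneg_of_nonpos (by linarith) (by linarith [hy.2])

theorem deriv_le_right {h : ℝ → ℝ} {d q x : ℝ} (hd : HasDerivAt h d x) (hxq : x < q)
    (hle : ∀ y ∈ Ioo x q, h y ≤ h x) : d ≤ 0 := by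
  have h1 : Tendsto (slope h x) (𝓝[>] x) (𝓝 d) :=
    (hasDerivAt_iff_tendsto_slope.1 hd).mono_left (nhdsWithin_mono _ fun y hy => ne_of_gt hy)
  refine le_of_tendsto h1 ?_
  filter_upwards [Ioo_mem_nhdsGT hxq] with y hy
  rw [slope_def_field]
  have h2 := hle y hy
  exact div_nonpos_of_nonpos_of_nonneg (by linarith) (by linarith [hy.1])

/-- one half of the convergence of the iterates -/
theorem iter_up {g : ℝ → ℝ} {p q x : ℝ} (hmono : MonotoneOn g (Icc p q))
    (hc : ContinuousOn g (Icc p q))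
    (hx : x ∈ Icc p q) (hgx : g x = x) (hlt : ∀ y ∈ Icc p q, y < x → y < g y)
    {y : ℝ} (hy : y ∈ Icc p q) (hyx : y ≤ x) :
    Tendsto (fun l => g^[l] y) atTop (𝓝 x) := by
  have key : ∀ z ∈ Icc p q, z ≤ x → z ≤ g z := by
    intro z hz hzx
    rcases eq_or_lt_of_le hzx with rfl | h1
    · exact hgx.ge
    · exact (hlt z hz h1).le
  have hmem : ∀ l, g^[l] y ∈ Icc y x := by
    intro l
    induction l with
    | zero => exact ⟨le_refl _, hyx⟩
    | succ l ih =>
      rw [Function.iterate_succ_apply']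
      have h1 : g^[l] y ∈ Icc p q := ⟨hy.1.trans ih.1, ih.2.trans hx.2⟩
      refine ⟨ih.1.trans (key _ h1 ih.2), ?_⟩
      have h2 := hmono h1 hx ih.2
      rwa [hgx] at h2
  have hmem' : ∀ l, g^[l] y ∈ Icc p q := fun l =>
    ⟨hy.1.trans (hmem l).1, (hmem l).2.trans hx.2⟩
  have hmon : Monotone fun l => g^[l] y := by
    refine monotone_nat_of_le_succ fun l => ?_
    change g^[l] y ≤ g^[l + 1] y
    rw [Function.iterate_succ_apply']
    exact key _ (hmem' l) (hmem l).2
  have hbdd : BddAbove (range fun l => g^[l] y) := by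
    refine ⟨x, ?_⟩
    rintro _ ⟨l, rfl⟩
    exact (hmem l).2
  have hlim := tendsto_atTop_ciSup hmon hbdd
  set m := ⨆ l, g^[l] y with hm
  have hm1 : m ∈ Icc y x := isClosed_Icc.mem_of_tendsto hlim (Eventually.of_forall hmem)
  have hm2 : m ∈ Icc p q := ⟨hy.1.trans hm1.1, hm1.2.trans hx.2⟩
  have h3 : Tendsto (fun l => g^[l] y) atTop (𝓝[Icc p q] m) :=
    tendsto_nhdsWithin_iff.2 ⟨hlim, Eventually.of_forall hmem'⟩
  have h4 : Tendsto (fun l => g (g^[l] y)) atTop (𝓝 (g m)) := (hc m hm2).tendsto.comp h3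
  have h5 : Tendsto (fun l => g^[l + 1] y) atTop (𝓝 m) := hlim.comp (tendsto_add_atTop_nat 1)
  have h6 : (fun l => g^[l + 1] y) = fun l => g (g^[l] y) := by
    funext l
    rw [Function.iterate_succ_apply']
  rw [h6] at h5
  have h7 : g m = m := tendsto_nhds_unique h4 h5
  have h8 : m = x := by
    rcases eq_or_lt_of_le hm1.2 with h | h
    · exact h
    · exact absurd h7 (ne_of_gt (hlt m hm2 h))
  rwa [h8] at hlim

theorem iter_down {g : ℝ → ℝ} {p q x : ℝ} (hmono : MonotoneOn g (Icc p q))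
    (hc : ContinuousOn g (Icc p q))
    (hx : x ∈ Icc p q) (hgx : g x = x) (hgt : ∀ y ∈ Icc p q, x < y → g y < y)
    {y : ℝ} (hy : y ∈ Icc p q) (hyx : x ≤ y) :
    Tendsto (fun l => g^[l] y) atTop (𝓝 x) := by
  have hneg : ∀ z, z ∈ Icc (-q) (-p) ↔ -z ∈ Icc p q := by
    intro z
    constructor
    · intro h
      exact ⟨by linarith [h.2], by linarith [h.1]⟩
    · intro h
      exact ⟨by linarith [h.2], by linarith [h.1]⟩
  have h1 : Tendsto (fun l => (fun z => -g (-z))^[l] (-y)) atTop (𝓝 (-x)) := by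
    refine iter_up (p := -q) (q := -p) ?_ ?_ ?_ ?_ ?_ ?_ ?_
    · intro a ha b hb hab
      have := hmono ((hneg b).1 hb) ((hneg a).1 ha) (neg_le_neg hab)
      exact neg_le_neg this
    · have hcn : ContinuousOn (fun z : ℝ => -z) (Icc (-q) (-p)) := continuous_neg.continuousOn
      have h2 : ContinuousOn (fun z => g (-z)) (Icc (-q) (-p)) :=
        hc.comp hcn fun z hz => (hneg z).1 hz
      exact h2.neg
    · rw [hneg, neg_neg]; exact hx
    · rw [neg_neg, hgx]
    · intro z hz hzx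
      have := hgt (-z) ((hneg z).1 hz) (by linarith)
      change z < -g (-z)
      linarith
    · rw [hneg, neg_neg]; exact hy
    · exact neg_le_neg hyx
  have h2 : ∀ l, (fun z => -g (-z))^[l] (-y) = -(g^[l] y) := by
    intro l
    induction l with
    | zero => rfl
    | succ l ih =>
      rw [Function.iterate_succ_apply', Function.iterate_succ_apply', ih, neg_neg]
  have h3 : Tendsto (fun l => -(g^[l] y)) atTop (𝓝 (-x)) := by
    refine h1.congr h2
  have h4 := h3.neg
  simpa using h4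

end FixPtAux

open FixPtAux

theorem fix_unique {g g' : ℝ → ℝ} {p q : ℝ} (hpq : p < q)
    (hd : ∀ x ∈ Icc p q, HasDerivAt g (g' x) x) (hpos : ∀ x ∈ Icc p q, 0 ≤ g' x)
    (pk : ∀ x ∈ Icc p q, ∀ y ∈ Icc p q, x ≠ y → (g x - g y) ^ 2 < g' x * g' y * (x - y) ^ 2)
    (hp : p < g p) (hq : g q < q) :
    ∃ x ∈ Ioo p q, g x = x ∧ (∀ y ∈ Icc p q, y < x → y < g y) ∧
      ∀ y ∈ Icc p q, x < y → g y < y := by
  have hgc : ContinuousOn g (Icc p q) := fun x hx => (hd x hx).continuousAt.continuousWithinAt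
  have hhc : ContinuousOn (fun x => g x - x) (Icc p q) := hgc.sub continuousOn_id
  set F : Set ℝ := {x | x ∈ Icc p q ∧ g x - x = 0} with hF
  have hFcl : IsClosed F := by
    have := hhc.preimage_isClosed_of_isClosed isClosed_Icc (isClosed_singleton (x := (0 : ℝ)))
    exact this
  have hFne : F.Nonempty := by
    have h0 : (0 : ℝ) ∈ Icc (g q - q) (g p - p) := ⟨by linarith, by linarith⟩
    obtain ⟨x, hx, hx0⟩ := intermediate_value_Icc' hpq.le hhc h0
    exact ⟨x, hx, hx0⟩
  have hFb : BddBelow F := ⟨p, fun x hx => hx.1.1⟩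
  have hFa : BddAbove F := ⟨q, fun x hx => hx.1.2⟩
  have h1 : sInf F ∈ F := hFcl.csInf_mem hFne hFb
  have h2 : sSup F ∈ F := hFcl.csSup_mem hFne hFa
  set x1 := sInf F with hx1
  set x2 := sSup F with hx2
  have h12 : x1 ≤ x2 := csInf_le hFb h2
  have hpx1 : p < x1 := by
    rcases eq_or_lt_of_le h1.1.1 with h | h
    · exfalso
      have := h1.2
      rw [← h] at this
      linarith
    · exact h
  have hx2q : x2 < q := by
    rcases eq_or_lt_of_le h2.1.2 with h | h
    · exfalso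
      have := h2.2
      rw [h] at this
      linarith
    · exact h
  have hleft : ∀ y ∈ Icc p q, y < x1 → y < g y := by
    intro y hy hyx
    by_contra hcon
    push Not at hcon
    have h0 : (0 : ℝ) ∈ Icc (g y - y) (g p - p) := ⟨by linarith, by linarith⟩
    have hsub : ContinuousOn (fun x => g x - x) (Icc p y) :=
      hhc.mono (Icc_subset_Icc_right hy.2)
    obtain ⟨z, hz, hz0⟩ := intermediate_value_Icc' hy.1 hsub h0
    have hzF : z ∈ F := ⟨⟨hz.1, hz.2.trans hy.2⟩, hz0⟩
    have := csInf_le hFb hzF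
    linarith [hz.2]
  have hright : ∀ y ∈ Icc p q, x2 < y → g y < y := by
    intro y hy hyx
    by_contra hcon
    push Not at hcon
    have h0 : (0 : ℝ) ∈ Icc (g q - q) (g y - y) := ⟨by linarith, by linarith⟩
    have hsub : ContinuousOn (fun x => g x - x) (Icc y q) :=
      hhc.mono (Icc_subset_Icc_left hy.1)
    obtain ⟨z, hz, hz0⟩ := intermediate_value_Icc' hy.2 hsub h0
    have hzF : z ∈ F := ⟨⟨hy.1.trans hz.1, hz.2⟩, hz0⟩
    have := le_csSup hFa hzF
    linarith [hz.1]
  have hd1 : g' x1 - 1 ≤ 0 := by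
    refine deriv_le_left (h := fun x => g x - x) ((hd x1 h1.1).sub (hasDerivAt_id x1)) hpx1 ?_
    intro y hy
    have h3 := hleft y ⟨hy.1.le, hy.2.le.trans h1.1.2⟩ hy.2
    have h4 := h1.2
    change g x1 - x1 ≤ g y - y
    linarith
  have hd2 : g' x2 - 1 ≤ 0 := by
    refine deriv_le_right (h := fun x => g x - x) ((hd x2 h2.1).sub (hasDerivAt_id x2)) hx2q ?_
    intro y hy
    have h3 := hright y ⟨h2.1.1.trans hy.1.le, hy.2.le⟩ hy.1
    have h4 := h2.2
    change g y - y ≤ g x2 - x2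
    linarith
  have heq : x1 = x2 := by
    by_contra hne
    have h3 := pk x1 h1.1 x2 h2.1 hne
    have h4 := h1.2
    have h5 := h2.2
    have h6 : g x1 = x1 := by linarith
    have h7 : g x2 = x2 := by linarith
    rw [h6, h7] at h3
    have h8 : 0 < (x1 - x2) ^ 2 := by
      have : x1 - x2 ≠ 0 := sub_ne_zero.2 hne
      positivity
    have h9 : g' x1 * g' x2 ≤ 1 := by
      have := hpos x1 h1.1
      have := hpos x2 h2.1
      nlinarith
    nlinarith
  refine ⟨x1, ⟨hpx1, by rw [heq]; exact hx2q⟩, by linarith [h1.2], hleft, ?_⟩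
  rw [heq]
  exact hright

theorem tangent_unique {g g' : ℝ → ℝ} {p q : ℝ}
    (hd : ∀ x ∈ Ioo p q, HasDerivAt g (g' x) x)
    (pk : ∀ x ∈ Ioo p q, ∀ y ∈ Ioo p q, x ≠ y → (g x - g y) ^ 2 < g' x * g' y * (x - y) ^ 2)
    (hle : ∀ x ∈ Ioo p q, g x ≤ x) {b1 b2 : ℝ} (h1 : b1 ∈ Ioo p q) (h2 : b2 ∈ Ioo p q)
    (e1 : g b1 = b1) (e2 : g b2 = b2) : b1 = b2 := by
  have key : ∀ b ∈ Ioo p q, g b = b → g' b = 1 := by
    intro b hb eb
    have hmax : IsLocalMax (fun x => g x - x) b := by
      filter_upwards [Ioo_mem_nhds hb.1 hb.2] with y hy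
      change g y - y ≤ g b - b
      have := hle y hy
      linarith
    have := hmax.hasDerivAt_eq_zero ((hd b hb).sub (hasDerivAt_id b))
    linarith
  by_contra hne
  have h3 := pk b1 h1 b2 h2 hne
  rw [key b1 h1 e1, key b2 h2 e2, e1, e2] at h3
  linarith

theorem iter_mem {g : ℝ → ℝ} {p q y : ℝ} (hmaps : ∀ y ∈ Icc p q, g y ∈ Icc p q)
    (hy : y ∈ Icc p q) (l : ℕ) : g^[l] y ∈ Icc p q := by
  induction l with
  | zero => exact hy
  | succ l ih =>
    rw [Function.iterate_succ_apply']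
    exact hmaps _ ih

theorem iter_tendsto {g : ℝ → ℝ} {p q x : ℝ} (hmono : MonotoneOn g (Icc p q))
    (hmaps : ∀ y ∈ Icc p q, g y ∈ Icc p q) (hc : ContinuousOn g (Icc p q))
    (hx : x ∈ Icc p q) (hgx : g x = x) (hlt : ∀ y ∈ Icc p q, y < x → y < g y)
    (hgt : ∀ y ∈ Icc p q, x < y → g y < y) {y : ℝ} (hy : y ∈ Icc p q) :
    Tendsto (fun l => g^[l] y) atTop (𝓝 x) := by
  rcases le_total y x with h | h
  · exact iter_up hmono hc hx hgx hlt hy h
  · exact iter_down hmono hc hx hgx hgt hy h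

end JC
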