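import Pool.Agent.Lib.JC.Core
import Pool.Agent.Lib.JC.BrBasic

/-!
# JC.PK : derivative of a branch word and the expansion inequality

* `hasDerivAt_br`: induction on `w`; for `w = s :: v` the argument `br c v y - c` of the root is
  positive at `y`, so `HasDerivAt.sqrt` applies: derivative `brD c v y / (2 √(br c v y - c))`.
* `brD_ne_zero`, `brD_sign`: induction; all factors are nonzero and
  `(s * w.prod) * (s * (d / (2 r))) = s ^ 2 * (w.prod * d) / (2 r)`.
* `pk`: induction on `w`, first the weak form `(br x - br y)^2 ≤ brD x * brD y * (x - y)^2` for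
  every word (equality for `[]`). For `w = s :: v` put `a = br c v x - c > 0`,
  `b = br c v y - c > 0`, `α = brD c v x`, `β = brD c v y`. Then
  `(br x - br y)^2 = (√a - √b)^2` and `brD x * brD y = α β / (4 √a √b)`. Since
  `(√a - √b)^2 (√a + √b)^2 = (a - b)^2 ≤ α β (x - y)^2` and `(√a + √b)^2 ≥ 4 √a √b > 0`,
  `(√a - √b)^2 ≤ α β (x - y)^2 / (4 √a √b)`. Strict: if `x ≠ y` then `a ≠ b` (because
  `(fr c)^[v.length]` maps `a + c` to `x` and `b + c` to `y`, `iter_br`), so
  `(√a + √b)^2 > 4 √a √b` and `(√a - √b)^2 > 0`.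
-/

open Set Filter Topology

namespace JC

theorem hasDerivAt_br {c : ℝ} {w : List ℝ} {I : Set ℝ} {y : ℝ} (h : Ok c w I) (hy : y ∈ I) :
    HasDerivAt (br c w) (brD c w y) y := by
  induction w with
  | nil => exact hasDerivAt_id y
  | cons s v ih =>
    have h1 : 0 < br c v y - c := sub_pos.2 (h.2.2 y hy)
    exact (((ih h.2.1).sub_const c).sqrt h1.ne').const_mul s

theorem brD_sign {c : ℝ} {w : List ℝ} {I : Set ℝ} {y : ℝ} (h : Ok c w I) (hy : y ∈ I) :
    0 < w.prod * brD c w y := by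
  induction w with
  | nil => simp [brD]
  | cons s v ih =>
    have h1 : 0 < br c v y - c := sub_pos.2 (h.2.2 y hy)
    have h2 := ih h.2.1
    have h3 : 0 < Real.sqrt (br c v y - c) := Real.sqrt_pos.2 h1
    have h4 : s ^ 2 = 1 := by rcases h.1 with h | h <;> rw [h] <;> norm_num
    have h5 : (s :: v).prod * brD c (s :: v) y =
        s ^ 2 * (v.prod * brD c v y) / (2 * Real.sqrt (br c v y - c)) := by
      rw [List.prod_cons]
      simp only [brD]
      ring
    rw [h5, h4, one_mul]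
    positivity

theorem brD_ne_zero {c : ℝ} {w : List ℝ} {I : Set ℝ} {y : ℝ} (h : Ok c w I) (hy : y ∈ I) :
    brD c w y ≠ 0 := by
  intro h0
  have := brD_sign h hy
  rw [h0, mul_zero] at this
  exact lt_irrefl _ this

namespace PKAux

theorem br_inj {c : ℝ} {w : List ℝ} {I : Set ℝ} {x y : ℝ} (h : Ok c w I)
    (hx : x ∈ I) (hy : y ∈ I) (he : br c w x = br c w y) : x = y := by
  rw [← iter_br h hx, he, iter_br h hy]

/-- the inequality for one square root -/
theorem step {a b α β D : ℝ} (ha : 0 < a) (hb : 0 < b) (h : (a - b) ^ 2 ≤ α * β * D) :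
    (Real.sqrt a - Real.sqrt b) ^ 2 ≤ α * β / (4 * (Real.sqrt a * Real.sqrt b)) * D ∧
      (a ≠ b → (Real.sqrt a - Real.sqrt b) ^ 2 < α * β / (4 * (Real.sqrt a * Real.sqrt b)) * D) := by
  have hra : 0 < Real.sqrt a := Real.sqrt_pos.2 ha
  have hrb : 0 < Real.sqrt b := Real.sqrt_pos.2 hb
  have e1 : a = Real.sqrt a ^ 2 := (Real.sq_sqrt ha.le).symm
  have e2 : b = Real.sqrt b ^ 2 := (Real.sq_sqrt hb.le).symm
  set p := Real.sqrt a with hp
  set q := Real.sqrt b with hq
  have h4 : 0 < 4 * (p * q) := by positivity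
  have h5 : α * β / (4 * (p * q)) * D = α * β * D / (4 * (p * q)) := by ring
  have h6 : (a - b) ^ 2 = (p - q) ^ 2 * (p + q) ^ 2 := by
    rw [e1, e2]
    ring
  have h7 : 4 * (p * q) ≤ (p + q) ^ 2 := by nlinarith [sq_nonneg (p - q)]
  rw [h5]
  constructor
  · rw [le_div_iff₀ h4]
    calc (p - q) ^ 2 * (4 * (p * q)) ≤ (p - q) ^ 2 * (p + q) ^ 2 :=
          mul_le_mul_of_nonneg_left h7 (sq_nonneg _)
      _ = (a - b) ^ 2 := h6.symm
      _ ≤ α * β * D := h
  · intro hab
    have hpq : p ≠ q := by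
      intro h8
      apply hab
      rw [e1, e2, h8]
    have h8 : 0 < (p - q) ^ 2 := by
      have : p - q ≠ 0 := sub_ne_zero.2 hpq
      positivity
    have h9 : 4 * (p * q) < (p + q) ^ 2 := by nlinarith
    rw [lt_div_iff₀ h4]
    calc (p - q) ^ 2 * (4 * (p * q)) < (p - q) ^ 2 * (p + q) ^ 2 :=
          mul_lt_mul_of_pos_left h9 h8
      _ = (a - b) ^ 2 := h6.symm
      _ ≤ α * β * D := h

theorem brD_mul (c : ℝ) (s : ℝ) (v : List ℝ) (x y : ℝ) (hs : s ^ 2 = 1) (D : ℝ) :
    brD c (s :: v) x * brD c (s :: v) y * D = brD c v x * brD c v y /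
      (4 * (Real.sqrt (br c v x - c) * Real.sqrt (br c v y - c))) * D := by
  simp only [brD]
  have : s * (brD c v x / (2 * Real.sqrt (br c v x - c))) *
      (s * (brD c v y / (2 * Real.sqrt (br c v y - c)))) =
      s ^ 2 * (brD c v x * brD c v y /
      (4 * (Real.sqrt (br c v x - c) * Real.sqrt (br c v y - c)))) := by
    rw [mul_comm (2 : ℝ) (Real.sqrt (br c v x - c)), mul_comm (2 : ℝ) (Real.sqrt (br c v y - c))]
    ring
  rw [this, hs, one_mul]

theorem weak {c : ℝ} {w : List ℝ} {I : Set ℝ} {x y : ℝ} (h : Ok c w I)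
    (hx : x ∈ I) (hy : y ∈ I) :
    (br c w x - br c w y) ^ 2 ≤ brD c w x * brD c w y * (x - y) ^ 2 := by
  induction w with
  | nil => simp [br, brD]
  | cons s v ih =>
    have hs : s ^ 2 = 1 := by rcases h.1 with h | h <;> rw [h] <;> norm_num
    have ha : 0 < br c v x - c := sub_pos.2 (h.2.2 x hx)
    have hb : 0 < br c v y - c := sub_pos.2 (h.2.2 y hy)
    have h1 := ih h.2.1
    have h2 : (br c v x - c - (br c v y - c)) ^ 2 ≤ brD c v x * brD c v y * (x - y) ^ 2 := by
      rw [sub_sub_sub_cancel_right]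
      exact h1
    have h3 := (step ha hb h2).1
    rw [brD_mul c s v x y hs]
    have h4 : (br c (s :: v) x - br c (s :: v) y) ^ 2 =
        (Real.sqrt (br c v x - c) - Real.sqrt (br c v y - c)) ^ 2 := by
      simp only [br]
      rw [← mul_sub, mul_pow, hs, one_mul]
    rw [h4]
    exact h3

end PKAux

theorem pk {c : ℝ} {w : List ℝ} {I : Set ℝ} {x y : ℝ} (h : Ok c w I) (hw : w ≠ [])
    (hx : x ∈ I) (hy : y ∈ I) (hxy : x ≠ y) :
    (br c w x - br c w y) ^ 2 < brD c w x * brD c w y * (x - y) ^ 2 := by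
  cases w with
  | nil => exact absurd rfl hw
  | cons s v =>
    have hs : s ^ 2 = 1 := by rcases h.1 with h | h <;> rw [h] <;> norm_num
    have ha : 0 < br c v x - c := sub_pos.2 (h.2.2 x hx)
    have hb : 0 < br c v y - c := sub_pos.2 (h.2.2 y hy)
    have h1 := PKAux.weak h.2.1 hx hy
    have h2 : (br c v x - c - (br c v y - c)) ^ 2 ≤ brD c v x * brD c v y * (x - y) ^ 2 := by
      rw [sub_sub_sub_cancel_right]
      exact h1
    have hab : br c v x - c ≠ br c v y - c := by
      intro he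
      exact hxy (PKAux.br_inj h.2.1 hx hy (by linarith))
    have h3 := (PKAux.step ha hb h2).2 hab
    rw [PKAux.brD_mul c s v x y hs]
    have h4 : (br c (s :: v) x - br c (s :: v) y) ^ 2 =
        (Real.sqrt (br c v x - c) - Real.sqrt (br c v y - c)) ^ 2 := by
      simp only [br]
      rw [← mul_sub, mul_pow, hs, one_mul]
    rw [h4]
    exact h3

end JC
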