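import Pool.Agent.Lib.JC.StBasic
import Pool.Agent.Lib.JC.PK
import Pool.Agent.Lib.JC.FixPt

/-!
# JC.StTheta : the map `θ`, its fixed point `p`, the fixed point `α` of `-θ`

`S : St`, `c ∈ S.seg`, `R = S.R`, `θ = S.theta c`, `θ y = br c η (ε y)`, `s = S.η.length`.
* `theta_mono`: `psi_strictMonoOn` for the word `η` (`S.okη`, `S.hηprod`). `theta_mem`: `S.th0`, `S.th1`, monotone.
* `h_lt_theta`: `(h R)^2 = ψ R - c ≤ ψ R - ψ (-R) < θ(-R)^2` (`S.small`, `S.lo`; if `c > ψ R`... it is not, `S.hi`).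
* `iter_theta`: `iter_br`. `iter_theta_pow`: induction on `i ≥ 1`:
 `f^(s(i+1)) (θ^(i+1) y) = f^(s i) (f^s (θ (θ^i y))) = f^(s i) (ε θ^i y) = f^(s i) (θ^i y) = ε y` (`fr_iter_neg`,
 `s i ≠ 0` as `η ≠ []`). `iter_negtheta`: the same with `-θ`.
* `al`: `y ↦ -θ y` is continuous and strictly decreasing with values in `(-R, 0)`, so `{y ∈ [-R,R] | y ≤ -θ y} = [-R, α]`
 with `α = -θ α ∈ (-R, 0)` (intermediate value theorem).
* `pf_fix`, `pf_conv`: `fix_unique` and `iter_tendsto` for `θ` on `[-R, R]` (word `η` nonempty: `hasDerivAt_br`, `pk`,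
 `brD_sign`, as in the header of JC.StFix; `θ(-R) > 0 > -R`, `θ R < R`); the set in the definition of `pf` is `[-R, p]`.
* `negtheta_tendsto`: `g y = -θ(-θ y)` is `br c w (ε y)` for the word `w = flip1 (-1) η ++ flip1 (-ε) η` (`br_append`,
 `br_flip1`), of product `ε`, `Ok` on `[-R, R]`, nonempty, increasing, values in `(-R, 0)`. By `fix_unique` it has a unique
 fixed point, which is `α`, and `g^l y → α` for all `y ∈ [-R,R]` (`iter_tendsto`). So `(-θ)^(2l) y → α` and
 `(-θ)^(2l+1) y = g^l (-θ y) → α`.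
* `xs_lt_ys`, `ys_lt_xs`: `α < 0 < θ α = -α`; apply the strictly increasing `θ^i`. `xs_lt_pf`: `α < p` (`p = θ p > 0`).
 `xs_tendsto`: `pf_conv` at `y = α`. `xs_gt`: for `i ≥ 1`, `x_i = θ (θ^(i-1) α) > θ (-R)`.
-/

open Set Filter Topology

namespace JC

namespace StThetaAux

theorem gen_fix {c R e : ℝ} {w : List ℝ} (he : e = 1 ∨ e = -1) (hw : w ≠ []) (hp : w.prod = e)
    (hok : Ok c w (Icc (-R) R)) (hR : 0 < R) (h1 : -R < br c w (e * -R)) (h2 : br c w (e * R) < R) :
    ∃ x ∈ Ioo (-R) R, br c w (e * x) = x ∧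
      (∀ y ∈ Icc (-R) R, y < x → y < br c w (e * y)) ∧
      ∀ y ∈ Icc (-R) R, x < y → br c w (e * y) < y := by
  have hee : e * e = 1 := by rcases he with rfl | rfl <;> norm_num
  have hem : ∀ y ∈ Icc (-R) R, e * y ∈ Icc (-R) R := by
    intro y hy
    rcases he with rfl | rfl
    · simpa using hy
    · exact ⟨by linarith [hy.2], by linarith [hy.1]⟩
  have key := fix_unique (g := fun y => br c w (e * y)) (g' := fun y => e * brD c w (e * y))
    (p := -R) (q := R) (by linarith)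
    (fun x hx => by
      have hd := hasDerivAt_br hok (hem x hx)
      have hl : HasDerivAt (fun y : ℝ => e * y) e x := by
        simpa using (hasDerivAt_id x).const_mul e
      have := hd.comp x hl
      rw [mul_comm] at this
      exact this)
    (fun x hx => by
      have h := brD_sign hok (hem x hx)
      rw [hp] at h
      exact h.le)
    (fun x hx y hy hxy => by
      have hne : e * x ≠ e * y := by
        intro h
        apply hxy
        have h3 : e * (e * x) = e * (e * y) := by rw [h]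
        rwa [← mul_assoc, ← mul_assoc, hee, one_mul, one_mul] at h3
      have h := pk hok hw (hem x hx) (hem y hy) hne
      have e1 : e * brD c w (e * x) * (e * brD c w (e * y)) * (x - y) ^ 2 =
          brD c w (e * x) * brD c w (e * y) * (e * x - e * y) ^ 2 := by ring
      rw [e1]
      exact h)
    h1 h2
  exact key

theorem iter_pow {c R e : ℝ} {s : ℕ} (hs : s ≠ 0) (he : e = 1 ∨ e = -1) {f : ℝ → ℝ}
    (hf : ∀ y ∈ Icc (-R) R, f y ∈ Icc (-R) R) (hi : ∀ y ∈ Icc (-R) R, (fr c)^[s] (f y) = e * y)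
    {y : ℝ} (hy : y ∈ Icc (-R) R) {i : ℕ} (h1 : 1 ≤ i) : (fr c)^[s * i] (f^[i] y) = e * y := by
  induction i, h1 using Nat.le_induction with
  | base => simpa using hi y hy
  | succ i hi1 ih =>
    have hm : f^[i] y ∈ Icc (-R) R := iter_mem hf hy i
    rw [Function.iterate_succ_apply', Nat.mul_succ, Function.iterate_add_apply, hi _ hm]
    have hne : s * i ≠ 0 := Nat.mul_ne_zero hs (by omega)
    rcases he with rfl | rfl
    · rw [one_mul, ih]
    · rw [neg_one_mul, fr_iter_neg c _ hne, ih]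

theorem iter_strictMono {f : ℝ → ℝ} {R : ℝ} (hf : ∀ y ∈ Icc (-R) R, f y ∈ Icc (-R) R)
    (hm : StrictMonoOn f (Icc (-R) R)) {x y : ℝ} (hx : x ∈ Icc (-R) R) (hy : y ∈ Icc (-R) R)
    (hxy : x < y) (i : ℕ) : f^[i] x < f^[i] y := by
  induction i with
  | zero => exact hxy
  | succ i ih =>
    rw [Function.iterate_succ_apply', Function.iterate_succ_apply']
    exact hm (iter_mem hf hx i) (iter_mem hf hy i) ih

theorem tendsto_even_odd {u : ℕ → ℝ} {a : ℝ} (h0 : Tendsto (fun l => u (2 * l)) atTop (𝓝 a))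
    (h1 : Tendsto (fun l => u (2 * l + 1)) atTop (𝓝 a)) : Tendsto u atTop (𝓝 a) := by
  rw [Metric.tendsto_atTop] at h0 h1 ⊢
  intro e he
  obtain ⟨N0, hN0⟩ := h0 e he
  obtain ⟨N1, hN1⟩ := h1 e he
  refine ⟨2 * (N0 + N1) + 1, fun n hn => ?_⟩
  rcases Nat.even_or_odd' n with ⟨k, rfl | rfl⟩
  · exact hN0 k (by omega)
  · exact hN1 k (by omega)

end StThetaAux

namespace St

variable (S : St)

theorem theta_cont : Continuous fun p : ℝ × ℝ => S.theta p.1 p.2 := by
  exact (br_continuous S.η).comp (continuous_fst.prodMk (continuous_const.mul continuous_snd))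

variable {S} {c : ℝ}

theorem theta_mono (hc : c ∈ S.seg) : StrictMonoOn (S.theta c) (Icc (-S.R) S.R) := by
  exact psi_strictMonoOn S.hε S.hηprod (S.okη c hc)

theorem theta_mem (hc : c ∈ S.seg) {y : ℝ} (hy : y ∈ Icc (-S.R) S.R) :
    S.theta c (-S.R) ≤ S.theta c y ∧ 0 < S.theta c y ∧ S.theta c y < S.R := by
  have hR := S.hR
  have hl : (-S.R) ∈ Icc (-S.R) S.R := ⟨le_refl _, by linarith⟩
  have hr : S.R ∈ Icc (-S.R) S.R := ⟨by linarith, le_refl _⟩
  have h1 : S.theta c (-S.R) ≤ S.theta c y := (theta_mono hc).monotoneOn hl hy hy.1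
  have h2 : S.theta c y ≤ S.theta c S.R := (theta_mono hc).monotoneOn hy hr hy.2
  have h3 : 0 < S.theta c (-S.R) := S.th0 c hc
  have h4 : S.theta c S.R < S.R := S.th1 c hc
  exact ⟨h1, lt_of_lt_of_le h3 h1, lt_of_le_of_lt h2 h4⟩

theorem theta_maps (hc : c ∈ S.seg) {y : ℝ} (hy : y ∈ Icc (-S.R) S.R) :
    S.theta c y ∈ Icc (-S.R) S.R := by
  have h := theta_mem hc hy
  have hR := S.hR
  exact ⟨by linarith [h.2.1], h.2.2.le⟩

theorem negtheta_maps (hc : c ∈ S.seg) {y : ℝ} (hy : y ∈ Icc (-S.R) S.R) :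
    -S.theta c y ∈ Icc (-S.R) S.R := by
  have h := theta_mem hc hy
  have hR := S.hR
  exact ⟨by linarith [h.2.2], by linarith [h.2.1]⟩

theorem theta_iter_maps (hc : c ∈ S.seg) {y : ℝ} (hy : y ∈ Icc (-S.R) S.R) (i : ℕ) :
    (S.theta c)^[i] y ∈ Icc (-S.R) S.R := by
  exact iter_mem (fun z hz => theta_maps hc hz) hy i

theorem negtheta_iter_maps (hc : c ∈ S.seg) {y : ℝ} (hy : y ∈ Icc (-S.R) S.R) (l : ℕ) :
    (fun x => -S.theta c x)^[l] y ∈ Icc (-S.R) S.R := by
  exact iter_mem (g := fun x => -S.theta c x) (fun z hz => negtheta_maps hc hz) hy l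

theorem h_lt_theta (hc : c ∈ S.seg) : S.h c S.R < S.theta c (-S.R) := by
  have hR := S.hR
  have hr : S.R ∈ Icc (S.y0 c) S.R := ⟨(PreSt.y0_mem hc).2, le_refl _⟩
  have h1 := PreSt.h_sq hc hr
  have h2 : S.psi c (-S.R) ≤ c := S.lo c hc
  have h3 : S.psi c S.R - S.psi c (-S.R) < (S.theta c (-S.R)) ^ 2 := S.small c hc
  have h4 : 0 < S.theta c (-S.R) := S.th0 c hc
  have h5 : (S.h c S.R) ^ 2 < (S.theta c (-S.R)) ^ 2 := by rw [h1]; linarith
  exact lt_of_pow_lt_pow_left₀ 2 h4.le h5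

theorem iter_theta (hc : c ∈ S.seg) {y : ℝ} (hy : y ∈ Icc (-S.R) S.R) :
    (fr c)^[S.s] (S.theta c y) = S.ε * y := by
  exact iter_br (S.okη c hc) (S.toPreSt.eps_mem hy)

theorem iter_theta_pow (hc : c ∈ S.seg) {y : ℝ} (hy : y ∈ Icc (-S.R) S.R) {i : ℕ} (hi : 1 ≤ i) :
    (fr c)^[S.s * i] ((S.theta c)^[i] y) = S.ε * y := by
  have hs : S.s ≠ 0 := by
    unfold St.s
    exact fun h => S.hη (List.length_eq_zero_iff.mp h)
  exact StThetaAux.iter_pow hs S.hε (fun z hz => theta_maps hc hz)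
    (fun z hz => iter_theta hc hz) hy hi

theorem iter_negtheta (hc : c ∈ S.seg) {y : ℝ} (hy : y ∈ Icc (-S.R) S.R) {l : ℕ} (hl : 1 ≤ l) :
    (fr c)^[S.s * l] ((fun x => -S.theta c x)^[l] y) = S.ε * y := by
  have hs : S.s ≠ 0 := by
    unfold St.s
    exact fun h => S.hη (List.length_eq_zero_iff.mp h)
  exact StThetaAux.iter_pow (f := fun x => -S.theta c x) hs S.hε (fun z hz => negtheta_maps hc hz)
    (fun z hz => by
      rw [fr_iter_neg c _ hs]
      exact iter_theta hc hz) hy hl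

private theorem al_spec (hc : c ∈ S.seg) : S.al c ∈ Ioo (-S.R) 0 ∧ S.al c + S.theta c (S.al c) = 0 := by
  have hR := S.hR
  have hcont : Continuous (S.theta c) := S.theta_cont.comp (Continuous.prodMk_right c)
  have hl : (-S.R) ∈ Icc (-S.R) S.R := ⟨le_refl _, by linarith⟩
  have h0 : (0 : ℝ) ∈ Icc (-S.R) S.R := ⟨by linarith, hR.le⟩
  have hk : ContinuousOn (fun y => y + S.theta c y) (Icc (-S.R) 0) :=
    (continuous_id.add hcont).continuousOn
  have hivt := intermediate_value_Ioo (show -S.R ≤ 0 by linarith) hk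
  have hm : (0 : ℝ) ∈ Ioo ((fun y => y + S.theta c y) (-S.R)) ((fun y => y + S.theta c y) 0) := by
    have h1 := (theta_mem hc hl).2.2
    have h2 := (theta_mem hc h0).2.1
    constructor
    · simp only; linarith
    · simp only; linarith
  obtain ⟨a, ha, ha0⟩ := hivt hm
  simp only at ha0
  have haI : a ∈ Icc (-S.R) S.R := ⟨ha.1.le, by linarith [ha.2]⟩
  have hg : IsGreatest {y | y ∈ Icc (-S.R) S.R ∧ y ≤ -S.theta c y} a := by
    constructor
    · exact ⟨haI, by linarith⟩
    · rintro y ⟨hy, hy2⟩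
      by_contra hlt
      push Not at hlt
      have := theta_mono hc haI hy hlt
      linarith
  have he : S.al c = a := hg.csSup_eq
  rw [he]
  exact ⟨ha, ha0⟩

theorem al_mem (hc : c ∈ S.seg) : S.al c ∈ Ioo (-S.R) 0 := by
  exact (al_spec hc).1

theorem theta_al (hc : c ∈ S.seg) : S.theta c (S.al c) = -S.al c := by
  have h := (al_spec hc).2
  linarith

theorem negtheta_tendsto (hc : c ∈ S.seg) {y : ℝ} (hy : y ∈ Icc (-S.R) S.R) :
    Tendsto (fun l => (fun x => -S.theta c x)^[l] y) atTop (𝓝 (S.al c)) := by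
  have hR := S.hR
  have hee : S.ε * S.ε = 1 := S.toPreSt.eps_mul_self
  have hε1 : S.ε = 1 ∨ S.ε = -1 := S.hε
  have hne : -S.ε = 1 ∨ -S.ε = -1 := by
    rcases hε1 with h | h
    · right; rw [h]
    · left; rw [h]; norm_num
  have hcont : Continuous (S.theta c) := S.theta_cont.comp (Continuous.prodMk_right c)
  set w : List ℝ := flip1 (-1) S.η ++ flip1 (-S.ε) S.η with hwdef
  have hbr : ∀ z : ℝ, br c w (S.ε * z) = -S.theta c (-S.theta c z) := by
    intro z
    rw [hwdef, br_append, br_flip1 S.hη, br_flip1 S.hη]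
    unfold St.theta
    rw [neg_one_mul]
    congr 2
    ring
  have hwne : w ≠ [] := by
    intro h
    have h2 := congrArg List.length h
    rw [hwdef, List.length_append, length_flip1, length_flip1] at h2
    have h3 : 0 < S.η.length := List.length_pos_of_ne_nil S.hη
    simp at h2
    exact S.hη h2
  have hwp : w.prod = S.ε := by
    rw [hwdef, List.prod_append, prod_flip1 S.hη, prod_flip1 S.hη, S.hηprod]
    linear_combination (S.ε) * hee
  have hwok : Ok c w (Icc (-S.R) S.R) := by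
    rw [hwdef, ok_append]
    refine ⟨ok_flip1 hne (S.okη c hc), ?_⟩
    refine ok_mono (ok_flip1 (Or.inr rfl) (S.okη c hc)) ?_
    rintro _ ⟨z, hz, rfl⟩
    rw [br_flip1 S.hη]
    have h1 : br c S.η z = S.theta c (S.ε * z) := by
      unfold St.theta
      rw [← mul_assoc, hee, one_mul]
    rw [h1]
    have h2 := theta_maps hc (S.toPreSt.eps_mem hz)
    rcases hε1 with h | h
    · rw [h] at h2 ⊢
      exact ⟨by linarith [h2.2], by linarith [h2.1]⟩
    · rw [h] at h2 ⊢
      simpa using h2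
  have hl : (-S.R) ∈ Icc (-S.R) S.R := ⟨le_refl _, by linarith⟩
  have hr : S.R ∈ Icc (-S.R) S.R := ⟨by linarith, le_refl _⟩
  obtain ⟨x, hx, hx1, hx2, hx3⟩ := StThetaAux.gen_fix (c := c) (R := S.R) hε1 hwne hwp hwok hR
    (by
      rw [hbr]
      have := (theta_mem hc (negtheta_maps hc hl)).2.2
      linarith)
    (by
      rw [hbr]
      have := (theta_mem hc (negtheta_maps hc hr)).2.1
      linarith)
  have hα := al_mem hc
  have hαI : S.al c ∈ Icc (-S.R) S.R := ⟨hα.1.le, by linarith [hα.2]⟩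
  have hαf : -S.theta c (S.al c) = S.al c := by
    rw [theta_al hc, neg_neg]
  have hαg : br c w (S.ε * S.al c) = S.al c := by
    rw [hbr, hαf, hαf]
  have hxα : x = S.al c := by
    rcases lt_trichotomy x (S.al c) with h | h | h
    · have := hx3 _ hαI h
      rw [hαg] at this
      exact absurd this (lt_irrefl _)
    · exact h
    · have := hx2 _ hαI h
      rw [hαg] at this
      exact absurd this (lt_irrefl _)
  rw [hxα] at hx1 hx2 hx3
  have hT : ∀ z ∈ Icc (-S.R) S.R,
      Tendsto (fun l => (fun u => -S.theta c (-S.theta c u))^[l] z) atTop (𝓝 (S.al c)) := by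
    intro z hz
    refine iter_tendsto (g := fun u => -S.theta c (-S.theta c u)) (p := -S.R) (q := S.R) ?_ ?_ ?_
      hαI ?_ ?_ ?_ hz
    · intro u hu v hv huv
      have h1 := (theta_mono hc).monotoneOn hu hv huv
      have h2 := (theta_mono hc).monotoneOn (negtheta_maps hc hv) (negtheta_maps hc hu)
        (neg_le_neg h1)
      exact neg_le_neg h2
    · intro u hu
      exact negtheta_maps hc (negtheta_maps hc hu)
    · exact (hcont.comp hcont.neg).neg.continuousOn
    · rw [hαf, hαf]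
    · intro u hu h
      have := hx2 u hu h
      rw [hbr] at this
      exact this
    · intro u hu h
      have := hx3 u hu h
      rw [hbr] at this
      exact this
  have h2 : (fun x => -S.theta c x)^[2] = fun u => -S.theta c (-S.theta c u) := rfl
  apply StThetaAux.tendsto_even_odd
  · have := hT y hy
    refine this.congr fun l => ?_
    rw [Function.iterate_mul, h2]
  · have := hT _ (negtheta_maps hc hy)
    refine this.congr fun l => ?_
    rw [Function.iterate_succ_apply, Function.iterate_mul, h2]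

private theorem pf_spec (hc : c ∈ S.seg) : S.pf c ∈ Ioo 0 S.R ∧ S.theta c (S.pf c) = S.pf c ∧
    (∀ y ∈ Icc (-S.R) S.R, y < S.pf c → y < S.theta c y) ∧
    ∀ y ∈ Icc (-S.R) S.R, S.pf c < y → S.theta c y < y := by
  have hR := S.hR
  have h0 : 0 < br c S.η (S.ε * -S.R) := S.th0 c hc
  obtain ⟨x, hx, hx1, hx2, hx3⟩ := StThetaAux.gen_fix (c := c) (R := S.R) S.hε S.hη S.hηprod
    (S.okη c hc) hR (by linarith) (S.th1 c hc)
  have hxI : x ∈ Icc (-S.R) S.R := ⟨hx.1.le, hx.2.le⟩
  have hg : IsGreatest {y | y ∈ Icc (-S.R) S.R ∧ y ≤ S.theta c y} x := by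
    constructor
    · exact ⟨hxI, le_of_eq hx1.symm⟩
    · rintro y ⟨hy, hy2⟩
      by_contra hlt
      push Not at hlt
      have := hx3 y hy hlt
      unfold St.theta at hy2
      linarith
  have he : S.pf c = x := hg.csSup_eq
  rw [he]
  have hpos : 0 < x := by
    have := (theta_mem hc hxI).2.1
    have h2 : S.theta c x = x := hx1
    linarith
  exact ⟨⟨hpos, hx.2⟩, hx1, hx2, hx3⟩

theorem pf_mem (hc : c ∈ S.seg) : S.pf c ∈ Ioo 0 S.R := by
  exact (pf_spec hc).1

theorem theta_pf (hc : c ∈ S.seg) : S.theta c (S.pf c) = S.pf c := by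
  exact (pf_spec hc).2.1

theorem theta_tendsto (hc : c ∈ S.seg) {y : ℝ} (hy : y ∈ Icc (-S.R) S.R) :
    Tendsto (fun l => (S.theta c)^[l] y) atTop (𝓝 (S.pf c)) := by
  have hR := S.hR
  have hcont : Continuous (S.theta c) := S.theta_cont.comp (Continuous.prodMk_right c)
  have h := pf_spec hc
  refine iter_tendsto (theta_mono hc).monotoneOn (fun z hz => theta_maps hc hz)
    hcont.continuousOn ?_ h.2.1 h.2.2.1 h.2.2.2 hy
  exact ⟨by linarith [h.1.1], h.1.2.le⟩

theorem xs_mem (hc : c ∈ S.seg) (i : ℕ) : S.xs c i ∈ Icc (-S.R) S.R := by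
  have hR := S.hR
  have hα := al_mem hc
  exact theta_iter_maps hc ⟨hα.1.le, by linarith [hα.2]⟩ i

theorem xs_succ (c : ℝ) (i : ℕ) : S.xs c (i + 1) = S.theta c (S.xs c i) := by
  unfold St.xs
  rw [Function.iterate_succ_apply']

theorem xs_lt_ys (hc : c ∈ S.seg) (i : ℕ) : S.xs c i < S.ys c i := by
  have hR := S.hR
  have hα := al_mem hc
  exact StThetaAux.iter_strictMono (fun z hz => theta_maps hc hz) (theta_mono hc)
    ⟨hα.1.le, by linarith [hα.2]⟩ ⟨by linarith, hR.le⟩ hα.2 i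

theorem ys_lt_xs (hc : c ∈ S.seg) (i : ℕ) : S.ys c i < S.xs c (i + 1) := by
  have hR := S.hR
  have hα := al_mem hc
  unfold St.xs St.ys
  rw [Function.iterate_succ_apply, theta_al hc]
  exact StThetaAux.iter_strictMono (fun z hz => theta_maps hc hz) (theta_mono hc)
    ⟨by linarith, hR.le⟩ ⟨by linarith [hα.2], by linarith [hα.1]⟩ (by linarith [hα.2]) i

theorem xs_lt_pf (hc : c ∈ S.seg) (i : ℕ) : S.xs c i < S.pf c := by
  have hR := S.hR
  have hα := al_mem hc
  have hp := pf_mem hc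
  have h := StThetaAux.iter_strictMono (fun z hz => theta_maps hc hz) (theta_mono hc)
    (x := S.al c) (y := S.pf c)
    ⟨hα.1.le, by linarith [hα.2]⟩ ⟨by linarith [hp.1], hp.2.le⟩ (by linarith [hα.2, hp.1]) i
  rw [Function.iterate_fixed (theta_pf hc)] at h
  exact h

theorem xs_tendsto (hc : c ∈ S.seg) : Tendsto (S.xs c) atTop (𝓝 (S.pf c)) := by
  have hR := S.hR
  have hα := al_mem hc
  exact theta_tendsto hc ⟨hα.1.le, by linarith [hα.2]⟩

theorem xs_gt (hc : c ∈ S.seg) {i : ℕ} (hi : 1 ≤ i) : S.h c S.R < S.xs c i := by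
  obtain ⟨j, rfl⟩ := Nat.exists_eq_add_of_le' hi
  rw [xs_succ]
  have h := theta_mem hc (xs_mem hc j)
  exact lt_of_lt_of_le (h_lt_theta hc) h.1

end St

end JC
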