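import Pool.Agent.Lib.JC.StFix
import Pool.Agent.Lib.JC.StTheta
import Pool.Agent.Lib.JC.StOrbit

/-!
# JC.CuspUse : the return map at the cusp parameter

`c0 = S.ct t0 ∈ S.seg` (`ct_mem`), `h = S.h c0`, `g = S.G c0` (entire, `G_diff`; real on the reals, `G_real`), `y0 < b < R`, `h b = b`, `h y < y` for the
other `y ∈ [y0, R]`.
* `deriv_G_h`: for `y ∈ (y0, R)`: `h` has a derivative `h' y > 0` at `y` (`h_deriv`) and `Gr (h y') = y'` for `y'` near `y` (`Gr_h`). The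
 real function `Gr c0` has at `h y` the derivative `(deriv g (h y)).re` (`HasDerivAt.real_of_complex` for `g`, `G_real`), so
 `(deriv g (h y)).re * h' y = 1` (chain rule, uniqueness of derivatives). So `deriv g (h y) ≠ 0`.
* `deriv_real`: `(deriv g x).im = 0` for real `x`: `HasDerivAt.comp_ofReal` gives that `x ↦ g x = ofReal (Gr x)` has derivative
 `deriv g x`; its imaginary part is the derivative of `0`.
* `deriv_G_b`: `h' b = 1` since `h y - y` has a local maximum at `b` (`IsLocalMax.hasDerivAt_eq_zero`); so `deriv g b = 1`.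
* `left_data`: for `x ∈ [y0, b)`: `0 < x < b = h b ≤ h R`, so with `y = Gr x`: `y ∈ [y0, R]`, `h y = x` (`h_Gr`). `y < b` (otherwise
 `x = h y ≥ h b = b`) and `x = h y < y` (`y ≠ b`). So the orbit of `y0` stays in `[y0, b)` and increases strictly; its limit
 `x' ≤ b` satisfies `Gr x' = x'`, so `x' = b`. `deriv g (X m) ≠ 0`: `X m = h y` with `y = X (m+1) ∈ (y0, R)`, `deriv_G_h`.
* `right_data`: `e ∈ (b, R)`: `h` maps `(b, R]` into itself with `h y < y` (`h y > h b = b`), `P m = h^[m] e` decreases to a fixed point, which is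
 `b`; `g (P (m+1)) = P m` by `Gr_h`; `deriv g (h (P m)) ≠ 0` by `deriv_G_h` as `P m ∈ (y0, R)`.
* `b_lt_xs`: `b = h b ≤ h R < xs c0 i` for `i ≥ 1` (`xs_gt`).
-/

open Set Filter Topology

namespace JC

namespace CuspUseAux

variable {S : St} {c : ℝ}

private theorem y0_lt_Ioo_mem {P : PreSt} {y : ℝ} (hy : y ∈ Ioo (P.y0 c) P.R) :
    y ∈ Icc (P.y0 c) P.R := ⟨hy.1.le, hy.2.le⟩

private theorem deriv_G_h {P : PreSt} (hc : c ∈ P.seg) {y : ℝ} (hy : y ∈ Ioo (P.y0 c) P.R)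
    {d : ℝ} (hd : HasDerivAt (P.h c) d y) :
    (deriv (P.G c) ((P.h c y : ℝ) : ℂ)).re * d = 1 := by
  have hG : HasDerivAt (P.G c) (deriv (P.G c) ((P.h c y : ℝ) : ℂ)) ((P.h c y : ℝ) : ℂ) :=
    (P.G_diff c _).hasDerivAt
  have h1 : HasDerivAt (fun x : ℝ => (P.G c (x : ℂ)).re)
      (deriv (P.G c) ((P.h c y : ℝ) : ℂ)).re (P.h c y) := hG.real_of_complex
  have h2 : HasDerivAt ((fun x : ℝ => (P.G c (x : ℂ)).re) ∘ (P.h c))
      ((deriv (P.G c) ((P.h c y : ℝ) : ℂ)).re * d) y := h1.comp y hd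
  have h3 : HasDerivAt ((fun x : ℝ => (P.G c (x : ℂ)).re) ∘ (P.h c)) 1 y := by
    refine (hasDerivAt_id y).congr_of_eventuallyEq ?_
    filter_upwards [isOpen_Ioo.mem_nhds hy] with u hu
    show (P.G c ((P.h c u : ℝ) : ℂ)).re = u
    rw [P.G_real, Complex.ofReal_re]
    exact PreSt.Gr_h hc (y0_lt_Ioo_mem hu)
  exact h2.unique h3

private theorem deriv_G_h_ne {P : PreSt} (hc : c ∈ P.seg) {y : ℝ} (hy : y ∈ Ioo (P.y0 c) P.R) :
    deriv (P.G c) ((P.h c y : ℝ) : ℂ) ≠ 0 := by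
  obtain ⟨h', hd, -⟩ := PreSt.h_deriv hc
  have h1 := deriv_G_h hc hy (hd y ⟨hy.1, hy.2.le⟩).1
  intro h0
  rw [h0, Complex.zero_re, zero_mul] at h1
  exact zero_ne_one h1

private theorem deriv_real (P : PreSt) (c x : ℝ) : (deriv (P.G c) (x : ℂ)).im = 0 := by
  have hG : HasDerivAt (P.G c) (deriv (P.G c) (x : ℂ)) (x : ℂ) := (P.G_diff c _).hasDerivAt
  have h1 : HasDerivAt (fun y : ℝ => P.G c (y : ℂ)) (deriv (P.G c) (x : ℂ)) x := hG.comp_ofReal
  have h2 : HasDerivAt (fun y : ℝ => Complex.imCLM (P.G c (y : ℂ)))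
      (Complex.imCLM (deriv (P.G c) (x : ℂ))) x :=
    Complex.imCLM.hasFDerivAt.comp_hasDerivAt x h1
  have h3 : HasDerivAt (fun y : ℝ => Complex.imCLM (P.G c (y : ℂ))) 0 x := by
    have : (fun y : ℝ => Complex.imCLM (P.G c (y : ℂ))) = fun _ => (0 : ℝ) := by
      funext y
      rw [P.G_real]
      simp
    rw [this]
    exact hasDerivAt_const x 0
  have h4 := h2.unique h3
  simpa using h4

end CuspUseAux

namespace CuspData

variable {S : St} {t0 b : ℝ}

theorem mem_seg (D : CuspData S t0 b) : S.ct t0 ∈ S.seg := by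
  exact PreSt.ct_mem S.toPreSt ⟨D.ht0, D.ht1.le⟩

private theorem b_mem (D : CuspData S t0 b) : b ∈ Icc (S.y0 (S.ct t0)) S.R :=
  ⟨D.yb.le, D.bR.le⟩

private theorem y0_le (D : CuspData S t0 b) : -S.R ≤ S.y0 (S.ct t0) :=
  (PreSt.y0_mem D.mem_seg).1

private theorem big_mem (D : CuspData S t0 b) {y : ℝ} (hy : y ∈ Icc (S.y0 (S.ct t0)) S.R) :
    y ∈ Icc (-S.R) S.R := ⟨D.y0_le.trans hy.1, hy.2⟩

private theorem le_self (D : CuspData S t0 b) {y : ℝ} (hy : y ∈ Icc (S.y0 (S.ct t0)) S.R) :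
    S.h (S.ct t0) y ≤ y := by
  by_cases h : y = b
  · rw [h, D.fix]
  · exact (D.lt y hy h).le

theorem deriv_G_b (D : CuspData S t0 b) : deriv (S.G (S.ct t0)) (b : ℂ) = 1 := by
  obtain ⟨h', hd, -⟩ := PreSt.h_deriv D.mem_seg
  have hb : b ∈ Ioo (S.y0 (S.ct t0)) S.R := ⟨D.yb, D.bR⟩
  have h1 := (hd b ⟨hb.1, hb.2.le⟩).1
  have h2 : HasDerivAt (fun y => S.h (S.ct t0) y - y) (h' b - 1) b := h1.sub (hasDerivAt_id b)
  have h3 : IsLocalMax (fun y => S.h (S.ct t0) y - y) b := by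
    filter_upwards [isOpen_Ioo.mem_nhds hb] with y hy
    have h4 := D.le_self ⟨hy.1.le, hy.2.le⟩
    show S.h (S.ct t0) y - y ≤ S.h (S.ct t0) b - b
    rw [D.fix]
    linarith
  have h5 := h3.hasDerivAt_eq_zero h2
  have h6 := CuspUseAux.deriv_G_h D.mem_seg hb h1
  rw [D.fix] at h6
  have h7 : h' b = 1 := by linarith
  rw [h7, mul_one] at h6
  exact Complex.ext (by rw [h6, Complex.one_re])
    (by rw [CuspUseAux.deriv_real, Complex.one_im])

private theorem step_up (D : CuspData S t0 b) {x : ℝ} (h1 : S.y0 (S.ct t0) ≤ x) (h2 : x < b) :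
    x < S.Gr (S.ct t0) x ∧ S.Gr (S.ct t0) x < b ∧
      S.h (S.ct t0) (S.Gr (S.ct t0) x) = x := by
  have h0 : 0 < x := lt_of_lt_of_le D.ypos h1
  have hRR : S.R ∈ Icc (S.y0 (S.ct t0)) S.R := ⟨(D.yb.trans D.bR).le, le_rfl⟩
  have h3 : x ≤ S.h (S.ct t0) S.R := by
    have h4 := PreSt.h_monotone D.mem_seg (D.big_mem D.b_mem) (D.big_mem hRR) D.bR.le
    rw [D.fix] at h4
    linarith
  obtain ⟨h5, h6⟩ := PreSt.h_Gr D.mem_seg h0.le h3
  have h7 : S.Gr (S.ct t0) x < b := by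
    by_contra h
    push Not at h
    have h8 := PreSt.h_monotone D.mem_seg (D.big_mem D.b_mem) (D.big_mem h5) h
    rw [D.fix, h6] at h8
    linarith
  have h9 := D.lt _ h5 h7.ne
  rw [h6] at h9
  exact ⟨h9, h7, h6⟩

theorem left_data (D : CuspData S t0 b) :
    LeftData (S.G (S.ct t0)) b fun m => (S.Gr (S.ct t0))^[m] (S.y0 (S.ct t0)) := by
  have hmem : ∀ m, S.y0 (S.ct t0) ≤ (S.Gr (S.ct t0))^[m] (S.y0 (S.ct t0)) ∧
      (S.Gr (S.ct t0))^[m] (S.y0 (S.ct t0)) < b := by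
    intro m
    induction m with
    | zero => exact ⟨le_rfl, D.yb⟩
    | succ m ih =>
      rw [Function.iterate_succ_apply']
      obtain ⟨h1, h2, -⟩ := D.step_up ih.1 ih.2
      exact ⟨ih.1.trans h1.le, h2⟩
  have hmono : ∀ m, (S.Gr (S.ct t0))^[m] (S.y0 (S.ct t0)) <
      (S.Gr (S.ct t0))^[m + 1] (S.y0 (S.ct t0)) := by
    intro m
    rw [Function.iterate_succ_apply']
    exact (D.step_up (hmem m).1 (hmem m).2).1
  have hcontG : Continuous (S.Gr (S.ct t0)) :=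
    S.toPreSt.Gr_cont.comp (continuous_const.prodMk continuous_id)
  refine ⟨hmono, ?_, ?_, ?_⟩
  · have hM : Monotone fun m => (S.Gr (S.ct t0))^[m] (S.y0 (S.ct t0)) :=
      monotone_nat_of_le_succ fun m => (hmono m).le
    have hB : BddAbove (range fun m => (S.Gr (S.ct t0))^[m] (S.y0 (S.ct t0))) := by
      refine ⟨b, ?_⟩
      rintro _ ⟨m, rfl⟩
      exact (hmem m).2.le
    have hlim := tendsto_atTop_ciSup hM hB
    obtain ⟨x, hx⟩ : ∃ x, x = ⨆ m, (S.Gr (S.ct t0))^[m] (S.y0 (S.ct t0)) := ⟨_, rfl⟩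
    rw [← hx] at hlim
    have hx1 : S.y0 (S.ct t0) ≤ x :=
      ge_of_tendsto' hlim fun m => (hmem m).1
    have hx2 : x ≤ b := le_of_tendsto' hlim fun m => (hmem m).2.le
    have hfix : S.Gr (S.ct t0) x = x := by
      have h1 : Tendsto (fun m => (S.Gr (S.ct t0))^[m + 1] (S.y0 (S.ct t0))) atTop
          (𝓝 (S.Gr (S.ct t0) x)) := by
        have h2 := (hcontG.tendsto x).comp hlim
        refine h2.congr fun m => ?_
        rw [Function.iterate_succ_apply']
        rfl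
      have h3 := (tendsto_add_atTop_iff_nat
        (f := fun m => (S.Gr (S.ct t0))^[m] (S.y0 (S.ct t0))) 1).2 hlim
      exact tendsto_nhds_unique h1 h3
    rcases hx2.lt_or_eq with h | h
    · have := (D.step_up hx1 h).1
      rw [hfix] at this
      exact absurd this (lt_irrefl _)
    · rw [← h]
      exact hlim
  · intro m
    rw [S.toPreSt.G_real, Function.iterate_succ_apply']
  · intro m
    have h1 := D.step_up (hmem m).1 (hmem m).2
    have h2 : deriv (S.G (S.ct t0))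
        ((S.h (S.ct t0) (S.Gr (S.ct t0) ((S.Gr (S.ct t0))^[m] (S.y0 (S.ct t0)))) : ℝ) : ℂ) ≠ 0 :=
      CuspUseAux.deriv_G_h_ne D.mem_seg
        ⟨lt_of_le_of_lt (hmem m).1 h1.1, h1.2.1.trans D.bR⟩
    rw [h1.2.2] at h2
    exact h2

theorem h_monoOn (D : CuspData S t0 b) : StrictMonoOn (S.h (S.ct t0)) (Icc b S.R) := by
  exact (PreSt.h_mono D.mem_seg).mono (Icc_subset_Icc_left D.yb.le)

theorem h_between (D : CuspData S t0 b) :
    ∀ y ∈ Ioc b S.R, b < S.h (S.ct t0) y ∧ S.h (S.ct t0) y < y := by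
  intro y hy
  constructor
  · have h1 := D.h_monoOn ⟨le_rfl, D.bR.le⟩ ⟨hy.1.le, hy.2⟩ hy.1
    rwa [D.fix] at h1
  · exact D.lt y ⟨(D.yb.trans hy.1).le, hy.2⟩ hy.1.ne'

theorem G_h (D : CuspData S t0 b) :
    ∀ y ∈ Icc b S.R, S.G (S.ct t0) (S.h (S.ct t0) y : ℂ) = (y : ℂ) := by
  intro y hy
  rw [S.toPreSt.G_real, PreSt.Gr_h D.mem_seg ⟨D.yb.le.trans hy.1, hy.2⟩]

theorem right_data (D : CuspData S t0 b) {e : ℝ} (he : e ∈ Ioo b S.R) :
    RightData (S.G (S.ct t0)) b fun m => (S.h (S.ct t0))^[m] e := by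
  have hmem : ∀ m, b < (S.h (S.ct t0))^[m] e ∧ (S.h (S.ct t0))^[m] e < S.R := by
    intro m
    induction m with
    | zero => exact he
    | succ m ih =>
      rw [Function.iterate_succ_apply']
      have h1 := D.h_between _ ⟨ih.1, ih.2.le⟩
      exact ⟨h1.1, h1.2.trans ih.2⟩
  have hanti : ∀ m, (S.h (S.ct t0))^[m + 1] e < (S.h (S.ct t0))^[m] e := by
    intro m
    rw [Function.iterate_succ_apply']
    exact (D.h_between _ ⟨(hmem m).1, (hmem m).2.le⟩).2
  have hconth : Continuous (S.h (S.ct t0)) :=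
    S.toPreSt.h_cont.comp (continuous_const.prodMk continuous_id)
  refine ⟨hanti, ?_, ?_, ?_⟩
  · have hM : Antitone fun m => (S.h (S.ct t0))^[m] e :=
      antitone_nat_of_succ_le fun m => (hanti m).le
    have hB : BddBelow (range fun m => (S.h (S.ct t0))^[m] e) := by
      refine ⟨b, ?_⟩
      rintro _ ⟨m, rfl⟩
      exact (hmem m).1.le
    have hlim := tendsto_atTop_ciInf hM hB
    obtain ⟨x, hx⟩ : ∃ x, x = ⨅ m, (S.h (S.ct t0))^[m] e := ⟨_, rfl⟩
    rw [← hx] at hlim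
    have hx1 : b ≤ x := ge_of_tendsto' hlim fun m => (hmem m).1.le
    have hx2 : x ≤ S.R := le_of_tendsto' hlim fun m => (hmem m).2.le
    have hfix : S.h (S.ct t0) x = x := by
      have h1 : Tendsto (fun m => (S.h (S.ct t0))^[m + 1] e) atTop
          (𝓝 (S.h (S.ct t0) x)) := by
        have h2 := (hconth.tendsto x).comp hlim
        refine h2.congr fun m => ?_
        rw [Function.iterate_succ_apply']
        rfl
      have h3 := (tendsto_add_atTop_iff_nat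
        (f := fun m => (S.h (S.ct t0))^[m] e) 1).2 hlim
      exact tendsto_nhds_unique h1 h3
    rcases hx1.lt_or_eq with h | h
    · have := (D.h_between x ⟨h, hx2⟩).2
      rw [hfix] at this
      exact absurd this (lt_irrefl _)
    · rw [h]
      exact hlim
  · intro m
    rw [Function.iterate_succ_apply']
    exact D.G_h _ ⟨(hmem m).1.le, (hmem m).2.le⟩
  · intro m
    rw [Function.iterate_succ_apply']
    exact CuspUseAux.deriv_G_h_ne D.mem_seg ⟨D.yb.trans (hmem m).1, (hmem m).2⟩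

theorem b_lt_xs (D : CuspData S t0 b) {i : ℕ} (hi : 1 ≤ i) : b < S.xs (S.ct t0) i := by
  have hRR : S.R ∈ Icc (S.y0 (S.ct t0)) S.R := ⟨(D.yb.trans D.bR).le, le_rfl⟩
  have h4 := PreSt.h_monotone D.mem_seg (D.big_mem D.b_mem) (D.big_mem hRR) D.bR.le
  rw [D.fix] at h4
  exact lt_of_le_of_lt h4 (St.xs_gt D.mem_seg hi)

theorem h_contOn (D : CuspData S t0 b) : ContinuousOn (S.h (S.ct t0)) (Icc b S.R) := by
  exact (S.toPreSt.h_cont.comp (continuous_const.prodMk continuous_id)).continuousOn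

end CuspData

end JC
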