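import Pool.Agent.Lib.JC.Core

/-!
# JC.ExistsWin : uniform window constants for a continuous family of entire functions

Proof.
1. By compactness of `{c | |c - c0| ≤ 1} ×ˢ closedBall b 4` there is `M` with `‖G c z‖ ≤ M` there.
2. Cauchy: for `z ∈ ball b 1` (in fact `closedBall b 2`) `‖deriv (G c) z‖ ≤ M` (circle of radius
   `1`, `Complex.norm_deriv_le_of_forall_mem_sphere_norm_le`), and the same estimate applied to
   `deriv (G c)` on `closedBall b 2` gives `‖deriv (deriv (G c)) z‖ ≤ M` for `z ∈ closedBall b 1`.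
3. `d2` with `C = M + 1`, `r ≤ 1`: for fixed `w` the function `z ↦ G c z - deriv (G c) w * z` has
   derivative `deriv (G c) z - deriv (G c) w`, of norm `≤ M ‖z - w‖` by the mean value inequality for
   `deriv (G c)`; on the segment from `w` to `z` this is `≤ M ‖z - w‖`; mean value inequality
   (`Convex.norm_image_sub_le_of_norm_deriv_le` on the convex set
   `ball b r ∩ closedBall w ‖z - w‖`, or on the segment).
4. `d1`: for `z ∈ ball b r`, `‖deriv (G c) z - deriv (G c) b‖ ≤ M r`, and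
   `‖deriv (G c) b - deriv (G c0) b‖ ≤ sup_{sphere b 1} ‖G c - G c0‖`, which tends to `0` as
   `c → c0`, by uniform continuity of `(c, z) ↦ G c z` on the compact set. Take `r` with
   `M r ≤ 1/4` and `δ ≤ 1` with the sup `≤ 1/4`.
-/

open Set Filter Topology

namespace JC

theorem exists_win (G : ℝ → ℂ → ℂ) (hG : Continuous fun p : ℝ × ℂ => G p.1 p.2)
    (hd : ∀ c, Differentiable ℂ (G c)) (hr : ∀ (c x : ℝ), (G c (x : ℂ)).im = 0) (c0 b : ℝ)
    (h1 : deriv (G c0) (b : ℂ) = 1) :
    ∃ r C δ : ℝ, 0 < δ ∧ ∀ c, |c - c0| < δ → Win (G c) b r C := by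
  have hK : IsCompact (Metric.closedBall c0 1 ×ˢ Metric.closedBall (b : ℂ) 4) :=
    (isCompact_closedBall _ _).prod (isCompact_closedBall _ _)
  obtain ⟨M0, hM0⟩ := hK.exists_bound_of_continuousOn hG.continuousOn
  obtain ⟨M, hM1, hMM⟩ : ∃ M : ℝ, 1 ≤ M ∧ M0 ≤ M := ⟨max M0 1, le_max_right _ _, le_max_left _ _⟩
  have hMpos : 0 < M := by linarith
  have hMb : ∀ c, |c - c0| ≤ 1 → ∀ z ∈ Metric.closedBall (b : ℂ) 4, ‖G c z‖ ≤ M := by
    intro c hc z hz
    exact (hM0 (c, z) ⟨by rw [Metric.mem_closedBall, Real.dist_eq]; exact hc, hz⟩).trans hMM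
  have hdd : ∀ c, Differentiable ℂ (deriv (G c)) := by
    intro c
    have := ((hd c).differentiableOn (s := univ)).deriv isOpen_univ
    exact differentiableOn_univ.1 this
  -- first derivative
  have hD1 : ∀ c, |c - c0| ≤ 1 → ∀ z ∈ Metric.closedBall (b : ℂ) 2, ‖deriv (G c) z‖ ≤ M := by
    intro c hc z hz
    have := Complex.norm_deriv_le_of_forall_mem_sphere_norm_le (c := z) (R := 1) (C := M)
      one_pos (hd c).diffContOnCl (fun y hy => hMb c hc y (by
        rw [mem_sphere_iff_norm] at hy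
        rw [mem_closedBall_iff_norm] at hz ⊢
        calc ‖y - b‖ = ‖(y - z) + (z - b)‖ := by ring_nf
          _ ≤ ‖y - z‖ + ‖z - b‖ := norm_add_le _ _
          _ ≤ 4 := by linarith))
    simpa using this
  have hD2 : ∀ c, |c - c0| ≤ 1 → ∀ z ∈ Metric.closedBall (b : ℂ) 1,
      ‖deriv (deriv (G c)) z‖ ≤ M := by
    intro c hc z hz
    have := Complex.norm_deriv_le_of_forall_mem_sphere_norm_le (c := z) (R := 1) (C := M)
      one_pos (hdd c).diffContOnCl (fun y hy => hD1 c hc y (by
        rw [mem_sphere_iff_norm] at hy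
        rw [mem_closedBall_iff_norm] at hz ⊢
        calc ‖y - b‖ = ‖(y - z) + (z - b)‖ := by ring_nf
          _ ≤ ‖y - z‖ + ‖z - b‖ := norm_add_le _ _
          _ ≤ 2 := by linarith))
    simpa using this
  -- Lipschitz bound for the derivative
  have hLip : ∀ c, |c - c0| ≤ 1 → ∀ z ∈ Metric.ball (b : ℂ) 1, ∀ w ∈ Metric.ball (b : ℂ) 1,
      ‖deriv (G c) z - deriv (G c) w‖ ≤ M * ‖z - w‖ := by
    intro c hc z hz w hw
    exact Convex.norm_image_sub_le_of_norm_deriv_le (s := Metric.ball (b : ℂ) 1)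
      (fun x _ => (hdd c) x) (fun x hx => hD2 c hc x (Metric.ball_subset_closedBall hx))
      (convex_ball _ _) hw hz
  -- second order estimate
  have hT : ∀ c, |c - c0| ≤ 1 → ∀ z ∈ Metric.ball (b : ℂ) 1, ∀ w ∈ Metric.ball (b : ℂ) 1,
      ‖G c z - G c w - deriv (G c) w * (z - w)‖ ≤ M * ‖z - w‖ ^ 2 := by
    intro c hc z hz w hw
    have hder : ∀ x : ℂ, HasDerivAt (fun y => G c y - deriv (G c) w * y)
        (deriv (G c) x - deriv (G c) w) x := by
      intro x
      have e1 := ((hd c) x).hasDerivAt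
      have e2 := (hasDerivAt_id x).const_mul (deriv (G c) w)
      have e3 : HasDerivAt (fun y => G c y - deriv (G c) w * y)
          (deriv (G c) x - deriv (G c) w * 1) x := e1.sub e2
      rwa [mul_one] at e3
    have key := Convex.norm_image_sub_le_of_norm_deriv_le (𝕜 := ℂ)
      (f := fun y => G c y - deriv (G c) w * y) (C := M * ‖z - w‖)
      (s := Metric.ball (b : ℂ) 1 ∩ Metric.closedBall w ‖z - w‖) (x := w) (y := z)
      (fun x _ => (hder x).differentiableAt)
      (fun x hx => by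
        rw [(hder x).deriv]
        refine (hLip c hc x hx.1 w hw).trans ?_
        have h2 := hx.2
        rw [mem_closedBall_iff_norm] at h2
        exact mul_le_mul_of_nonneg_left h2 hMpos.le)
      ((convex_ball _ _).inter (convex_closedBall _ _))
      ⟨hw, Metric.mem_closedBall_self (norm_nonneg _)⟩
      ⟨hz, by rw [mem_closedBall_iff_norm]⟩
    have e4 : G c z - deriv (G c) w * z - (G c w - deriv (G c) w * w)
        = G c z - G c w - deriv (G c) w * (z - w) := by ring
    rw [e4] at key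
    calc ‖G c z - G c w - deriv (G c) w * (z - w)‖ ≤ M * ‖z - w‖ * ‖z - w‖ := key
      _ = M * ‖z - w‖ ^ 2 := by ring
  -- uniform continuity
  have hU := hK.uniformContinuousOn_of_continuous hG.continuousOn
  rw [Metric.uniformContinuousOn_iff] at hU
  obtain ⟨δ, hδ, hδ2⟩ := hU (1 / 4) (by norm_num)
  refine ⟨1 / (4 * M), M, min δ 1, lt_min hδ one_pos, fun c hc => ?_⟩
  have hcδ : |c - c0| < δ := hc.trans_le (min_le_left _ _)
  have hc1 : |c - c0| < 1 := hc.trans_le (min_le_right _ _)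
  have hrpos : 0 < 1 / (4 * M) := by positivity
  have hr1 : 1 / (4 * M) ≤ 1 := by
    rw [div_le_one (by positivity)]
    linarith
  have hsub : Metric.ball (b : ℂ) (1 / (4 * M)) ⊆ Metric.ball (b : ℂ) 1 :=
    Metric.ball_subset_ball hr1
  refine ⟨hrpos, hMpos, hd c, hr c, fun z hz => ?_, fun z hz w hw =>
    hT c hc1.le z (hsub hz) w (hsub hw)⟩
  have hb : (b : ℂ) ∈ Metric.ball (b : ℂ) 1 := Metric.mem_ball_self one_pos
  have e1 : ‖deriv (G c) z - deriv (G c) b‖ ≤ 1 / 4 := by
    refine (hLip c hc1.le z (hsub hz) b hb).trans ?_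
    rw [mem_ball_iff_norm] at hz
    calc M * ‖z - b‖ ≤ M * (1 / (4 * M)) := mul_le_mul_of_nonneg_left hz.le hMpos.le
      _ = 1 / 4 := by field_simp
  have e2 : ‖deriv (G c) b - deriv (G c0) b‖ ≤ 1 / 4 := by
    have e3 : deriv (fun y => G c y - G c0 y) (b : ℂ) = deriv (G c) b - deriv (G c0) b :=
      deriv_sub ((hd c) b) ((hd c0) b)
    rw [← e3]
    have e4 := Complex.norm_deriv_le_of_forall_mem_sphere_norm_le (c := (b : ℂ)) (R := 1)
      (C := 1 / 4) (f := fun y => G c y - G c0 y) one_pos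
      ((hd c).sub (hd c0)).diffContOnCl (fun y hy => by
        have hy4 : y ∈ Metric.closedBall (b : ℂ) 4 := by
          rw [mem_sphere_iff_norm] at hy
          rw [mem_closedBall_iff_norm]
          linarith
        have e5 := hδ2 (c, y) ⟨by rw [Metric.mem_closedBall, Real.dist_eq]; exact hc1.le, hy4⟩
          (c0, y) ⟨by rw [Metric.mem_closedBall, Real.dist_eq]; simp, hy4⟩ (by
            rw [Prod.dist_eq, dist_self, Real.dist_eq]
            exact max_lt hcδ hδ)
        rw [dist_eq_norm] at e5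
        exact e5.le)
    simpa using e4
  calc ‖deriv (G c) z - 1‖
      = ‖(deriv (G c) z - deriv (G c) b) + (deriv (G c) b - deriv (G c0) b)‖ := by
        rw [h1]; ring_nf
    _ ≤ ‖deriv (G c) z - deriv (G c) b‖ + ‖deriv (G c) b - deriv (G c0) b‖ := norm_add_le _ _
    _ ≤ 1 / 2 := by linarith

end JC
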