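import Pool.Agent.Lib.JC.Core

/-!
# JC.Ratio : the ratio estimate for the passage through the gate

Let `v(z) = g z - z`, so `v'(z) = deriv g z - 1`, `‖v'‖ ≤ 1/2` and
`‖v z - v w - v'(w) (z - w)‖ ≤ C ‖z - w‖ ^ 2` on `ball b r` (from `Win`).

E1 (`ratio_step`). Let `x` be real, `v = v(x) > 0` (a real number, as `g x` is real),
`x' = g x = x + v`, `w = x + ρ v` with `‖ρ‖ ≤ 1`, and `x, x', w ∈ ball b r`, `4 C v ≤ 1`, `v(x') > 0`. Then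
 `v(x') = v (1 + v'(x)) + V1`, `‖V1‖ ≤ C v^2`, and `g w - x' = w + v(w) - x - v(x)
 = ρ v (1 + v'(x)) + V2`, `‖V2‖ ≤ C ‖ρ‖^2 v^2 ≤ C ‖ρ‖ v^2`.
 Put `ρ' = (g w - x') / v(x')`. Then `(ρ' - ρ) v(x') = V2 - ρ V1`, of norm `≤ 2 C ‖ρ‖ v^2`, and
 `‖v(x')‖ ≥ v / 2 - C v^2 ≥ v / 4`. So `‖ρ' - ρ‖ ≤ 8 C ‖ρ‖ v`.

E2 (`ratio_orbit`). Induction on `k ≤ N`: `g^[k] w0 = x k + ρ_k v(x k)` with
 `‖ρ_k - ρ‖ ≤ 16 C ‖ρ‖ (x k - x 0)` (so `≤ 32 C lam ‖ρ‖ ≤ ‖ρ‖`, hence `‖ρ_k‖ ≤ 2 ‖ρ‖ ≤ 1`).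
 Step: for `k < N`, `v(x k) = x (k+1) - x k ∈ (0, 2 lam]`, `4 C v ≤ 8 C lam ≤ 1`, the points are in the ball
 (`‖x k + ρ_k v(x k) - b‖ ≤ lam + 2 lam < r`), and E1 gives
 `‖ρ_(k+1) - ρ_k‖ ≤ 8 C * 2 ‖ρ‖ * (x (k+1) - x k)`. For `k + 1 = N` positivity of `v(x N)` is the
 hypothesis `hN`, for `k + 1 < N` it is `hm`.
-/

open Set Filter Topology

namespace JC

theorem ratio_step {g : ℂ → ℂ} {b r C : ℝ} (W : Win g b r C) {x x' x'' : ℝ} (hx : g (x : ℂ) = (x' : ℂ))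
    (hx' : g (x' : ℂ) = (x'' : ℂ)) (h1 : x < x') (h2 : x' < x'')
    (hxb : (x : ℂ) ∈ Metric.ball (b : ℂ) r) (hxb' : (x' : ℂ) ∈ Metric.ball (b : ℂ) r)
    (h4 : 4 * C * (x' - x) ≤ 1) {ρ : ℂ} (hρ : ‖ρ‖ ≤ 1)
    (hw : (x : ℂ) + ρ * ((x' : ℂ) - (x : ℂ)) ∈ Metric.ball (b : ℂ) r) :
    ∃ ρ' : ℂ, ‖ρ' - ρ‖ ≤ 8 * C * (x' - x) * ‖ρ‖ ∧
      g ((x : ℂ) + ρ * ((x' : ℂ) - (x : ℂ))) = (x' : ℂ) + ρ' * ((x'' : ℂ) - (x' : ℂ)) := by
  have hC : 0 < C := W.hC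
  have hv : 0 < x' - x := sub_pos.2 h1
  have hnv : ‖(x' : ℂ) - (x : ℂ)‖ = x' - x := by
    rw [← Complex.ofReal_sub, Complex.norm_real, Real.norm_eq_abs, abs_of_pos hv]
  have hD := W.d1 (x : ℂ) hxb
  have hV1 := W.d2 (x' : ℂ) hxb' (x : ℂ) hxb
  have hV2 := W.d2 _ hw (x : ℂ) hxb
  rw [hx, hx', hnv] at hV1
  rw [hx] at hV2
  have e1 : (x : ℂ) + ρ * ((x' : ℂ) - (x : ℂ)) - (x : ℂ) = ρ * ((x' : ℂ) - (x : ℂ)) := by ring
  rw [e1, norm_mul, hnv] at hV2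
  set D : ℂ := deriv g (x : ℂ) with hDdef
  set gw : ℂ := g ((x : ℂ) + ρ * ((x' : ℂ) - (x : ℂ))) with hgw
  set V1 : ℂ := (x'' : ℂ) - (x' : ℂ) - D * ((x' : ℂ) - (x : ℂ)) with hV1def
  set V2 : ℂ := gw - (x' : ℂ) - D * (ρ * ((x' : ℂ) - (x : ℂ))) with hV2def
  have hv' : (x'' : ℂ) - (x' : ℂ) = D * ((x' : ℂ) - (x : ℂ)) + V1 := by rw [hV1def]; ring
  have hlow : (x' - x) / 4 ≤ ‖(x'' : ℂ) - (x' : ℂ)‖ := by
    have h5 : (x'' : ℂ) - (x' : ℂ) = ((x' : ℂ) - (x : ℂ)) +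
        ((D - 1) * ((x' : ℂ) - (x : ℂ)) + V1) := by rw [hv']; ring
    have h6 : ‖(D - 1) * ((x' : ℂ) - (x : ℂ)) + V1‖ ≤ (x' - x) / 2 + C * (x' - x) ^ 2 := by
      refine (norm_add_le _ _).trans (add_le_add ?_ hV1)
      rw [norm_mul, hnv]
      nlinarith
    have h7 : ‖(x' : ℂ) - (x : ℂ)‖ ≤ ‖(x'' : ℂ) - (x' : ℂ)‖ +
        ‖(D - 1) * ((x' : ℂ) - (x : ℂ)) + V1‖ := by
      have h8 : (x' : ℂ) - (x : ℂ) = ((x'' : ℂ) - (x' : ℂ)) -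
          ((D - 1) * ((x' : ℂ) - (x : ℂ)) + V1) := by rw [h5]; ring
      calc ‖(x' : ℂ) - (x : ℂ)‖ = ‖((x'' : ℂ) - (x' : ℂ)) -
          ((D - 1) * ((x' : ℂ) - (x : ℂ)) + V1)‖ := by rw [← h8]
        _ ≤ _ := norm_sub_le _ _
    rw [hnv] at h7
    have h9 : C * (x' - x) ^ 2 ≤ (x' - x) / 4 := by nlinarith
    linarith
  have hne : (x'' : ℂ) - (x' : ℂ) ≠ 0 := by
    intro h0
    rw [h0, norm_zero] at hlow
    linarith
  have hpos : 0 < ‖(x'' : ℂ) - (x' : ℂ)‖ := norm_pos_iff.2 hne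
  refine ⟨(gw - (x' : ℂ)) / ((x'' : ℂ) - (x' : ℂ)), ?_, ?_⟩
  · have e2 : (gw - (x' : ℂ)) / ((x'' : ℂ) - (x' : ℂ)) - ρ = (V2 - ρ * V1) / ((x'' : ℂ) - (x' : ℂ)) := by
      rw [eq_div_iff hne, sub_mul, div_mul_cancel₀ _ hne, hV2def, hv']
      ring
    rw [e2, norm_div, div_le_iff₀ hpos]
    have h10 : ‖V2 - ρ * V1‖ ≤ C * (‖ρ‖ * (x' - x)) ^ 2 + ‖ρ‖ * (C * (x' - x) ^ 2) := by
      refine (norm_sub_le _ _).trans (add_le_add hV2 ?_)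
      rw [norm_mul]
      exact mul_le_mul_of_nonneg_left hV1 (norm_nonneg _)
    have h11 : C * (‖ρ‖ * (x' - x)) ^ 2 + ‖ρ‖ * (C * (x' - x) ^ 2) ≤
        2 * C * ‖ρ‖ * (x' - x) ^ 2 := by
      have : ‖ρ‖ ^ 2 ≤ ‖ρ‖ := by nlinarith [norm_nonneg ρ]
      have h12 : 0 ≤ C * (x' - x) ^ 2 := by positivity
      nlinarith
    have h13 : 2 * C * ‖ρ‖ * (x' - x) ^ 2 ≤
        8 * C * (x' - x) * ‖ρ‖ * ‖(x'' : ℂ) - (x' : ℂ)‖ := by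
      have h14 : 0 ≤ 8 * C * (x' - x) * ‖ρ‖ := by positivity
      calc 2 * C * ‖ρ‖ * (x' - x) ^ 2 = 8 * C * (x' - x) * ‖ρ‖ * ((x' - x) / 4) := by ring
        _ ≤ _ := mul_le_mul_of_nonneg_left hlow h14
    linarith
  · rw [div_mul_cancel₀ _ hne]
    ring

theorem ratio_orbit {g : ℂ → ℂ} {b r C : ℝ} (W : Win g b r C) {lam : ℝ} (hl : 0 < lam)
    (h4 : 4 * lam ≤ r) (h32 : 32 * C * lam ≤ 1) (N : ℕ) (x : ℕ → ℝ)
    (hx : ∀ k < N, g (x k : ℂ) = (x (k + 1) : ℂ)) (hm : ∀ k < N, x k < x (k + 1))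
    (hN : x N < (g (x N : ℂ)).re) (hw : ∀ k ≤ N, |x k - b| ≤ lam) (ρ : ℂ) (hρ : ‖ρ‖ ≤ 1 / 2) :
    ∃ ρ' : ℂ, ‖ρ' - ρ‖ ≤ 32 * C * lam * ‖ρ‖ ∧
      g^[N] ((x 0 : ℂ) + ρ * (g (x 0 : ℂ) - (x 0 : ℂ))) =
        (x N : ℂ) + ρ' * (g (x N : ℂ) - (x N : ℂ)) ∧
      ∀ k < N, g^[k] ((x 0 : ℂ) + ρ * (g (x 0 : ℂ) - (x 0 : ℂ))) ∈ Metric.ball (b : ℂ) r := by
  have hC : 0 < C := W.hC
  have hreal : ∀ t : ℝ, g (t : ℂ) = (((g (t : ℂ)).re : ℝ) : ℂ) := fun t =>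
    Complex.ext (by simp) (by simp [W.real t])
  have hre : ∀ k < N, (g (x k : ℂ)).re = x (k + 1) := fun k hk => by rw [hx k hk]; simp
  have hpos : ∀ k ≤ N, x k < (g (x k : ℂ)).re := by
    intro k hk
    rcases hk.lt_or_eq with h | h
    · rw [hre k h]; exact hm k h
    · rw [h]; exact hN
  have hdist : ∀ k ≤ N, ‖(x k : ℂ) - (b : ℂ)‖ ≤ lam := by
    intro k hk
    rw [← Complex.ofReal_sub, Complex.norm_real, Real.norm_eq_abs]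
    exact hw k hk
  have hball : ∀ k ≤ N, (x k : ℂ) ∈ Metric.ball (b : ℂ) r := by
    intro k hk
    rw [mem_ball_iff_norm]
    exact (hdist k hk).trans_lt (by linarith)
  have hmon : ∀ k ≤ N, x 0 ≤ x k := by
    intro k
    induction k with
    | zero => intro _; exact le_rfl
    | succ k ih => intro hk; exact (ih (by omega)).trans (hm k (by omega)).le
  have hsmall : ∀ k ≤ N, x k - x 0 ≤ 2 * lam := by
    intro k hk
    have h5 := abs_le.1 (hw k hk)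
    have h6 := abs_le.1 (hw 0 (by omega))
    linarith [h5.2, h6.1]
  have hn0 : 0 ≤ ‖ρ‖ := norm_nonneg ρ
  have key : ∀ k ≤ N, ∃ ρ' : ℂ, ‖ρ' - ρ‖ ≤ 16 * C * ‖ρ‖ * (x k - x 0) ∧
      g^[k] ((x 0 : ℂ) + ρ * (g (x 0 : ℂ) - (x 0 : ℂ))) =
        (x k : ℂ) + ρ' * (g (x k : ℂ) - (x k : ℂ)) ∧
      ‖ρ'‖ ≤ 2 * ‖ρ‖ ∧ (k < N → (x k : ℂ) + ρ' * (g (x k : ℂ) - (x k : ℂ)) ∈
        Metric.ball (b : ℂ) r) := by
    intro k
    induction k with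
    | zero =>
      intro _
      refine ⟨ρ, by simp, by simp, by linarith, ?_⟩
      intro h0
      rw [mem_ball_iff_norm, hx 0 h0]
      have h7 : ‖((x (0 + 1) : ℂ) - (x 0 : ℂ))‖ ≤ 2 * lam := by
        rw [← Complex.ofReal_sub, Complex.norm_real, Real.norm_eq_abs,
          abs_of_pos (sub_pos.2 (hm 0 h0))]
        exact hsmall 1 (by omega)
      have h8 : (x 0 : ℂ) + ρ * ((x (0 + 1) : ℂ) - (x 0 : ℂ)) - (b : ℂ) =
          ((x 0 : ℂ) - (b : ℂ)) + ρ * ((x (0 + 1) : ℂ) - (x 0 : ℂ)) := by ring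
      rw [h8]
      refine (norm_add_le _ _).trans_lt ?_
      rw [norm_mul]
      have h9 := hdist 0 (by omega)
      nlinarith [norm_nonneg ((x (0 + 1) : ℂ) - (x 0 : ℂ))]
    | succ k ih =>
      intro hk
      obtain ⟨ρk, hk1, hk2, hk3, hk4⟩ := ih (by omega)
      have hkN : k < N := by omega
      have hb := hk4 hkN
      rw [hx k hkN] at hb hk2
      have hvk : 0 < x (k + 1) - x k := sub_pos.2 (hm k hkN)
      have hvk2 : x (k + 1) - x k ≤ 2 * lam := by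
        have h5 := abs_le.1 (hw (k + 1) hk)
        have h6 := abs_le.1 (hw k (by omega))
        linarith [h5.2, h6.1]
      have hCl : C * lam ≤ 1 / 32 := by linarith
      have h44 : 4 * C * (x (k + 1) - x k) ≤ 1 := by
        have : C * (x (k + 1) - x k) ≤ C * (2 * lam) := mul_le_mul_of_nonneg_left hvk2 hC.le
        nlinarith
      obtain ⟨ρ', h10, h11⟩ := ratio_step W (hx k hkN) (hreal (x (k + 1))) (hm k hkN)
        (hpos (k + 1) hk) (hball k (by omega)) (hball (k + 1) hk) h44 (by linarith) hb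
      rw [← hreal] at h11
      have h12 : ‖ρ' - ρk‖ ≤ 16 * C * ‖ρ‖ * (x (k + 1) - x k) := by
        refine h10.trans ?_
        have h13 : 0 ≤ 8 * C * (x (k + 1) - x k) := by positivity
        calc 8 * C * (x (k + 1) - x k) * ‖ρk‖ ≤ 8 * C * (x (k + 1) - x k) * (2 * ‖ρ‖) :=
              mul_le_mul_of_nonneg_left hk3 h13
          _ = _ := by ring
      have h14 : ‖ρ' - ρ‖ ≤ 16 * C * ‖ρ‖ * (x (k + 1) - x 0) := by
        have h15 : ρ' - ρ = (ρ' - ρk) + (ρk - ρ) := by ring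
        rw [h15]
        refine (norm_add_le _ _).trans ?_
        calc ‖ρ' - ρk‖ + ‖ρk - ρ‖ ≤ 16 * C * ‖ρ‖ * (x (k + 1) - x k) +
            16 * C * ‖ρ‖ * (x k - x 0) := add_le_add h12 hk1
          _ = _ := by ring
      have h16 : ‖ρ'‖ ≤ 2 * ‖ρ‖ := by
        have h17 : ‖ρ'‖ ≤ ‖ρ' - ρ‖ + ‖ρ‖ := by
          calc ‖ρ'‖ = ‖(ρ' - ρ) + ρ‖ := by rw [sub_add_cancel]
            _ ≤ _ := norm_add_le _ _
        have h18 : 16 * C * ‖ρ‖ * (x (k + 1) - x 0) ≤ ‖ρ‖ := by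
          have h19 : 16 * C * ‖ρ‖ * (x (k + 1) - x 0) ≤ 16 * C * ‖ρ‖ * (2 * lam) :=
            mul_le_mul_of_nonneg_left (hsmall (k + 1) hk) (by positivity)
          have h20 : 16 * C * ‖ρ‖ * (2 * lam) = 32 * C * lam * ‖ρ‖ := by ring
          have h21 : 32 * C * lam * ‖ρ‖ ≤ 1 * ‖ρ‖ := mul_le_mul_of_nonneg_right h32 hn0
          linarith
        linarith
      refine ⟨ρ', h14, ?_, h16, ?_⟩
      · rw [Function.iterate_succ_apply', hk2, h11]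
      · intro hk1N
        rw [mem_ball_iff_norm, hx (k + 1) hk1N]
        have h7 : ‖((x (k + 1 + 1) : ℂ) - (x (k + 1) : ℂ))‖ ≤ 2 * lam := by
          rw [← Complex.ofReal_sub, Complex.norm_real, Real.norm_eq_abs,
            abs_of_pos (sub_pos.2 (hm (k + 1) hk1N))]
          have h5 := abs_le.1 (hw (k + 1 + 1) (by omega))
          have h6 := abs_le.1 (hw (k + 1) (by omega))
          linarith [h5.2, h6.1]
        have h8 : (x (k + 1) : ℂ) + ρ' * ((x (k + 1 + 1) : ℂ) - (x (k + 1) : ℂ)) - (b : ℂ) =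
            ((x (k + 1) : ℂ) - (b : ℂ)) + ρ' * ((x (k + 1 + 1) : ℂ) - (x (k + 1) : ℂ)) := by ring
        rw [h8]
        refine (norm_add_le _ _).trans_lt ?_
        rw [norm_mul]
        have h9 := hdist (k + 1) (by omega)
        have h22 : ‖ρ'‖ ≤ 1 := by linarith
        have h23 : ‖ρ'‖ * ‖((x (k + 1 + 1) : ℂ) - (x (k + 1) : ℂ))‖ ≤ 1 * (2 * lam) :=
          mul_le_mul h22 h7 (norm_nonneg _) (by norm_num)
        linarith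
  obtain ⟨ρ', h1, h2, -, -⟩ := key N le_rfl
  refine ⟨ρ', ?_, h2, ?_⟩
  · refine h1.trans ?_
    have h19 : 16 * C * ‖ρ‖ * (x N - x 0) ≤ 16 * C * ‖ρ‖ * (2 * lam) :=
      mul_le_mul_of_nonneg_left (hsmall N le_rfl) (by positivity)
    linarith
  · intro k hk
    obtain ⟨ρ'', -, h4', -, h6⟩ := key k hk.le
    rw [h4']
    exact h6 hk

end JC
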