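import Pool.Agent.Lib.JC.Core
import Pool.Agent.Lib.JC.Ratio

/-!
# JC.LeftCoord : the left coordinate `Φ`

`ρ_m(z) = Lm g X m z = (g^[m] z - X m) / v(X m)`, `v(X m) = X (m+1) - X m > 0`.

Choose `M` with `lam := b - X M` satisfying `4 lam ≤ r`, `32 C lam ≤ 1/2`. By continuity choose
`rL > 0` with `‖ρ_M(z)‖ ≤ 1/64` on `ball (X 0) rL`.

(1) For `m' ≥ m ≥ M` `ratio_orbit` applied to the orbit `x k = X (m + k)`, `N = m' - m`,
 `lam = b - X m`: `‖ρ_{m'}(z) - ρ_m(z)‖ ≤ 32 C (b - X m) ‖ρ_m(z)‖` as soon as `‖ρ_m(z)‖ ≤ 1/2`.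
 With `m = M` first: `‖ρ_m(z)‖ ≤ 2 ‖ρ_M(z)‖ ≤ 1/32` for all `m ≥ M`. So the sequence is uniformly Cauchy on
 `ball (X 0) rL` and the limit `Φ` satisfies `‖Φ z‖ ≤ 1/32`, `‖Φ z - ρ_M z‖ ≤ ‖ρ_M z‖ / 2`,
 `Φ (X 0) = 0` (all `ρ_m (X 0) = 0`). `Φ` is holomorphic (locally uniform limit).
(2) `deriv Φ (X 0) ≠ 0`: `‖Φ z‖ ≥ ‖ρ_M z‖ / 2`, and `ρ_M` is entire with `ρ_M (X 0) = 0`,
 `deriv ρ_M (X 0) = deriv (g^[M]) (X 0) / v(X M) ≠ 0` (chain rule, `dne`); if `deriv Φ (X 0) = 0` then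
 `‖Φ z‖ = o(‖z - X 0‖)`, contradicting `‖Φ z‖ ≥ ‖ρ_M z‖ / 2 ≥ κ ‖z - X 0‖`.
-/

open Set Filter Topology

namespace JC

namespace LeftCoordAux

theorem iter_X {g : ℂ → ℂ} {b : ℝ} {X : ℕ → ℝ} (D : LeftData g b X) (m : ℕ) :
    g^[m] (X 0 : ℂ) = (X m : ℂ) := by
  induction m with
  | zero => rfl
  | succ m ih => rw [Function.iterate_succ_apply', ih, D.step]

theorem iter_deriv {g : ℂ → ℂ} {b : ℝ} {X : ℕ → ℝ} (hg : Differentiable ℂ g)
    (D : LeftData g b X) (m : ℕ) : ∃ d : ℂ, d ≠ 0 ∧ HasDerivAt (g^[m]) d (X 0 : ℂ) := by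
  induction m with
  | zero => exact ⟨1, one_ne_zero, by simpa using hasDerivAt_id (X 0 : ℂ)⟩
  | succ m ih =>
    obtain ⟨d, hd, h⟩ := ih
    refine ⟨deriv g (X m : ℂ) * d, mul_ne_zero (D.dne m) hd, ?_⟩
    rw [Function.iterate_succ']
    refine HasDerivAt.comp (X 0 : ℂ) ?_ h
    rw [iter_X D m]
    exact (hg _).hasDerivAt

theorem iter_diff {g : ℂ → ℂ} (hg : Differentiable ℂ g) (m : ℕ) : Differentiable ℂ (g^[m]) := by
  induction m with
  | zero => simpa using differentiable_id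
  | succ m ih =>
    rw [Function.iterate_succ']
    exact hg.comp ih

theorem lt_b {g : ℂ → ℂ} {b : ℝ} {X : ℕ → ℝ} (D : LeftData g b X) (m : ℕ) : X m < b := by
  have hs : StrictMono X := strictMono_nat_of_lt_succ D.mono
  have h1 : X (m + 1) ≤ b := hs.monotone.ge_of_tendsto D.lim (m + 1)
  exact (D.mono m).trans_le h1

theorem vne {g : ℂ → ℂ} {b : ℝ} {X : ℕ → ℝ} (D : LeftData g b X) (m : ℕ) :
    g (X m : ℂ) - (X m : ℂ) ≠ 0 := by
  rw [D.step, ← Complex.ofReal_sub]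
  exact_mod_cast (sub_pos.2 (D.mono m)).ne'

theorem keyA {g : ℂ → ℂ} {b r C : ℝ} {X : ℕ → ℝ} (W : Win g b r C) (D : LeftData g b X) (m : ℕ)
    (h4 : 4 * (b - X m) ≤ r) (h32 : 32 * C * (b - X m) ≤ 1) (N : ℕ) (z : ℂ)
    (hz : ‖Lm g X m z‖ ≤ 1 / 2) :
    ‖Lm g X (N + m) z - Lm g X m z‖ ≤ 32 * C * (b - X m) * ‖Lm g X m z‖ := by
  have hs : StrictMono X := strictMono_nat_of_lt_succ D.mono
  obtain ⟨ρ', h1, h2, -⟩ := ratio_orbit W (sub_pos.2 (lt_b D m)) h4 h32 N (fun k => X (m + k))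
    (fun k _ => by simpa [add_assoc] using D.step (m + k))
    (fun k _ => by simpa [add_assoc] using D.mono (m + k))
    (by
      show X (m + N) < (g (X (m + N) : ℂ)).re
      rw [D.step, Complex.ofReal_re]
      exact D.mono _)
    (fun k _ => by
      show |X (m + k) - b| ≤ b - X m
      rw [abs_sub_comm, abs_of_pos (sub_pos.2 (lt_b D _))]
      linarith [hs.monotone (show m ≤ m + k by omega)])
    (Lm g X m z) hz
  have h3 : (X (m + 0) : ℂ) + Lm g X m z * (g (X (m + 0) : ℂ) - (X (m + 0) : ℂ)) = g^[m] z := by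
    rw [add_zero]
    unfold Lm
    rw [div_mul_cancel₀ _ (vne D m)]
    ring
  rw [h3, ← Function.iterate_add_apply] at h2
  have h5 : Lm g X (N + m) z = ρ' := by
    unfold Lm
    rw [h2, add_comm m N, add_sub_cancel_left, mul_div_assoc, div_self (vne D _), mul_one]
  rw [h5]
  exact h1

end LeftCoordAux

open LeftCoordAux

theorem left_coord {g : ℂ → ℂ} {b r C : ℝ} {X : ℕ → ℝ} (W : Win g b r C)
    (D : LeftData g b X) :
    ∃ (Φ : ℂ → ℂ) (rL : ℝ), 0 < rL ∧ DifferentiableOn ℂ Φ (Metric.ball (X 0 : ℂ) rL) ∧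
      TendstoUniformlyOn (Lm g X) Φ atTop (Metric.ball (X 0 : ℂ) rL) ∧ Φ (X 0 : ℂ) = 0 ∧
      deriv Φ (X 0 : ℂ) ≠ 0 ∧ ∀ z ∈ Metric.ball (X 0 : ℂ) rL, ‖Φ z‖ ≤ 1 / 32 := by
  have hs : StrictMono X := strictMono_nat_of_lt_succ D.mono
  have hC : 0 < C := W.hC
  have hg : Differentiable ℂ g := W.diff
  have hε : 0 < min (r / 4) (1 / (64 * C)) := lt_min (by linarith [W.hr]) (by positivity)
  obtain ⟨M, hM⟩ : ∃ M : ℕ, b - X M < min (r / 4) (1 / (64 * C)) := by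
    have h1 : Tendsto (fun m => b - X m) atTop (𝓝 0) := by
      have := (tendsto_const_nhds (x := b)).sub D.lim
      simpa using this
    exact (h1.eventually (gt_mem_nhds hε)).exists
  have hM4 : 4 * (b - X M) ≤ r := by
    have := hM.trans_le (min_le_left _ _)
    linarith
  have hM64 : 64 * C * (b - X M) ≤ 1 := by
    have h1 := (hM.trans_le (min_le_right _ _)).le
    calc 64 * C * (b - X M) ≤ 64 * C * (1 / (64 * C)) := mul_le_mul_of_nonneg_left h1 (by positivity)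
      _ = 1 := by field_simp
  have hmon : ∀ m, M ≤ m → b - X m ≤ b - X M := fun m hm => by
    have := hs.monotone hm
    linarith
  have hcond : ∀ m, M ≤ m → 4 * (b - X m) ≤ r ∧ 32 * C * (b - X m) ≤ 1 := fun m hm => by
    have h1 := hmon m hm
    refine ⟨by linarith, ?_⟩
    have h2 : C * (b - X m) ≤ C * (b - X M) := mul_le_mul_of_nonneg_left h1 hC.le
    have h3 : 0 ≤ C * (b - X M) := mul_nonneg hC.le (sub_pos.2 (lt_b D M)).le
    linarith
  have hzero : ∀ m, Lm g X m (X 0 : ℂ) = 0 := fun m => by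
    unfold Lm
    rw [iter_X D m, sub_self, zero_div]
  have hdiff : ∀ m, Differentiable ℂ (Lm g X m) := fun m => by
    unfold Lm
    exact ((iter_diff hg m).sub_const _).div_const _
  obtain ⟨rL, hrL, hball⟩ : ∃ rL > 0, ∀ z ∈ Metric.ball (X 0 : ℂ) rL, ‖Lm g X M z‖ ≤ 1 / 64 := by
    have h1 : Tendsto (fun z => ‖Lm g X M z‖) (𝓝 (X 0 : ℂ)) (𝓝 0) := by
      have h2 : ContinuousAt (fun z => ‖Lm g X M z‖) (X 0 : ℂ) :=
        (hdiff M).continuous.norm.continuousAt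
      have h3 := h2.tendsto
      simp only [hzero M, norm_zero] at h3
      exact h3
    have h4 : ∀ᶠ z in 𝓝 (X 0 : ℂ), ‖Lm g X M z‖ < 1 / 64 := h1.eventually (gt_mem_nhds (by norm_num))
    obtain ⟨e, he, h5⟩ := Metric.eventually_nhds_iff_ball.1 h4
    exact ⟨e, he, fun z hz => (h5 z hz).le⟩
  have hlow : ∀ z ∈ Metric.ball (X 0 : ℂ) rL, ∀ m, M ≤ m →
      ‖Lm g X m z - Lm g X M z‖ ≤ 1 / 2 * ‖Lm g X M z‖ := by
    intro z hz m hm
    obtain ⟨k, rfl⟩ := Nat.exists_eq_add_of_le' hm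
    have h1 := keyA W D M (hcond M le_rfl).1 (hcond M le_rfl).2 k z
      ((hball z hz).trans (by norm_num))
    refine h1.trans (mul_le_mul_of_nonneg_right ?_ (norm_nonneg _))
    linarith
  have hsm : ∀ z ∈ Metric.ball (X 0 : ℂ) rL, ∀ m, M ≤ m → ‖Lm g X m z‖ ≤ 1 / 32 := by
    intro z hz m hm
    have h1 := hlow z hz m hm
    have h2 := hball z hz
    have h3 : ‖Lm g X m z‖ ≤ ‖Lm g X m z - Lm g X M z‖ + ‖Lm g X M z‖ := by
      calc ‖Lm g X m z‖ = ‖(Lm g X m z - Lm g X M z) + Lm g X M z‖ := by rw [sub_add_cancel]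
        _ ≤ _ := norm_add_le _ _
    linarith
  have hcau : ∀ z ∈ Metric.ball (X 0 : ℂ) rL, ∀ m, M ≤ m → ∀ m', m ≤ m' →
      ‖Lm g X m' z - Lm g X m z‖ ≤ C * (b - X m) := by
    intro z hz m hm m' hm'
    obtain ⟨k, rfl⟩ := Nat.exists_eq_add_of_le' hm'
    have h1 := keyA W D m (hcond m hm).1 (hcond m hm).2 k z
      ((hsm z hz m hm).trans (by norm_num))
    refine h1.trans ?_
    have h2 : 0 ≤ 32 * C * (b - X m) := by
      have := (sub_pos.2 (lt_b D m)).le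
      positivity
    calc 32 * C * (b - X m) * ‖Lm g X m z‖ ≤ 32 * C * (b - X m) * (1 / 32) :=
          mul_le_mul_of_nonneg_left (hsm z hz m hm) h2
      _ = C * (b - X m) := by ring
  have htend : Tendsto (fun m => C * (b - X m)) atTop (𝓝 0) := by
    have := ((tendsto_const_nhds (x := b)).sub D.lim).const_mul C
    simpa using this
  have hunif : UniformCauchySeqOn (Lm g X) atTop (Metric.ball (X 0 : ℂ) rL) := by
    rw [Metric.uniformCauchySeqOn_iff]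
    intro ε hε
    have h1 : ∀ᶠ m in atTop, C * (b - X m) < ε / 2 := htend.eventually (gt_mem_nhds (half_pos hε))
    obtain ⟨N0, hN0⟩ := (h1.and (eventually_ge_atTop M)).exists
    refine ⟨N0, fun m hm n hn z hz => ?_⟩
    have h2 := hcau z hz N0 hN0.2 m hm
    have h3 := hcau z hz N0 hN0.2 n hn
    rw [dist_eq_norm]
    have h4 : Lm g X m z - Lm g X n z = (Lm g X m z - Lm g X N0 z) - (Lm g X n z - Lm g X N0 z) := by
      ring
    rw [h4]
    exact (norm_sub_le _ _).trans_lt (by linarith [hN0.1])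
  have hlim : ∀ z ∈ Metric.ball (X 0 : ℂ) rL,
      Tendsto (fun m => Lm g X m z) atTop (𝓝 (limUnder atTop (fun m => Lm g X m z))) := by
    intro z hz
    have h1 : CauchySeq (fun m => Lm g X m z) := hunif.cauchySeq hz
    obtain ⟨L, hL⟩ := cauchySeq_tendsto_of_complete h1
    rwa [hL.limUnder_eq]
  have hU : TendstoUniformlyOn (Lm g X) (fun z => limUnder atTop (fun m => Lm g X m z)) atTop
      (Metric.ball (X 0 : ℂ) rL) := hunif.tendstoUniformlyOn_of_tendsto hlim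
  set Φ : ℂ → ℂ := fun z => limUnder atTop (fun m => Lm g X m z) with hΦ
  have hΦd : DifferentiableOn ℂ Φ (Metric.ball (X 0 : ℂ) rL) :=
    hU.tendstoLocallyUniformlyOn.differentiableOn
      (Eventually.of_forall fun m => (hdiff m).differentiableOn) Metric.isOpen_ball
  have h0mem : (X 0 : ℂ) ∈ Metric.ball (X 0 : ℂ) rL := Metric.mem_ball_self hrL
  have hΦ0 : Φ (X 0 : ℂ) = 0 := by
    refine tendsto_nhds_unique (hlim _ h0mem) ?_
    simp only [hzero]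
    exact tendsto_const_nhds
  have hΦn : ∀ z ∈ Metric.ball (X 0 : ℂ) rL, ‖Φ z‖ ≤ 1 / 32 := by
    intro z hz
    refine le_of_tendsto (hlim z hz).norm ?_
    filter_upwards [eventually_ge_atTop M] with m hm
    exact hsm z hz m hm
  have hΦl : ∀ z ∈ Metric.ball (X 0 : ℂ) rL, ‖Lm g X M z‖ ≤ 2 * ‖Φ z‖ := by
    intro z hz
    have h1 : ‖Φ z - Lm g X M z‖ ≤ 1 / 2 * ‖Lm g X M z‖ := by
      refine le_of_tendsto ((hlim z hz).sub_const _).norm ?_
      filter_upwards [eventually_ge_atTop M] with m hm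
      exact hlow z hz m hm
    have h3 : ‖Lm g X M z‖ ≤ ‖Φ z - Lm g X M z‖ + ‖Φ z‖ := by
      calc ‖Lm g X M z‖ = ‖Φ z - (Φ z - Lm g X M z)‖ := by rw [sub_sub_cancel]
        _ ≤ ‖Φ z‖ + ‖Φ z - Lm g X M z‖ := norm_sub_le _ _
        _ = _ := add_comm _ _
    linarith
  refine ⟨Φ, rL, hrL, hΦd, hU, hΦ0, ?_, hΦn⟩
  intro hd0
  have hΦat : HasDerivAt Φ 0 (X 0 : ℂ) := by
    rw [← hd0]
    exact (hΦd.differentiableAt (Metric.isOpen_ball.mem_nhds h0mem)).hasDerivAt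
  have hlo : Φ =o[𝓝 (X 0 : ℂ)] fun z => z - (X 0 : ℂ) := by
    have h1 := hasDerivAt_iff_isLittleO.1 hΦat
    refine h1.congr_left fun z => ?_
    rw [hΦ0]
    simp
  have hO : (Lm g X M) =O[𝓝 (X 0 : ℂ)] Φ := by
    refine Asymptotics.IsBigO.of_bound 2 ?_
    filter_upwards [Metric.isOpen_ball.mem_nhds h0mem] with z hz
    exact hΦl z hz
  have hLo : (Lm g X M) =o[𝓝 (X 0 : ℂ)] fun z => z - (X 0 : ℂ) := hO.trans_isLittleO hlo
  have hL0 : HasDerivAt (Lm g X M) 0 (X 0 : ℂ) := by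
    rw [hasDerivAt_iff_isLittleO]
    refine hLo.congr_left fun z => ?_
    rw [hzero M]
    simp
  obtain ⟨d, hd, hdd⟩ := iter_deriv hg D M
  have hL1 : HasDerivAt (Lm g X M) (d / (g (X M : ℂ) - (X M : ℂ))) (X 0 : ℂ) :=
    (hdd.sub_const (X M : ℂ)).div_const _
  have h9 := hL0.unique hL1
  exact (div_ne_zero hd (vne D M)) h9.symm

end JC
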