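import Pool.Agent.Lib.JC.Core
import Pool.Agent.Lib.JC.Ratio

/-!
# JC.RightCoord : the right coordinate `χ`

`F_m(z) = Fm g P m z = g^[m] (P m + z * v(P m))`, `v = g - id`; for `m ≥ 1`
`v(P m) = P (m-1) - P m > 0` is real.

Choose `M ≥ 1` with `lam := P M - b` satisfying `4 lam ≤ r`, `32 C lam ≤ 1/2`.

(1) For `m' ≥ m ≥ M` apply `ratio_orbit` to the orbit `x k = P (m' - k)`, `N = m' - m`, with
 `lam = P m - b`: for `‖z‖ ≤ 1/2` there is `A(z)` with
 `g^[m' - m] (P m' + z v(P m')) = P m + A(z) v(P m)`, `‖A(z) - z‖ ≤ 32 C (P m - b) ‖z‖ ≤ ‖z‖ / 2`.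
 Hence `F_{m'}(z) = F_m (A(z))` (`Function.iterate_add_apply`).
(2) Uniform Lipschitz bound by Cauchy estimates.
(3) Uniformly Cauchy, limit `χ`.
(4) `‖F_m z - F_m 0‖ ≥ κ ‖z‖` near `0`, so `deriv χ 0 ≠ 0`.
-/

open Set Filter Topology

namespace JC

namespace RightCoordAux

lemma gt_b {g : ℂ → ℂ} {b : ℝ} {P : ℕ → ℝ} (D : RightData g b P) (m : ℕ) : b < P m := by
  have hanti : StrictAnti P := strictAnti_nat_of_succ_lt D.anti
  have h1 : b ≤ P (m + 1) := by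
    refine le_of_tendsto D.lim ?_
    filter_upwards [eventually_ge_atTop (m + 1)] with n hn
    exact hanti.antitone hn
  exact lt_of_le_of_lt h1 (D.anti m)

lemma iter_P {g : ℂ → ℂ} {b : ℝ} {P : ℕ → ℝ} (D : RightData g b P) (m : ℕ) :
    g^[m] (P m : ℂ) = (P 0 : ℂ) := by
  induction m with
  | zero => rfl
  | succ m ih => rw [Function.iterate_succ_apply, D.step m, ih]

lemma iter_diff {g : ℂ → ℂ} (h : Differentiable ℂ g) (m : ℕ) : Differentiable ℂ (g^[m]) := by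
  induction m with
  | zero => exact differentiable_id
  | succ m ih =>
    rw [Function.iterate_succ]
    exact ih.comp h

lemma Fm_diff {g : ℂ → ℂ} {P : ℕ → ℝ} (h : Differentiable ℂ g) (m : ℕ) :
    Differentiable ℂ (Fm g P m) := by
  have h1 : Differentiable ℂ (fun z : ℂ => (P m : ℂ) + z * (g (P m : ℂ) - (P m : ℂ))) := by
    exact (differentiable_const _).add (differentiable_id.mul (differentiable_const _))
  exact (iter_diff h m).comp h1

lemma Fm_zero {g : ℂ → ℂ} {b : ℝ} {P : ℕ → ℝ} (D : RightData g b P) (m : ℕ) :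
    Fm g P m 0 = (P 0 : ℂ) := by
  unfold Fm
  rw [zero_mul, add_zero, iter_P D m]

lemma iter_real {g : ℂ → ℂ} (h : ∀ x : ℝ, (g (x : ℂ)).im = 0) (m : ℕ) (x : ℝ) :
    (g^[m] (x : ℂ)).im = 0 := by
  induction m generalizing x with
  | zero => simp
  | succ m ih =>
    rw [Function.iterate_succ_apply]
    have h1 : g (x : ℂ) = ((g (x : ℂ)).re : ℂ) := by
      apply Complex.ext
      · simp
      · rw [h x]; simp
    rw [h1]
    exact ih _

lemma Fm_real {g : ℂ → ℂ} {P : ℕ → ℝ} (h : ∀ x : ℝ, (g (x : ℂ)).im = 0) (m : ℕ) (x : ℝ) :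
    (Fm g P m (x : ℂ)).im = 0 := by
  unfold Fm
  have h1 : g (P m : ℂ) = ((g (P m : ℂ)).re : ℂ) := by
    apply Complex.ext
    · simp
    · rw [h]; simp
  have h2 : (P m : ℂ) + (x : ℂ) * (g (P m : ℂ) - (P m : ℂ)) =
      ((P m + x * ((g (P m : ℂ)).re - P m) : ℝ) : ℂ) := by
    conv_lhs => rw [h1]
    push_cast
    ring
  rw [h2]
  exact iter_real h m _

/-- the comparison of `F_{m'}` and `F_m` -/
lemma key {g : ℂ → ℂ} {b r C : ℝ} {P : ℕ → ℝ} (W : Win g b r C) (D : RightData g b P)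
    {m m' : ℕ} (hm1 : 1 ≤ m) (hmm : m ≤ m') (h4 : 4 * (P m - b) ≤ r) (h32 : 32 * C * (P m - b) ≤ 1)
    {z : ℂ} (hz : ‖z‖ ≤ 1 / 2) :
    ∃ A : ℂ, ‖A - z‖ ≤ 32 * C * (P m - b) * ‖z‖ ∧ Fm g P m' z = Fm g P m A := by
  have hanti : StrictAnti P := strictAnti_nat_of_succ_lt D.anti
  have hstep : ∀ j, 1 ≤ j → g (P j : ℂ) = (P (j - 1) : ℂ) := by
    intro j hj
    obtain ⟨i, rfl⟩ : ∃ i, j = i + 1 := ⟨j - 1, by omega⟩
    exact D.step i
  obtain ⟨A, hA, hAe, -⟩ := ratio_orbit W (lam := P m - b) (by linarith [gt_b D m]) h4 h32 (m' - m)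
    (fun k => P (m' - k))
    (by
      intro k hk
      have h1 := hstep (m' - k) (by omega)
      have h2 : m' - k - 1 = m' - (k + 1) := by omega
      rw [h2] at h1
      exact h1)
    (by
      intro k hk
      exact hanti (by omega))
    (by
      have h1 : m' - (m' - m) = m := by omega
      simp only [h1]
      rw [hstep m hm1, Complex.ofReal_re]
      exact hanti (by omega))
    (by
      intro k hk
      have h1 := gt_b D (m' - k)
      have h2 : P (m' - k) ≤ P m := hanti.antitone (by omega)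
      rw [abs_of_pos (by linarith)]
      linarith)
    z hz
  refine ⟨A, hA, ?_⟩
  have h1 : m' - (m' - m) = m := by omega
  simp only [h1, Nat.sub_zero] at hAe
  unfold Fm
  rw [← hAe, ← Function.iterate_add_apply]
  congr 2
  omega

lemma deriv_iter_ne {g : ℂ → ℂ} {b : ℝ} {P : ℕ → ℝ} (hg : Differentiable ℂ g)
    (D : RightData g b P) (m : ℕ) : deriv (g^[m]) (P m : ℂ) ≠ 0 := by
  induction m with
  | zero =>
    rw [Function.iterate_zero, deriv_id]
    exact one_ne_zero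
  | succ m ih =>
    rw [Function.iterate_succ]
    have h1 : deriv (g^[m] ∘ g) (P (m + 1) : ℂ) =
        deriv (g^[m]) (g (P (m + 1) : ℂ)) * deriv g (P (m + 1) : ℂ) :=
      deriv_comp _ (iter_diff hg m _) (hg _)
    rw [h1, D.step m]
    exact mul_ne_zero ih (D.dne m)

lemma Fm_hasDeriv {g : ℂ → ℂ} {b : ℝ} {P : ℕ → ℝ} (hg : Differentiable ℂ g)
    (D : RightData g b P) {m : ℕ} (hm : 1 ≤ m) :
    ∃ d : ℂ, d ≠ 0 ∧ HasDerivAt (Fm g P m) d 0 := by
  refine ⟨deriv (g^[m]) (P m : ℂ) * (g (P m : ℂ) - (P m : ℂ)), ?_, ?_⟩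
  · apply mul_ne_zero (deriv_iter_ne hg D m)
    obtain ⟨i, rfl⟩ : ∃ i, m = i + 1 := ⟨m - 1, by omega⟩
    rw [D.step i, ← Complex.ofReal_sub]
    exact_mod_cast (sub_pos.2 (D.anti i)).ne'
  · have h1 : HasDerivAt (fun z : ℂ => (P m : ℂ) + z * (g (P m : ℂ) - (P m : ℂ)))
        (g (P m : ℂ) - (P m : ℂ)) 0 := by
      have := ((hasDerivAt_id (0 : ℂ)).mul_const (g (P m : ℂ) - (P m : ℂ))).const_add (P m : ℂ)
      simpa using this
    have h2 : HasDerivAt (g^[m]) (deriv (g^[m]) (P m : ℂ))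
        ((fun z : ℂ => (P m : ℂ) + z * (g (P m : ℂ) - (P m : ℂ))) 0) := by
      have h3 : (fun z : ℂ => (P m : ℂ) + z * (g (P m : ℂ) - (P m : ℂ))) 0 = (P m : ℂ) := by
        simp
      rw [h3]
      exact (iter_diff hg m _).hasDerivAt
    exact h2.comp 0 h1

lemma lower {F : ℂ → ℂ} {d : ℂ} (hd : d ≠ 0) (h : HasDerivAt F d 0) :
    ∃ δ > 0, ∀ w : ℂ, ‖w‖ < δ → ‖d‖ / 2 * ‖w‖ ≤ ‖F w - F 0‖ := by
  have h1 := (hasDerivAt_iff_isLittleO.1 h).def (half_pos (norm_pos_iff.2 hd))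
  obtain ⟨δ, hδ, h2⟩ := Metric.eventually_nhds_iff.1 h1
  refine ⟨δ, hδ, fun w hw => ?_⟩
  have h3 := h2 (show dist w 0 < δ by rwa [dist_zero_right])
  simp only [sub_zero, smul_eq_mul] at h3
  have h4 : ‖w * d‖ ≤ ‖F w - F 0 - w * d‖ + ‖F w - F 0‖ := by
    have h5 : w * d = (F w - F 0) - (F w - F 0 - w * d) := by ring
    calc ‖w * d‖ = ‖(F w - F 0) - (F w - F 0 - w * d)‖ := by rw [← h5]
      _ ≤ ‖F w - F 0‖ + ‖F w - F 0 - w * d‖ := norm_sub_le _ _
      _ = _ := add_comm _ _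
  rw [norm_mul] at h4
  nlinarith [norm_nonneg w, norm_nonneg d]

end RightCoordAux

open RightCoordAux in
theorem right_coord {g : ℂ → ℂ} {b r C : ℝ} {P : ℕ → ℝ} (W : Win g b r C)
    (D : RightData g b P) :
    ∃ χ : ℂ → ℂ, DifferentiableOn ℂ χ (Metric.ball 0 (1 / 8)) ∧
      TendstoUniformlyOn (Fm g P) χ atTop (Metric.ball 0 (1 / 8)) ∧ χ 0 = (P 0 : ℂ) ∧
      deriv χ 0 ≠ 0 ∧ ∀ x : ℝ, |x| < 1 / 8 → (χ (x : ℂ)).im = 0 := by
  have hanti : StrictAnti P := strictAnti_nat_of_succ_lt D.anti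
  have hC := W.hC
  have hr := W.hr
  have hlim0 : Tendsto (fun m => P m - b) atTop (𝓝 0) := by
    have := D.lim.sub_const b
    rwa [sub_self] at this
  obtain ⟨M, hM1, hM4, hM32⟩ : ∃ M, 1 ≤ M ∧ 4 * (P M - b) ≤ r ∧ 32 * C * (P M - b) ≤ 1 / 2 := by
    have h1 : ∀ᶠ m in atTop, P m - b < min (r / 4) (1 / (64 * C)) :=
      hlim0.eventually (gt_mem_nhds (lt_min (by positivity) (by positivity)))
    obtain ⟨M, hM⟩ := (h1.and (eventually_ge_atTop 1)).exists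
    refine ⟨M, hM.2, ?_, ?_⟩
    · have := hM.1.le.trans (min_le_left _ _)
      linarith
    · have h2 := hM.1.le.trans (min_le_right _ _)
      rw [le_div_iff₀ (by positivity)] at h2
      linarith
  have hmono : ∀ m, M ≤ m → P m - b ≤ P M - b := fun m hm => by
    have := hanti.antitone hm
    linarith
  have hpos : ∀ m, 0 < P m - b := fun m => sub_pos.2 (gt_b D m)
  have hkey : ∀ m m', M ≤ m → m ≤ m' → ∀ z : ℂ, ‖z‖ ≤ 1 / 2 →
      ∃ A : ℂ, ‖A - z‖ ≤ 32 * C * (P m - b) * ‖z‖ ∧ ‖A - z‖ ≤ ‖z‖ / 2 ∧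
        Fm g P m' z = Fm g P m A := by
    intro m m' hm hmm z hz
    have h1 := hmono m hm
    have h2 : 32 * C * (P m - b) ≤ 1 / 2 :=
      le_trans (mul_le_mul_of_nonneg_left h1 (by positivity)) hM32
    obtain ⟨A, hA, hAe⟩ := key W D (hM1.trans hm) hmm (by linarith) (by linarith) hz
    refine ⟨A, hA, hA.trans ?_, hAe⟩
    nlinarith [norm_nonneg z]
  -- bound
  obtain ⟨B, hB⟩ : ∃ B, ∀ w ∈ Metric.closedBall (0 : ℂ) 1, ‖Fm g P M w‖ ≤ B := by
    have h1 : IsCompact (Metric.closedBall (0 : ℂ) 1) := isCompact_closedBall _ _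
    obtain ⟨B, hB⟩ := h1.exists_bound_of_continuousOn (Fm_diff W.diff M).continuous.continuousOn
    exact ⟨B, hB⟩
  have hB0 : 0 ≤ B := le_trans (norm_nonneg _) (hB 0 (Metric.mem_closedBall_self zero_le_one))
  have hbd : ∀ m, M ≤ m → ∀ z : ℂ, ‖z‖ ≤ 1 / 2 → ‖Fm g P m z‖ ≤ B := by
    intro m hm z hz
    obtain ⟨A, _, hA, hAe⟩ := hkey M m le_rfl hm z hz
    rw [hAe]
    apply hB
    rw [mem_closedBall_zero_iff]
    have h1 : ‖A‖ ≤ ‖A - z‖ + ‖z‖ := by
      calc ‖A‖ = ‖(A - z) + z‖ := by rw [sub_add_cancel]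
        _ ≤ _ := norm_add_le _ _
    linarith
  have hder : ∀ m, M ≤ m → ∀ z ∈ Metric.closedBall (0 : ℂ) (1 / 4), ‖deriv (Fm g P m) z‖ ≤ 4 * B := by
    intro m hm z hz
    have h1 : ‖deriv (Fm g P m) z‖ ≤ B / (1 / 4) := by
      apply Complex.norm_deriv_le_of_forall_mem_sphere_norm_le (by norm_num)
        (Fm_diff W.diff m).diffContOnCl
      intro w hw
      apply hbd m hm
      rw [mem_closedBall_zero_iff] at hz
      rw [mem_sphere_iff_norm] at hw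
      calc ‖w‖ = ‖(w - z) + z‖ := by rw [sub_add_cancel]
        _ ≤ ‖w - z‖ + ‖z‖ := norm_add_le _ _
        _ ≤ 1 / 2 := by rw [hw]; linarith
    linarith
  have hlip : ∀ m, M ≤ m → ∀ z w : ℂ, ‖z‖ ≤ 1 / 4 → ‖w‖ ≤ 1 / 4 →
      ‖Fm g P m w - Fm g P m z‖ ≤ 4 * B * ‖w - z‖ := by
    intro m hm z w hz hw
    exact (convex_closedBall (0 : ℂ) (1 / 4)).norm_image_sub_le_of_norm_deriv_le
      (fun x _ => Fm_diff W.diff m x) (hder m hm) (mem_closedBall_zero_iff.2 hz)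
      (mem_closedBall_zero_iff.2 hw)
  have hcmp : ∀ m m', M ≤ m → m ≤ m' → ∀ z : ℂ, ‖z‖ ≤ 1 / 8 →
      ‖Fm g P m' z - Fm g P m z‖ ≤ 16 * B * C * (P m - b) := by
    intro m m' hm hmm z hz
    obtain ⟨A, hA1, hA2, hAe⟩ := hkey m m' hm hmm z (by linarith)
    rw [hAe]
    have h1 : ‖A‖ ≤ 1 / 4 := by
      calc ‖A‖ = ‖(A - z) + z‖ := by rw [sub_add_cancel]
        _ ≤ ‖A - z‖ + ‖z‖ := norm_add_le _ _
        _ ≤ 1 / 4 := by linarith
    have h2 := hlip m hm z A (by linarith) h1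
    have h3 : ‖A - z‖ ≤ 32 * C * (P m - b) * (1 / 8) :=
      hA1.trans (mul_le_mul_of_nonneg_left hz (by have := hpos m; positivity))
    calc _ ≤ _ := h2
      _ ≤ 4 * B * (32 * C * (P m - b) * (1 / 8)) := mul_le_mul_of_nonneg_left h3 (by positivity)
      _ = _ := by ring
  have hcauchy : UniformCauchySeqOn (Fm g P) atTop (Metric.ball (0 : ℂ) (1 / 8)) := by
    rw [Metric.uniformCauchySeqOn_iff]
    intro ε hε
    have h1 : Tendsto (fun m => 16 * B * C * (P m - b)) atTop (𝓝 0) := by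
      have := hlim0.const_mul (16 * B * C)
      rwa [mul_zero] at this
    obtain ⟨N, hN⟩ := ((h1.eventually (gt_mem_nhds hε)).and (eventually_ge_atTop M)).exists
    obtain ⟨hN1, hN2⟩ := hN
    have hmain : ∀ m n, N ≤ m → m ≤ n → ∀ x ∈ Metric.ball (0 : ℂ) (1 / 8),
        dist (Fm g P n x) (Fm g P m x) < ε := by
      intro m n hm hmn x hx
      rw [mem_ball_zero_iff] at hx
      rw [dist_eq_norm]
      refine lt_of_le_of_lt (hcmp m n (hN2.trans hm) hmn x hx.le) (lt_of_le_of_lt ?_ hN1)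
      apply mul_le_mul_of_nonneg_left _ (by positivity)
      have := hanti.antitone hm
      linarith
    refine ⟨N, fun m hm n hn x hx => ?_⟩
    rcases le_total m n with h | h
    · rw [dist_comm]
      exact hmain m n hm h x hx
    · exact hmain n m hn h x hx
  have hexlim : ∀ z : ℂ, ∃ w : ℂ, z ∈ Metric.ball (0 : ℂ) (1 / 8) →
      Tendsto (fun m => Fm g P m z) atTop (𝓝 w) := by
    intro z
    by_cases hz : z ∈ Metric.ball (0 : ℂ) (1 / 8)
    · obtain ⟨w, hw⟩ := cauchySeq_tendsto_of_complete (hcauchy.cauchySeq hz)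
      exact ⟨w, fun _ => hw⟩
    · exact ⟨0, fun h => absurd h hz⟩
  choose χ hχ using hexlim
  have hunif : TendstoUniformlyOn (Fm g P) χ atTop (Metric.ball 0 (1 / 8)) :=
    hcauchy.tendstoUniformlyOn_of_tendsto (fun z hz => hχ z hz)
  have hdiff : DifferentiableOn ℂ χ (Metric.ball 0 (1 / 8)) :=
    hunif.tendstoLocallyUniformlyOn.differentiableOn
      (Eventually.of_forall fun m => (Fm_diff W.diff m).differentiableOn) Metric.isOpen_ball
  have h0mem : (0 : ℂ) ∈ Metric.ball (0 : ℂ) (1 / 8) := Metric.mem_ball_self (by norm_num)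
  have hχ0 : χ 0 = (P 0 : ℂ) := by
    refine tendsto_nhds_unique (hχ 0 h0mem) ?_
    simp only [Fm_zero D]
    exact tendsto_const_nhds
  refine ⟨χ, hdiff, hunif, hχ0, ?_, ?_⟩
  · intro hd0
    obtain ⟨d, hd, hFd⟩ := Fm_hasDeriv W.diff D hM1
    obtain ⟨δ, hδ, hlow⟩ := lower hd hFd
    have hdpos : 0 < ‖d‖ := norm_pos_iff.2 hd
    have hlowm : ∀ m, M ≤ m → ∀ z : ℂ, ‖z‖ ≤ 1 / 8 → 2 * ‖z‖ < δ →
        ‖d‖ / 4 * ‖z‖ ≤ ‖Fm g P m z - (P 0 : ℂ)‖ := by
      intro m hm z hz hzδ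
      obtain ⟨A, _, hA, hAe⟩ := hkey M m le_rfl hm z (by linarith)
      rw [hAe, ← Fm_zero D M]
      have h1 : ‖A‖ ≤ 3 / 2 * ‖z‖ := by
        calc ‖A‖ = ‖(A - z) + z‖ := by rw [sub_add_cancel]
          _ ≤ ‖A - z‖ + ‖z‖ := norm_add_le _ _
          _ ≤ _ := by linarith
      have h2 : ‖z‖ / 2 ≤ ‖A‖ := by
        have : ‖z‖ ≤ ‖A - z‖ + ‖A‖ := by
          calc ‖z‖ = ‖A - (A - z)‖ := by rw [sub_sub_cancel]
            _ ≤ ‖A‖ + ‖A - z‖ := norm_sub_le _ _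
            _ = _ := add_comm _ _
        linarith
      have h3 := hlow A (by linarith [norm_nonneg z])
      calc ‖d‖ / 4 * ‖z‖ = ‖d‖ / 2 * (‖z‖ / 2) := by ring
        _ ≤ ‖d‖ / 2 * ‖A‖ := mul_le_mul_of_nonneg_left h2 (by positivity)
        _ ≤ _ := h3
    have hlowχ : ∀ z : ℂ, ‖z‖ < 1 / 8 → 2 * ‖z‖ < δ → ‖d‖ / 4 * ‖z‖ ≤ ‖χ z - χ 0‖ := by
      intro z hz hzδ
      have h1 : Tendsto (fun m => ‖Fm g P m z - (P 0 : ℂ)‖) atTop (𝓝 ‖χ z - (P 0 : ℂ)‖) :=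
        ((hχ z (mem_ball_zero_iff.2 hz)).sub_const _).norm
      rw [hχ0]
      refine ge_of_tendsto h1 ?_
      filter_upwards [eventually_ge_atTop M] with m hm
      exact hlowm m hm z hz.le hzδ
    have hhas : HasDerivAt χ 0 0 := by
      have h1 : DifferentiableAt ℂ χ 0 := hdiff.differentiableAt (Metric.isOpen_ball.mem_nhds h0mem)
      have h2 := h1.hasDerivAt
      rwa [hd0] at h2
    have h3 := (hasDerivAt_iff_isLittleO.1 hhas).def (show 0 < ‖d‖ / 8 by positivity)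
    have h4 : ∀ᶠ z : ℂ in 𝓝 0, ‖z‖ < 1 / 8 ∧ 2 * ‖z‖ < δ := by
      have h5 : Tendsto (fun z : ℂ => ‖z‖) (𝓝 0) (𝓝 0) := by
        have := (continuous_norm (E := ℂ)).tendsto 0
        rwa [norm_zero] at this
      filter_upwards [h5.eventually (gt_mem_nhds (show (0 : ℝ) < min (1 / 8) (δ / 2) by positivity))]
        with z hz
      have h6 := lt_min_iff.1 hz
      exact ⟨h6.1, by linarith [h6.2]⟩
    have h5 : ∀ᶠ z : ℂ in 𝓝[≠] 0, False := by
      filter_upwards [nhdsWithin_le_nhds h3, nhdsWithin_le_nhds h4, self_mem_nhdsWithin] with z hz1 hz2 hz3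
      have hz3' : (0 : ℝ) < ‖z‖ := norm_pos_iff.2 hz3
      have h6 := hlowχ z hz2.1 hz2.2
      simp only [sub_zero, smul_zero] at hz1
      nlinarith
    exact (h5.exists).elim fun _ h => h
  · intro x hx
    have hmem : (x : ℂ) ∈ Metric.ball (0 : ℂ) (1 / 8) := by
      rw [mem_ball_zero_iff, Complex.norm_real, Real.norm_eq_abs]
      exact hx
    have h1 : Tendsto (fun m => (Fm g P m (x : ℂ)).im) atTop (𝓝 (χ (x : ℂ)).im) :=
      (Complex.continuous_im.tendsto _).comp (hχ _ hmem)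
    simp only [Fm_real W.real] at h1
    exact (tendsto_nhds_unique h1 tendsto_const_nhds)

end JC
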