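import Pool.Agent.Lib.JC.Core
import Pool.Agent.Lib.JC.Ratio

/-!
# JC.Translate : the translation property of the right coordinate

Setting: `h` real, continuous and strictly increasing on `[b, Q]`, `h b = b`, `b < h y < y` and
`g (h y) = y` for `b < y ≤ Q`. Then for `y ∈ (b, Q]` the sequence `h^[m] y` decreases to `b`
(limit is a fixed point of `h` in `[b, y)`). Base point `p ∈ (b, Q)`, `P m = h^[m] p`,
`F_m = Fm g P m → χ` uniformly on `ball 0 (1/8)` (hypotheses).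

For `Y ∈ (b, Q]` put `Y_m = h^[m] Y` and `ζ_m(Y) = (Y_m - P m) / v(P m)`, with
`v(P m) = g (P m) - P m = P (m-1) - P m > 0` for `m ≥ 1`. It is increasing in `Y`, `ζ_m(p) = 0`, and
`F_m(ζ_m(Y)) = g^[m] (Y_m) = Y`.

(1) `g` is injective on `ball b r`: `‖deriv g - 1‖ ≤ 1/2` on a convex set gives
 `‖(g z - g w) - (z - w)‖ ≤ ‖z - w‖ / 2`.
(2) Fix `M ≥ 1` with `lam = P M - b` satisfying `8 lam ≤ r`, `32 C lam ≤ 1/4`. Let `κ` be so small that
 `p - κ > b`, `p + κ < Q` and `|ζ_M(Y)| ≤ 1/64` for `|Y - p| < κ` (continuity of `h^[M]`). Claim: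
 `|ζ_m(Y)| ≤ 2 |ζ_M(Y)| ≤ 1/32` for all `m ≥ M`. Proof: for real `z ∈ [-1/32, 1/32]` let
 `A(z) = (g^[m-M] (P m + z v(P m)) - P M) / v(P M)`, real and continuous in `z`, with
 `|A(z) - z| ≤ |z| / 4` by `ratio_orbit` (orbit `x k = P (m - k)`, `N = m - M`). Let
 `z0 = ζ_M(Y)`. By the intermediate value theorem there is `z` between `0` and `2 z0` with
 `A(z) = z0` (`A(0) = 0`, `A(2 z0)` is beyond `z0`). The points
 `g^[k] (P m + z v(P m))`, `k < m - M`, lie in `ball b r` (last clause of `ratio_orbit`), and so do the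
 points `Y_{m-k}`, `k < m - M` (they are in `(b, Y_M]`, `Y_M ≤ P M + v(P M)/64`; if needed take `M` larger
 so that this is in the ball). Both finite orbits end, at time `m - M`, at the same point
 `P M + z0 v(P M) = Y_M`. By injectivity of `g` on the ball and downward induction they coincide, so
 `P m + z v(P m) = Y_m`, i.e. `z = ζ_m(Y)`.
(3) For `m' ≥ m ≥ M`: `ratio_orbit` from `P m'` to `P m` with `ρ = ζ_{m'}(Y)`:
 `|ζ_m(Y) - ζ_{m'}(Y)| ≤ 32 C (P m - b) |ζ_{m'}(Y)|` (the resulting ratio is `ζ_m(Y)`, because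
 `g^[m'-m] (Y_{m'}) = Y_m`). So `ζ_m(Y)` is Cauchy; its limit is `X Y`, `|X Y| ≤ 1/32`. By uniform
 convergence `χ (X Y) = lim F_m(ζ_m(Y)) = Y` (`TendstoUniformlyOn` and continuity of `χ`).
 Monotone: `Y < Y'` gives `ζ_m(Y) < ζ_m(Y')`, so `X Y ≤ X Y'`, and `X Y ≠ X Y'` because
 `χ (X Y) = Y ≠ Y' = χ (X Y')`. `X p = 0`. Continuity at `p`: `|X Y| ≤ 2 |ζ_M(Y)|`.
(4) `v(Y_m) / v(P m) → 1`: `|v(Y_m) - v(P m)| ≤ sup |v'| * |Y_m - P m| ≤ o(1) * |ζ_m| v(P m)`, where the sup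
 is over the segment between `P m` and `Y_m`, which shrinks to `b`, and `v'(b) = deriv g b - 1 = 0`
 (hypothesis `h1`) and `deriv g` is continuous.
(5) `g^[m] (Y_m + ρ v(Y_m)) = F_m (ζ_m + ρ v(Y_m)/v(P m))`; for `‖ρ‖ < 1/16` the argument tends to
 `X Y + ρ` uniformly in `ρ`, and stays in a compact part of `ball 0 (1/8)`
 (`1/32 + (1/16)(1 + o(1)) < 1/8`), `F_m → χ` uniformly on `ball 0 (1/8)` and `χ` is uniformly continuous
 on `closedBall 0 (3/32 + small)`. So the convergence to `χ (X Y + ρ)` is uniform on `ball 0 (1/16)`.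
-/

open Set Filter Topology

namespace JC

theorem h_iter_tendsto {h : ℝ → ℝ} {b Q : ℝ} (hcont : ContinuousOn h (Icc b Q))
    (hlt : ∀ y ∈ Ioc b Q, b < h y ∧ h y < y) {y : ℝ} (hy : y ∈ Ioc b Q) :
    (∀ m, h^[m] y ∈ Ioc b Q) ∧ (∀ m, h^[m + 1] y < h^[m] y) ∧
      Tendsto (fun m => h^[m] y) atTop (𝓝 b) := by
  have hmem : ∀ m, h^[m] y ∈ Ioc b Q := by
    intro m
    induction m with
    | zero => exact hy
    | succ m ih =>
      rw [Function.iterate_succ_apply']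
      exact ⟨(hlt _ ih).1, (hlt _ ih).2.le.trans ih.2⟩
  have hdec : ∀ m, h^[m + 1] y < h^[m] y := by
    intro m
    rw [Function.iterate_succ_apply']
    exact (hlt _ (hmem m)).2
  refine ⟨hmem, hdec, ?_⟩
  have hanti : Antitone fun m => h^[m] y := antitone_nat_of_succ_le fun m => (hdec m).le
  have hbdd : BddBelow (range fun m => h^[m] y) :=
    ⟨b, by rintro _ ⟨m, rfl⟩; exact (hmem m).1.le⟩
  have hlim := tendsto_atTop_ciInf hanti hbdd
  set L : ℝ := ⨅ m, h^[m] y with hL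
  have hLb : b ≤ L := le_ciInf fun m => (hmem m).1.le
  have hLQ : L ≤ Q := (ciInf_le hbdd 0).trans hy.2
  have h2 : Tendsto (fun m => h^[m + 1] y) atTop (𝓝 L) :=
    hlim.comp (tendsto_add_atTop_nat 1)
  have h3 : Tendsto (fun m => h (h^[m] y)) atTop (𝓝 (h L)) := by
    have h4 : ContinuousWithinAt h (Icc b Q) L := hcont L ⟨hLb, hLQ⟩
    refine h4.tendsto.comp (tendsto_nhdsWithin_iff.2 ⟨hlim, ?_⟩)
    exact Eventually.of_forall fun m => ⟨(hmem m).1.le, (hmem m).2⟩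
  have h5 : L = h L := by
    refine tendsto_nhds_unique h2 ?_
    simpa only [Function.iterate_succ_apply'] using h3
  rcases hLb.eq_or_lt with h6 | h6
  · rw [h6]; exact hlim
  · have h7 := (hlt L ⟨h6, hLQ⟩).2
    linarith

namespace TranslateAux

structure Hyp (g : ℂ → ℂ) (b r C : ℝ) (h : ℝ → ℝ) (Q p : ℝ) : Prop where
  W : Win g b r C
  h1 : deriv g (b : ℂ) = 1
  hbp : b < p
  hpQ : p < Q
  hcont : ContinuousOn h (Icc b Q)
  hmono : StrictMonoOn h (Icc b Q)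
  hfix : h b = b
  hlt : ∀ y ∈ Ioc b Q, b < h y ∧ h y < y
  hg : ∀ y ∈ Icc b Q, g (h y : ℂ) = (y : ℂ)

section

variable {g : ℂ → ℂ} {b r C : ℝ} {h : ℝ → ℝ} {Q p : ℝ}

theorem Hyp.hp (H : Hyp g b r C h Q p) : p ∈ Ioc b Q := ⟨H.hbp, H.hpQ.le⟩

theorem Hyp.mem (H : Hyp g b r C h Q p) {y : ℝ} (hy : y ∈ Ioc b Q) (m : ℕ) :
    h^[m] y ∈ Ioc b Q := (h_iter_tendsto H.hcont H.hlt hy).1 m

theorem Hyp.dec (H : Hyp g b r C h Q p) {y : ℝ} (hy : y ∈ Ioc b Q) (m : ℕ) :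
    h^[m + 1] y < h^[m] y := (h_iter_tendsto H.hcont H.hlt hy).2.1 m

theorem Hyp.anti (H : Hyp g b r C h Q p) {y : ℝ} (hy : y ∈ Ioc b Q) :
    Antitone fun m => h^[m] y := antitone_nat_of_succ_le fun m => (H.dec hy m).le

theorem Hyp.lim (H : Hyp g b r C h Q p) {y : ℝ} (hy : y ∈ Ioc b Q) :
    Tendsto (fun m => h^[m] y) atTop (𝓝 b) := (h_iter_tendsto H.hcont H.hlt hy).2.2

theorem Hyp.g_iter (H : Hyp g b r C h Q p) {y : ℝ} (hy : y ∈ Ioc b Q) (m : ℕ) :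
    g ((h^[m + 1] y : ℝ) : ℂ) = ((h^[m] y : ℝ) : ℂ) := by
  rw [Function.iterate_succ_apply']
  exact H.hg _ ⟨(H.mem hy m).1.le, (H.mem hy m).2⟩

theorem Hyp.g_iter_iter (H : Hyp g b r C h Q p) {y : ℝ} (hy : y ∈ Ioc b Q) (m k : ℕ) :
    g^[k] ((h^[m + k] y : ℝ) : ℂ) = ((h^[m] y : ℝ) : ℂ) := by
  induction k with
  | zero => simp
  | succ k ih =>
    rw [Function.iterate_succ_apply, ← add_assoc, H.g_iter hy (m + k), ih]

/-- The real function induced by `g`. -/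
def gr (g : ℂ → ℂ) (x : ℝ) : ℝ := (g (x : ℂ)).re

theorem gr_coe (W : Win g b r C) (x : ℝ) : g (x : ℂ) = ((gr g x : ℝ) : ℂ) :=
  Complex.ext (by simp [gr]) (by simp [W.real x])

theorem gr_iter (W : Win g b r C) (x : ℝ) (n : ℕ) :
    g^[n] (x : ℂ) = (((gr g)^[n] x : ℝ) : ℂ) := by
  induction n with
  | zero => simp
  | succ n ih => rw [Function.iterate_succ_apply', ih, gr_coe W, Function.iterate_succ_apply']

theorem mem_ball_real {x : ℝ} : (x : ℂ) ∈ Metric.ball (b : ℂ) r ↔ |x - b| < r := by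
  rw [mem_ball_iff_norm, ← Complex.ofReal_sub, Complex.norm_real, Real.norm_eq_abs]

theorem gr_lt (W : Win g b r C) {x y : ℝ} (hxy : x < y) (hx : |x - b| < r) (hy : |y - b| < r) :
    gr g x < gr g y := by
  have hconv : Convex ℝ (Metric.ball (b : ℂ) r) := convex_ball _ _
  have h1 : ‖(fun z => g z - z) (y : ℂ) - (fun z => g z - z) (x : ℂ)‖ ≤ 1 / 2 * ‖(y : ℂ) - (x : ℂ)‖ := by
    refine hconv.norm_image_sub_le_of_norm_deriv_le (𝕜 := ℂ) (f := fun z => g z - z) ?_ ?_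
      (mem_ball_real.2 hx) (mem_ball_real.2 hy)
    · intro z _
      exact (W.diff z).sub differentiableAt_id
    · intro z hz
      have h2 : deriv (fun z => g z - z) z = deriv g z - 1 := by
        rw [deriv_fun_sub (W.diff z) differentiableAt_fun_id]
        simp
      rw [h2]
      exact W.d1 z hz
  have h3 : (fun z => g z - z) (y : ℂ) - (fun z => g z - z) (x : ℂ) =
      (((gr g y - y) - (gr g x - x) : ℝ) : ℂ) := by
    simp only [gr_coe W]
    push_cast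
    ring
  rw [h3, Complex.norm_real, ← Complex.ofReal_sub, Complex.norm_real, Real.norm_eq_abs,
    Real.norm_eq_abs, abs_of_pos (sub_pos.2 hxy)] at h1
  have h4 := (abs_le.1 h1).1
  linarith

theorem gr_iter_lt (W : Win g b r C) {x y : ℝ} (hxy : x < y) (n : ℕ)
    (hx : ∀ k < n, |(gr g)^[k] x - b| < r) (hy : ∀ k < n, |(gr g)^[k] y - b| < r) :
    (gr g)^[n] x < (gr g)^[n] y := by
  induction n with
  | zero => exact hxy
  | succ n ih =>
    rw [Function.iterate_succ_apply', Function.iterate_succ_apply']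
    exact gr_lt W (ih (fun k hk => hx k (by omega)) fun k hk => hy k (by omega))
      (hx n (by omega)) (hy n (by omega))

/-- `V m = v (P (m+1))`. -/
def V (h : ℝ → ℝ) (p : ℝ) (m : ℕ) : ℝ := h^[m] p - h^[m + 1] p

/-- The coordinate of `h^[m+1] Y`. -/
noncomputable def Z (h : ℝ → ℝ) (p : ℝ) (m : ℕ) (Y : ℝ) : ℝ := (h^[m + 1] Y - h^[m + 1] p) / V h p m

theorem Hyp.V_pos (H : Hyp g b r C h Q p) (m : ℕ) : 0 < V h p m := sub_pos.2 (H.dec H.hp m)

theorem Hyp.Z_eq (H : Hyp g b r C h Q p) (m : ℕ) (Y : ℝ) :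
    h^[m + 1] p + Z h p m Y * V h p m = h^[m + 1] Y := by
  rw [Z, div_mul_cancel₀ _ (H.V_pos m).ne']
  ring

theorem Hyp.orbit (H : Hyp g b r C h Q p) (m N : ℕ) (h4 : 4 * (h^[m + 1] p - b) ≤ r)
    (h32 : 32 * C * (h^[m + 1] p - b) ≤ 1) {z : ℝ} (hz : |z| ≤ 1 / 2) :
    ∃ z' : ℝ, |z' - z| ≤ 32 * C * (h^[m + 1] p - b) * |z| ∧
      (gr g)^[N] (h^[m + N + 1] p + z * V h p (m + N)) = h^[m + 1] p + z' * V h p m ∧
      ∀ k < N, |(gr g)^[k] (h^[m + N + 1] p + z * V h p (m + N)) - b| < r := by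
  have hp := H.hp
  have hl : 0 < h^[m + 1] p - b := sub_pos.2 (H.mem hp (m + 1)).1
  have ha := H.anti hp
  obtain ⟨ρ', h1, h2, h3⟩ := ratio_orbit H.W hl h4 h32 N (fun k => h^[m + N + 1 - k] p)
    (fun k hk => by
      have e : m + N + 1 - k = (m + N + 1 - (k + 1)) + 1 := by omega
      show g ((h^[m + N + 1 - k] p : ℝ) : ℂ) = ((h^[m + N + 1 - (k + 1)] p : ℝ) : ℂ)
      rw [e]
      exact H.g_iter hp _)
    (fun k hk => by
      have e : m + N + 1 - k = (m + N + 1 - (k + 1)) + 1 := by omega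
      show h^[m + N + 1 - k] p < h^[m + N + 1 - (k + 1)] p
      rw [e]
      exact H.dec hp _)
    (by
      have e : m + N + 1 - N = m + 1 := by omega
      show h^[m + N + 1 - N] p < (g ((h^[m + N + 1 - N] p : ℝ) : ℂ)).re
      rw [e, H.g_iter hp]
      exact H.dec hp m)
    (fun k hk => by
      show |h^[m + N + 1 - k] p - b| ≤ h^[m + 1] p - b
      rw [abs_of_pos (sub_pos.2 (H.mem hp _).1)]
      have : h^[m + N + 1 - k] p ≤ h^[m + 1] p := ha (by omega)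
      linarith)
    (z : ℂ) (by rw [Complex.norm_real, Real.norm_eq_abs]; exact hz)
  have e0 : (((fun k => h^[m + N + 1 - k] p) 0 : ℝ) : ℂ) + (z : ℂ) *
      (g (((fun k => h^[m + N + 1 - k] p) 0 : ℝ) : ℂ) - (((fun k => h^[m + N + 1 - k] p) 0 : ℝ) : ℂ))
      = ((h^[m + N + 1] p + z * V h p (m + N) : ℝ) : ℂ) := by
    show ((h^[m + N + 1 - 0] p : ℝ) : ℂ) + (z : ℂ) * (g ((h^[m + N + 1 - 0] p : ℝ) : ℂ) -
      ((h^[m + N + 1 - 0] p : ℝ) : ℂ)) = _
    rw [Nat.sub_zero, H.g_iter hp, V]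
    push_cast
    ring
  have eN : (((fun k => h^[m + N + 1 - k] p) N : ℝ) : ℂ) + ρ' *
      (g (((fun k => h^[m + N + 1 - k] p) N : ℝ) : ℂ) - (((fun k => h^[m + N + 1 - k] p) N : ℝ) : ℂ))
      = ((h^[m + 1] p : ℝ) : ℂ) + ρ' * ((V h p m : ℝ) : ℂ) := by
    show ((h^[m + N + 1 - N] p : ℝ) : ℂ) + ρ' * (g ((h^[m + N + 1 - N] p : ℝ) : ℂ) -
      ((h^[m + N + 1 - N] p : ℝ) : ℂ)) = _
    have e : m + N + 1 - N = m + 1 := by omega
    rw [e, H.g_iter hp, V]
    push_cast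
    ring
  rw [e0, eN, gr_iter H.W] at h2
  refine ⟨ρ'.re, ?_, ?_, ?_⟩
  · have h5 : |ρ'.re - z| ≤ ‖ρ' - (z : ℂ)‖ := by
      have h6 := Complex.abs_re_le_norm (ρ' - (z : ℂ))
      rwa [Complex.sub_re, Complex.ofReal_re] at h6
    rw [Complex.norm_real, Real.norm_eq_abs] at h1
    exact h5.trans h1
  · have h7 := congrArg Complex.re h2
    simpa using h7
  · intro k hk
    have h8 := h3 k hk
    rw [e0, gr_iter H.W] at h8
    exact mem_ball_real.1 h8

/-- The constants for the starting index. -/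
structure Start (b r C : ℝ) (h : ℝ → ℝ) (p : ℝ) (K : ℕ) : Prop where
  s1 : 8 * (h^[K] p - b) < r
  s2 : 128 * C * (h^[K] p - b) ≤ 1

theorem Hyp.orbit' (H : Hyp g b r C h Q p) {K : ℕ} (hK : Start b r C h p K) {m : ℕ} (hm : K ≤ m)
    (N : ℕ) {z : ℝ} (hz : |z| ≤ 1 / 2) :
    ∃ z' : ℝ, |z' - z| ≤ 32 * C * (h^[m + 1] p - b) * |z| ∧ |z' - z| ≤ |z| / 4 ∧
      (gr g)^[N] (h^[m + N + 1] p + z * V h p (m + N)) = h^[m + 1] p + z' * V h p m ∧
      ∀ k < N, |(gr g)^[k] (h^[m + N + 1] p + z * V h p (m + N)) - b| < r := by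
  have h1 : h^[m + 1] p ≤ h^[K] p := H.anti H.hp (by omega)
  have h2 : 0 < h^[m + 1] p - b := sub_pos.2 (H.mem H.hp (m + 1)).1
  have h3 : 128 * C * (h^[m + 1] p - b) ≤ 1 := by
    have : 128 * C * (h^[m + 1] p - b) ≤ 128 * C * (h^[K] p - b) :=
      mul_le_mul_of_nonneg_left (by linarith) (by have := H.W.hC; positivity)
    exact this.trans hK.s2
  obtain ⟨z', h4, h5, h6⟩ := H.orbit m N (by have := hK.s1; linarith) (by linarith) hz
  refine ⟨z', h4, h4.trans ?_, h5, h6⟩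
  have : 32 * C * (h^[m + 1] p - b) ≤ 1 / 4 := by linarith
  have := mul_le_mul_of_nonneg_right this (abs_nonneg z)
  linarith

theorem Hyp.gr_iter_h (H : Hyp g b r C h Q p) {y : ℝ} (hy : y ∈ Ioc b Q) (m k : ℕ) :
    (gr g)^[k] (h^[m + k] y) = h^[m] y := by
  have := H.g_iter_iter hy m k
  rw [gr_iter H.W] at this
  exact_mod_cast this

theorem Hyp.Z_bound (H : Hyp g b r C h Q p) {K : ℕ} (hK : Start b r C h p K) {Y : ℝ}
    (hY : Y ∈ Ioc b Q) (hZ : |Z h p K Y| ≤ 1 / 64) (N : ℕ) :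
    |Z h p (K + N) Y| ≤ 2 * |Z h p K Y| := by
  set a : ℝ := |Z h p K Y| with ha
  have ha0 : 0 ≤ a := abs_nonneg _
  have hza := abs_le.1 (le_of_eq ha.symm)
  have hVN := H.V_pos (K + N)
  have hVK := H.V_pos K
  -- the orbit of the point `h^[K+N+1] Y`
  have hy1 : (gr g)^[N] (h^[K + N + 1] Y) = h^[K + 1] p + Z h p K Y * V h p K := by
    rw [H.Z_eq K Y, show K + N + 1 = (K + 1) + N by omega]
    exact H.gr_iter_h hY (K + 1) N
  have hy2 : ∀ k < N, |(gr g)^[k] (h^[K + N + 1] Y) - b| < r := by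
    intro k hk
    rw [show K + N + 1 = (K + N + 1 - k) + k by omega, H.gr_iter_h hY]
    have h1 := (H.mem hY (K + N + 1 - k)).1
    rw [abs_of_pos (sub_pos.2 h1)]
    have h2 : h^[K + N + 1 - k] Y ≤ h^[K + 1] Y := H.anti hY (by omega)
    have h3 := H.Z_eq K Y
    have h4 : Z h p K Y * V h p K ≤ 1 * V h p K :=
      mul_le_mul_of_nonneg_right (by linarith [hza.2]) hVK.le
    have h5 : h^[K + 1] p + V h p K = h^[K] p := by rw [V]; ring
    have h6 := hK.s1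
    have h7 := (H.mem H.hp K).1
    linarith
  have e2 : |2 * a| = 2 * a := abs_of_nonneg (by linarith)
  have e3 : |-(2 * a)| = 2 * a := by rw [abs_neg, e2]
  obtain ⟨z1, -, hz1, hz1', hz1''⟩ := H.orbit' hK le_rfl N (z := 2 * a) (by rw [e2]; linarith)
  obtain ⟨z2, -, hz2, hz2', hz2''⟩ := H.orbit' hK le_rfl N (z := -(2 * a)) (by rw [e3]; linarith)
  rw [e2] at hz1
  rw [e3] at hz2
  have hz1b := abs_le.1 hz1
  have hz2b := abs_le.1 hz2
  have hyeq := H.Z_eq (K + N) Y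
  refine abs_le.2 ⟨?_, ?_⟩
  · by_contra hcon
    push Not at hcon
    have h1 : h^[K + N + 1] Y < h^[K + N + 1] p + -(2 * a) * V h p (K + N) := by
      rw [← hyeq]
      have : Z h p (K + N) Y * V h p (K + N) < -(2 * a) * V h p (K + N) :=
        mul_lt_mul_of_pos_right (by linarith) hVN
      linarith
    have h2 := gr_iter_lt H.W h1 N hy2 hz2''
    rw [hy1, hz2'] at h2
    have h3 : Z h p K Y * V h p K < z2 * V h p K := by linarith
    have h4 : Z h p K Y < z2 := lt_of_mul_lt_mul_right h3 hVK.le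
    linarith [hza.1, hz2b.2]
  · by_contra hcon
    push Not at hcon
    have h1 : h^[K + N + 1] p + 2 * a * V h p (K + N) < h^[K + N + 1] Y := by
      rw [← hyeq]
      have : 2 * a * V h p (K + N) < Z h p (K + N) Y * V h p (K + N) :=
        mul_lt_mul_of_pos_right (by linarith) hVN
      linarith
    have h2 := gr_iter_lt H.W h1 N hz1'' hy2
    rw [hy1, hz1'] at h2
    have h3 : z1 * V h p K < Z h p K Y * V h p K := by linarith
    have h4 : z1 < Z h p K Y := lt_of_mul_lt_mul_right h3 hVK.le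
    linarith [hza.2, hz1b.1]

theorem Hyp.Z_cauchy (H : Hyp g b r C h Q p) {K : ℕ} (hK : Start b r C h p K) {Y : ℝ}
    (hY : Y ∈ Ioc b Q) (hZ : |Z h p K Y| ≤ 1 / 64) {m m' : ℕ} (hm : K ≤ m) (hmm : m ≤ m') :
    |Z h p m Y - Z h p m' Y| ≤ C * (h^[m + 1] p - b) := by
  obtain ⟨N, rfl⟩ := Nat.exists_eq_add_of_le hmm
  obtain ⟨N', hN'⟩ := Nat.exists_eq_add_of_le (hm.trans hmm)
  have h1 : |Z h p (m + N) Y| ≤ 1 / 32 := by
    rw [hN']
    have := H.Z_bound hK hY hZ N'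
    linarith
  obtain ⟨z', h2, -, h3, -⟩ := H.orbit' hK hm N (z := Z h p (m + N) Y) (by linarith)
  rw [H.Z_eq (m + N) Y, show m + N + 1 = (m + 1) + N by omega, H.gr_iter_h hY, ← H.Z_eq m Y] at h3
  have h4 : Z h p m Y * V h p m = z' * V h p m := by linarith
  have h5 : Z h p m Y = z' := mul_right_cancel₀ (H.V_pos m).ne' h4
  rw [h5]
  refine h2.trans ?_
  have h6 : 0 ≤ 32 * C * (h^[m + 1] p - b) := by
    have := H.W.hC
    have := (H.mem H.hp (m + 1)).1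
    have : 0 ≤ h^[m + 1] p - b := by linarith
    positivity
  calc 32 * C * (h^[m + 1] p - b) * |Z h p (m + N) Y| ≤ 32 * C * (h^[m + 1] p - b) * (1 / 32) :=
        mul_le_mul_of_nonneg_left h1 h6
    _ = _ := by ring

/-- The limit coordinate. -/
noncomputable def X (h : ℝ → ℝ) (p : ℝ) (Y : ℝ) : ℝ := limUnder atTop fun m => Z h p m Y

theorem Hyp.X_lim (H : Hyp g b r C h Q p) {K : ℕ} (hK : Start b r C h p K) {Y : ℝ}
    (hY : Y ∈ Ioc b Q) (hZ : |Z h p K Y| ≤ 1 / 64) :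
    Tendsto (fun m => Z h p m Y) atTop (𝓝 (X h p Y)) := by
  have h1 : CauchySeq fun j => Z h p (j + K) Y := by
    refine cauchySeq_of_le_tendsto_0' (fun j => C * (h^[j + K + 1] p - b)) ?_ ?_
    · intro n m hnm
      rw [Real.dist_eq]
      exact H.Z_cauchy hK hY hZ (by omega) (by omega)
    · have h2 : Tendsto (fun j => h^[j + K + 1] p) atTop (𝓝 b) := by
        have := (H.lim H.hp).comp (tendsto_add_atTop_nat (K + 1))
        exact this
      have h3 : Tendsto (fun j => C * (h^[j + K + 1] p - b)) atTop (𝓝 (C * (b - b))) :=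
        (h2.sub_const b).const_mul C
      simpa using h3
  obtain ⟨L, hL⟩ := cauchySeq_tendsto_of_complete h1
  have h4 : Tendsto (fun m => Z h p m Y) atTop (𝓝 L) := (tendsto_add_atTop_iff_nat K).1 hL
  have h5 : X h p Y = L := h4.limUnder_eq
  rw [h5]
  exact h4

theorem Hyp.X_bound (H : Hyp g b r C h Q p) {K : ℕ} (hK : Start b r C h p K) {Y : ℝ}
    (hY : Y ∈ Ioc b Q) (hZ : |Z h p K Y| ≤ 1 / 64) : |X h p Y| ≤ 2 * |Z h p K Y| := by
  refine le_of_tendsto (H.X_lim hK hY hZ).abs ?_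
  filter_upwards [eventually_ge_atTop K] with m hm
  obtain ⟨N, rfl⟩ := Nat.exists_eq_add_of_le hm
  exact H.Z_bound hK hY hZ N

/-- The ratio of the speeds. -/
noncomputable def S (h : ℝ → ℝ) (p : ℝ) (m : ℕ) (Y : ℝ) : ℝ := (h^[m] Y - h^[m + 1] Y) / V h p m

theorem Hyp.q_lim (H : Hyp g b r C h Q p) :
    Tendsto (fun m => V h p m / V h p (m + 1)) atTop (𝓝 1) := by
  have hC := H.W.hC
  have hr := H.W.hr
  have hlim := H.lim H.hp
  have hball : ∀ᶠ m in atTop, |h^[m] p - b| < r := by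
    have := hlim.eventually (Metric.ball_mem_nhds b hr)
    filter_upwards [this] with m hm
    rwa [Real.dist_eq] at hm
  have hball1 : ∀ᶠ m in atTop, |h^[m + 1] p - b| < r :=
    (tendsto_add_atTop_nat 1).eventually hball
  have hball2 : ∀ᶠ m in atTop, |h^[m + 2] p - b| < r :=
    (tendsto_add_atTop_nat 2).eventually hball
  have hV : Tendsto (fun m => V h p (m + 1)) atTop (𝓝 0) := by
    have h1 : Tendsto (fun m => h^[m + 1] p) atTop (𝓝 b) := hlim.comp (tendsto_add_atTop_nat 1)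
    have h2 : Tendsto (fun m => h^[m + 1 + 1] p) atTop (𝓝 b) := hlim.comp (tendsto_add_atTop_nat 2)
    have := h1.sub h2
    rw [sub_self] at this
    exact this
  have hD : Tendsto (fun m => deriv g ((h^[m + 2] p : ℝ) : ℂ)) atTop (𝓝 1) := by
    have hc : Continuous (deriv g) := (H.W.diff.contDiff (n := 1)).continuous_deriv le_rfl
    have h1 : Tendsto (fun m => ((h^[m + 2] p : ℝ) : ℂ)) atTop (𝓝 (b : ℂ)) :=
      (Complex.continuous_ofReal.tendsto b).comp (hlim.comp (tendsto_add_atTop_nat 2))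
    have h2 := (hc.tendsto (b : ℂ)).comp h1
    rw [H.h1] at h2
    exact h2
  have hbd : ∀ᶠ m in atTop, ‖((V h p m / V h p (m + 1) : ℝ) : ℂ) -
      deriv g ((h^[m + 2] p : ℝ) : ℂ)‖ ≤ C * V h p (m + 1) := by
    filter_upwards [hball1, hball2] with m h1 h2
    have h3 := H.W.d2 _ (mem_ball_real.2 h1) _ (mem_ball_real.2 h2)
    rw [H.g_iter H.hp m, show m + 2 = (m + 1) + 1 by omega, H.g_iter H.hp (m + 1)] at h3
    have hVp := H.V_pos (m + 1)
    have hVc : ((V h p (m + 1) : ℝ) : ℂ) ≠ 0 := by exact_mod_cast hVp.ne'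
    have e1 : ((h^[m + 1] p : ℝ) : ℂ) - ((h^[m + 1 + 1] p : ℝ) : ℂ) = ((V h p (m + 1) : ℝ) : ℂ) := by
      rw [V]; push_cast; ring
    have e2 : ((h^[m] p : ℝ) : ℂ) - ((h^[m + 1] p : ℝ) : ℂ) = ((V h p m : ℝ) : ℂ) := by
      rw [V]; push_cast; ring
    rw [e1, e2, Complex.norm_real, Real.norm_eq_abs, abs_of_pos hVp] at h3
    have e3 : ((V h p m / V h p (m + 1) : ℝ) : ℂ) - deriv g ((h^[m + 1 + 1] p : ℝ) : ℂ) =
        (((V h p m : ℝ) : ℂ) - deriv g ((h^[m + 1 + 1] p : ℝ) : ℂ) * ((V h p (m + 1) : ℝ) : ℂ)) /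
          ((V h p (m + 1) : ℝ) : ℂ) := by
      rw [eq_div_iff hVc]
      push_cast
      rw [sub_mul, div_mul_cancel₀ _ hVc]
    rw [e3, norm_div, Complex.norm_real (V h p (m + 1)), Real.norm_eq_abs, abs_of_pos hVp,
      div_le_iff₀ hVp]
    calc _ ≤ C * V h p (m + 1) ^ 2 := h3
      _ = _ := by ring
  have h0 : Tendsto (fun m => ((V h p m / V h p (m + 1) : ℝ) : ℂ) -
      deriv g ((h^[m + 2] p : ℝ) : ℂ)) atTop (𝓝 0) := by
    refine squeeze_zero_norm' hbd ?_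
    have := hV.const_mul C
    rwa [mul_zero] at this
  have h5 := h0.add hD
  simp only [sub_add_cancel, zero_add] at h5
  have h6 := (Complex.continuous_re.tendsto _).comp h5
  simpa [Function.comp_def] using h6

theorem Hyp.S_lim (H : Hyp g b r C h Q p) {K : ℕ} (hK : Start b r C h p K) {Y : ℝ}
    (hY : Y ∈ Ioc b Q) (hZ : |Z h p K Y| ≤ 1 / 64) :
    Tendsto (fun m => S h p m Y) atTop (𝓝 1) := by
  have hX := H.X_lim hK hY hZ
  have h1 : Tendsto (fun m => Z h p (m + 1) Y) atTop (𝓝 (X h p Y)) :=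
    hX.comp (tendsto_add_atTop_nat 1)
  have h2 : Tendsto (fun m => 1 + Z h p m Y * (V h p m / V h p (m + 1)) - Z h p (m + 1) Y) atTop
      (𝓝 (1 + X h p Y * 1 - X h p Y)) :=
    ((hX.mul H.q_lim).const_add 1).sub h1
  have h3 : (1 + X h p Y * 1 - X h p Y) = 1 := by ring
  rw [h3] at h2
  refine (tendsto_add_atTop_iff_nat 1).1 (h2.congr fun m => ?_)
  have hV0 := (H.V_pos m).ne'
  have hV1 := (H.V_pos (m + 1)).ne'
  have e1 := H.Z_eq m Y
  have e2 := H.Z_eq (m + 1) Y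
  have e3 : V h p (m + 1) = h^[m + 1] p - h^[m + 1 + 1] p := rfl
  rw [S, eq_div_iff hV1, ← e1, ← e2, sub_mul, add_mul, mul_assoc (Z h p m Y), div_mul_cancel₀ _ hV1]
  linarith

theorem Hyp.Fm_eq (H : Hyp g b r C h Q p) {Y : ℝ} (hY : Y ∈ Ioc b Q) (m : ℕ) (ρ : ℂ) :
    Fm g (fun m => h^[m] Y) (m + 1) ρ =
      Fm g (fun m => h^[m] p) (m + 1) ((Z h p m Y : ℂ) + ρ * (S h p m Y : ℂ)) := by
  have hV0 : ((V h p m : ℝ) : ℂ) ≠ 0 := by exact_mod_cast (H.V_pos m).ne'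
  have e1 : ((h^[m + 1] Y : ℝ) : ℂ) = ((h^[m + 1] p : ℝ) : ℂ) + (Z h p m Y : ℂ) * ((V h p m : ℝ) : ℂ) := by
    rw [← H.Z_eq m Y]; push_cast; ring
  have e2 : ((h^[m] Y : ℝ) : ℂ) - ((h^[m + 1] Y : ℝ) : ℂ) = (S h p m Y : ℂ) * ((V h p m : ℝ) : ℂ) := by
    rw [S]; push_cast; rw [div_mul_cancel₀ _ hV0]
  have e3 : ((h^[m] p : ℝ) : ℂ) - ((h^[m + 1] p : ℝ) : ℂ) = ((V h p m : ℝ) : ℂ) := by
    rw [V]; push_cast; ring
  show g^[m + 1] (((h^[m + 1] Y : ℝ) : ℂ) + ρ * (g ((h^[m + 1] Y : ℝ) : ℂ) -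
    ((h^[m + 1] Y : ℝ) : ℂ))) = g^[m + 1] (((h^[m + 1] p : ℝ) : ℂ) +
      ((Z h p m Y : ℂ) + ρ * (S h p m Y : ℂ)) * (g ((h^[m + 1] p : ℝ) : ℂ) -
        ((h^[m + 1] p : ℝ) : ℂ)))
  rw [H.g_iter hY, H.g_iter H.hp, e2, e3, e1]
  congr 1
  ring

theorem Hyp.Fm_Z (H : Hyp g b r C h Q p) {Y : ℝ} (hY : Y ∈ Ioc b Q) (m : ℕ) :
    Fm g (fun m => h^[m] p) (m + 1) (Z h p m Y : ℂ) = (Y : ℂ) := by
  have h1 := H.Fm_eq hY m 0
  rw [zero_mul, add_zero] at h1
  rw [← h1]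
  show g^[m + 1] (((h^[m + 1] Y : ℝ) : ℂ) + 0 * (g ((h^[m + 1] Y : ℝ) : ℂ) -
    ((h^[m + 1] Y : ℝ) : ℂ))) = _
  rw [zero_mul, add_zero]
  have := H.g_iter_iter hY 0 (m + 1)
  simpa using this

theorem Hyp.chi_X (H : Hyp g b r C h Q p) {K : ℕ} (hK : Start b r C h p K) {χ : ℂ → ℂ}
    (hχd : DifferentiableOn ℂ χ (Metric.ball 0 (1 / 8)))
    (hχ : TendstoUniformlyOn (Fm g fun m => h^[m] p) χ atTop (Metric.ball 0 (1 / 8))) {Y : ℝ}
    (hY : Y ∈ Ioc b Q) (hZ : |Z h p K Y| ≤ 1 / 64) : χ (X h p Y : ℂ) = (Y : ℂ) := by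
  have hX := H.X_lim hK hY hZ
  have hb := H.X_bound hK hY hZ
  have hmem : (X h p Y : ℂ) ∈ Metric.ball (0 : ℂ) (1 / 8) := by
    rw [mem_ball_zero_iff, Complex.norm_real, Real.norm_eq_abs]
    linarith
  have h1 : Tendsto (fun m => (Z h p m Y : ℂ)) atTop (𝓝 (X h p Y : ℂ)) :=
    (Complex.continuous_ofReal.tendsto _).comp hX
  have h2 : TendstoUniformlyOn (fun m => Fm g (fun m => h^[m] p) (m + 1)) χ atTop
      (Metric.ball 0 (1 / 8)) := by
    intro u hu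
    exact (tendsto_add_atTop_nat 1).eventually (hχ u hu)
  have h3 : ∀ᶠ m in atTop, (Z h p m Y : ℂ) ∈ Metric.ball (0 : ℂ) (1 / 8) :=
    h1.eventually (Metric.isOpen_ball.mem_nhds hmem)
  have h4 := h2.tendsto_comp (hχd.continuousOn _ hmem)
    (tendsto_nhdsWithin_iff.2 ⟨h1, h3⟩)
  refine tendsto_nhds_unique h4 ?_
  simp only [H.Fm_Z hY]
  exact tendsto_const_nhds

theorem Hyp.unif (H : Hyp g b r C h Q p) {K : ℕ} (hK : Start b r C h p K) {χ : ℂ → ℂ}
    (hχd : DifferentiableOn ℂ χ (Metric.ball 0 (1 / 8)))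
    (hχ : TendstoUniformlyOn (Fm g fun m => h^[m] p) χ atTop (Metric.ball 0 (1 / 8))) {Y : ℝ}
    (hY : Y ∈ Ioc b Q) (hZ : |Z h p K Y| ≤ 1 / 64) :
    TendstoUniformlyOn (Fm g fun m => h^[m] Y) (fun ρ => χ ((X h p Y : ℂ) + ρ)) atTop
      (Metric.ball 0 (1 / 16)) := by
  have hX := H.X_lim hK hY hZ
  have hb := H.X_bound hK hY hZ
  have hS := H.S_lim hK hY hZ
  have hXb : |X h p Y| ≤ 1 / 32 := by linarith
  have hcomp : IsCompact (Metric.closedBall (0 : ℂ) (7 / 64)) := isCompact_closedBall _ _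
  have hsub : Metric.closedBall (0 : ℂ) (7 / 64) ⊆ Metric.ball 0 (1 / 8) :=
    Metric.closedBall_subset_ball (by norm_num)
  have huc : UniformContinuousOn χ (Metric.closedBall (0 : ℂ) (7 / 64)) :=
    hcomp.uniformContinuousOn_of_continuous (hχd.continuousOn.mono hsub)
  rw [Metric.tendstoUniformlyOn_iff] at hχ ⊢
  intro ε hε
  obtain ⟨δ, hδ, hδ'⟩ := Metric.uniformContinuousOn_iff.1 huc (ε / 2) (half_pos hε)
  have h1 : ∀ᶠ m in atTop, ∀ x ∈ Metric.ball (0 : ℂ) (1 / 8),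
      dist (χ x) (Fm g (fun m => h^[m] p) (m + 1) x) < ε / 2 :=
    (tendsto_add_atTop_nat 1).eventually (hχ (ε / 2) (half_pos hε))
  have h2 : ∀ᶠ m in atTop, |Z h p m Y - X h p Y| < min (δ / 2) (1 / 64 / 2) := by
    have := hX.eventually (Metric.ball_mem_nhds (X h p Y) (lt_min (half_pos hδ)
      (by norm_num : (0 : ℝ) < 1 / 64 / 2)))
    filter_upwards [this] with m hm
    rwa [Real.dist_eq] at hm
  have h3 : ∀ᶠ m in atTop, |S h p m Y - 1| < min δ (1 / 8) := by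
    have := hS.eventually (Metric.ball_mem_nhds (1 : ℝ) (lt_min hδ
      (by norm_num : (0 : ℝ) < 1 / 8)))
    filter_upwards [this] with m hm
    rwa [Real.dist_eq] at hm
  have h4 : ∀ᶠ m in atTop, ∀ x ∈ Metric.ball (0 : ℂ) (1 / 16),
      dist (χ ((X h p Y : ℂ) + x)) (Fm g (fun m => h^[m] Y) (m + 1) x) < ε := by
    filter_upwards [h1, h2, h3] with m h1 h2 h3
    intro ρ hρ
    rw [mem_ball_zero_iff] at hρ
    rw [H.Fm_eq hY]
    have h21 := h2.trans_le (min_le_left _ _)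
    have h22 := h2.trans_le (min_le_right _ _)
    have h31 := h3.trans_le (min_le_left _ _)
    have h32 := h3.trans_le (min_le_right _ _)
    have e1 : ((X h p Y : ℂ) + ρ) - ((Z h p m Y : ℂ) + ρ * (S h p m Y : ℂ)) =
        -(((Z h p m Y - X h p Y : ℝ) : ℂ) + ρ * ((S h p m Y - 1 : ℝ) : ℂ)) := by
      push_cast; ring
    have hd : dist ((X h p Y : ℂ) + ρ) ((Z h p m Y : ℂ) + ρ * (S h p m Y : ℂ)) ≤
        |Z h p m Y - X h p Y| + 1 / 16 * |S h p m Y - 1| := by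
      rw [dist_eq_norm, e1, norm_neg]
      refine (norm_add_le _ _).trans ?_
      rw [norm_mul, Complex.norm_real, Complex.norm_real, Real.norm_eq_abs, Real.norm_eq_abs]
      have := mul_le_mul_of_nonneg_right hρ.le (abs_nonneg (S h p m Y - 1))
      linarith
    have hx1 : (X h p Y : ℂ) + ρ ∈ Metric.closedBall (0 : ℂ) (7 / 64) := by
      rw [mem_closedBall_zero_iff]
      refine (norm_add_le _ _).trans ?_
      rw [Complex.norm_real, Real.norm_eq_abs]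
      linarith
    have hx2 : (Z h p m Y : ℂ) + ρ * (S h p m Y : ℂ) ∈ Metric.closedBall (0 : ℂ) (7 / 64) := by
      rw [mem_closedBall_zero_iff]
      have h5 : ‖(Z h p m Y : ℂ) + ρ * (S h p m Y : ℂ)‖ ≤ ‖(X h p Y : ℂ) + ρ‖ +
          dist ((X h p Y : ℂ) + ρ) ((Z h p m Y : ℂ) + ρ * (S h p m Y : ℂ)) := by
        rw [dist_comm, dist_eq_norm]
        calc ‖(Z h p m Y : ℂ) + ρ * (S h p m Y : ℂ)‖ = ‖((X h p Y : ℂ) + ρ) +
            (((Z h p m Y : ℂ) + ρ * (S h p m Y : ℂ)) - ((X h p Y : ℂ) + ρ))‖ := by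
              congr 1; ring
          _ ≤ _ := norm_add_le _ _
      have h6 : ‖(X h p Y : ℂ) + ρ‖ ≤ 1 / 32 + 1 / 16 := by
        refine (norm_add_le _ _).trans ?_
        rw [Complex.norm_real, Real.norm_eq_abs]
        linarith
      linarith
    have hdd : dist ((X h p Y : ℂ) + ρ) ((Z h p m Y : ℂ) + ρ * (S h p m Y : ℂ)) < δ := by
      refine hd.trans_lt ?_
      linarith
    have h7 := hδ' _ hx1 _ hx2 hdd
    have h8 := h1 _ (hsub hx2)
    calc dist (χ ((X h p Y : ℂ) + ρ)) (Fm g (fun m => h^[m] p) (m + 1)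
          ((Z h p m Y : ℂ) + ρ * (S h p m Y : ℂ)))
        ≤ dist (χ ((X h p Y : ℂ) + ρ)) (χ ((Z h p m Y : ℂ) + ρ * (S h p m Y : ℂ))) +
          dist (χ ((Z h p m Y : ℂ) + ρ * (S h p m Y : ℂ))) (Fm g (fun m => h^[m] p) (m + 1)
          ((Z h p m Y : ℂ) + ρ * (S h p m Y : ℂ))) := dist_triangle _ _ _
      _ < ε := by linarith
  rw [← map_add_atTop_eq_nat 1, eventually_map]
  exact h4

end

end TranslateAux

open TranslateAux in
theorem translate {g : ℂ → ℂ} {b r C : ℝ} (W : Win g b r C) (h1 : deriv g (b : ℂ) = 1)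
    {h : ℝ → ℝ} {Q p : ℝ} (hbp : b < p) (hpQ : p < Q) (hcont : ContinuousOn h (Icc b Q))
    (hmono : StrictMonoOn h (Icc b Q)) (hfix : h b = b)
    (hlt : ∀ y ∈ Ioc b Q, b < h y ∧ h y < y)
    (hg : ∀ y ∈ Icc b Q, g (h y : ℂ) = (y : ℂ)) {χ : ℂ → ℂ}
    (hχd : DifferentiableOn ℂ χ (Metric.ball 0 (1 / 8)))
    (hχ : TendstoUniformlyOn (Fm g fun m => h^[m] p) χ atTop (Metric.ball 0 (1 / 8))) :
    ∃ (κ : ℝ) (X : ℝ → ℝ), 0 < κ ∧ b < p - κ ∧ p + κ < Q ∧
      (∀ Y, |Y - p| < κ → |X Y| ≤ 1 / 32 ∧ χ (X Y : ℂ) = (Y : ℂ) ∧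
        TendstoUniformlyOn (Fm g fun m => h^[m] Y) (fun ρ => χ ((X Y : ℂ) + ρ)) atTop
          (Metric.ball 0 (1 / 16))) ∧
      StrictMonoOn X (Ioo (p - κ) (p + κ)) ∧ X p = 0 ∧ ContinuousAt X p := by
  have H : Hyp g b r C h Q p := ⟨W, h1, hbp, hpQ, hcont, hmono, hfix, hlt, hg⟩
  have hC := W.hC
  have hr := W.hr
  -- the starting index
  obtain ⟨K, hK⟩ : ∃ K, Start b r C h p K := by
    have hδ : 0 < min (r / 8) (1 / (128 * C)) := lt_min (by positivity) (by positivity)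
    have := (H.lim H.hp).eventually (Metric.ball_mem_nhds b hδ)
    obtain ⟨K, hK⟩ := this.exists
    rw [Real.dist_eq] at hK
    have h2 := (abs_lt.1 hK).2
    refine ⟨K, ⟨?_, ?_⟩⟩
    · have := h2.trans_le (min_le_left _ _)
      linarith
    · have h3 := (h2.trans_le (min_le_right _ _)).le
      have h4 := mul_le_mul_of_nonneg_left h3 (by positivity : (0 : ℝ) ≤ 128 * C)
      rw [mul_one_div_cancel (by positivity)] at h4
      exact h4
  -- continuity of the first coordinate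
  have hmaps : MapsTo h (Icc b Q) (Icc b Q) := by
    intro y hy
    rcases hy.1.eq_or_lt with h2 | h2
    · rw [← h2, hfix]; exact ⟨le_rfl, by linarith⟩
    · exact ⟨(hlt y ⟨h2, hy.2⟩).1.le, (hlt y ⟨h2, hy.2⟩).2.le.trans hy.2⟩
  have hZc : ContinuousAt (fun Y => Z h p K Y) p := by
    have h2 : ContinuousOn h^[K + 1] (Icc b Q) := hcont.iterate hmaps (K + 1)
    have h3 : ContinuousAt h^[K + 1] p := h2.continuousAt (Icc_mem_nhds hbp hpQ)
    exact (h3.sub continuousAt_const).div_const _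
  have hZp : Z h p K p = 0 := by simp [Z]
  obtain ⟨κ0, hκ0, hκ0'⟩ : ∃ κ0 > 0, ∀ Y, |Y - p| < κ0 → |Z h p K Y| ≤ 1 / 64 := by
    obtain ⟨δ, hδ, hδ'⟩ := Metric.continuousAt_iff.1 hZc (1 / 64) (by norm_num)
    refine ⟨δ, hδ, fun Y hY => ?_⟩
    have h2 := hδ' (x := Y) (by rwa [Real.dist_eq])
    rw [hZp, Real.dist_eq, sub_zero] at h2
    exact h2.le
  set κ : ℝ := min κ0 (min ((p - b) / 2) ((Q - p) / 2)) with hκ
  have hκpos : 0 < κ := lt_min hκ0 (lt_min (by linarith) (by linarith))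
  have hκ1 : κ ≤ κ0 := min_le_left _ _
  have hκ2 : κ ≤ (p - b) / 2 := (min_le_right _ _).trans (min_le_left _ _)
  have hκ3 : κ ≤ (Q - p) / 2 := (min_le_right _ _).trans (min_le_right _ _)
  have hmemY : ∀ Y, |Y - p| < κ → Y ∈ Ioc b Q := by
    intro Y hY
    have h2 := abs_lt.1 hY
    exact ⟨by linarith [h2.1], by linarith [h2.2]⟩
  have hsmallY : ∀ Y, |Y - p| < κ → |Z h p K Y| ≤ 1 / 64 := fun Y hY =>
    hκ0' Y (hY.trans_le hκ1)
  have hXp : X h p p = 0 := by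
    have h2 : Tendsto (fun m => Z h p m p) atTop (𝓝 0) := by
      have : (fun m => Z h p m p) = fun _ => (0 : ℝ) := by
        funext m; simp [Z]
      rw [this]
      exact tendsto_const_nhds
    exact h2.limUnder_eq
  refine ⟨κ, X h p, hκpos, by linarith, by linarith, ?_, ?_, hXp, ?_⟩
  · intro Y hY
    have hb := H.X_bound hK (hmemY Y hY) (hsmallY Y hY)
    have hs := hsmallY Y hY
    exact ⟨by linarith, H.chi_X hK hχd hχ (hmemY Y hY) hs, H.unif hK hχd hχ (hmemY Y hY) hs⟩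
  · intro Y hY Y' hY' hlt'
    have ha : |Y - p| < κ := abs_lt.2 ⟨by linarith [hY.1], by linarith [hY.2]⟩
    have ha' : |Y' - p| < κ := abs_lt.2 ⟨by linarith [hY'.1], by linarith [hY'.2]⟩
    have h2 := H.X_lim hK (hmemY Y ha) (hsmallY Y ha)
    have h3 := H.X_lim hK (hmemY Y' ha') (hsmallY Y' ha')
    have hle : X h p Y ≤ X h p Y' := by
      refine le_of_tendsto_of_tendsto' h2 h3 fun m => ?_
      have h4 : h^[m + 1] Y ≤ h^[m + 1] Y' := by
        have h5 : ∀ n, h^[n] Y ≤ h^[n] Y' := by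
          intro n
          induction n with
          | zero => exact hlt'.le
          | succ n ih =>
            rw [Function.iterate_succ_apply', Function.iterate_succ_apply']
            exact hmono.monotoneOn ⟨(H.mem (hmemY Y ha) n).1.le, (H.mem (hmemY Y ha) n).2⟩
              ⟨(H.mem (hmemY Y' ha') n).1.le, (H.mem (hmemY Y' ha') n).2⟩ ih
        exact h5 _
      exact div_le_div_of_nonneg_right (by linarith) (H.V_pos m).le
    refine hle.lt_of_ne fun heq => ?_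
    have h4 := H.chi_X hK hχd hχ (hmemY Y ha) (hsmallY Y ha)
    have h5 := H.chi_X hK hχd hχ (hmemY Y' ha') (hsmallY Y' ha')
    rw [heq, h5] at h4
    have h6 : Y' = Y := by exact_mod_cast h4
    linarith
  · have h2 : Tendsto (fun Y => 2 * |Z h p K Y|) (𝓝 p) (𝓝 0) := by
      have h3 := (hZc.tendsto.abs).const_mul 2
      rw [hZp, abs_zero, mul_zero] at h3
      exact h3
    have h4 : ∀ᶠ Y in 𝓝 p, ‖X h p Y‖ ≤ 2 * |Z h p K Y| := by
      have h5 : ∀ᶠ Y in 𝓝 p, |Y - p| < κ := by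
        filter_upwards [Metric.ball_mem_nhds p hκpos] with Y hY
        rwa [Metric.mem_ball, Real.dist_eq] at hY
      filter_upwards [h5] with Y hY
      rw [Real.norm_eq_abs]
      exact H.X_bound hK (hmemY Y hY) (hsmallY Y hY)
    have h6 := squeeze_zero_norm' h4 h2
    rw [ContinuousAt, hXp]
    exact h6

end JC
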