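import Pool.Agent.Lib.JC.AnDef
import Pool.Agent.Lib.JC.Ct
import Pool.Agent.Lib.JC.CuspUse
import Pool.Agent.Lib.JC.ExistsWin
import Pool.Agent.Lib.JC.LeftCoord
import Pool.Agent.Lib.JC.RightCoord
import Pool.Agent.Lib.JC.Translate

/-!
# JC.AnEx : existence of the analytic data at the cusp (pure assembly)

`c0 = S.ct t0`, `g = S.G c0`. `exists_win` for the family `S.G` (`G_continuous`, `G_differentiable`, real on the
reals by `G_real`) at `c0`, `b`, with `cusp_deriv`, gives `Win g b r C` (take `c = c0`). `left_coord` with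
`cusp_left` gives `Φ`, `rL`. `right_coord` with `P = fun m => (S.h c0)^[m] p`, `p = S.pf c0`, `cusp_right`
(`p ∈ (b, R)` by `cusp_pf`) gives `χ`. `translate` with `Q = S.R` and `cusp_h` gives `κ`, `X`.
The window constants for all `c` near `c0` are produced again in `JC.GateUse`.
-/

open Set Filter Topology

namespace JC

theorem an_exists {S : St} {t0 b : ℝ} (C : CuspData S t0 b) :
    ∃ (Φ : ℂ → ℂ) (rL : ℝ) (χ : ℂ → ℂ) (κ : ℝ) (X : ℝ → ℝ), AnData S t0 Φ rL χ κ X := by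
  have hc := C.mem_seg
  have hbp : b < S.pf (S.ct t0) := (C.b_lt_xs le_rfl).trans (St.xs_lt_pf hc 1)
  have hpR : S.pf (S.ct t0) < S.R := (St.pf_mem hc).2
  obtain ⟨r, Cc, δ, hδ, hW⟩ := exists_win S.G S.G_cont S.G_diff
    (fun c x => by rw [S.G_real, Complex.ofReal_im]) (S.ct t0) b C.deriv_G_b
  have W := hW (S.ct t0) (by rw [sub_self, abs_zero]; exact hδ)
  obtain ⟨Φ, rL, hrL, Φd, ΦL, Φ0, Φ1, Φb⟩ := left_coord W C.left_data
  obtain ⟨χ, χd, χL, χ0, χ1, χr⟩ := right_coord W (C.right_data ⟨hbp, hpR⟩)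
  obtain ⟨κ, X, hκ, hbκ, hκR, hX, hXm, hXp, hXc⟩ := translate W C.deriv_G_b hbp hpR
    C.h_contOn C.h_monoOn C.fix C.h_between C.G_h χd χL
  exact ⟨Φ, rL, χ, κ, X, ⟨hrL, Φd, Φ0, Φ1, Φb, ΦL, χd, χ1, χr, hκ, hκR, hX, hXm, hXp, hXc⟩⟩

end JC
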