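import Pool.Agent.Lib.JC.Core2

/-!
# JC.Base : the initial state

`a0 = -5/2`, `a1 = 5/2`, `τ = []`, `ε = 1`, `R = 5/2`. `br c [] y = y`, so `ψ_c y = y`; `lo`, `hi`: `-5/2 ≤ c ≤ 5/2`;
`esc`: `5/2 - c ≤ 5 < 25/4`. `n = 1`. `y0 c = 1 * fr c 0 = c`, `h_c y = √(y - c)`. If `c < 0` and `-c < √(-c - c)` then
`c^2 < -2 c`, so `-c < 2`.
-/

open Set Filter Topology

namespace JC

theorem exists_base : ∃ S : PreSt, S.n = 1 ∧ ∀ c ∈ S.seg, S.RenIn c → -2 < c ∧ c < 0 := by
  have hu : uIcc (-5 / 2 : ℝ) (5 / 2) = Icc (-5 / 2) (5 / 2) := uIcc_of_le (by norm_num)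
  refine ⟨{ a0 := -5 / 2, a1 := 5 / 2, τ := [], ε := 1, R := 5 / 2,
            hne := by norm_num, hR := by norm_num, hε := Or.inl rfl, hprod := by simp,
            ok := fun c _ => trivial, lo := ?_, hi := ?_, esc := ?_,
            e0 := ?_, e1 := ?_ }, rfl, ?_⟩
  · intro c hc
    rw [hu] at hc
    simp only [br]
    linarith [hc.1]
  · intro c hc
    rw [hu] at hc
    simp only [br]
    linarith [hc.2]
  · intro c hc
    rw [hu] at hc
    simp only [br]
    linarith [hc.1]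
  · simp only [br]
    norm_num
  · simp only [br]
    norm_num
  · intro c _ h
    obtain ⟨h1, h2⟩ := h
    simp only [PreSt.y0, PreSt.Gr, PreSt.n, PreSt.h, PreSt.psi, br, fr, List.length_nil, zero_add,
      Function.iterate_one, one_mul] at h1 h2
    have h3 : c < 0 := by nlinarith [h1]
    refine ⟨?_, h3⟩
    have h4 : (0 : ℝ) ^ 2 + c = c := by ring
    rw [h4] at h2
    have h5 : (0 : ℝ) ≤ -c - c := by linarith
    have h6 := Real.sq_sqrt h5
    have h7 : (-c) ^ 2 < Real.sqrt (-c - c) ^ 2 :=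
      pow_lt_pow_left₀ h2 (by linarith) (by norm_num)
    rw [h6] at h7
    nlinarith

end JC
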