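import Pool.Agent.Lib.JC.Core
import Pool.Agent.Lib.JC.BrBasic

/-!
# JC.BrMono : monotonicity and a lower Lipschitz bound for branch words

* `br_mono_anti`: induction on `w`: every letter is `1` or `-1`, so the product is `1` or `-1`.
  If `w = s :: v` and `br c v` is strictly monotone (antitone) on `I` then so is
  `y ↦ √(br c v y - c)` (the arguments are positive on `I`), and multiplication by `s = 1` keeps,
  by `s = -1` reverses the order. Prove by induction the conjunction
  `(w.prod = 1 ∧ StrictMonoOn (br c w) I) ∨ (w.prod = -1 ∧ StrictAntiOn (br c w) I)`.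
* `psi_strictMonoOn`: the map `y ↦ ε y` maps `Icc (-R) R` to itself and is increasing for `ε = 1`,
  decreasing for `ε = -1`; compose.
* `br_lower`: induction on `w`. For `w = s :: v`: by continuity (`br_continuous`) and compactness of
  `Icc A B ×ˢ Icc p q` there is `M > 0` with `√(br c v y - c) ≤ M` there. For `x, y ∈ I`
  with `a = br c v x - c > 0`, `b = br c v y - c > 0`: `|√a - √b| (√a + √b) = |a - b|`, so
  `|√a - √b| ≥ |a - b| / (2 M)`; take `L' = L / (2 M)`.
-/

open Set Filter Topology

namespace JC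

theorem br_mono_anti {c : ℝ} {w : List ℝ} {I : Set ℝ} (h : Ok c w I) :
    (w.prod = 1 ∧ StrictMonoOn (br c w) I) ∨ (w.prod = -1 ∧ StrictAntiOn (br c w) I) := by
  induction w with
  | nil => exact Or.inl ⟨rfl, fun x _ y _ hxy => hxy⟩
  | cons s v ih =>
    obtain ⟨hs, hv, hpos⟩ := h
    rcases ih hv with ⟨hp, hm⟩ | ⟨hp, hm⟩
    · have h1 : ∀ x ∈ I, ∀ y ∈ I, x < y →
          Real.sqrt (br c v x - c) < Real.sqrt (br c v y - c) := fun x hx y hy hxy =>
        Real.sqrt_lt_sqrt (sub_pos.2 (hpos x hx)).le (sub_lt_sub_right (hm hx hy hxy) c)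
      rcases hs with rfl | rfl
      · refine Or.inl ⟨by rw [List.prod_cons, hp]; norm_num, fun x hx y hy hxy => ?_⟩
        have := h1 x hx y hy hxy
        simp only [br]
        linarith
      · refine Or.inr ⟨by rw [List.prod_cons, hp]; norm_num, fun x hx y hy hxy => ?_⟩
        have := h1 x hx y hy hxy
        simp only [br]
        linarith
    · have h1 : ∀ x ∈ I, ∀ y ∈ I, x < y →
          Real.sqrt (br c v y - c) < Real.sqrt (br c v x - c) := fun x hx y hy hxy =>
        Real.sqrt_lt_sqrt (sub_pos.2 (hpos y hy)).le (sub_lt_sub_right (hm hx hy hxy) c)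
      rcases hs with rfl | rfl
      · refine Or.inr ⟨by rw [List.prod_cons, hp]; norm_num, fun x hx y hy hxy => ?_⟩
        have := h1 x hx y hy hxy
        simp only [br]
        linarith
      · refine Or.inl ⟨by rw [List.prod_cons, hp]; norm_num, fun x hx y hy hxy => ?_⟩
        have := h1 x hx y hy hxy
        simp only [br]
        linarith

theorem br_strictMonoOn {c : ℝ} {w : List ℝ} {I : Set ℝ} (h : Ok c w I) (hp : w.prod = 1) :
    StrictMonoOn (br c w) I := by
  rcases br_mono_anti h with ⟨_, h1⟩ | ⟨h1, _⟩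
  · exact h1
  · rw [hp] at h1
    norm_num at h1

theorem br_strictAntiOn {c : ℝ} {w : List ℝ} {I : Set ℝ} (h : Ok c w I) (hp : w.prod = -1) :
    StrictAntiOn (br c w) I := by
  rcases br_mono_anti h with ⟨h1, _⟩ | ⟨_, h1⟩
  · rw [hp] at h1
    norm_num at h1
  · exact h1

theorem psi_strictMonoOn {c ε R : ℝ} {w : List ℝ} (hε : ε = 1 ∨ ε = -1) (hp : w.prod = ε)
    (h : Ok c w (Icc (-R) R)) : StrictMonoOn (fun y => br c w (ε * y)) (Icc (-R) R) := by
  rcases hε with rfl | rfl
  · intro x hx y hy hxy
    have h1 := br_strictMonoOn h hp hx hy hxy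
    simpa only [one_mul] using h1
  · intro x hx y hy hxy
    have hx' : -1 * x ∈ Icc (-R) R := ⟨by linarith [hx.2], by linarith [hx.1]⟩
    have hy' : -1 * y ∈ Icc (-R) R := ⟨by linarith [hy.2], by linarith [hy.1]⟩
    exact br_strictAntiOn h hp hy' hx' (by linarith)

theorem br_lower (w : List ℝ) (A B p q : ℝ) :
    ∃ L > 0, ∀ c ∈ Icc A B, ∀ I ⊆ Icc p q, Ok c w I → ∀ x ∈ I, ∀ y ∈ I,
      L * |x - y| ≤ |br c w x - br c w y| := by
  induction w with
  | nil =>
    refine ⟨1, one_pos, fun c _ I _ _ x _ y _ => ?_⟩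
    simp only [br, one_mul, le_refl]
  | cons s v ih =>
    obtain ⟨L, hL, hLv⟩ := ih
    have hcont : Continuous fun t : ℝ × ℝ => Real.sqrt (br t.1 v t.2 - t.1) :=
      Real.continuous_sqrt.comp ((br_continuous v).sub continuous_fst)
    obtain ⟨C, hC⟩ := (isCompact_Icc.prod isCompact_Icc :
      IsCompact (Icc A B ×ˢ Icc p q)).exists_bound_of_continuousOn hcont.continuousOn
    have hM : 0 < |C| + 1 := by positivity
    refine ⟨L / (2 * (|C| + 1)), by positivity, fun c hc I hI hok x hx y hy => ?_⟩
    obtain ⟨hs, hv, hpos⟩ := hok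
    have h1 := hLv c hc I hI hv x hx y hy
    have ha : (0 : ℝ) ≤ br c v x - c := (sub_pos.2 (hpos x hx)).le
    have hb : (0 : ℝ) ≤ br c v y - c := (sub_pos.2 (hpos y hy)).le
    have hMx : Real.sqrt (br c v x - c) ≤ |C| + 1 := by
      have h2 := hC (c, x) ⟨hc, hI hx⟩
      have h3 := le_abs_self (Real.sqrt (br c v x - c))
      have h4 := le_abs_self C
      have h5 : |Real.sqrt (br c v x - c)| ≤ C := h2
      linarith
    have hMy : Real.sqrt (br c v y - c) ≤ |C| + 1 := by
      have h2 := hC (c, y) ⟨hc, hI hy⟩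
      have h3 := le_abs_self (Real.sqrt (br c v y - c))
      have h4 := le_abs_self C
      have h5 : |Real.sqrt (br c v y - c)| ≤ C := h2
      linarith
    have hsx := Real.sq_sqrt ha
    have hsy := Real.sq_sqrt hb
    have hx0 := Real.sqrt_nonneg (br c v x - c)
    have hy0 := Real.sqrt_nonneg (br c v y - c)
    have h6 : |br c v x - br c v y| =
        |Real.sqrt (br c v x - c) - Real.sqrt (br c v y - c)| *
          (Real.sqrt (br c v x - c) + Real.sqrt (br c v y - c)) := by
      have h7 : br c v x - br c v y = (Real.sqrt (br c v x - c) - Real.sqrt (br c v y - c)) *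
          (Real.sqrt (br c v x - c) + Real.sqrt (br c v y - c)) := by
        linear_combination hsy - hsx
      rw [h7, abs_mul, abs_of_nonneg (add_nonneg hx0 hy0)]
    have h8 : |br c (s :: v) x - br c (s :: v) y| =
        |Real.sqrt (br c v x - c) - Real.sqrt (br c v y - c)| := by
      have h9 : |s| = 1 := by rcases hs with h | h <;> rw [h] <;> norm_num
      simp only [br]
      rw [← mul_sub, abs_mul, h9, one_mul]
    rw [h8, div_mul_eq_mul_div, div_le_iff₀ (by positivity)]
    calc L * |x - y| ≤ |br c v x - br c v y| := h1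
      _ = |Real.sqrt (br c v x - c) - Real.sqrt (br c v y - c)| *
          (Real.sqrt (br c v x - c) + Real.sqrt (br c v y - c)) := h6
      _ ≤ |Real.sqrt (br c v x - c) - Real.sqrt (br c v y - c)| * (2 * (|C| + 1)) :=
        mul_le_mul_of_nonneg_left (by linarith) (abs_nonneg _)

end JC
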