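import Mathlib

/-!
# Public definitions for MP_e6daed_lc

Julia sets of real quadratic polynomials, renormalization, oracle Turing machines with time bounds,
polynomial time computability of a compact plane set with an oracle for a real number.
-/

open Set Filter Topology

namespace JC

/-! ## Quadratic dynamics -/

/-- The quadratic polynomial `z ↦ z ^ 2 + c` on the complex plane. -/
def fc (c : ℂ) (z : ℂ) : ℂ := z ^ 2 + c

/-- The filled Julia set of `fc c`: the points with bounded forward orbit. -/
def filled (c : ℂ) : Set ℂ := {z | ∃ B : ℝ, ∀ k : ℕ, ‖(fc c)^[k] z‖ ≤ B}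

/-- The Julia set of `fc c`: the topological boundary of the filled Julia set. -/
def julia (c : ℂ) : Set ℂ := frontier (filled c)

/-- A topological disk: an open subset of the plane homeomorphic to the open unit disk. -/
def IsDisk (U : Set ℂ) : Prop := IsOpen U ∧ Nonempty (U ≃ₜ Metric.ball (0 : ℂ) 1)

/-- `g : U → V` is a quadratic-like map: `U`, `V` are topological disks, the closure of `U` is a
compact subset of `V`, and `g` is a proper holomorphic map `U → V` of degree two. -/
structure QuadLike (g : ℂ → ℂ) (U V : Set ℂ) : Prop where
  diskU : IsDisk U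
  diskV : IsDisk V
  compact : IsCompact (closure U)
  subset : closure U ⊆ V
  maps : MapsTo g U V
  holo : DifferentiableOn ℂ g U
  /-- properness of `g : U → V` -/
  proper : ∀ K ⊆ V, IsCompact K → IsCompact (U ∩ g ⁻¹' K)
  /-- degree two: every value in `V` is taken exactly twice in `U`, counted with multiplicity -/
  degree : ∀ v ∈ V, ∃ a ∈ U, ∃ b ∈ U, ∃ h : ℂ → ℂ, DifferentiableOn ℂ h U ∧ (∀ z ∈ U, h z ≠ 0) ∧
    ∀ z ∈ U, g z - v = (z - a) * (z - b) * h z

/-- `fc c` is renormalizable with period `p`: `p ≥ 2` and there are topological disks `U ⋐ V`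
containing `0` such that the `p`-th iterate is a quadratic-like map `U → V` with connected filled
Julia set, that is, `(fc c)^[k p] 0 ∈ U` for all `k`. -/
def Renormalizable (c : ℂ) (p : ℕ) : Prop :=
  2 ≤ p ∧ ∃ U V : Set ℂ, (0 : ℂ) ∈ U ∧ (0 : ℂ) ∈ V ∧ QuadLike ((fc c)^[p]) U V ∧
    ∀ k : ℕ, (fc c)^[k * p] 0 ∈ U

/-- `fc c` is infinitely renormalizable: renormalizable with infinitely many periods. -/
def InfinitelyRenormalizable (c : ℂ) : Prop := {p : ℕ | Renormalizable c p}.Infinite

/-! ## Oracle Turing machines -/

/-- Basic symbols: `0` blank, `1` the digit zero, `2` the digit one, `3` minus sign,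
`4` binary point, `5` separator. -/
abbrev Sym := Fin 6

/-- What a machine with `ns + 1` states, `na + 6` tape symbols and `nt + 3` tapes does in one step:
halt with an output bit, ask the oracle and go to a state, or go to a state, write a symbol on every
tape and move every head (`0` left, `1` stay, `2` right). -/
inductive Act (ns na nt : ℕ) : Type
  | halt (b : Bool) : Act ns na nt
  | query (q : Fin (ns + 1)) : Act ns na nt
  | move (q : Fin (ns + 1)) (w : Fin (nt + 3) → Fin (na + 6)) (d : Fin (nt + 3) → Fin 3) :
      Act ns na nt

/-- An oracle Turing machine (deterministic, several two-way infinite tapes). Tape `0` is the input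
tape, tape `1` the query tape, tape `2` the answer tape. -/
structure OTM where
  ns : ℕ
  na : ℕ
  nt : ℕ
  act : Fin (ns + 1) → (Fin (nt + 3) → Fin (na + 6)) → Act ns na nt

/-- A configuration: state, contents of the tapes, positions of the heads. -/
@[ext] structure Cfg (M : OTM) where
  q : Fin (M.ns + 1)
  tape : Fin (M.nt + 3) → ℤ → Fin (M.na + 6)
  head : Fin (M.nt + 3) → ℤ

/-- The tape carrying the string `w` in the cells `0, 1, 2, ...` and blanks elsewhere. -/
def strTape (na : ℕ) (w : List Sym) (i : ℤ) : Fin (na + 6) :=
  if 0 ≤ i then Fin.castLE (by omega) (w.getD i.toNat 0) else 0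

namespace Cfg

variable {M : OTM}

/-- The action taken in a configuration. -/
def action (C : Cfg M) : Act M.ns M.na M.nt := M.act C.q (fun i => C.tape i (C.head i))

/-- Effect of a moving step. -/
def after (C : Cfg M) (q : Fin (M.ns + 1)) (w : Fin (M.nt + 3) → Fin (M.na + 6))
    (d : Fin (M.nt + 3) → Fin 3) : Cfg M where
  q := q
  tape := fun i => Function.update (C.tape i) (C.head i) (w i)
  head := fun i => C.head i + ((d i : ℕ) : ℤ) - 1

/-- Number of cells of the query tape, from cell `0` on, before the first cell which carries no
binary digit. -/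
noncomputable def qlen (C : Cfg M) : ℕ := sInf {i : ℕ | C.tape 1 i ≠ 1 ∧ C.tape 1 i ≠ 2}

/-- The natural number written in binary (least significant digit in cell `0`) on the query
tape. -/
noncomputable def qval (C : Cfg M) : ℕ :=
  ∑ i ∈ Finset.range C.qlen, if C.tape 1 i = 2 then 2 ^ i else 0

/-- Effect of a query with answer string `w`: the answer tape carries `w`, its head is at `0`. -/
def answered (C : Cfg M) (q : Fin (M.ns + 1)) (w : List Sym) : Cfg M where
  q := q
  tape := Function.update C.tape 2 (strTape M.na w)
  head := Function.update C.head 2 0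

end Cfg

/-- `Halts M φ C t b`: started in the configuration `C` with oracle `φ`, the machine `M` halts with
output `b` at total cost `t`. A moving step costs `1`, a query costs the length of the answer. -/
inductive Halts (M : OTM) (φ : ℕ → List Sym) : Cfg M → ℕ → Bool → Prop
  | halt {C : Cfg M} {b : Bool} (h : C.action = Act.halt b) : Halts M φ C 0 b
  | move {C : Cfg M} {q : Fin (M.ns + 1)} {w : Fin (M.nt + 3) → Fin (M.na + 6)}
      {d : Fin (M.nt + 3) → Fin 3} {t : ℕ} {b : Bool} (h : C.action = Act.move q w d)
      (h' : Halts M φ (C.after q w d) t b) : Halts M φ C (t + 1) b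
  | query {C : Cfg M} {q : Fin (M.ns + 1)} {t : ℕ} {b : Bool} (h : C.action = Act.query q)
      (h' : Halts M φ (C.answered q (φ C.qval)) t b) :
      Halts M φ C (t + (φ C.qval).length) b

/-- Binary notation of a natural number, most significant digit first. -/
def encNat (k : ℕ) : List Sym :=
  if k = 0 then [1] else (Nat.digits 2 k).reverse.map (fun d => if d = 0 then 1 else 2)

/-- Binary notation of an integer. -/
def encInt (x : ℤ) : List Sym := (if x < 0 then [3] else []) ++ encNat x.natAbs

/-- The input string for precision `n` and the point `(x + y i) / 2 ^ n`: `n` in unary, separator,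
`x`, separator, `y`. -/
def input (n : ℕ) (x y : ℤ) : List Sym :=
  List.replicate n 2 ++ [5] ++ encInt x ++ [5] ++ encInt y

/-- The initial configuration: state `0`, the input on the input tape, all other tapes blank, all
heads at cell `0`. -/
def OTM.init (M : OTM) (w : List Sym) : Cfg M where
  q := 0
  tape := fun i => if i = 0 then strTape M.na w else fun _ => 0
  head := fun _ => 0

/-- The dyadic point `(x + y i) / 2 ^ n`. -/
noncomputable def dpt (n : ℕ) (x y : ℤ) : ℂ := ((x : ℂ) + (y : ℂ) * Complex.I) / 2 ^ n

/-- `M` with oracle `φ` computes the set `K` in time `T`: for every precision `n` and every point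
`z` with dyadic coordinates of precision `2 ^ -n` it halts at total cost at most `T n`, with output
`1` if `dist (z, K) < 2 ^ -n`, with output `0` if `dist (z, K) > 2 * 2 ^ -n`, and with either output
otherwise. -/
def ComputesIn (M : OTM) (φ : ℕ → List Sym) (K : Set ℂ) (T : ℕ → ℕ) : Prop :=
  ∀ (n : ℕ) (x y : ℤ), ∃ (t : ℕ) (b : Bool), t ≤ T n ∧ Halts M φ (M.init (input n x y)) t b ∧
    (Metric.infDist (dpt n x y) K < 1 / 2 ^ n → b = true) ∧
    (2 * (1 / 2 ^ n) < Metric.infDist (dpt n x y) K → b = false)

/-! ## Oracles for a real number -/

/-- Value of a binary digit string, most significant digit first. -/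
def bval (l : List Bool) : ℕ := l.foldl (fun a b => 2 * a + (if b then 1 else 0)) 0

/-- The string of a list of binary digits. -/
def digs (l : List Bool) : List Sym := l.map (fun b => if b then 2 else 1)

/-- The string `w` denotes the dyadic rational `q`: optional minus sign, at least one integer
digit, binary point, fractional digits. -/
def Denotes (w : List Sym) (q : ℝ) : Prop :=
  ∃ (neg : Bool) (I F : List Bool), I ≠ [] ∧
    w = (if neg then [3] else []) ++ digs I ++ [4] ++ digs F ∧
    q = (if neg then -1 else 1) * ((bval (I ++ F) : ℝ) / 2 ^ F.length)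

/-- `φ` is an oracle for `c`: `φ m` denotes a dyadic rational within `2 ^ -m` of `c`. -/
def OracleFor (c : ℝ) (φ : ℕ → List Sym) : Prop :=
  ∀ m : ℕ, ∃ q : ℝ, Denotes (φ m) q ∧ |q - c| < 1 / 2 ^ m

/-- The binary digits of `k`, exactly `len` of them, most significant digit first. -/
def nbits (len k : ℕ) : List Bool := List.ofFn fun i : Fin len => k.testBit (len - 1 - i)

/-- The truncation oracle for a real number `c` with `-2 < c < 0`: on input `m` it returns
`⌊c 2 ^ (m + 1)⌋ / 2 ^ (m + 1)`, written with a minus sign, two integer digits and exactly `m + 1`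
fractional digits. -/
noncomputable def truncOracle (c : ℝ) (m : ℕ) : List Sym :=
  [3] ++ digs ((nbits (m + 3) ⌊c * 2 ^ (m + 1)⌋.natAbs).take 2) ++ [4] ++
    digs ((nbits (m + 3) ⌊c * 2 ^ (m + 1)⌋.natAbs).drop 2)

/-- Polynomial time computability of the Julia set of `fc c` with an oracle for the real number
`c`: there are an oracle machine `M` and a polynomial `P` (both may depend on `c`) such that `M`
computes the Julia set in time `P`, whatever oracle for `c` is used. -/
def PolyTimeJulia (c : ℝ) : Prop :=
  ∃ (M : OTM) (P : Polynomial ℕ), ∀ φ : ℕ → List Sym, OracleFor c φ →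
    ComputesIn M φ (julia (c : ℂ)) (fun n => P.eval n)

end JC
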