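import Mathlib
import Pool.Agent.Lib.JC.Pub

/-!
# Core definitions for the proof of MP_e6daed_lc (branch words, states, windows)

All modules `JC.*` import this file.  The full paper proof is in the team store, file
`e6daed_proof.txt`.
-/

open Set Filter Topology

namespace JC

/-- The real quadratic map. -/
def fr (c x : ℝ) : ℝ := x ^ 2 + c

/-- Inverse branch of an iterate of `fr c` given by a word of signs, outermost sign first. -/
noncomputable def br (c : ℝ) : List ℝ → ℝ → ℝ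
  | [], y => y
  | s :: w, y => s * Real.sqrt (br c w y - c)

/-- The word is made of signs and no root of a number `≤ 0` is taken for `y ∈ I`. -/
def Ok (c : ℝ) : List ℝ → Set ℝ → Prop
  | [], _ => True
  | s :: w, I => (s = 1 ∨ s = -1) ∧ Ok c w I ∧ ∀ y ∈ I, c < br c w y

/-- Derivative of `br c w`. -/
noncomputable def brD (c : ℝ) : List ℝ → ℝ → ℝ
  | [], _ => 1
  | s :: w, y => s * (brD c w y / (2 * Real.sqrt (br c w y - c)))

/-- Complex version of the inverse branch (principal square roots). -/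
noncomputable def brC (c : ℝ) : List ℝ → ℂ → ℂ
  | [], z => z
  | s :: w, z => (s : ℂ) * Complex.sqrt (brC c w z - (c : ℂ))

/-- The open disc with diameter the real interval from `p` to `q`. -/
def Dc (p q : ℝ) : Set ℂ := Metric.ball (((p + q) / 2 : ℝ) : ℂ) ((q - p) / 2)

/-- The positive fixed point of `fc c`, `c ≤ 1/4` real. -/
noncomputable def bet (c : ℝ) : ℝ := (1 + Real.sqrt (1 - 4 * c)) / 2

/-- Multiply the first letter of a word by `e`. -/
def flip1 (e : ℝ) : List ℝ → List ℝ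
  | [] => []
  | s :: w => (e * s) :: w

/-- The word `w` repeated `k` times. -/
def rep (k : ℕ) (w : List ℝ) : List ℝ := (List.replicate k w).flatten

/-- State of the construction, see section 1 of the paper proof. -/
structure PreSt where
  a0 : ℝ
  a1 : ℝ
  τ : List ℝ
  ε : ℝ
  R : ℝ
  hne : a0 ≠ a1
  hR : 0 < R
  hε : ε = 1 ∨ ε = -1
  hprod : τ.prod = ε
  ok : ∀ c ∈ uIcc a0 a1, Ok c τ (Icc (-R) R)
  lo : ∀ c ∈ uIcc a0 a1, br c τ (ε * -R) ≤ c
  hi : ∀ c ∈ uIcc a0 a1, c ≤ br c τ (ε * R)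
  esc : ∀ c ∈ uIcc a0 a1, br c τ (ε * R) - c < R ^ 2
  e0 : br a0 τ (ε * -R) = a0
  e1 : br a1 τ (ε * R) = a1

namespace PreSt

variable (S : PreSt)

/-- The parameter segment. -/
def seg : Set ℝ := uIcc S.a0 S.a1

/-- The affine parametrization of the segment. -/
def ct (t : ℝ) : ℝ := S.a0 + t * (S.a1 - S.a0)

/-- The period. -/
def n : ℕ := S.τ.length + 1

/-- `ψ_c(y)`, increasing branch of the inverse of `ε f^(n-1)`. -/
noncomputable def psi (c y : ℝ) : ℝ := br c S.τ (S.ε * y)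

/-- `h_c(y)`, the inverse of `G_c` on the positive side. -/
noncomputable def h (c y : ℝ) : ℝ := Real.sqrt (S.psi c y - c)

/-- Real return map `G_c = ε f_c^n`. -/
def Gr (c x : ℝ) : ℝ := S.ε * (fr c)^[S.n] x

/-- The critical value of the return map. -/
def y0 (c : ℝ) : ℝ := S.Gr c 0

/-- Complex return map `G_c = ε f_c^n`. -/
noncomputable def G (c : ℝ) (z : ℂ) : ℂ := (S.ε : ℂ) * (fc (c : ℂ))^[S.n] z

end PreSt

/-- Full state, see section 1 of the paper proof. -/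
structure St extends PreSt where
  η : List ℝ
  hτ : τ ≠ []
  hη : η ≠ []
  hηprod : η.prod = ε
  okη : ∀ c ∈ uIcc a0 a1, Ok c η (Icc (-R) R)
  th0 : ∀ c ∈ uIcc a0 a1, 0 < br c η (ε * -R)
  th1 : ∀ c ∈ uIcc a0 a1, br c η (ε * R) < R
  small : ∀ c ∈ uIcc a0 a1, br c τ (ε * R) - br c τ (ε * -R) < (br c η (ε * -R)) ^ 2
  cneg : ∀ c ∈ uIcc a0 a1, -2 < c ∧ c < 0

namespace St

variable (S : St)

/-- `θ_c(y)`. -/
noncomputable def theta (c y : ℝ) : ℝ := br c S.η (S.ε * y)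

/-- The word length of `θ`. -/
def s : ℕ := S.η.length

/-- The fixed point `α_c` of the decreasing map `-θ_c`. -/
noncomputable def al (c : ℝ) : ℝ := sSup {y | y ∈ Icc (-S.R) S.R ∧ y ≤ -S.theta c y}

/-- The fixed point `p_c` of the increasing map `θ_c`. -/
noncomputable def pf (c : ℝ) : ℝ := sSup {y | y ∈ Icc (-S.R) S.R ∧ y ≤ S.theta c y}

/-- The targets `x_i(c) = θ_c^i(α_c)`. -/
noncomputable def xs (c : ℝ) (i : ℕ) : ℝ := (S.theta c)^[i] (S.al c)

/-- The points `y_i(c) = θ_c^i(0)`. -/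
noncomputable def ys (c : ℝ) (i : ℕ) : ℝ := (S.theta c)^[i] 0

end St

/-- Window: quantitative control of a holomorphic map close to the identity near the real
point `b`. -/
structure Win (g : ℂ → ℂ) (b r C : ℝ) : Prop where
  hr : 0 < r
  hC : 0 < C
  diff : Differentiable ℂ g
  real : ∀ x : ℝ, (g (x : ℂ)).im = 0
  d1 : ∀ z ∈ Metric.ball (b : ℂ) r, ‖deriv g z - 1‖ ≤ 1 / 2
  d2 : ∀ z ∈ Metric.ball (b : ℂ) r, ∀ w ∈ Metric.ball (b : ℂ) r,
    ‖g z - g w - deriv g w * (z - w)‖ ≤ C * ‖z - w‖ ^ 2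

/-- A real orbit of `g` increasing to `b`. -/
structure LeftData (g : ℂ → ℂ) (b : ℝ) (X : ℕ → ℝ) : Prop where
  mono : ∀ m, X m < X (m + 1)
  lim : Tendsto X atTop (𝓝 b)
  step : ∀ m, g (X m : ℂ) = (X (m + 1) : ℂ)
  dne : ∀ m, deriv g (X m : ℂ) ≠ 0

/-- A real backward orbit of `g` decreasing to `b`. -/
structure RightData (g : ℂ → ℂ) (b : ℝ) (P : ℕ → ℝ) : Prop where
  anti : ∀ m, P (m + 1) < P m
  lim : Tendsto P atTop (𝓝 b)
  step : ∀ m, g (P (m + 1) : ℂ) = (P m : ℂ)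
  dne : ∀ m, deriv g (P (m + 1) : ℂ) ≠ 0

/-- The functions converging to the right coordinate: `F_m(z) = g^m (P_m + z v(P_m))`,
`v = g - id`. -/
def Fm (g : ℂ → ℂ) (P : ℕ → ℝ) (m : ℕ) (z : ℂ) : ℂ :=
  g^[m] ((P m : ℂ) + z * (g (P m : ℂ) - (P m : ℂ)))

/-- The functions converging to the left coordinate. -/
noncomputable def Lm (g : ℂ → ℂ) (X : ℕ → ℝ) (m : ℕ) (z : ℂ) : ℂ :=
  (g^[m] z - (X m : ℂ)) / (g (X m : ℂ) - (X m : ℂ))

end JC
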