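import Mathlib
import Pool.Agent.Lib.JC.Core

/-!
# Interface definitions for the second half of the proof of MP_e6daed_lc

`CuspData` is the conclusion of section 4 (the cusp parameter), `Passes` the conclusion of section 5
(the orbit of the critical value passes the gate and hits the target after exactly `N` steps), `RenIn`
the conclusion of section 2 (the first return map is renormalizable there). `wA`, `wAe`, `wB`, `wBe` are
the words of the new states of Move 1 and Move 2, `E` the targets of Move 2.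
-/

open Set Filter Topology

namespace JC

/-- `0 < -y0(c) < β_c`: the return map `G_c` maps `[-β, β]` into itself. -/
def PreSt.RenIn (S : PreSt) (c : ℝ) : Prop := S.y0 c < 0 ∧ -S.y0 c < S.h c (-S.y0 c)

/-- The cusp parameter `c0 = S.ct t0` with its parabolic fixed point `b`. -/
structure CuspData (S : St) (t0 b : ℝ) : Prop where
  ht0 : 0 ≤ t0
  ht1 : t0 < 1
  ypos : 0 < S.y0 (S.ct t0)
  yb : S.y0 (S.ct t0) < b
  bR : b < S.R
  fix : S.h (S.ct t0) b = b
  lt : ∀ y ∈ Icc (S.y0 (S.ct t0)) S.R, y ≠ b → S.h (S.ct t0) y < y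
  ypos' : ∀ t, t0 < t → t ≤ 1 → 0 < S.y0 (S.ct t)
  gate : ∀ t, t0 < t → t ≤ 1 → ∀ y ∈ Icc (S.y0 (S.ct t)) S.R, S.h (S.ct t) y < y

/-- Starting from the point `e` the backward orbit under `G_c` hits the critical value after exactly
`N` steps; `e ∈ [y0, R]`. -/
structure Passes (S : PreSt) (c : ℝ) (N : ℕ) (e : ℝ) : Prop where
  eR : e ≤ S.R
  hit : (S.h c)^[N] e = S.y0 c
  before : ∀ k < N, S.y0 c < (S.h c)^[k] e

/-- The word of `ψ'` in Move 1. -/
def PreSt.wA (S : PreSt) (j : ℕ) : List ℝ := S.τ ++ ((-S.ε) :: S.τ) ++ rep j (S.ε :: S.τ)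

/-- The word of `θ'` in Move 1. -/
def PreSt.wAe (S : PreSt) : List ℝ := ((1 : ℝ) :: S.τ) ++ ((-S.ε) :: S.τ)

/-- The word of `ψ''` in Move 2. -/
def St.wB (S : St) (i l N : ℕ) : List ℝ :=
  S.τ ++ rep N (S.ε :: S.τ) ++ rep i (flip1 S.ε S.η) ++ rep l (flip1 (-S.ε) S.η) ++ flip1 S.ε S.η

/-- The word of `θ''` in Move 2. -/
def St.wBe (S : St) : List ℝ := S.η ++ flip1 (-S.ε) S.η

/-- The points `E_l(y) = θ^i ((-θ)^l (θ (-y)))`, close to the target `x_i` for large `l`. -/
noncomputable def St.E (S : St) (c : ℝ) (i l : ℕ) (y : ℝ) : ℝ :=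
  (S.theta c)^[i] ((fun x => -S.theta c x)^[l] (S.theta c (-y)))

end JC
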