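import Pool.Agent.Lib.JC.Core

/-!
# JC.CountM : there are only countably many machines

`Act ns na nt` embeds into `Bool ⊕ Fin (ns+1) ⊕ (Fin (ns+1) × (Fin (nt+3) → Fin (na+6)) × (Fin (nt+3) → Fin 3))`,
a finite type; functions between finite types form a finite type; `OTM` is equivalent to the sigma
type over `(ns, na, nt) ∈ ℕ × ℕ × ℕ`, a countable union of finite types.
`countable_polys`: `Polynomial ℕ` is countable, so the set of its evaluation functions is countable.
-/

open Set Filter Topology

namespace JC

namespace CountMAux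

/-- encoding of the actions -/
def enc {ns na nt : ℕ} : Act ns na nt →
    (Bool ⊕ Fin (ns + 1)) ⊕ (Fin (ns + 1) × (Fin (nt + 3) → Fin (na + 6)) × (Fin (nt + 3) → Fin 3))
  | Act.halt b => Sum.inl (Sum.inl b)
  | Act.query q => Sum.inl (Sum.inr q)
  | Act.move q w d => Sum.inr (q, w, d)

theorem enc_injective {ns na nt : ℕ} : Function.Injective (enc (ns := ns) (na := na) (nt := nt)) := by
  intro a b h
  cases a <;> cases b <;> simp_all [enc]

theorem finite_act (ns na nt : ℕ) : Finite (Act ns na nt) :=
  Finite.of_injective _ enc_injective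

/-- encoding of the machines -/
def encM (M : OTM) : Σ p : ℕ × ℕ × ℕ,
    (Fin (p.1 + 1) → (Fin (p.2.2 + 3) → Fin (p.2.1 + 6)) → Act p.1 p.2.1 p.2.2) :=
  ⟨(M.ns, M.na, M.nt), M.act⟩

theorem encM_injective : Function.Injective encM := by
  intro M M' h
  cases M
  cases M'
  simp only [encM, Sigma.mk.injEq, Prod.mk.injEq] at h
  obtain ⟨⟨h1, h2, h3⟩, h4⟩ := h
  subst h1
  subst h2
  subst h3
  rw [eq_of_heq h4]

end CountMAux

theorem countable_otm : Countable OTM := by
  have h : ∀ p : ℕ × ℕ × ℕ, Countable
      (Fin (p.1 + 1) → (Fin (p.2.2 + 3) → Fin (p.2.1 + 6)) → Act p.1 p.2.1 p.2.2) := by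
    intro p
    have h1 := CountMAux.finite_act p.1 p.2.1 p.2.2
    infer_instance
  exact CountMAux.encM_injective.countable

theorem countable_polys :
    (Set.range fun P : Polynomial ℕ => fun n : ℕ => P.eval n).Countable := by
  have h : Countable (Polynomial ℕ) := by
    rw [← Cardinal.mk_le_aleph0_iff]
    refine Polynomial.cardinalMk_le_max.trans ?_
    rw [Cardinal.mk_nat, max_self]
  exact Set.countable_range _

end JC
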