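import Mathlib

/-!
# JC.Cross : last and first crossing

`v < w` and `k` continuous on `[T, T']`, `w T < k T`, `k T' < v T'`. Let `b1 = sInf {t ∈ [T, T'] | k t ≤ v t}`: a closed
nonempty set; at `b1` `k = v` (if `k b1 < v b1` then `b1 > T` because `k T > w T > v T`, and by continuity the same holds slightly
to the left), and `v t < k t` for `t < b1`. Let `b0 = sSup {t ∈ [T, b1] | w t ≤ k t}`: closed nonempty (`T`), `b0 < b1`, since
`k b1 = v b1 < w b1`; at `b0` `k = w`, and `k t < w t` for `b0 < t ≤ b1`. `T < b0` since `w T < k T` strictly.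
-/

open Set Filter Topology

namespace JC

theorem crossing {k v w : ℝ → ℝ} {T T' : ℝ} (hT : T < T') (hk : ContinuousOn k (Icc T T'))
    (hv : ContinuousOn v (Icc T T')) (hw : ContinuousOn w (Icc T T'))
    (hvw : ∀ t ∈ Icc T T', v t < w t) (h0 : w T < k T) (h1 : k T' < v T') :
    ∃ b0 b1, T < b0 ∧ b0 < b1 ∧ b1 ≤ T' ∧ k b0 = w b0 ∧ k b1 = v b1 ∧
      ∀ t ∈ Icc b0 b1, v t ≤ k t ∧ k t ≤ w t := by
  have hTm : T ∈ Icc T T' := ⟨le_rfl, hT.le⟩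
  have hTm' : T' ∈ Icc T T' := ⟨hT.le, le_rfl⟩
  set S1 : Set ℝ := {t ∈ Icc T T' | k t ≤ v t} with hS1
  have hS1c : IsClosed S1 := isClosed_Icc.isClosed_le hk hv
  have hS1n : S1.Nonempty := ⟨T', hTm', h1.le⟩
  have hS1b : BddBelow S1 := ⟨T, fun t ht => ht.1.1⟩
  obtain ⟨b1, hb1def⟩ : ∃ b1, b1 = sInf S1 := ⟨_, rfl⟩
  have hb1 : b1 ∈ S1 := hb1def ▸ hS1c.csInf_mem hS1n hS1b
  have hlt1 : ∀ t ∈ Icc T T', t < b1 → v t < k t := by
    intro t ht htb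
    by_contra hcon
    have : t ∈ S1 := ⟨ht, not_lt.mp hcon⟩
    have h2 : b1 ≤ t := hb1def ▸ csInf_le hS1b this
    linarith
  have hTb1 : T < b1 := by
    rcases hb1.1.1.lt_or_eq with h | h
    · exact h
    · exfalso
      have h2 := hb1.2
      rw [← h] at h2
      have h3 := hvw T hTm
      linarith
  have hsub1 : Icc T b1 ⊆ Icc T T' := Icc_subset_Icc le_rfl hb1.1.2
  have hge1 : ∀ t ∈ Icc T b1, v t ≤ k t := by
    have hc : IsClosed {t ∈ Icc T b1 | v t ≤ k t} :=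
      isClosed_Icc.isClosed_le (hv.mono hsub1) (hk.mono hsub1)
    have hin : Ico T b1 ⊆ {t ∈ Icc T b1 | v t ≤ k t} := fun t ht =>
      ⟨⟨ht.1, ht.2.le⟩, (hlt1 t (hsub1 ⟨ht.1, ht.2.le⟩) ht.2).le⟩
    have hcl := closure_minimal hin hc
    rw [closure_Ico hTb1.ne] at hcl
    exact fun t ht => (hcl ht).2
  have hkb1 : k b1 = v b1 := le_antisymm hb1.2 (hge1 b1 ⟨hTb1.le, le_rfl⟩)
  set S0 : Set ℝ := {t ∈ Icc T b1 | w t ≤ k t} with hS0
  have hS0c : IsClosed S0 := isClosed_Icc.isClosed_le (hw.mono hsub1) (hk.mono hsub1)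
  have hS0n : S0.Nonempty := ⟨T, ⟨le_rfl, hTb1.le⟩, h0.le⟩
  have hS0b : BddAbove S0 := ⟨b1, fun t ht => ht.1.2⟩
  obtain ⟨b0, hb0def⟩ : ∃ b0, b0 = sSup S0 := ⟨_, rfl⟩
  have hb0 : b0 ∈ S0 := hb0def ▸ hS0c.csSup_mem hS0n hS0b
  have hlt0 : ∀ t ∈ Icc T b1, b0 < t → k t < w t := by
    intro t ht htb
    by_contra hcon
    have : t ∈ S0 := ⟨ht, not_lt.mp hcon⟩
    have h2 : t ≤ b0 := hb0def ▸ le_csSup hS0b this
    linarith
  have hb01 : b0 < b1 := by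
    rcases hb0.1.2.lt_or_eq with h | h
    · exact h
    · exfalso
      have h2 := hb0.2
      rw [h, hkb1] at h2
      have h3 := hvw b1 hb1.1
      linarith
  have hsub0 : Icc b0 b1 ⊆ Icc T b1 := Icc_subset_Icc hb0.1.1 le_rfl
  have hge0 : ∀ t ∈ Icc b0 b1, k t ≤ w t := by
    have hc : IsClosed {t ∈ Icc b0 b1 | k t ≤ w t} :=
      isClosed_Icc.isClosed_le (hk.mono (hsub0.trans hsub1)) (hw.mono (hsub0.trans hsub1))
    have hin : Ioc b0 b1 ⊆ {t ∈ Icc b0 b1 | k t ≤ w t} := fun t ht =>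
      ⟨⟨ht.1.le, ht.2⟩, (hlt0 t (hsub0 ⟨ht.1.le, ht.2⟩) ht.1).le⟩
    have hcl := closure_minimal hin hc
    rw [closure_Ioc hb01.ne] at hcl
    exact fun t ht => (hcl ht).2
  have hkb0 : k b0 = w b0 := le_antisymm (hge0 b0 ⟨le_rfl, hb01.le⟩) hb0.2
  have hTb0 : T < b0 := by
    rcases hb0.1.1.lt_or_eq with h | h
    · exact h
    · exfalso
      rw [← h] at hkb0
      linarith
  exact ⟨b0, b1, hTb0, hb01, hb1.1.2, hkb0, hkb1, fun t ht =>
    ⟨hge1 t (hsub0 ht), hge0 t ht⟩⟩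

end JC
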