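import Pool.Agent.Lib.JC.StFix
import Pool.Agent.Lib.JC.StOrbit

/-!
# JC.Cusp : the cusp parameter

`c(t) = S.ct t`, `t ∈ [0, 1]`, `y0(t) = y0 (c(t))`, `h_t = h (c(t))`, `R = S.R`. Let
`Cl = {t ∈ [0,1] | y0(t) ≤ 0 ∨ ∃ y ∈ [-R, R], y0(t) ≤ y ∧ y ≤ h_t y}`. It is closed: the second set is the projection of a compact subset of
`[0,1] × [-R,R]`. `0 ∈ Cl` as `y0(0) = -R`. `1 ∉ Cl`: `y0(1) = R` and `h R < R` (`h_lt`). Let `t0 = sSup Cl ∈ Cl`, `t0 < 1`. For `t0 < t ≤ 1`, `t ∉ Cl`: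
this is `ypos'` and `gate`.
* `y0(t0) < 0` is impossible: `t` slightly larger would have `y0(t) < 0`.
* `y0(t0) = 0` is impossible: for `t > t0` close to `t0`, `0 < y0(t)` is small; there is `L > 0` with
 `ψ_c x - ψ_c y ≥ L (x - y)` for `y ≤ x` in `[-R, R]`, `c ∈ seg` (`br_lower` for the word `τ`, monotonicity), so
 `(h (2 y0))^2 = ψ (2 y0) - ψ (y0) ≥ L y0 ≥ (2 y0)^2` if `4 y0 ≤ L` (and `2 y0 ≤ R`), so `2 y0 ≤ h (2 y0)`: `t ∈ Cl`.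
 So `0 < y0(t0)` (`ypos`).
* As `t0 ∈ Cl`, some `b ∈ [y0, R]` has `b ≤ h b`. If `y < h y` for some `y ∈ [y0, R]` then `y ≠ y0` (`h y0 = 0 < y0`) and `y ≠ R`
 (`h_lt`), so `y0(t) < y < R` and `y < h_t y` for `t > t0` near `t0`: contradiction. So `h y ≤ y` on `[y0, R]`, `h b = b`, `y0 < b < R`.
* If also `h b' = b'`, `b' ∈ [y0, R]`, then `b' ∈ (y0, R)` in the same way and `b' = b` by `h_tangent`. So `lt`.
-/

open Set Filter Topology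

namespace JC

namespace CuspAux

/-- the closed set of the parameters with a fixed point (or `y0 ≤ 0`) -/
def Cl (P : PreSt) : Set ℝ :=
  {t | t ∈ Icc (0 : ℝ) 1 ∧ (P.y0 (P.ct t) ≤ 0 ∨
    ∃ y ∈ Icc (-P.R) P.R, P.y0 (P.ct t) ≤ y ∧ y ≤ P.h (P.ct t) y)}

theorem Y_cont (P : PreSt) : Continuous fun t : ℝ => P.y0 (P.ct t) :=
  P.y0_cont.comp P.ct_cont

theorem h_cont2 (P : PreSt) : Continuous fun p : ℝ × ℝ => P.h (P.ct p.1) p.2 :=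
  P.h_cont.comp ((P.ct_cont.comp continuous_fst).prodMk continuous_snd)

theorem Cl_closed (P : PreSt) : IsClosed (Cl P) := by
  have hK : IsCompact ((Icc (0 : ℝ) 1 ×ˢ Icc (-P.R) P.R) ∩
      {p : ℝ × ℝ | P.y0 (P.ct p.1) ≤ p.2 ∧ p.2 ≤ P.h (P.ct p.1) p.2}) := by
    apply (isCompact_Icc.prod isCompact_Icc).inter_right
    exact (isClosed_le ((Y_cont P).comp continuous_fst) continuous_snd).inter
      (isClosed_le continuous_snd (h_cont2 P))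
  have h1 : IsClosed (Prod.fst '' ((Icc (0 : ℝ) 1 ×ˢ Icc (-P.R) P.R) ∩
      {p : ℝ × ℝ | P.y0 (P.ct p.1) ≤ p.2 ∧ p.2 ≤ P.h (P.ct p.1) p.2})) :=
    (hK.image continuous_fst).isClosed
  have h2 : IsClosed (Icc (0 : ℝ) 1 ∩ {t : ℝ | P.y0 (P.ct t) ≤ 0}) :=
    isClosed_Icc.inter (isClosed_le (Y_cont P) continuous_const)
  have h3 : Cl P = (Icc (0 : ℝ) 1 ∩ {t : ℝ | P.y0 (P.ct t) ≤ 0}) ∪
      Prod.fst '' ((Icc (0 : ℝ) 1 ×ˢ Icc (-P.R) P.R) ∩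
      {p : ℝ × ℝ | P.y0 (P.ct p.1) ≤ p.2 ∧ p.2 ≤ P.h (P.ct p.1) p.2}) := by
    ext t
    constructor
    · rintro ⟨ht, h | ⟨y, hy, h4, h5⟩⟩
      · exact Or.inl ⟨ht, h⟩
      · exact Or.inr ⟨(t, y), ⟨⟨ht, hy⟩, h4, h5⟩, rfl⟩
    · rintro (⟨ht, h⟩ | ⟨⟨t', y⟩, ⟨⟨ht, hy⟩, h4, h5⟩, rfl⟩)
      · exact ⟨ht, Or.inl h⟩
      · exact ⟨ht, Or.inr ⟨y, hy, h4, h5⟩⟩
  rw [h3]
  exact h2.union h1

theorem exists_gt {t0 : ℝ} (ht : t0 < 1) {p : ℝ → Prop} (h : ∀ᶠ t in 𝓝 t0, p t) :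
    ∃ t, t0 < t ∧ t ≤ 1 ∧ p t := by
  have h1 : ∀ᶠ t in 𝓝[>] t0, p t := h.filter_mono nhdsWithin_le_nhds
  have h2 : ∀ᶠ t in 𝓝[>] t0, t ∈ Ioo t0 1 := Ioo_mem_nhdsGT ht
  obtain ⟨t, h3, h4⟩ := (h1.and h2).exists
  exact ⟨t, h4.1, h4.2.le, h3⟩

theorem psi_lower (P : PreSt) : ∃ L > 0, ∀ c ∈ P.seg, ∀ x ∈ Icc (-P.R) P.R,
    ∀ y ∈ Icc (-P.R) P.R, y < x → L * (x - y) ≤ P.psi c x - P.psi c y := by
  obtain ⟨L, hL, h⟩ := br_lower P.τ (min P.a0 P.a1) (max P.a0 P.a1) (-P.R) P.R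
  refine ⟨L, hL, fun c hc x hx y hy hyx => ?_⟩
  have h1 := h c hc (Icc (-P.R) P.R) subset_rfl (P.ok c hc) (P.ε * x) (PreSt.eps_mem P hx)
    (P.ε * y) (PreSt.eps_mem P hy)
  have h2 : |P.ε * x - P.ε * y| = x - y := by
    rw [← mul_sub, abs_mul]
    have : |P.ε| = 1 := by rcases P.hε with h | h <;> rw [h] <;> simp
    rw [this, one_mul, abs_of_pos (sub_pos.2 hyx)]
  have h3 : |br c P.τ (P.ε * x) - br c P.τ (P.ε * y)| = P.psi c x - P.psi c y := by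
    have h4 := PreSt.psi_mono (S := P) hc hy hx hyx
    exact abs_of_pos (sub_pos.2 h4)
  rw [h2, h3] at h1
  exact h1

theorem cusp_pre (P : PreSt) : ∃ t0 b : ℝ, 0 ≤ t0 ∧ t0 < 1 ∧ 0 < P.y0 (P.ct t0) ∧
    P.y0 (P.ct t0) < b ∧ b < P.R ∧ P.h (P.ct t0) b = b ∧
    (∀ y ∈ Icc (P.y0 (P.ct t0)) P.R, y ≠ b → P.h (P.ct t0) y < y) ∧
    (∀ t, t0 < t → t ≤ 1 → 0 < P.y0 (P.ct t)) ∧
    (∀ t, t0 < t → t ≤ 1 → ∀ y ∈ Icc (P.y0 (P.ct t)) P.R, P.h (P.ct t) y < y) := by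
  have hR := P.hR
  have hcl := Cl_closed P
  have h0 : (0 : ℝ) ∈ Cl P := by
    refine ⟨⟨le_rfl, zero_le_one⟩, Or.inl ?_⟩
    rw [P.ct_zero, PreSt.y0_a0]
    linarith
  have h1 : (1 : ℝ) ∉ Cl P := by
    rintro ⟨-, h | ⟨y, hy, h2, h3⟩⟩
    · rw [P.ct_one, PreSt.y0_a1] at h
      linarith
    · rw [P.ct_one, PreSt.y0_a1] at h2
      have hy1 : y = P.R := le_antisymm hy.2 h2
      have h4 := PreSt.h_lt (S := P) (P.ct_mem ⟨zero_le_one, le_rfl⟩) hy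
      rw [hy1] at h3 h4
      linarith
  have hbdd : BddAbove (Cl P) := ⟨1, fun t ht => ht.1.2⟩
  obtain ⟨t0, ht0⟩ : ∃ t0, t0 = sSup (Cl P) := ⟨_, rfl⟩
  have hmem : t0 ∈ Cl P := by rw [ht0]; exact hcl.csSup_mem ⟨0, h0⟩ hbdd
  have ht1 : t0 < 1 := by
    refine lt_of_le_of_ne hmem.1.2 (fun h => h1 ?_)
    rwa [← h]
  have hnot : ∀ t, t0 < t → t ∉ Cl P := by
    intro t ht h
    have := le_csSup hbdd h
    rw [← ht0] at this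
    linarith
  have hypos' : ∀ t, t0 < t → t ≤ 1 → 0 < P.y0 (P.ct t) := by
    intro t ht ht'
    by_contra h
    push Not at h
    exact hnot t ht ⟨⟨hmem.1.1.trans ht.le, ht'⟩, Or.inl h⟩
  have hgate : ∀ t, t0 < t → t ≤ 1 → ∀ y ∈ Icc (P.y0 (P.ct t)) P.R, P.h (P.ct t) y < y := by
    intro t ht ht' y hy
    by_contra h
    push Not at h
    have h2 := hypos' t ht ht'
    exact hnot t ht ⟨⟨hmem.1.1.trans ht.le, ht'⟩, Or.inr ⟨y, ⟨by linarith [hy.1], hy.2⟩, hy.1, h⟩⟩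
  have hseg : P.ct t0 ∈ P.seg := P.ct_mem ⟨hmem.1.1, ht1.le⟩
  have hY := Y_cont P
  -- `y0 ≥ 0`
  have hA : 0 ≤ P.y0 (P.ct t0) := by
    by_contra h
    push Not at h
    obtain ⟨t, h2, h3, h4⟩ := exists_gt ht1 (hY.continuousAt.eventually_lt continuousAt_const h)
    exact absurd (hypos' t h2 h3) (not_lt.2 h4.le)
  -- `y0 ≠ 0`
  have hB : 0 < P.y0 (P.ct t0) := by
    refine lt_of_le_of_ne hA (fun h => ?_)
    obtain ⟨L, hL, hLow⟩ := psi_lower P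
    have hm : P.y0 (P.ct t0) < min (L / 4) (P.R / 2) := by
      rw [← h]
      exact lt_min (by positivity) (by positivity)
    obtain ⟨t, h2, h3, h4⟩ := exists_gt ht1 (hY.continuousAt.eventually_lt continuousAt_const hm)
    have h5 := hypos' t h2 h3
    have h6 : P.y0 (P.ct t) < L / 4 := h4.trans_le (min_le_left _ _)
    have h7 : P.y0 (P.ct t) < P.R / 2 := h4.trans_le (min_le_right _ _)
    have hc : P.ct t ∈ P.seg := P.ct_mem ⟨hmem.1.1.trans h2.le, h3⟩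
    obtain ⟨Y, hYd⟩ : ∃ Y, Y = P.y0 (P.ct t) := ⟨_, rfl⟩
    rw [← hYd] at h5 h6 h7
    have hmem1 : Y ∈ Icc (-P.R) P.R := ⟨by linarith, by linarith⟩
    have hmem2 : 2 * Y ∈ Icc (-P.R) P.R := ⟨by linarith, by linarith⟩
    have hmem3 : 2 * Y ∈ Icc (P.y0 (P.ct t)) P.R := ⟨by rw [← hYd]; linarith, by linarith⟩
    have h8 := hgate t h2 h3 (2 * Y) hmem3
    have h9 := PreSt.h_sq (S := P) hc hmem3
    have h10 := hLow _ hc (2 * Y) hmem2 Y hmem1 (by linarith)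
    have h11 : P.psi (P.ct t) Y = P.ct t := by rw [hYd]; exact PreSt.psi_y0 hc
    rw [h11, ← h9] at h10
    have h12 := P.h_nonneg (P.ct t) (2 * Y)
    nlinarith
  have hfixR : ∀ y ∈ Icc (P.y0 (P.ct t0)) P.R, y ≤ P.h (P.ct t0) y →
      P.y0 (P.ct t0) < y ∧ y < P.R := by
    intro y hy hyh
    constructor
    · refine lt_of_le_of_ne hy.1 (fun h => ?_)
      have h2 := PreSt.h_zero (S := P) hseg (y := y) ⟨by linarith [hy.1], h ▸ le_rfl⟩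
      rw [h2] at hyh
      linarith [hy.1]
    · refine lt_of_le_of_ne hy.2 (fun h => ?_)
      have h2 := PreSt.h_lt (S := P) hseg (y := y) ⟨by linarith [hy.1], hy.2⟩
      rw [← h] at h2
      linarith
  have hle : ∀ y ∈ Icc (P.y0 (P.ct t0)) P.R, P.h (P.ct t0) y ≤ y := by
    intro y hy
    by_contra h
    push Not at h
    obtain ⟨h2, h3⟩ := hfixR y hy h.le
    have e1 : ∀ᶠ t in 𝓝 t0, P.y0 (P.ct t) < y :=
      hY.continuousAt.eventually_lt continuousAt_const h2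
    have hc2 : Continuous fun t : ℝ => P.h (P.ct t) y :=
      (h_cont2 P).comp (continuous_id.prodMk continuous_const)
    have e2 : ∀ᶠ t in 𝓝 t0, y < P.h (P.ct t) y :=
      continuousAt_const.eventually_lt hc2.continuousAt h
    obtain ⟨t, h4, h5, h6, h7⟩ := exists_gt ht1 (e1.and e2)
    have := hgate t h4 h5 y ⟨h6.le, hy.2⟩
    linarith
  obtain ⟨-, h | ⟨b, hb, h2, h3⟩⟩ := hmem
  · exact absurd hB (not_lt.2 h)
  have hbI : b ∈ Icc (P.y0 (P.ct t0)) P.R := ⟨h2, hb.2⟩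
  obtain ⟨h4, h5⟩ := hfixR b hbI h3
  have hfix : P.h (P.ct t0) b = b := le_antisymm (hle b hbI) h3
  refine ⟨t0, b, ?_, ht1, hB, h4, h5, hfix, ?_, hypos', hgate⟩
  · rw [ht0]; exact le_csSup hbdd h0
  · intro y hy hyb
    refine lt_of_le_of_ne (hle y hy) (fun h => hyb ?_)
    exact PreSt.h_tangent (S := P) hseg (fun z hz => hle z ⟨hz.1.le, hz.2.le⟩)
      (hfixR y hy h.ge) ⟨h4, h5⟩ h hfix

end CuspAux

theorem cusp (S : St) : ∃ t0 b, CuspData S t0 b := by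
  obtain ⟨t0, b, h1, h2, h3, h4, h5, h6, h7, h8, h9⟩ := CuspAux.cusp_pre S.toPreSt
  exact ⟨t0, b, h1, h2, h3, h4, h5, h6, h7, h8, h9⟩

end JC
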