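import Pool.Agent.Lib.JC.Core

/-!
# JC.Trunc : the truncation oracle is an oracle for `c`, and its answers are long

Let `-2 < c < 0`, `k = ⌊c 2^(m+1)⌋`, so `-2^(m+2) ≤ k ≤ -1`, `a = k.natAbs`, `1 ≤ a ≤ 2^(m+2) < 2^(m+3)`.
`nbits len a` are the `len` low binary digits of `a`, most significant first, so for `a < 2^len`
`bval (nbits len a) = a` (`bval_nbits`; induction on `len`: the list for `len + 1` and `a` is the list for
`len` and `a / 2` followed by the digit `a % 2`; `Nat.testBit` lemmas; or prove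
`bval (List.ofFn ...)` as a sum).
With `l = nbits (m+3) a`, `I = l.take 2` (length `2`, nonempty), `F = l.drop 2` (length `m+1`),
`I ++ F = l`, the string denotes `q = -(a / 2^(m+1)) = k / 2^(m+1)` and `0 ≤ c - q < 1 / 2^(m+1)`, so
`|q - c| < 1 / 2^m`.
Length: `1 + 2 + 1 + (m+1) = m + 5`.
-/

open Set Filter Topology

namespace JC

theorem Trunc_bval_append (l : List Bool) (b : Bool) :
    bval (l ++ [b]) = 2 * bval l + (if b then 1 else 0) := by
  simp only [bval, List.foldl_append, List.foldl_cons, List.foldl_nil]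

theorem Trunc_nbits_succ (len k : ℕ) : nbits (len + 1) k = nbits len (k / 2) ++ [k.testBit 0] := by
  unfold nbits
  rw [List.ofFn_succ']
  rw [List.concat_eq_append]
  congr 1
  · congr 1
    funext i
    have hi := i.isLt
    have h1 : len + 1 - 1 - ((Fin.castSucc i : Fin (len + 1)) : ℕ) = (len - 1 - (i : ℕ)) + 1 := by
      rw [Fin.val_castSucc]
      omega
    rw [h1, Nat.testBit_succ]
  · simp

theorem Trunc_bval_nbits (len : ℕ) : ∀ k : ℕ, k < 2 ^ len → bval (nbits len k) = k := by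
  induction len with
  | zero =>
    intro k hk
    have : k = 0 := by simpa using hk
    subst this
    simp [nbits, bval]
  | succ n ih =>
    intro k hk
    rw [Trunc_nbits_succ, Trunc_bval_append, ih (k / 2) (by rw [pow_succ] at hk; omega)]
    have h1 : (if k.testBit 0 = true then 1 else 0) = k % 2 := by
      rw [Nat.testBit_zero]
      rcases Nat.mod_two_eq_zero_or_one k with h | h <;> simp [h]
    rw [h1]
    omega

theorem Trunc_nbits_length (len k : ℕ) : (nbits len k).length = len := by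
  simp [nbits]

theorem Trunc_digs_length (l : List Bool) : (digs l).length = l.length := by
  simp [digs]

theorem truncOracle_oracleFor {c : ℝ} (h1 : -2 < c) (h2 : c < 0) : OracleFor c (truncOracle c) := by
  intro m
  set k : ℤ := ⌊c * 2 ^ (m + 1)⌋ with hk
  set a : ℕ := k.natAbs with ha
  have hp : (0 : ℝ) < 2 ^ (m + 1) := by positivity
  have hkle : (k : ℝ) ≤ c * 2 ^ (m + 1) := Int.floor_le _
  have hklt : c * 2 ^ (m + 1) < (k : ℝ) + 1 := Int.lt_floor_add_one _
  have hkneg : (k : ℝ) < 0 := lt_of_le_of_lt hkle (mul_neg_of_neg_of_pos h2 hp)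
  have hkneg' : k < 0 := by exact_mod_cast hkneg
  have hkge : -(2 ^ (m + 2) : ℤ) ≤ k := by
    rw [hk, Int.le_floor]
    push_cast
    have : (2 : ℝ) ^ (m + 2) = 2 * 2 ^ (m + 1) := by rw [pow_succ]; ring
    rw [this]
    nlinarith
  have haZ : (a : ℤ) = -k := by
    rw [ha]
    omega
  have haR : (a : ℝ) = -(k : ℝ) := by
    have : ((a : ℤ) : ℝ) = ((-k : ℤ) : ℝ) := by rw [haZ]
    push_cast at this
    exact this
  have halt : a < 2 ^ (m + 3) := by
    have h3 : (a : ℤ) < 2 ^ (m + 3) := by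
      rw [haZ]
      have : (2 : ℤ) ^ (m + 3) = 2 * 2 ^ (m + 2) := by rw [pow_succ]; ring
      have h4 : (0 : ℤ) < 2 ^ (m + 2) := by positivity
      linarith
    exact_mod_cast h3
  refine ⟨-((a : ℝ) / 2 ^ (m + 1)), ⟨true, (nbits (m + 3) a).take 2, (nbits (m + 3) a).drop 2,
    ?_, ?_, ?_⟩, ?_⟩
  · intro hnil
    have := congrArg List.length hnil
    rw [List.length_take, Trunc_nbits_length] at this
    simp at this
  · simp only [truncOracle, if_true, ← hk, ← ha]
  · rw [List.take_append_drop, Trunc_bval_nbits _ _ halt, List.length_drop, Trunc_nbits_length]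
    have : m + 3 - 2 = m + 1 := by omega
    rw [this]
    simp
  · rw [haR]
    have h3 : -(-(k : ℝ) / 2 ^ (m + 1)) - c = -((c * 2 ^ (m + 1) - k) / 2 ^ (m + 1)) := by
      field_simp
      ring
    rw [h3, abs_neg, abs_of_nonneg (div_nonneg (by linarith) hp.le)]
    have h4 : (c * 2 ^ (m + 1) - k) / 2 ^ (m + 1) < 1 / 2 ^ (m + 1) := by
      apply div_lt_div_of_pos_right _ hp
      linarith
    have h5 : (1 : ℝ) / 2 ^ (m + 1) ≤ 1 / 2 ^ m := by
      apply one_div_le_one_div_of_le (by positivity)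
      exact pow_le_pow_right₀ (by norm_num) (by omega)
    linarith

theorem truncOracle_length (c : ℝ) (m : ℕ) : (truncOracle c m).length = m + 5 := by
  simp only [truncOracle, List.length_append, List.length_cons, List.length_nil,
    Trunc_digs_length, List.length_take, List.length_drop, Trunc_nbits_length]
  omega

theorem truncOracle_congr {c c' : ℝ} {m : ℕ} (h : ⌊c * 2 ^ (m + 1)⌋ = ⌊c' * 2 ^ (m + 1)⌋) :
    truncOracle c m = truncOracle c' m := by
  simp only [truncOracle, h]

theorem Trunc_floor_one (c0 sg : ℝ) (hsg : sg = 1 ∨ sg = -1) (P : ℝ) (hP : 0 < P) :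
    ∃ δ > 0, ∃ n : ℤ, ∀ c : ℝ, 0 < sg * (c - c0) → sg * (c - c0) < δ → ⌊c * P⌋ = n := by
  rcases hsg with rfl | rfl
  · refine ⟨((⌊c0 * P⌋ : ℝ) + 1 - c0 * P) / P, ?_, ⌊c0 * P⌋, ?_⟩
    · have := Int.lt_floor_add_one (c0 * P)
      exact div_pos (by linarith) hP
    · intro c hc1 hc2
      rw [one_mul] at hc1 hc2
      rw [lt_div_iff₀ hP] at hc2
      rw [Int.floor_eq_iff]
      have h1 := Int.floor_le (c0 * P)
      constructor
      · nlinarith
      · nlinarith
  · refine ⟨(c0 * P - ((⌈c0 * P⌉ : ℝ) - 1)) / P, ?_, ⌈c0 * P⌉ - 1, ?_⟩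
    · have := Int.ceil_lt_add_one (c0 * P)
      exact div_pos (by linarith) hP
    · intro c hc1 hc2
      rw [lt_div_iff₀ hP] at hc2
      rw [Int.floor_eq_iff]
      have h1 := Int.le_ceil (c0 * P)
      push_cast
      constructor
      · nlinarith
      · nlinarith

/-- One sided constancy of finitely many floors. -/
theorem floor_const (c0 sg : ℝ) (hsg : sg = 1 ∨ sg = -1) (T : ℕ) :
    ∃ δ > 0, ∀ c c' : ℝ, 0 < sg * (c - c0) → sg * (c - c0) < δ → 0 < sg * (c' - c0) →
      sg * (c' - c0) < δ → ∀ m < T, ⌊c * 2 ^ (m + 1)⌋ = ⌊c' * 2 ^ (m + 1)⌋ := by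
  induction T with
  | zero => exact ⟨1, one_pos, fun c c' _ _ _ _ m hm => absurd hm (Nat.not_lt_zero m)⟩
  | succ T ih =>
    obtain ⟨δ1, hδ1, H1⟩ := ih
    obtain ⟨δ2, hδ2, n, H2⟩ := Trunc_floor_one c0 sg hsg (2 ^ (T + 1)) (by positivity)
    refine ⟨min δ1 δ2, lt_min hδ1 hδ2, ?_⟩
    intro c c' h1 h2 h3 h4 m hm
    rcases Nat.lt_succ_iff_lt_or_eq.1 hm with h | h
    · exact H1 c c' h1 (h2.trans_le (min_le_left _ _)) h3 (h4.trans_le (min_le_left _ _)) m h
    · subst h
      rw [H2 c h1 (h2.trans_le (min_le_right _ _)), H2 c' h3 (h4.trans_le (min_le_right _ _))]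

end JC
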