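import Pool.Agent.Lib.JC.Core2
import Pool.Agent.Lib.JC.Agree
import Pool.Agent.Lib.JC.Trunc

/-!
# JC.Diag : the diagonalisation (section 10 of the paper proof)

The conclusions of the other sections enter as hypotheses: `StepProp` (section 9), `MoveProp` (Move 1) and
`RenProp` (renormalizability).
-/

open Set Filter Topology

namespace JC

/-- The conclusion of section 9: from every state one comes, arbitrarily close to a parameter `c0` and on one side
of it, to states on which the Julia set is close to, respectively far from, one and the same dyadic point. -/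
def StepProp : Prop :=
  ∀ S : St, ∃ (n0 : ℕ) (x y : ℤ) (c0 sg : ℝ), (sg = 1 ∨ sg = -1) ∧ ∀ δ : ℝ, 0 < δ →
    ∃ Sa Sb : St, S.n < Sa.n ∧ S.n < Sb.n ∧ Sa.seg ⊆ S.seg ∧ Sb.seg ⊆ S.seg ∧
      (∀ c ∈ Sa.seg, 0 < sg * (c - c0) ∧ sg * (c - c0) < δ) ∧
      (∀ c ∈ Sb.seg, 0 < sg * (c - c0) ∧ sg * (c - c0) < δ) ∧
      (∀ c ∈ Sa.seg, Metric.infDist (dpt n0 x y) (julia (c : ℂ)) < 1 / 2 ^ n0) ∧
      (∀ c ∈ Sb.seg, 2 * (1 / 2 ^ n0) < Metric.infDist (dpt n0 x y) (julia (c : ℂ)))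

/-- The conclusion of Move 1. -/
def MoveProp : Prop :=
  ∀ S : PreSt, (∀ c ∈ S.seg, S.RenIn c → -2 < c ∧ c < 0) →
    ∃ S' : St, S'.seg ⊆ S.seg ∧ S.n < S'.n ∧ ∀ c ∈ S'.seg, S.RenIn c

/-- Renormalizability of the return maps. -/
def RenProp : Prop := ∀ S : St, ∀ c ∈ S.seg, S.RenIn c → Renormalizable (c : ℂ) S.n

/-- One step against the machine `M`, the time bound `T` and the parameter `z`. -/
theorem Diag_one (hs : StepProp) (hm : MoveProp) (hr : RenProp) (S : St) (M : OTM) (T : ℕ → ℕ) (z : ℝ) :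
    ∃ S' : St, S'.seg ⊆ S.seg ∧ S.n < S'.n ∧ ∀ c ∈ S'.seg, c ≠ z ∧
      ¬ ComputesIn M (truncOracle c) (julia (c : ℂ)) T ∧ ∃ p, S.n < p ∧ Renormalizable (c : ℂ) p := by
  obtain ⟨n0, x, y, c0, sg, hsg, H⟩ := hs S
  obtain ⟨δ1, hδ1, Hf⟩ := floor_const c0 sg hsg (T n0)
  have hsg2 : sg * sg = 1 := by rcases hsg with rfl | rfl <;> norm_num
  have habs : |sg| = 1 := by rcases hsg with rfl | rfl <;> norm_num
  -- the radius
  obtain ⟨δ, hδ, hδδ, hz⟩ : ∃ δ > 0, δ ≤ δ1 ∧ ∀ c : ℝ, 0 < sg * (c - c0) → sg * (c - c0) < δ → c ≠ z := by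
    by_cases h : z = c0
    · refine ⟨δ1, hδ1, le_refl _, ?_⟩
      rintro c hc1 - rfl
      rw [h, sub_self, mul_zero] at hc1
      exact lt_irrefl _ hc1
    · have h1 : 0 < |z - c0| := abs_pos.2 (sub_ne_zero.2 h)
      refine ⟨min δ1 |z - c0|, lt_min hδ1 h1, min_le_left _ _, ?_⟩
      rintro c hc1 hc2 rfl
      have h2 := hc2.trans_le (min_le_right _ _)
      have h3 : |sg * (c - c0)| = |c - c0| := by rw [abs_mul, habs, one_mul]
      rw [abs_of_pos hc1] at h3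
      linarith
  obtain ⟨Sa, Sb, na, nb, sa, sb, ca, cb, da, db⟩ := H δ hδ
  -- the reference parameter
  set c1 : ℝ := c0 + sg * (δ1 / 2) with hc1
  have e1 : sg * (c1 - c0) = δ1 / 2 := by
    rw [hc1, add_sub_cancel_left, ← mul_assoc, hsg2, one_mul]
  have key : ∀ c : ℝ, 0 < sg * (c - c0) → sg * (c - c0) < δ → ∀ m < T n0, truncOracle c m = truncOracle c1 m := by
    intro c h1 h2 m hm'
    exact truncOracle_congr (Hf c c1 h1 (h2.trans_le hδδ) (by rw [e1]; positivity) (by rw [e1]; linarith) m hm')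
  have hlen : ∀ (c : ℝ) (m : ℕ), m + 1 ≤ (truncOracle c m).length := by
    intro c m
    rw [truncOracle_length]
    omega
  -- choice of the state
  obtain ⟨S1, n1, s1, k1⟩ : ∃ S1 : St, S.n < S1.n ∧ S1.seg ⊆ S.seg ∧ ∀ c ∈ S1.seg, c ≠ z ∧
      ¬ ComputesIn M (truncOracle c) (julia (c : ℂ)) T := by
    by_cases hP : ∃ t, t ≤ T n0 ∧ Halts M (truncOracle c1) (M.init (input n0 x y)) t true
    · obtain ⟨t, ht, hh⟩ := hP
      refine ⟨Sb, nb, sb, fun c hc => ⟨hz c (cb c hc).1 (cb c hc).2, fun hC => ?_⟩⟩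
      obtain ⟨t', b', ht', hh', -, hf⟩ := hC n0 x y
      have h1 := hf (db c hc)
      subst h1
      have h2 := halts_agree (hlen c1) (fun m hm' => (key c (cb c hc).1 (cb c hc).2 m hm').symm) ht hh
      exact absurd (halts_det h2 hh').2 (by simp)
    · refine ⟨Sa, na, sa, fun c hc => ⟨hz c (ca c hc).1 (ca c hc).2, fun hC => ?_⟩⟩
      obtain ⟨t', b', ht', hh', hf, -⟩ := hC n0 x y
      have h1 := hf (da c hc)
      subst h1
      exact hP ⟨t', ht', halts_agree (hlen c) (key c (ca c hc).1 (ca c hc).2) ht' hh'⟩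
  obtain ⟨S', s', n', r'⟩ := hm S1.toPreSt (fun c hc _ => S1.cneg c hc)
  refine ⟨S', s'.trans s1, n1.trans n', fun c hc => ?_⟩
  obtain ⟨k2, k3⟩ := k1 c (s' hc)
  exact ⟨k2, k3, S1.n, n1, hr S1 c (s' hc) (r' c hc)⟩

/-- The diagonalisation. -/
theorem Diag_main (hs : StepProp) (hm : MoveProp) (hr : RenProp) (S0 : St) (TT : Set (ℕ → ℕ))
    (hTT : TT.Countable) (Z : Set ℝ) (hZ : Z.Countable) (hM : Countable OTM) :
    ∃ c ∈ S0.seg, c ∉ Z ∧ InfinitelyRenormalizable (c : ℂ) ∧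
      ∀ M : OTM, ∀ T ∈ TT, ¬ ComputesIn M (truncOracle c) (julia (c : ℂ)) T := by
  classical
  -- enumeration of the requirements
  have hTT' : (insert (fun _ => 0) TT : Set (ℕ → ℕ)).Countable := hTT.insert _
  have hZ' : (insert 0 Z : Set ℝ).Countable := hZ.insert _
  have := hTT'.to_subtype
  have := hZ'.to_subtype
  have : Nonempty (insert (fun _ => 0) TT : Set (ℕ → ℕ)) := ⟨⟨_, mem_insert _ _⟩⟩
  have : Nonempty (insert 0 Z : Set ℝ) := ⟨⟨_, mem_insert _ _⟩⟩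
  have : Nonempty OTM := ⟨⟨0, 0, 0, fun _ _ => Act.halt false⟩⟩
  obtain ⟨enum, henum⟩ := exists_surjective_nat
    (OTM × (insert (fun _ => 0) TT : Set (ℕ → ℕ)) × (insert 0 Z : Set ℝ))
  choose nx nx1 nx2 nx3 using fun (S : St) (i : ℕ) =>
    Diag_one hs hm hr S (enum i).1 (enum i).2.1.1 (enum i).2.2.1
  let SS : ℕ → St := fun k => Nat.rec S0 (fun i S => nx S i) k
  have hSS : ∀ k, SS (k + 1) = nx (SS k) k := fun k => rfl
  have hseg : ∀ k, (SS (k + 1)).seg ⊆ (SS k).seg := fun k => by rw [hSS]; exact nx1 _ _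
  have hn : ∀ k, (SS k).n < (SS (k + 1)).n := fun k => by rw [hSS]; exact nx2 _ _
  have hnk : ∀ k, k ≤ (SS k).n := by
    intro k
    induction k with
    | zero => exact Nat.zero_le _
    | succ k ih => exact lt_of_le_of_lt ih (hn k)
  obtain ⟨c, hc⟩ := IsCompact.nonempty_iInter_of_sequence_nonempty_isCompact_isClosed
    (fun k => (SS k).seg) hseg (fun k => nonempty_uIcc) isCompact_uIcc (fun k => isCompact_uIcc.isClosed)
  rw [mem_iInter] at hc
  refine ⟨c, hc 0, ?_, ?_, ?_⟩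
  · intro hcz
    obtain ⟨k, hk⟩ := henum (Classical.arbitrary OTM, ⟨_, mem_insert _ _⟩, ⟨c, mem_insert_of_mem _ hcz⟩)
    have h1 := (nx3 (SS k) k c (by rw [← hSS]; exact hc (k + 1))).1
    rw [hk] at h1
    exact h1 rfl
  · refine Set.infinite_of_forall_exists_gt fun k => ?_
    obtain ⟨-, -, p, hp, hR⟩ := nx3 (SS k) k c (by rw [← hSS]; exact hc (k + 1))
    exact ⟨p, hR, lt_of_le_of_lt (hnk k) hp⟩
  · intro M T hT
    obtain ⟨k, hk⟩ := henum (M, ⟨T, mem_insert_of_mem _ hT⟩, ⟨0, mem_insert _ _⟩)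
    have h1 := (nx3 (SS k) k c (by rw [← hSS]; exact hc (k + 1))).2.1
    rw [hk] at h1
    exact h1

end JC
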