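import Mathlib
import Pool.Agent.Lib.JC.Pub

/-!
# Correctness of an oracle machine at one point
-/

open Set Filter Topology

namespace JC

/-- `M` with oracle `φ` decides correctly whether `(x + y i) / 2 ^ n` is close to `K`, at total cost
at most `T`: it halts on the input `n`, `x`, `y` with an output which is `1` if the distance from the
point to `K` is less than `2 ^ -n`, and `0` if the distance is greater than `2 * 2 ^ -n`. -/
def CorrectIn (M : OTM) (φ : ℕ → List Sym) (K : Set ℂ) (T n : ℕ) (x y : ℤ) : Prop :=
  ∃ (t : ℕ) (b : Bool), t ≤ T ∧ Halts M φ (M.init (input n x y)) t b ∧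
    (Metric.infDist (dpt n x y) K < 1 / 2 ^ n → b = true) ∧
    (2 * (1 / 2 ^ n) < Metric.infDist (dpt n x y) K → b = false)

theorem computesIn_iff (M : OTM) (φ : ℕ → List Sym) (K : Set ℂ) (T : ℕ → ℕ) :
    ComputesIn M φ K T ↔ ∀ n x y, CorrectIn M φ K (T n) n x y := Iff.rfl

end JC
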