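import Pool.Agent.Lib.JC.StepDef
import Pool.Agent.Lib.JC.Pub2
import Pool.Agent.Lib.JC.Diag

/-!
# JC.Diag2 : the diagonalisation, every machine fails at infinitely many precisions

As `JC.Diag`, but the requirements are the triples (machine, time bound, precision), and the point at which
the machine fails has absolute value at most `3`.
-/

open Set Filter Topology

namespace JC

/-- One step against the machine `M`, the time bound `T`, the precision `K0` and the parameter `z`. -/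
theorem Diag2_one (hs : ∀ (S : St) (K0 : ℕ), StepAt S K0) (hm : MoveProp) (hr : RenProp) (S : St) (M : OTM)
    (T : ℕ → ℕ) (K0 : ℕ) (z : ℝ) :
    ∃ S' : St, S'.seg ⊆ S.seg ∧ S.n < S'.n ∧ ∀ c ∈ S'.seg, c ≠ z ∧
      (∃ n ≥ K0, ∃ x y : ℤ, ‖dpt n x y‖ ≤ 3 ∧
        ¬ CorrectIn M (truncOracle c) (julia (c : ℂ)) (T n) n x y) ∧
      ∃ p, S.n < p ∧ Renormalizable (c : ℂ) p := by
  obtain ⟨n0, x, y, c0, sg, hK, hsg, hnorm, H⟩ := hs S K0
  obtain ⟨δ1, hδ1, Hf⟩ := floor_const c0 sg hsg (T n0)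
  have hsg2 : sg * sg = 1 := by rcases hsg with rfl | rfl <;> norm_num
  have habs : |sg| = 1 := by rcases hsg with rfl | rfl <;> norm_num
  -- the radius
  obtain ⟨δ, hδ, hδδ, hz⟩ : ∃ δ > 0, δ ≤ δ1 ∧ ∀ c : ℝ, 0 < sg * (c - c0) → sg * (c - c0) < δ → c ≠ z := by
    by_cases h : z = c0
    · refine ⟨δ1, hδ1, le_refl _, ?_⟩
      rintro c hc1 - rfl
      rw [h, sub_self, mul_zero] at hc1
      exact lt_irrefl _ hc1
    · have h1 : 0 < |z - c0| := abs_pos.2 (sub_ne_zero.2 h)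
      refine ⟨min δ1 |z - c0|, lt_min hδ1 h1, min_le_left _ _, ?_⟩
      rintro c hc1 hc2 rfl
      have h2 := hc2.trans_le (min_le_right _ _)
      have h3 : |sg * (c - c0)| = |c - c0| := by rw [abs_mul, habs, one_mul]
      rw [abs_of_pos hc1] at h3
      linarith
  obtain ⟨Sa, Sb, na, nb, sa, sb, ca, cb⟩ := H δ hδ
  -- the reference parameter
  set c1 : ℝ := c0 + sg * (δ1 / 2) with hc1
  have e1 : sg * (c1 - c0) = δ1 / 2 := by
    rw [hc1, add_sub_cancel_left, ← mul_assoc, hsg2, one_mul]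
  have key : ∀ c : ℝ, 0 < sg * (c - c0) → sg * (c - c0) < δ → ∀ m < T n0, truncOracle c m = truncOracle c1 m := by
    intro c h1 h2 m hm'
    exact truncOracle_congr (Hf c c1 h1 (h2.trans_le hδδ) (by rw [e1]; positivity) (by rw [e1]; linarith) m hm')
  have hlen : ∀ (c : ℝ) (m : ℕ), m + 1 ≤ (truncOracle c m).length := by
    intro c m
    rw [truncOracle_length]
    omega
  -- choice of the state
  obtain ⟨S1, n1, s1, k1⟩ : ∃ S1 : St, S.n < S1.n ∧ S1.seg ⊆ S.seg ∧ ∀ c ∈ S1.seg, c ≠ z ∧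
      ¬ CorrectIn M (truncOracle c) (julia (c : ℂ)) (T n0) n0 x y := by
    by_cases hP : ∃ t, t ≤ T n0 ∧ Halts M (truncOracle c1) (M.init (input n0 x y)) t true
    · obtain ⟨t, ht, hh⟩ := hP
      refine ⟨Sb, nb, sb, fun c hc => ⟨hz c (cb c hc).1 (cb c hc).2.1, fun hC => ?_⟩⟩
      obtain ⟨t', b', ht', hh', -, hf⟩ := hC
      have h1 := hf (cb c hc).2.2
      subst h1
      have h2 := halts_agree (hlen c1) (fun m hm' => (key c (cb c hc).1 (cb c hc).2.1 m hm').symm) ht hh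
      exact absurd (halts_det h2 hh').2 (by simp)
    · refine ⟨Sa, na, sa, fun c hc => ⟨hz c (ca c hc).1 (ca c hc).2.1, fun hC => ?_⟩⟩
      obtain ⟨t', b', ht', hh', hf, -⟩ := hC
      have h1 := hf (ca c hc).2.2
      subst h1
      exact hP ⟨t', ht', halts_agree (hlen c) (key c (ca c hc).1 (ca c hc).2.1) ht' hh'⟩
  obtain ⟨S', s', n', r'⟩ := hm S1.toPreSt (fun c hc _ => S1.cneg c hc)
  refine ⟨S', s'.trans s1, n1.trans n', fun c hc => ?_⟩
  obtain ⟨k2, k3⟩ := k1 c (s' hc)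
  exact ⟨k2, ⟨n0, hK, x, y, hnorm, k3⟩, S1.n, n1, hr S1 c (s' hc) (r' c hc)⟩

/-- The diagonalisation. -/
theorem diag2 (hs : ∀ (S : St) (K0 : ℕ), StepAt S K0) (hm : MoveProp) (hr : RenProp) (S0 : St)
    (TT : Set (ℕ → ℕ)) (hTT : TT.Countable) (Z : Set ℝ) (hZ : Z.Countable) (hM : Countable OTM) :
    ∃ c ∈ S0.seg, -2 < c ∧ c < 0 ∧ c ∉ Z ∧ InfinitelyRenormalizable (c : ℂ) ∧
      ∀ M : OTM, ∀ T ∈ TT, ∀ N : ℕ, ∃ n ≥ N, ∃ x y : ℤ, ‖dpt n x y‖ ≤ 3 ∧
        ¬ CorrectIn M (truncOracle c) (julia (c : ℂ)) (T n) n x y := by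
  classical
  -- enumeration of the requirements
  have hTT' : (insert (fun _ => 0) TT : Set (ℕ → ℕ)).Countable := hTT.insert _
  have hZ' : (insert 0 Z : Set ℝ).Countable := hZ.insert _
  have := hTT'.to_subtype
  have := hZ'.to_subtype
  have : Nonempty (insert (fun _ => 0) TT : Set (ℕ → ℕ)) := ⟨⟨_, mem_insert _ _⟩⟩
  have : Nonempty (insert 0 Z : Set ℝ) := ⟨⟨_, mem_insert _ _⟩⟩
  have : Nonempty OTM := ⟨⟨0, 0, 0, fun _ _ => Act.halt false⟩⟩
  obtain ⟨enum, henum⟩ := exists_surjective_nat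
    (OTM × (insert (fun _ => 0) TT : Set (ℕ → ℕ)) × (insert 0 Z : Set ℝ) × ℕ)
  choose nx nx1 nx2 nx3 using fun (S : St) (i : ℕ) =>
    Diag2_one hs hm hr S (enum i).1 (enum i).2.1.1 (enum i).2.2.2 (enum i).2.2.1.1
  let SS : ℕ → St := fun k => Nat.rec S0 (fun i S => nx S i) k
  have hSS : ∀ k, SS (k + 1) = nx (SS k) k := fun k => rfl
  have hseg : ∀ k, (SS (k + 1)).seg ⊆ (SS k).seg := fun k => by rw [hSS]; exact nx1 _ _
  have hn : ∀ k, (SS k).n < (SS (k + 1)).n := fun k => by rw [hSS]; exact nx2 _ _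
  have hnk : ∀ k, k ≤ (SS k).n := by
    intro k
    induction k with
    | zero => exact Nat.zero_le _
    | succ k ih => exact lt_of_le_of_lt ih (hn k)
  obtain ⟨c, hc⟩ := IsCompact.nonempty_iInter_of_sequence_nonempty_isCompact_isClosed
    (fun k => (SS k).seg) hseg (fun k => nonempty_uIcc) isCompact_uIcc (fun k => isCompact_uIcc.isClosed)
  rw [mem_iInter] at hc
  have hc0 : c ∈ S0.seg := hc 0
  refine ⟨c, hc0, (S0.cneg c hc0).1, (S0.cneg c hc0).2, ?_, ?_, ?_⟩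
  · intro hcz
    obtain ⟨k, hk⟩ := henum (Classical.arbitrary OTM, ⟨_, mem_insert _ _⟩, ⟨c, mem_insert_of_mem _ hcz⟩, 0)
    have h1 := (nx3 (SS k) k c (by rw [← hSS]; exact hc (k + 1))).1
    rw [hk] at h1
    exact h1 rfl
  · refine Set.infinite_of_forall_exists_gt fun k => ?_
    obtain ⟨-, -, p, hp, hR⟩ := nx3 (SS k) k c (by rw [← hSS]; exact hc (k + 1))
    exact ⟨p, hR, lt_of_le_of_lt (hnk k) hp⟩
  · intro M T hT N
    obtain ⟨k, hk⟩ := henum (M, ⟨T, mem_insert_of_mem _ hT⟩, ⟨0, mem_insert _ _⟩, N)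
    have h1 := (nx3 (SS k) k c (by rw [← hSS]; exact hc (k + 1))).2.1
    rw [hk] at h1
    exact h1

/-- Polynomial time computability is excluded: the polynomials form a countable family of time bounds. -/
theorem not_polyTimeJulia {c : ℝ} (h1 : -2 < c) (h2 : c < 0)
    (h : ∀ (M : OTM) (P : Polynomial ℕ), ∃ n : ℕ, ∃ x y : ℤ,
      ¬ CorrectIn M (truncOracle c) (julia (c : ℂ)) (P.eval n) n x y) : ¬ PolyTimeJulia c := by
  rintro ⟨M, P, hP⟩
  obtain ⟨n, x, y, hn⟩ := h M P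
  exact hn (hP _ (truncOracle_oracleFor h1 h2) n x y)

/-- The polynomial time bounds are countable. -/
theorem countable_poly : {T : ℕ → ℕ | ∃ P : Polynomial ℕ, T = fun n => P.eval n}.Countable := by
  have hc : Countable (Polynomial ℕ) := by
    refine Function.Injective.countable (f := fun p : Polynomial ℕ =>
      (⟨p.support, fun i => p.coeff i⟩ : Σ s : Finset ℕ, (s → ℕ))) ?_
    intro p q h
    simp only [Sigma.mk.injEq] at h
    obtain ⟨h1, h2⟩ := h
    have h3 : ∀ (s : Finset ℕ), p.support = s →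
        HEq (fun i : p.support => p.coeff i) (fun i : s => q.coeff i) →
        ∀ i ∈ s, p.coeff i = q.coeff i := by
      rintro s rfl h i hi
      exact congrFun (eq_of_heq h) ⟨i, hi⟩
    ext i
    by_cases hi : i ∈ q.support
    · exact h3 _ h1 h2 i hi
    · have hi' : i ∉ p.support := by rw [h1]; exact hi
      rw [Polynomial.notMem_support_iff] at hi hi'
      rw [hi, hi']
  exact (Set.countable_range (fun P : Polynomial ℕ => fun n => P.eval n)).mono
    (by rintro T ⟨P, rfl⟩; exact ⟨P, rfl⟩)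

/-- The final form: `diag2` with the polynomials added to the family of time bounds. -/
theorem diag3 (hs : ∀ (S : St) (K0 : ℕ), StepAt S K0) (hm : MoveProp) (hr : RenProp) (S0 : St)
    (TT : Set (ℕ → ℕ)) (hTT : TT.Countable) (Z : Set ℝ) (hZ : Z.Countable) (hM : Countable OTM) :
    ∃ c : ℝ, -2 < c ∧ c < 0 ∧ c ∉ Z ∧ InfinitelyRenormalizable (c : ℂ) ∧ ¬ PolyTimeJulia c ∧
      OracleFor c (truncOracle c) ∧
      ∀ M : OTM, ∀ T ∈ TT, ∀ N : ℕ, ∃ n ≥ N, ∃ x y : ℤ, ‖dpt n x y‖ ≤ 3 ∧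
        ¬ CorrectIn M (truncOracle c) (julia (c : ℂ)) (T n) n x y := by
  obtain ⟨c, -, h1, h2, h3, h4, h5⟩ := diag2 hs hm hr S0
    (TT ∪ {T : ℕ → ℕ | ∃ P : Polynomial ℕ, T = fun n => P.eval n}) (hTT.union countable_poly) Z hZ hM
  refine ⟨c, h1, h2, h3, h4, ?_, truncOracle_oracleFor h1 h2, fun M T hT => h5 M T (Or.inl hT)⟩
  refine not_polyTimeJulia h1 h2 fun M P => ?_
  obtain ⟨n, -, x, y, -, h⟩ := h5 M (fun n => P.eval n) (Or.inr ⟨P, rfl⟩) 0
  exact ⟨n, x, y, h⟩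

end JC
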