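import Pool.Agent.Lib.JC.Core
import Pool.Agent.Lib.JC.BrBasic

/-!
# JC.DiscBr : complex branches map round discs into round discs

`Dc p q` is the open disc with diameter `[p, q]`.

1. `mem_Dc_iff`: for `p < q`, `z ∈ Dc p q` iff `((z - p) * conj (z - q)).re < 0`, i.e.
   `(z.re - p) * (z.re - q) + z.im ^ 2 < 0`. (Expand `‖z - (p+q)/2‖^2 < ((q-p)/2)^2`.)
2. `sqrt_disc`: `0 ≤ A < B`, `v.re > 0`, `v ^ 2 ∈ Dc A B` imply `v ∈ Dc (√A) (√B)`.
   Put `a = √A`, `b = √B`, `v = x + i y`, `P = (x-a)(x-b) + y^2`, `Q = (x+a)(x+b) + y^2`. With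
   `v^2 - A = (v-a)(v+a)` etc. one computes
   `((v^2 - A) * conj (v^2 - B)).re = P * Q + y^2 * (b - a)^2`. It is `< 0` and `Q > 0`, so `P < 0`.
3. `brC_disc`: induction on `w`. For `w = s :: v` let `A', B'` be the min and max of
   `br c v p`, `br c v q`; both are `> c` by `Ok`, and `A' < B'`, since `br c v` is injective on
   `{p, q}` (`iter_br`). By induction `brC c v z ∈ Dc A' B'`, hence `brC c v z - c ∈ Dc (A'-c) (B'-c)`
   has positive real part, lies in `Complex.slitPlane`, `Complex.sqrt` is differentiable there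
   (`Complex.differentiableAt_sqrt`), its value `u` has `u.re > 0`, `u ^ 2 = brC c v z - c`
   (`Complex.sqrt a = a ^ (2⁻¹ : ℂ)`), so `u ∈ Dc √(A'-c) √(B'-c)` by 2; multiply by `s = ±1`
   (`Dc (-q) (-p) = - Dc p q`).
4. `brC_real`: induction, `Complex.sqrt` of a nonnegative real is the real root
   (`Complex.ofReal_cpow` or the API in `Mathlib/Analysis/RCLike/Sqrt.lean`).
-/

open Set Filter Topology

namespace JC

theorem mem_Dc_iff {p q : ℝ} (h : p < q) (z : ℂ) :
    z ∈ Dc p q ↔ (z.re - p) * (z.re - q) + z.im ^ 2 < 0 := by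
  have h0 : (0 : ℝ) ≤ (q - p) / 2 := by linarith
  unfold Dc
  rw [Metric.mem_ball, dist_eq_norm, ← sq_lt_sq₀ (norm_nonneg _) h0, Complex.sq_norm,
    Complex.normSq_apply]
  simp only [Complex.sub_re, Complex.ofReal_re, Complex.sub_im, Complex.ofReal_im, sub_zero]
  constructor
  · intro h1
    nlinarith [h1]
  · intro h1
    nlinarith [h1]

theorem DiscBr_sqrt_real {a : ℝ} (ha : 0 ≤ a) :
    Complex.sqrt (a : ℂ) = ((Real.sqrt a : ℝ) : ℂ) := by
  unfold Complex.sqrt
  rw [Real.sqrt_eq_rpow, Complex.ofReal_cpow ha]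
  norm_num

theorem DiscBr_sqrt_sq (z : ℂ) : Complex.sqrt z ^ 2 = z := by
  unfold Complex.sqrt
  exact Complex.cpow_nat_inv_pow z (n := 2) (by norm_num)

theorem DiscBr_sqrt_re {z : ℂ} (hz : 0 < z.re) : 0 < (Complex.sqrt z).re := by
  unfold Complex.sqrt
  rw [Complex.cpow_inv_two_re]
  apply Real.sqrt_pos.2
  have := norm_nonneg z
  positivity

theorem brC_real {c : ℝ} {w : List ℝ} {I : Set ℝ} {y : ℝ} (h : Ok c w I) (hy : y ∈ I) :
    brC c w (y : ℂ) = ((br c w y : ℝ) : ℂ) := by
  induction w with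
  | nil => rfl
  | cons s v ih =>
    simp only [brC, br]
    rw [ih h.2.1, ← Complex.ofReal_sub, DiscBr_sqrt_real (sub_pos.2 (h.2.2 y hy)).le,
      Complex.ofReal_mul]

theorem DiscBr_sqrt_disc {A B : ℝ} (hA : 0 ≤ A) (hAB : A < B) {v : ℂ} (hv : 0 < v.re)
    (h : v ^ 2 ∈ Dc A B) : v ∈ Dc (Real.sqrt A) (Real.sqrt B) := by
  have hB : 0 < B := hA.trans_lt hAB
  have hab : Real.sqrt A < Real.sqrt B := Real.sqrt_lt_sqrt hA hAB
  rw [mem_Dc_iff hAB] at h
  rw [mem_Dc_iff hab]
  have ha2 := Real.sq_sqrt hA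
  have hb2 := Real.sq_sqrt hB.le
  have ha0 := Real.sqrt_nonneg A
  have hb0 : 0 < Real.sqrt B := Real.sqrt_pos.2 hB
  set a := Real.sqrt A
  set b := Real.sqrt B
  have hre : (v ^ 2).re = v.re ^ 2 - v.im ^ 2 := by
    rw [sq, Complex.mul_re]; ring
  have him : (v ^ 2).im = 2 * v.re * v.im := by
    rw [sq, Complex.mul_im]; ring
  rw [hre, him, ← ha2, ← hb2] at h
  have hid : (v.re ^ 2 - v.im ^ 2 - a ^ 2) * (v.re ^ 2 - v.im ^ 2 - b ^ 2)
      + (2 * v.re * v.im) ^ 2
      = ((v.re - a) * (v.re - b) + v.im ^ 2) * ((v.re + a) * (v.re + b) + v.im ^ 2)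
        + v.im ^ 2 * (b - a) ^ 2 := by ring
  rw [hid] at h
  have hQ : 0 < (v.re + a) * (v.re + b) + v.im ^ 2 := by positivity
  by_contra hcon
  push Not at hcon
  have h1 := mul_nonneg hcon hQ.le
  have h2 : 0 ≤ v.im ^ 2 * (b - a) ^ 2 := by positivity
  linarith

theorem DiscBr_neg {p q : ℝ} (h : p < q) {z : ℂ} (hz : z ∈ Dc p q) : -z ∈ Dc (-q) (-p) := by
  rw [mem_Dc_iff h] at hz
  rw [mem_Dc_iff (by linarith)]
  simp only [Complex.neg_re, Complex.neg_im]
  nlinarith [hz]

theorem brC_disc {c : ℝ} {w : List ℝ} {p q : ℝ} (hpq : p < q) (h : Ok c w (Icc p q)) :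
    DifferentiableOn ℂ (brC c w) (Dc p q) ∧
      ∀ z ∈ Dc p q, brC c w z ∈ Dc (min (br c w p) (br c w q)) (max (br c w p) (br c w q)) ∧
        (fc (c : ℂ))^[w.length] (brC c w z) = z := by
  induction w with
  | nil =>
    refine ⟨differentiableOn_id, ?_⟩
    intro z hz
    simp only [brC, br, List.length_nil, Function.iterate_zero, id_eq, and_true]
    rw [min_eq_left hpq.le, max_eq_right hpq.le]
    exact hz
  | cons s v ih =>
    obtain ⟨hd, hz⟩ := ih h.2.1
    have hp := h.2.2 p (left_mem_Icc.2 hpq.le)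
    have hq := h.2.2 q (right_mem_Icc.2 hpq.le)
    have hne : br c v p ≠ br c v q := by
      intro he
      have h1 := iter_br h.2.1 (left_mem_Icc.2 hpq.le)
      have h2 := iter_br h.2.1 (right_mem_Icc.2 hpq.le)
      rw [he, h2] at h1
      exact hpq.ne h1.symm
    have hAB : min (br c v p) (br c v q) < max (br c v p) (br c v q) := by
      rcases lt_or_gt_of_ne hne with h1 | h1
      · rw [min_eq_left h1.le, max_eq_right h1.le]; exact h1
      · rw [min_eq_right h1.le, max_eq_left h1.le]; exact h1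
    have hcA : c < min (br c v p) (br c v q) := lt_min hp hq
    set A := min (br c v p) (br c v q) with hA
    set B := max (br c v p) (br c v q) with hB
    have hre : ∀ z ∈ Dc p q, 0 < (brC c v z - (c : ℂ)).re := by
      intro z hzz
      have h1 := (hz z hzz).1
      rw [mem_Dc_iff hAB] at h1
      rw [Complex.sub_re, Complex.ofReal_re]
      by_contra hcon
      push Not at hcon
      have h2 : 0 < (A - (brC c v z).re) * (B - (brC c v z).re) := by
        apply mul_pos <;> linarith
      nlinarith [sq_nonneg (brC c v z).im]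
    have hdisc : ∀ z ∈ Dc p q, Complex.sqrt (brC c v z - (c : ℂ)) ∈
        Dc (Real.sqrt (A - c)) (Real.sqrt (B - c)) := by
      intro z hzz
      apply DiscBr_sqrt_disc (by linarith) (by linarith) (DiscBr_sqrt_re (hre z hzz))
      rw [DiscBr_sqrt_sq]
      have h1 := (hz z hzz).1
      rw [mem_Dc_iff hAB] at h1
      rw [mem_Dc_iff (by linarith)]
      simp only [Complex.sub_re, Complex.ofReal_re, Complex.sub_im, Complex.ofReal_im, sub_zero]
      nlinarith [h1]
    have hlt : Real.sqrt (A - c) < Real.sqrt (B - c) :=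
      Real.sqrt_lt_sqrt (by linarith) (by linarith)
    have hs2 : (s : ℂ) ^ 2 = 1 := by
      rcases h.1 with h1 | h1 <;> rw [h1] <;> norm_num
    refine ⟨?_, ?_⟩
    · have h1 : DifferentiableOn ℂ (fun z => Complex.sqrt (brC c v z - (c : ℂ))) (Dc p q) := by
        intro z hzz
        have h2 : DifferentiableAt ℂ Complex.sqrt (brC c v z - (c : ℂ)) :=
          Complex.differentiableAt_sqrt (Complex.mem_slitPlane_iff.2 (Or.inl (hre z hzz)))
        exact h2.comp_differentiableWithinAt z ((hd z hzz).sub_const _)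
      exact h1.const_mul (s : ℂ)
    · intro z hzz
      refine ⟨?_, ?_⟩
      · have hu := hdisc z hzz
        show (s : ℂ) * Complex.sqrt (brC c v z - (c : ℂ)) ∈
          Dc (min (s * Real.sqrt (br c v p - c)) (s * Real.sqrt (br c v q - c)))
            (max (s * Real.sqrt (br c v p - c)) (s * Real.sqrt (br c v q - c)))
        rcases lt_or_gt_of_ne hne with h1 | h1
        · have eA : A = br c v p := by rw [hA, min_eq_left h1.le]
          have eB : B = br c v q := by rw [hB, max_eq_right h1.le]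
          rw [eA, eB] at hu hlt
          rcases h.1 with h2 | h2
          · rw [h2, one_mul, one_mul, min_eq_left hlt.le, max_eq_right hlt.le]
            simpa using hu
          · rw [h2, neg_one_mul, neg_one_mul, min_eq_right (by linarith),
              max_eq_left (by linarith)]
            simpa using DiscBr_neg hlt hu
        · have eA : A = br c v q := by rw [hA, min_eq_right h1.le]
          have eB : B = br c v p := by rw [hB, max_eq_left h1.le]
          rw [eA, eB] at hu hlt
          rcases h.1 with h2 | h2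
          · rw [h2, one_mul, one_mul, min_eq_right hlt.le, max_eq_left hlt.le]
            simpa using hu
          · rw [h2, neg_one_mul, neg_one_mul, min_eq_left (by linarith),
              max_eq_right (by linarith)]
            simpa using DiscBr_neg hlt hu
      · have h1 : fc (c : ℂ) (brC c (s :: v) z) = brC c v z := by
          simp only [fc, brC, mul_pow, hs2, DiscBr_sqrt_sq]
          ring
        rw [List.length_cons, Function.iterate_succ_apply, h1]
        exact (hz z hzz).2

end JC
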