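import Pool.Agent.Lib.JC.Core

/-!
# JC.DiskDouble : the double cover of a disc branched at one point is a disc

`g` holomorphic and injective on `V = ball 0 R`, `y0 ∈ V`, `U = {z | z^2 + g y0 ∈ g '' V}`. Then `IsDisk U`.

Proof. Let `a = y0 / R`, `‖a‖ < 1`, `m s = R (s + a) / (1 + conj a * s)`: a bijection `ball 0 1 → V`, holomorphic,
`m 0 = y0` (inverse `v ↦ (v/R - a)/(1 - conj a v / R)`). `k0 v = g (m v) - g y0` is holomorphic on the unit ball,
with a simple zero at `0` and no other zero (injectivity; injective holomorphic functions have nonzero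
derivative: if Mathlib has it use it, otherwise: it is enough to use that `k v := dslope k0 0 v` is
continuous and nonzero at `0`; nonvanishing of `deriv k0 0` for an injective holomorphic map:
`AnalyticAt` + open mapping, or `deriv_ne_zero_of_injOn`-type lemmas; look in
`Mathlib/Analysis/Complex/RiemannMapping.lean`, `OpenMapping.lean`, and `AnalyticAt.eventually_eq...`. A direct
proof: if `k0` has a zero of order `d ≥ 2` at `0` then near `0` `k0 = v^d u(v)`, `u(0) ≠ 0`, `k0 = (v u^(1/d))^d` and
`v u^(1/d)` is locally invertible (inverse function theorem), so `k0` takes small values `d` times.)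
So `k0 v = v * k v` with `k` holomorphic and zero-free on the unit ball; the ball is simply connected, so
`k = q ^ 2` with `q` holomorphic and zero-free (`BranchLogRoot.lean`: `exists_continuousOn_pow_eq`; continuity
plus local invertibility gives holomorphy; or `k = exp L`, `q = exp (L/2)`).
Define `Z s = s * q (s ^ 2)` on `ball 0 1`. Then `Z s ^ 2 = s^2 k(s^2) = g (m (s^2)) - g y0`, so `Z s ∈ U`.
* injective: `Z s = Z t` gives `g (m (s^2)) = g (m (t^2))`, `s^2 = t^2`, `q` equal and nonzero, `s = t`.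
* onto `U`: `z ∈ U`: `z^2 + g y0 = g v'`, `v' = m v`, `v = s^2` for some `s ∈ ball 0 1`; `Z s ^ 2 = z^2`, so
 `z = Z s` or `z = -Z s = Z (-s)`.
* `Z` is continuous and open on the ball (injective holomorphic: open mapping theorem
 `AnalyticOnNhd.is_constant_or_isOpen`), so `ball 0 1 ≃ₜ U`; in particular `U` is open.
If `R ≤ 0` the ball is empty; `y0 ∈ ball 0 R` excludes it.
-/

open Set Filter Topology

namespace JC

theorem isDisk_ball {a : ℂ} {R : ℝ} (hR : 0 < R) : IsDisk (Metric.ball a R) := by
  refine ⟨Metric.isOpen_ball, ⟨?_⟩⟩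
  have hRc : (R : ℂ) ≠ 0 := by exact_mod_cast hR.ne'
  exact
  { toFun := fun z => ⟨((z : ℂ) - a) / R, by
      have h := z.2
      rw [mem_ball_iff_norm] at h
      rw [mem_ball_zero_iff, norm_div, Complex.norm_real, Real.norm_of_nonneg hR.le,
        div_lt_one hR]
      exact h⟩
    invFun := fun w => ⟨a + R * (w : ℂ), by
      have h := w.2
      rw [mem_ball_zero_iff] at h
      rw [mem_ball_iff_norm, add_sub_cancel_left, norm_mul, Complex.norm_real,
        Real.norm_of_nonneg hR.le]
      nlinarith⟩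
    left_inv := fun z => by
      apply Subtype.ext
      simp only
      field_simp
      ring
    right_inv := fun w => by
      apply Subtype.ext
      simp only
      field_simp
      ring
    continuous_toFun := by
      apply Continuous.subtype_mk
      fun_prop
    continuous_invFun := by
      apply Continuous.subtype_mk
      fun_prop }

theorem deriv_ne_zero_of_inj {k : ℂ → ℂ} {U : Set ℂ} (hU : U ∈ 𝓝 (0:ℂ)) (hk : AnalyticAt ℂ k 0)
    (inj : InjOn k U) (h0 : k 0 = 0) : deriv k 0 ≠ 0 := by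
  have h0U : (0:ℂ) ∈ U := mem_of_mem_nhds hU
  have hne : ¬ ∀ᶠ z in 𝓝 (0:ℂ), k z = 0 := by
    intro h
    have h2 : ∀ᶠ z in 𝓝 (0:ℂ), z ∈ U ∧ k z = 0 := by
      filter_upwards [hU, h] with z hz1 hz2 using ⟨hz1, hz2⟩
    obtain ⟨ε, hε, hball⟩ := Metric.eventually_nhds_iff_ball.1 h2
    have hm : ((ε / 2 : ℝ) : ℂ) ∈ Metric.ball (0:ℂ) ε := by
      rw [mem_ball_zero_iff, Complex.norm_real, Real.norm_of_nonneg (by positivity)]
      linarith
    obtain ⟨h3, h4⟩ := hball _ hm
    have h5 := inj h3 h0U (by rw [h4, h0])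
    have h6 : (ε / 2 : ℝ) = 0 := by exact_mod_cast h5
    linarith
  obtain ⟨n, u, hu, hu0, hku⟩ := hk.exists_eventuallyEq_pow_smul_nonzero_iff.2 hne
  simp only [sub_zero, smul_eq_mul] at hku
  rcases Nat.lt_or_ge n 2 with hn | hn
  · interval_cases n
    · exfalso
      have := hku.self_of_nhds
      rw [h0] at this
      simp at this
      exact hu0 this.symm
    · have h1 : HasDerivAt (fun z => z ^ 1 * u z) (u 0) 0 := by
        have h2 := ((hasDerivAt_id (0:ℂ)).mul hu.differentiableAt.hasDerivAt)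
        have h3 : (fun z => z ^ 1 * u z) = id * u := by
          funext z
          simp
        rw [h3]
        simpa using h2
      have h3 : HasDerivAt k (u 0) 0 := h1.congr_of_eventuallyEq hku
      rw [h3.deriv]
      exact hu0
  · exfalso
    have hn0 : n ≠ 0 := by omega
    have hnc : (n : ℂ) ≠ 0 := by exact_mod_cast hn0
    obtain ⟨c, hc⟩ := IsAlgClosed.exists_pow_nat_eq (u 0) (Nat.pos_of_ne_zero hn0)
    have hc0 : c ≠ 0 := by
      rintro rfl
      rw [zero_pow hn0] at hc
      exact hu0 hc.symm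
    set q : ℂ → ℂ := fun z => c * Complex.exp (Complex.log (u z / u 0) / n) with hqdef
    have hq0 : q 0 = c := by
      simp [hqdef, div_self hu0]
    have hqa : AnalyticAt ℂ q 0 := by
      have h1 : AnalyticAt ℂ (fun z => u z / u 0) 0 := hu.div analyticAt_const hu0
      have h2 : AnalyticAt ℂ (fun z => Complex.log (u z / u 0)) 0 := by
        apply h1.clog
        rw [div_self hu0]
        exact Complex.one_mem_slitPlane
      have h3 : AnalyticAt ℂ (fun z => Complex.log (u z / u 0) / n) 0 :=
        h2.div analyticAt_const hnc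
      exact analyticAt_const.mul h3.cexp
    have hune : ∀ᶠ z in 𝓝 (0:ℂ), u z ≠ 0 := hu.continuousAt.eventually_ne hu0
    have hqn : ∀ᶠ z in 𝓝 (0:ℂ), q z ^ n = u z := by
      filter_upwards [hune] with z hz
      rw [hqdef]
      simp only
      rw [mul_pow, ← Complex.exp_nat_mul, mul_div_cancel₀ _ hnc, Complex.exp_log
        (div_ne_zero hz hu0), hc]
      field_simp
    have hpd : HasStrictDerivAt (fun z => z * q z) c 0 := by
      have h2 := (hasStrictDerivAt_id (0:ℂ)).mul hqa.hasStrictDerivAt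
      have h3 : (fun z => z * q z) = id * q := by
        funext z
        simp
      rw [h3]
      simpa [hq0] using h2
    have hmap := hpd.map_nhds_eq hc0
    have hS : {z | z ∈ U ∧ k z = (z * q z) ^ n} ∈ 𝓝 (0:ℂ) := by
      filter_upwards [hU, hku, hqn] with z h1 h2 h3
      refine ⟨h1, ?_⟩
      rw [h2, mul_pow, h3]
    have hI : (fun z => z * q z) '' {z | z ∈ U ∧ k z = (z * q z) ^ n} ∈ 𝓝 (0:ℂ) := by
      have := image_mem_map (m := fun z => z * q z) hS
      rw [hmap] at this
      simpa using this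
    obtain ⟨ε, hε, hball⟩ := Metric.mem_nhds_iff.1 hI
    set ζ : ℂ := Complex.exp (2 * Real.pi * Complex.I / n) with hζ
    have hprim : IsPrimitiveRoot ζ n := Complex.isPrimitiveRoot_exp n hn0
    have hζ1 : ζ ≠ 1 := hprim.ne_one (by omega)
    have hζn : ‖ζ‖ = 1 := hprim.norm'_eq_one hn0
    have hw1 : ((ε / 2 : ℝ) : ℂ) ∈ Metric.ball (0:ℂ) ε := by
      rw [mem_ball_zero_iff, Complex.norm_real, Real.norm_of_nonneg (by positivity)]
      linarith
    have hw2 : ζ * ((ε / 2 : ℝ) : ℂ) ∈ Metric.ball (0:ℂ) ε := by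
      rw [mem_ball_zero_iff, norm_mul, hζn, one_mul, Complex.norm_real,
        Real.norm_of_nonneg (by positivity)]
      linarith
    obtain ⟨z1, ⟨hz1U, hz1⟩, hz1'⟩ := hball hw1
    obtain ⟨z2, ⟨hz2U, hz2⟩, hz2'⟩ := hball hw2
    simp only at hz1' hz2'
    rw [hz1'] at hz1
    rw [hz2', mul_pow, hprim.pow_eq_one, one_mul] at hz2
    have h12 := inj hz1U hz2U (hz1.trans hz2.symm)
    rw [h12, hz2'] at hz1'
    have hwne : ((ε / 2 : ℝ) : ℂ) ≠ 0 := by
      have : (ε / 2 : ℝ) ≠ 0 := by positivity
      exact_mod_cast this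
    exact hζ1 (mul_right_cancel₀ hwne (hz1'.trans (one_mul _).symm))

theorem disk_double_one {g : ℂ → ℂ} (hg : DifferentiableOn ℂ g (Metric.ball 0 1))
    (inj : InjOn g (Metric.ball 0 1)) :
    IsDisk {z : ℂ | z ^ 2 + g 0 ∈ g '' Metric.ball 0 1} := by
  set B := Metric.ball (0:ℂ) 1 with hB
  have hBo : IsOpen B := Metric.isOpen_ball
  have h0B : (0:ℂ) ∈ B := by simp [hB]
  have hBn : B ∈ 𝓝 (0:ℂ) := hBo.mem_nhds h0B
  set k0 : ℂ → ℂ := fun v => g v - g 0 with hk0def
  have hk0 : DifferentiableOn ℂ k0 B := hg.sub_const _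
  have hk0inj : InjOn k0 B := by
    intro x hx y hy hxy
    exact inj hx hy (by simpa [hk0def] using hxy)
  have hk00 : k0 0 = 0 := by simp [hk0def]
  set k : ℂ → ℂ := dslope k0 0 with hkdef
  have hk : DifferentiableOn ℂ k B := (Complex.differentiableOn_dslope hBn).2 hk0
  have hkv : ∀ v, v * k v = k0 v := by
    intro v
    have := sub_smul_dslope k0 0 v
    simpa [hk00] using this
  have hkne : ∀ v ∈ B, k v ≠ 0 := by
    intro v hv hkv0
    by_cases hv0 : v = 0
    · rw [hv0, hkdef, dslope_same] at hkv0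
      exact deriv_ne_zero_of_inj hBn (hk0.analyticAt hBn) hk0inj hk00 hkv0
    · have h1 := hkv v
      rw [hkv0, mul_zero] at h1
      exact hv0 (hk0inj hv h0B (h1.symm.trans hk00.symm))
  have hsc : IsSimplyConnected B := by
    have hcs : ContractibleSpace B := (convex_ball (0:ℂ) 1).contractibleSpace ⟨0, h0B⟩
    exact SimplyConnectedSpace.ofContractible B
  obtain ⟨q, hqc, hq⟩ := Complex.exists_continuousOn_pow_eq hsc hBo hk.continuousOn
    (by rintro ⟨v, hv, h⟩; exact hkne v hv h) two_ne_zero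
  have hqne : ∀ v ∈ B, q v ≠ 0 := by
    intro v hv h
    apply hkne v hv
    rw [← hq v, h]
    simp
  have hqd : DifferentiableOn ℂ q B := by
    intro v hv
    have h1 : HasDerivAt k (deriv k v) v :=
      ((hk v hv).differentiableAt (hBo.mem_nhds hv)).hasDerivAt
    have hqcv : ContinuousAt q v := hqc.continuousAt (hBo.mem_nhds hv)
    have hqv := hqne v hv
    have hsum : q v + q v ≠ 0 := by
      rw [← two_mul]
      exact mul_ne_zero two_ne_zero hqv
    have hadd : Tendsto (fun w => q w + q v) (𝓝 v) (𝓝 (q v + q v)) :=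
      hqcv.add tendsto_const_nhds
    have hd : HasDerivAt q (deriv k v / (q v + q v)) v := by
      rw [hasDerivAt_iff_tendsto_slope]
      have h2 : Tendsto (fun w => slope k v w / (q w + q v)) (𝓝[≠] v)
          (𝓝 (deriv k v / (q v + q v))) :=
        (hasDerivAt_iff_tendsto_slope.1 h1).div (hadd.mono_left nhdsWithin_le_nhds) hsum
      refine h2.congr' ?_
      have h3 : ∀ᶠ w in 𝓝[≠] v, q w + q v ≠ 0 :=
        (hadd.eventually_ne hsum).filter_mono nhdsWithin_le_nhds
      filter_upwards [h3] with w hw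
      rw [slope_def_field, slope_def_field, ← hq w, ← hq v]
      rw [show q w ^ 2 - q v ^ 2 = (q w - q v) * (q w + q v) by ring]
      rw [div_right_comm, mul_div_assoc, div_self hw, mul_one]
    exact hd.differentiableAt.differentiableWithinAt
  set Z : ℂ → ℂ := fun s => s * q (s ^ 2) with hZdef
  have hsq : ∀ s ∈ B, s ^ 2 ∈ B := by
    intro s hs
    rw [hB, mem_ball_zero_iff] at hs ⊢
    rw [norm_pow]
    nlinarith [norm_nonneg s]
  have hZsq : ∀ s, Z s ^ 2 = g (s ^ 2) - g 0 := by
    intro s
    simp only [hZdef]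
    rw [mul_pow, hq, hkv]
  have hZd : DifferentiableOn ℂ Z B := by
    have h1 : DifferentiableOn ℂ (fun s : ℂ => q (s ^ 2)) B :=
      hqd.comp (by fun_prop) hsq
    exact differentiableOn_id.mul h1
  have hZinj : InjOn Z B := by
    intro s hs t ht hst
    have h1 : s ^ 2 = t ^ 2 := by
      apply inj (hsq s hs) (hsq t ht)
      have := congrArg (· ^ 2) hst
      simp only [hZsq] at this
      linear_combination this
    have h2 : s * q (s ^ 2) = t * q (s ^ 2) := by
      have := hst
      simp only [hZdef] at this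
      rw [← h1] at this
      exact this
    exact mul_right_cancel₀ (hqne _ (hsq s hs)) h2
  have hZneg : ∀ s, Z (-s) = - Z s := by
    intro s
    simp only [hZdef]
    rw [neg_sq]
    ring
  have hZim : Z '' B = {z : ℂ | z ^ 2 + g 0 ∈ g '' B} := by
    ext z
    constructor
    · rintro ⟨s, hs, rfl⟩
      exact ⟨s ^ 2, hsq s hs, by rw [hZsq]; ring⟩
    · rintro ⟨v, hv, hvz⟩
      obtain ⟨s, hs⟩ := IsAlgClosed.exists_pow_nat_eq v (n := 2) (by norm_num)
      have hsB : s ∈ B := by
        rw [hB, mem_ball_zero_iff] at hv ⊢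
        rw [← hs, norm_pow] at hv
        nlinarith [norm_nonneg s]
      have h2 : Z s ^ 2 = z ^ 2 := by
        rw [hZsq, hs, hvz]
        ring
      rcases sq_eq_sq_iff_eq_or_eq_neg.1 h2 with h | h
      · exact ⟨s, hsB, h⟩
      · refine ⟨-s, ?_, ?_⟩
        · rw [hB, mem_ball_zero_iff, norm_neg] at *
          exact hsB
        · rw [hZneg, h, neg_neg]
  have hopen : ∀ s ⊆ B, IsOpen s → IsOpen (Z '' s) := by
    rcases (hZd.analyticOnNhd hBo).is_constant_or_isOpen
      (convex_ball (0:ℂ) 1).isPreconnected with h | h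
    · exfalso
      obtain ⟨w, hw⟩ := h
      have hhalf : (1 / 2 : ℂ) ∈ B := by
        rw [hB, mem_ball_zero_iff]
        norm_num
      have := hZinj hhalf h0B ((hw _ hhalf).trans (hw _ h0B).symm)
      norm_num at this
    · exact h
  have hUo : IsOpen {z : ℂ | z ^ 2 + g 0 ∈ g '' B} := by
    rw [← hZim]
    exact hopen B Subset.rfl hBo
  refine ⟨hUo, ?_⟩
  have hemb : IsOpenEmbedding (fun s : B => Z s) := by
    apply IsOpenEmbedding.of_continuous_injective_isOpenMap
    · exact continuousOn_iff_continuous_domRestrict.1 hZd.continuousOn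
    · intro s t hst
      exact Subtype.ext (hZinj s.2 t.2 hst)
    · intro s hs
      have h1 : (fun s : B => Z s) '' s = Z '' (Subtype.val '' s) := by
        rw [image_image]
      rw [h1]
      apply hopen
      · rintro _ ⟨x, -, rfl⟩
        exact x.2
      · exact hBo.isOpenMap_subtype_val s hs
  have hrange : range (fun s : B => Z s) = {z : ℂ | z ^ 2 + g 0 ∈ g '' B} := by
    rw [← hZim]
    ext z
    constructor
    · rintro ⟨s, rfl⟩
      exact ⟨s, s.2, rfl⟩
    · rintro ⟨s, hs, rfl⟩
      exact ⟨⟨s, hs⟩, rfl⟩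
  exact ⟨((hemb.isEmbedding.toHomeomorph).trans (Homeomorph.setCongr hrange)).symm⟩

theorem disk_double {R : ℝ} {g : ℂ → ℂ} (hg : DifferentiableOn ℂ g (Metric.ball 0 R))
    (inj : InjOn g (Metric.ball 0 R)) {y0 : ℂ} (hy0 : y0 ∈ Metric.ball (0 : ℂ) R) :
    IsDisk {z : ℂ | z ^ 2 + g y0 ∈ g '' Metric.ball 0 R} := by
  have hR : 0 < R := lt_of_le_of_lt dist_nonneg (Metric.mem_ball.1 hy0)
  have hRc : (R : ℂ) ≠ 0 := by exact_mod_cast hR.ne'
  have ha : ∃ a : ℂ, ‖a‖ < 1 ∧ y0 = R * a := by
    refine ⟨y0 / R, ?_, by field_simp⟩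
    rw [mem_ball_zero_iff] at hy0
    rw [norm_div, Complex.norm_real, Real.norm_of_nonneg hR.le, div_lt_one hR]
    exact hy0
  obtain ⟨a, ha1, rfl⟩ := ha
  set ca : ℂ := (starRingEnd ℂ) a with hca
  have hcan : ‖ca‖ = ‖a‖ := by rw [hca, RCLike.norm_conj]
  have hden : ∀ s : ℂ, ‖s‖ < 1 → 1 + ca * s ≠ 0 := by
    intro s hs h
    have h1 : ca * s = -1 := by linear_combination h
    have h2 : ‖ca * s‖ = 1 := by rw [h1]; simp
    rw [norm_mul, hcan] at h2
    nlinarith [norm_nonneg a, norm_nonneg s]
  have hden2 : ∀ s : ℂ, ‖s‖ < 1 → 1 - ca * s ≠ 0 := by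
    intro s hs h
    have h1 : ca * s = 1 := by linear_combination -h
    have h2 : ‖ca * s‖ = 1 := by rw [h1]; simp
    rw [norm_mul, hcan] at h2
    nlinarith [norm_nonneg a, norm_nonneg s]
  -- Schwarz-Pick identity
  have key : ∀ s : ℂ, ‖s‖ < 1 → ‖s + a‖ < ‖1 + ca * s‖ := by
    intro s hs
    have h1 : ‖s + a‖ ^ 2 < ‖1 + ca * s‖ ^ 2 := by
      rw [← Complex.normSq_eq_norm_sq, ← Complex.normSq_eq_norm_sq, Complex.normSq_apply,
        Complex.normSq_apply]
      have hs2 : s.re ^ 2 + s.im ^ 2 < 1 := by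
        have := Complex.normSq_eq_norm_sq s
        rw [Complex.normSq_apply] at this
        nlinarith [norm_nonneg s]
      have ha2 : a.re ^ 2 + a.im ^ 2 < 1 := by
        have := Complex.normSq_eq_norm_sq a
        rw [Complex.normSq_apply] at this
        nlinarith [norm_nonneg a]
      simp only [hca, Complex.add_re, Complex.add_im, Complex.mul_re, Complex.mul_im,
        Complex.one_re, Complex.one_im, Complex.conj_re, Complex.conj_im]
      nlinarith [mul_pos (sub_pos.2 hs2) (sub_pos.2 ha2)]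
    exact lt_of_pow_lt_pow_left₀ 2 (norm_nonneg _) h1
  have key2 : ∀ s : ℂ, ‖s‖ < 1 → ‖s - a‖ < ‖1 - ca * s‖ := by
    intro s hs
    have := key (-s) (by rwa [norm_neg])
    rw [show -s + a = -(s - a) by ring, norm_neg, show 1 + ca * -s = 1 - ca * s by ring] at this
    exact this
  set m : ℂ → ℂ := fun s => R * ((s + a) / (1 + ca * s)) with hm
  have hmaps : MapsTo m (Metric.ball 0 1) (Metric.ball 0 R) := by
    intro s hs
    rw [mem_ball_zero_iff] at hs ⊢
    simp only [hm]
    rw [norm_mul, norm_div, Complex.norm_real, Real.norm_of_nonneg hR.le]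
    have h1 := key s hs
    have h2 : 0 < ‖1 + ca * s‖ := norm_pos_iff.2 (hden s hs)
    have h3 : ‖s + a‖ / ‖1 + ca * s‖ < 1 := (div_lt_one h2).2 h1
    nlinarith
  have hm0 : m 0 = R * a := by simp [hm]
  have hmd : DifferentiableOn ℂ m (Metric.ball 0 1) := by
    intro s hs
    rw [mem_ball_zero_iff] at hs
    apply DifferentiableAt.differentiableWithinAt
    have := hden s hs
    simp only [hm]
    fun_prop (disch := assumption)
  have haa : ∀ v : ℂ, ‖v‖ < 1 → 1 - ca * a ≠ 0 := fun v _ => hden2 a ha1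
  have hminj : InjOn m (Metric.ball 0 1) := by
    intro s hs t ht hst
    rw [mem_ball_zero_iff] at hs ht
    simp only [hm] at hst
    have h1 := mul_left_cancel₀ hRc hst
    rw [div_eq_div_iff (hden s hs) (hden t ht)] at h1
    have h2 : (s - t) * (1 - ca * a) = 0 := by linear_combination h1
    rcases mul_eq_zero.1 h2 with h | h
    · exact sub_eq_zero.1 h
    · exact absurd h (hden2 a ha1)
  have hmsurj : SurjOn m (Metric.ball 0 1) (Metric.ball 0 R) := by
    intro v hv
    rw [mem_ball_zero_iff] at hv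
    have hv1 : ‖v / R‖ < 1 := by
      rw [norm_div, Complex.norm_real, Real.norm_of_nonneg hR.le, div_lt_one hR]
      exact hv
    set w := v / R with hw
    refine ⟨(w - a) / (1 - ca * w), ?_, ?_⟩
    · rw [mem_ball_zero_iff, norm_div, div_lt_one (norm_pos_iff.2 (hden2 w hv1))]
      exact key2 w hv1
    · have h1 := hden2 w hv1
      have h2 := hden2 a ha1
      have h3 : 1 + ca * ((w - a) / (1 - ca * w)) = (1 - ca * a) / (1 - ca * w) := by
        field_simp
        ring
      have h4 : (w - a) / (1 - ca * w) + a = w * (1 - ca * a) / (1 - ca * w) := by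
        rw [eq_div_iff h1, add_mul, div_mul_cancel₀ _ h1]
        ring
      simp only [hm]
      rw [h3, h4, div_div_div_cancel_right₀ h1, mul_div_assoc, div_self h2, mul_one, hw,
        mul_div_cancel₀ _ hRc]
  have him : (g ∘ m) '' Metric.ball 0 1 = g '' Metric.ball 0 R := by
    rw [image_comp]
    congr 1
    exact Subset.antisymm hmaps.image_subset hmsurj
  have := disk_double_one (g := g ∘ m) (hg.comp hmd hmaps) (inj.comp hminj hmaps)
  rw [him] at this
  simpa [hm0] using this

end JC
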