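import Pool.Agent.Lib.JC.StFix
import Pool.Agent.Lib.JC.StOrbit

/-!
# JC.NearT : constants of Move 1 near the tangency parameter

Let `c1 = S.ct T`, `k = -y0`. At `c1`: `0 < k ≤ R` and `h k = k`, so `k < R` (`h_lt`). `h_fix` with `p = 0` (`y0 < 0`, `h 0 > 0` by `h_pos`):
the unique fixed point `β` of `h` on `[0, R]` is `β = k` (if `k < β` then `k < h k`, if `k > β` then `h k < k`).
Choose `R'` with `h_{c1} 0 < R' < β` (`h 0 < h β = β`, strictly increasing on `[y0, R]`, `0 < β`). Then `R' < h R'`,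
`h R' < h β = k`, `y0 = -k < -R'`.
`v_j = h^[j] (-R')`: `h (-R') ∈ (0, β)` (`-R' ∈ (y0, β)`), so `v_j → β` (`h_fix`, last clause, applied to `h (-R')`).
Choose `B' ∈ (β, R)` and `k0` such that at `c1`: `ψ(-v_{k0}) - ψ(-B') < (h (-(h R')))^2` (right side positive because
`-(h R') > -k = y0`; the left side tends to `ψ(-β) - ψ(-β) = 0` as `k0 → ∞`, `B' → β`); also `h B' < B'`.
All the strict inequalities at `c1`: `y0 < -R'`, `h 0 < R'`, `R' < h R'`, `h R' < -y0`, `h B' < B'`,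
`ψ(-v_{k0}) - ψ(-B') < (h (-(h R')))^2` are between continuous functions of `c`, so they hold for `c = S.ct t`,
`t ∈ [T, t'']`, for some `t'' ∈ (T, t']`.
For such `c` and `j ≥ k0`: (a) `-R' ≤ h (-R')` (`h ≥ 0`), `R' ≤ h R'`, `h` monotone on `[-R, R]`, so `v_j` and
`w_j = h^[j] R'` are nondecreasing in `j`, `v_{j+1} ≥ v_{k0}`; (b) `w_j ≤ B'` for all `j`: `R' ≤ B'` and `h B' ≤ B'`, `h` monotone.
So `ψ(-v_{j+1}) - ψ(-w_{j+1}) ≤ ψ(-v_{k0}) - ψ(-B') < (h (-(h R')))^2` (`ψ` increasing on `[-R, R]`).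
-/

open Set Filter Topology

namespace JC

namespace NearTAux

theorem iter_cont (S : PreSt) (x : ℝ) (k : ℕ) : Continuous fun c : ℝ => (S.h c)^[k] x := by
  induction k with
  | zero => exact continuous_const
  | succ k ih =>
    simp only [Function.iterate_succ_apply']
    exact S.h_cont.comp (continuous_id.prodMk ih)

theorem iter_mono {S : PreSt} {c : ℝ} (hc : c ∈ S.seg) {x : ℝ} (hx : x ∈ Icc (-S.R) S.R)
    (h0 : x ≤ S.h c x) (k : ℕ) : (S.h c)^[k] x ≤ (S.h c)^[k + 1] x := by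
  induction k with
  | zero => simpa using h0
  | succ k ih =>
    rw [Function.iterate_succ_apply', Function.iterate_succ_apply' (S.h c) (k + 1)]
    exact PreSt.h_monotone hc (PreSt.h_iter_maps hc hx k) (PreSt.h_iter_maps hc hx (k + 1)) ih

theorem iter_mono' {S : PreSt} {c : ℝ} (hc : c ∈ S.seg) {x : ℝ} (hx : x ∈ Icc (-S.R) S.R)
    (h0 : x ≤ S.h c x) {k l : ℕ} (hkl : k ≤ l) : (S.h c)^[k] x ≤ (S.h c)^[l] x := by
  induction l, hkl using Nat.le_induction with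
  | base => exact le_rfl
  | succ l _ ih => exact ih.trans (iter_mono hc hx h0 l)

theorem iter_le {S : PreSt} {c : ℝ} (hc : c ∈ S.seg) {x B : ℝ} (hx : x ∈ Icc (-S.R) S.R)
    (hB : B ∈ Icc (-S.R) S.R) (hxB : x ≤ B) (h0 : S.h c B ≤ B) (k : ℕ) :
    (S.h c)^[k] x ≤ B := by
  induction k with
  | zero => simpa using hxB
  | succ k ih =>
    rw [Function.iterate_succ_apply']
    exact (PreSt.h_monotone hc (PreSt.h_iter_maps hc hx k) hB ih).trans h0

end NearTAux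

open NearTAux

theorem nearT (S : PreSt) {T t' : ℝ} (hT0 : 0 ≤ T) (hT : T < t') (ht' : t' ≤ 1)
    (hy : ∀ t ∈ Icc T t', S.y0 (S.ct t) < 0)
    (hf : S.h (S.ct T) (-S.y0 (S.ct T)) = -S.y0 (S.ct T)) :
    ∃ (R' : ℝ) (k0 : ℕ) (t'' : ℝ), 0 < R' ∧ T < t'' ∧ t'' ≤ t' ∧ ∀ t ∈ Icc T t'',
      S.y0 (S.ct t) < -R' ∧ S.h (S.ct t) 0 < R' ∧ R' < S.h (S.ct t) R' ∧
      S.h (S.ct t) R' < -S.y0 (S.ct t) ∧ ∀ j ≥ k0,
        S.psi (S.ct t) (-(S.h (S.ct t))^[j + 1] (-R')) -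
          S.psi (S.ct t) (-(S.h (S.ct t))^[j + 1] R') < S.h (S.ct t) (-S.h (S.ct t) R') ^ 2 := by
  have hR := S.hR
  have hc1 : S.ct T ∈ S.seg := S.ct_mem ⟨hT0, by linarith⟩
  have hy1 : S.y0 (S.ct T) < 0 := hy T ⟨le_rfl, hT.le⟩
  have hy1m := PreSt.y0_mem hc1
  have hk0 : 0 < -S.y0 (S.ct T) := by linarith
  have hkR : -S.y0 (S.ct T) ≤ S.R := by linarith [hy1m.1]
  have hkR' : -S.y0 (S.ct T) < S.R := by
    rw [← hf]
    exact PreSt.h_lt hc1 ⟨by linarith, hkR⟩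
  have h0pos : 0 < S.h (S.ct T) 0 := PreSt.h_pos hc1 ⟨hy1, hR.le⟩
  obtain ⟨β, hβ, hββ, hlt, hgt, hconv⟩ := PreSt.h_fix hc1 hy1 hR h0pos
  have hkβ : -S.y0 (S.ct T) = β := by
    rcases lt_trichotomy (-S.y0 (S.ct T)) β with h | h | h
    · have := hlt _ ⟨hk0.le, hkR⟩ h
      rw [hf] at this
      exact absurd this (lt_irrefl _)
    · exact h
    · have := hgt _ ⟨hk0.le, hkR⟩ h
      rw [hf] at this
      exact absurd this (lt_irrefl _)
  have hmono := PreSt.h_mono hc1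
  have hmon2 := PreSt.h_monotone hc1
  have h0β : S.h (S.ct T) 0 < β := by
    have := hmono (a := 0) (b := β) ⟨hy1.le, hR.le⟩ ⟨by linarith [hβ.1], hβ.2.le⟩ hβ.1
    rwa [hββ] at this
  -- choice of R'
  obtain ⟨R', hR'1, hR'2⟩ := exists_between h0β
  have hR'0 : 0 < R' := h0pos.trans hR'1
  have hR'R : R' < S.R := hR'2.trans hβ.2
  have c_1 : S.y0 (S.ct T) < -R' := by linarith
  have c_3 : R' < S.h (S.ct T) R' := hlt R' ⟨hR'0.le, hR'R.le⟩ hR'2
  have c_4 : S.h (S.ct T) R' < -S.y0 (S.ct T) := by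
    have := hmono (a := R') (b := β) ⟨by linarith, hR'R.le⟩ ⟨by linarith [hβ.1], hβ.2.le⟩ hR'2
    rwa [hββ, ← hkβ] at this
  -- convergence
  have hvin : S.h (S.ct T) (-R') ∈ Icc 0 S.R := by
    refine ⟨PreSt.h_nonneg _ _ _, (PreSt.h_lt hc1 ⟨by linarith, by linarith⟩).le⟩
  have hv1 := hconv _ hvin
  have hv : Tendsto (fun l => (S.h (S.ct T))^[l] (-R')) atTop (𝓝 β) := by
    rw [← tendsto_add_atTop_iff_nat 1]
    simpa only [Function.iterate_succ_apply] using hv1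
  have hrhs : 0 < S.h (S.ct T) (-S.h (S.ct T) R') ^ 2 := by
    have h1 : 0 < S.h (S.ct T) (-S.h (S.ct T) R') := by
      refine PreSt.h_pos hc1 ⟨by linarith, ?_⟩
      linarith [PreSt.h_nonneg S (S.ct T) R']
    positivity
  have hcF : Continuous fun p : ℝ × ℝ => S.psi (S.ct T) (-p.1) - S.psi (S.ct T) (-p.2) := by
    have h1 : Continuous fun p : ℝ × ℝ => S.psi (S.ct T) (-p.1) :=
      S.psi_cont.comp (continuous_const.prodMk continuous_fst.neg)
    have h2 : Continuous fun p : ℝ × ℝ => S.psi (S.ct T) (-p.2) :=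
      S.psi_cont.comp (continuous_const.prodMk continuous_snd.neg)
    exact h1.sub h2
  have hevF : ∀ᶠ p : ℝ × ℝ in 𝓝 (β, β), S.psi (S.ct T) (-p.1) - S.psi (S.ct T) (-p.2) <
      S.h (S.ct T) (-S.h (S.ct T) R') ^ 2 := by
    refine hcF.continuousAt.eventually_lt continuousAt_const ?_
    simpa using hrhs
  rw [nhds_prod_eq] at hevF
  obtain ⟨pa, hpa, pb, hpb, hab⟩ := Filter.eventually_prod_iff.mp hevF
  obtain ⟨k0, hk0v⟩ := (hv.eventually hpa).exists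
  have hBev : ∀ᶠ B in 𝓝[>] β, pb B ∧ B < S.R ∧ β < B := by
    refine (hpb.filter_mono nhdsWithin_le_nhds).and (Filter.Eventually.and ?_ ?_)
    · exact (eventually_lt_nhds hβ.2).filter_mono nhdsWithin_le_nhds
    · exact eventually_mem_nhdsWithin
  obtain ⟨B', hB1, hB2, hB3⟩ := hBev.exists
  have c_6 : S.psi (S.ct T) (-(S.h (S.ct T))^[k0] (-R')) - S.psi (S.ct T) (-B') <
      S.h (S.ct T) (-S.h (S.ct T) R') ^ 2 := hab hk0v hB1
  have c_5 : S.h (S.ct T) B' < B' := hgt B' ⟨by linarith [hβ.1], hB2.le⟩ hB3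
  -- openness
  have hct := S.ct_cont
  have k_y0 : Continuous fun t => S.y0 (S.ct t) := S.y0_cont.comp hct
  have k_h : ∀ x : ℝ, Continuous fun t => S.h (S.ct t) x := fun x =>
    S.h_cont.comp (hct.prodMk continuous_const)
  have k_hh : ∀ {u : ℝ → ℝ}, Continuous u → Continuous fun t => S.h (S.ct t) (u t) :=
    fun hu => S.h_cont.comp (hct.prodMk hu)
  have k_psi : ∀ {u : ℝ → ℝ}, Continuous u → Continuous fun t => S.psi (S.ct t) (u t) :=
    fun hu => S.psi_cont.comp (hct.prodMk hu)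
  have k_it : Continuous fun t => (S.h (S.ct t))^[k0] (-R') := (iter_cont S (-R') k0).comp hct
  have e1 : ∀ᶠ t in 𝓝 T, S.y0 (S.ct t) < -R' :=
    k_y0.continuousAt.eventually_lt continuousAt_const c_1
  have e2 : ∀ᶠ t in 𝓝 T, S.h (S.ct t) 0 < R' :=
    (k_h 0).continuousAt.eventually_lt continuousAt_const hR'1
  have e3 : ∀ᶠ t in 𝓝 T, R' < S.h (S.ct t) R' :=
    (continuousAt_const).eventually_lt (k_h R').continuousAt c_3
  have e4 : ∀ᶠ t in 𝓝 T, S.h (S.ct t) R' < -S.y0 (S.ct t) :=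
    (k_h R').continuousAt.eventually_lt k_y0.neg.continuousAt c_4
  have e5 : ∀ᶠ t in 𝓝 T, S.h (S.ct t) B' < B' :=
    (k_h B').continuousAt.eventually_lt continuousAt_const c_5
  have e6 : ∀ᶠ t in 𝓝 T, S.psi (S.ct t) (-(S.h (S.ct t))^[k0] (-R')) - S.psi (S.ct t) (-B') <
      S.h (S.ct t) (-S.h (S.ct t) R') ^ 2 := by
    have f1 : Continuous fun t => S.psi (S.ct t) (-(S.h (S.ct t))^[k0] (-R')) -
        S.psi (S.ct t) (-B') := (k_psi k_it.neg).sub (k_psi continuous_const)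
    have f2 : Continuous fun t => S.h (S.ct t) (-S.h (S.ct t) R') ^ 2 :=
      (k_hh (k_h R').neg).pow 2
    exact f1.continuousAt.eventually_lt f2.continuousAt c_6
  have hall := e1.and (e2.and (e3.and (e4.and (e5.and e6))))
  obtain ⟨δ, hδ, hball⟩ := Metric.eventually_nhds_iff.mp hall
  refine ⟨R', k0, min t' (T + δ / 2), hR'0, lt_min hT (by linarith), min_le_left _ _, ?_⟩
  intro t ht
  have ht1 : t ≤ t' := ht.2.trans (min_le_left _ _)
  have ht2 : t ≤ T + δ / 2 := ht.2.trans (min_le_right _ _)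
  obtain ⟨g1, g2, g3, g4, g5, g6⟩ := hball (y := t) (by
    rw [Real.dist_eq, abs_lt]
    constructor <;> linarith [ht.1])
  refine ⟨g1, g2, g3, g4, ?_⟩
  intro j hj
  have hc : S.ct t ∈ S.seg := S.ct_mem ⟨hT0.trans ht.1, ht1.trans ht'⟩
  have hmR' : -R' ∈ Icc (-S.R) S.R := ⟨by linarith, by linarith⟩
  have hpR' : R' ∈ Icc (-S.R) S.R := ⟨by linarith, by linarith⟩
  have hBm : B' ∈ Icc (-S.R) S.R := ⟨by linarith [hβ.1], hB2.le⟩
  have a1 : (S.h (S.ct t))^[k0] (-R') ≤ (S.h (S.ct t))^[j + 1] (-R') :=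
    iter_mono' hc hmR' (by linarith [PreSt.h_nonneg S (S.ct t) (-R')]) (by omega)
  have a2 : (S.h (S.ct t))^[j + 1] R' ≤ B' :=
    iter_le hc hpR' hBm (by linarith) g5.le (j + 1)
  have m1 := PreSt.h_iter_maps hc hmR' k0
  have m2 := PreSt.h_iter_maps hc hmR' (j + 1)
  have m3 := PreSt.h_iter_maps hc hpR' (j + 1)
  have hψ := (PreSt.psi_mono hc).monotoneOn
  have b1 : S.psi (S.ct t) (-(S.h (S.ct t))^[j + 1] (-R')) ≤
      S.psi (S.ct t) (-(S.h (S.ct t))^[k0] (-R')) :=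
    hψ ⟨by linarith [m2.2], by linarith [m2.1]⟩ ⟨by linarith [m1.2], by linarith [m1.1]⟩
      (by linarith)
  have b2 : S.psi (S.ct t) (-B') ≤ S.psi (S.ct t) (-(S.h (S.ct t))^[j + 1] R') :=
    hψ ⟨by linarith [hBm.2], by linarith [hBm.1]⟩ ⟨by linarith [m3.2], by linarith [m3.1]⟩
      (by linarith)
  linarith

end JC
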