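import Pool.Agent.Lib.JC.StOrbit

/-!
# JC.Tang : the tangency parameter of Move 1

`c(t) = S.ct t`, `k(t) = -y0(c(t))`, continuous, `k 0 = R > 0`, `k 1 = -R` (`y0_a0`, `y0_a1`). Let `t1` be the first zero of `k`
(`sInf {t ∈ [0,1] | k t ≤ 0}`), so `k > 0` on `[0, t1)` and `k t1 = 0`. `F t = h_{c(t)} (k t) - k t`, continuous.
* There is `L > 0` with `ψ_c x - ψ_c y ≥ L (x - y)` for `y ≤ x` in `[-R, R]`, `c ∈ seg`: `br_lower` for the word `τ` with `I = [-R, R]`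
 (the segment is contained in some `Icc A B`), monotonicity, and `|ε x - ε y| = |x - y|`.
* For `t < t1`: `(h (k t))^2 = ψ (k t) - c = ψ (k t) - ψ (- k t) ≥ 2 L k t`. As `t → t1` from the left `k t → 0`, so there is
 `t' < t1` with `0 < k t' < 2 L`, hence `(h (k t'))^2 > (k t')^2`, `F t' > 0`.
* `F 0 = h_{a0} R - R < 0` (`h_lt`). `T = sSup {t ∈ [0, t'] | F t ≤ 0}`: `F T = 0` and `F > 0` on `(T, t']`.
-/

open Set Filter Topology

namespace JC

namespace TangAux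

theorem last_zero {F : ℝ → ℝ} (hF : Continuous F) {a b : ℝ} (hab : a ≤ b) (h0 : F a ≤ 0)
    (h1 : 0 < F b) : ∃ T, a ≤ T ∧ T < b ∧ F T = 0 ∧ ∀ t, T < t → t ≤ b → 0 < F t := by
  set s : Set ℝ := Icc a b ∩ F ⁻¹' Iic 0 with hs
  have hcl : IsClosed s := isClosed_Icc.inter (isClosed_Iic.preimage hF)
  have hne : s.Nonempty := ⟨a, ⟨le_refl a, hab⟩, h0⟩
  have hbd : BddAbove s := ⟨b, fun x hx => hx.1.2⟩
  have hT : sSup s ∈ s := hcl.csSup_mem hne hbd
  have hle : ∀ x ∈ s, x ≤ sSup s := fun x hx => le_csSup hbd hx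
  have hFT : F (sSup s) ≤ 0 := hT.2
  have hlt : sSup s < b := by
    rcases lt_or_eq_of_le hT.1.2 with h | h
    · exact h
    · rw [h] at hFT
      linarith
  refine ⟨sSup s, hT.1.1, hlt, ?_, fun t ht htb => ?_⟩
  · have h2 : (0 : ℝ) ∈ F '' Icc (sSup s) b :=
      intermediate_value_Icc hlt.le hF.continuousOn ⟨hFT, h1.le⟩
    obtain ⟨z, hz, hz0⟩ := h2
    have h3 : z ≤ sSup s := hle z ⟨⟨hT.1.1.trans hz.1, hz.2⟩, le_of_eq hz0⟩
    have h4 : z = sSup s := le_antisymm h3 hz.1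
    rw [← h4, hz0]
  · by_contra hcon
    have h3 : t ≤ sSup s := hle t ⟨⟨hT.1.1.trans ht.le, htb⟩, not_lt.1 hcon⟩
    linarith

theorem psi_lower (S : PreSt) : ∃ L > 0, ∀ c ∈ S.seg, ∀ k : ℝ, 0 ≤ k → k ≤ S.R →
    2 * L * k ≤ S.psi c k - S.psi c (-k) := by
  obtain ⟨L, hL, h⟩ := br_lower S.τ (min S.a0 S.a1) (max S.a0 S.a1) (-S.R) S.R
  refine ⟨L, hL, fun c hc k hk0 hkR => ?_⟩
  have hk : k ∈ Icc (-S.R) S.R := ⟨by linarith, hkR⟩
  have hk' : -k ∈ Icc (-S.R) S.R := ⟨by linarith, by linarith⟩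
  have h1 := h c hc (Icc (-S.R) S.R) (le_refl _) (S.ok c hc) (S.ε * k) (S.eps_mem hk)
    (S.ε * -k) (S.eps_mem hk')
  have h2 : |S.ε * k - S.ε * -k| = 2 * k := by
    have h3 : S.ε * k - S.ε * -k = S.ε * (2 * k) := by ring
    have h4 : |S.ε| = 1 := by rcases S.hε with h | h <;> rw [h] <;> norm_num
    rw [h3, abs_mul, h4, one_mul, abs_of_nonneg (by linarith)]
  have h5 : S.psi c (-k) ≤ S.psi c k :=
    (PreSt.psi_mono hc).monotoneOn hk' hk (by linarith)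
  have h6 : |br c S.τ (S.ε * k) - br c S.τ (S.ε * -k)| = S.psi c k - S.psi c (-k) := by
    have h7 : br c S.τ (S.ε * k) - br c S.τ (S.ε * -k) = S.psi c k - S.psi c (-k) := rfl
    rw [h7, abs_of_nonneg (by linarith)]
  rw [h2, h6] at h1
  linarith

theorem h_gt (S : PreSt) {L : ℝ} (hL : ∀ c ∈ S.seg, ∀ k : ℝ, 0 ≤ k → k ≤ S.R →
    2 * L * k ≤ S.psi c k - S.psi c (-k)) {c : ℝ} (hc : c ∈ S.seg) {k : ℝ} (hk : S.y0 c = -k)
    (hk0 : 0 < k) (hk1 : k < 2 * L) : k < S.h c k := by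
  have h0 := PreSt.y0_mem hc
  rw [hk] at h0
  have hkR : k ≤ S.R := by linarith [h0.1]
  have h1 := hL c hc k hk0.le hkR
  have h2 : S.psi c (-k) = c := by rw [← hk]; exact PreSt.psi_y0 hc
  have h3 : S.h c k ^ 2 = S.psi c k - c :=
    PreSt.h_sq hc ⟨by rw [hk]; linarith, hkR⟩
  rw [h2] at h1
  have h4 : k ^ 2 < S.h c k ^ 2 := by
    rw [h3]
    nlinarith
  exact lt_of_pow_lt_pow_left₀ 2 (PreSt.h_nonneg S c k) h4

end TangAux

theorem tang (S : PreSt) : ∃ T t' : ℝ, 0 ≤ T ∧ T < t' ∧ t' ≤ 1 ∧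
    (∀ t ∈ Icc T t', S.y0 (S.ct t) < 0) ∧ S.h (S.ct T) (-S.y0 (S.ct T)) = -S.y0 (S.ct T) ∧
    ∀ t, T < t → t ≤ t' → -S.y0 (S.ct t) < S.h (S.ct t) (-S.y0 (S.ct t)) := by
  obtain ⟨L, hL, hLb⟩ := TangAux.psi_lower S
  set k : ℝ → ℝ := fun t => -S.y0 (S.ct t) with hk
  have hkc : Continuous k := (S.y0_cont.comp S.ct_cont).neg
  have hk0 : k 0 = S.R := by simp only [hk]; rw [S.ct_zero, PreSt.y0_a0]; ring
  have hk1 : k 1 = -S.R := by simp only [hk]; rw [S.ct_one, PreSt.y0_a1]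
  have hR := S.hR
  obtain ⟨t1', h1a, h1b, h1c, h1d⟩ := TangAux.last_zero (F := fun s => k (-s))
    (hkc.comp continuous_neg) (a := -1) (b := 0) (by norm_num)
    (by show k (- -1) ≤ 0; rw [neg_neg, hk1]; linarith)
    (by show 0 < k (-0); rw [neg_zero, hk0]; exact hR)
  have ht1 : 0 < -t1' := by linarith
  have ht1' : -t1' ≤ 1 := by linarith
  have hpos : ∀ t, 0 ≤ t → t < -t1' → 0 < k t := by
    intro t ht0 htt
    have h := h1d (-t) (by linarith) (by linarith)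
    simpa only [neg_neg] using h
  have hzero : k (-t1') = 0 := h1c
  set m : ℝ := min L (S.R / 2) with hm
  have hm0 : 0 < m := lt_min hL (by linarith)
  have hmL : m ≤ L := min_le_left _ _
  have hmR : m ≤ S.R / 2 := min_le_right _ _
  have hex : m ∈ k '' Icc 0 (-t1') :=
    intermediate_value_Icc' ht1.le hkc.continuousOn ⟨by rw [hzero]; exact hm0.le, by rw [hk0]; linarith⟩
  obtain ⟨t', ht', hkt'⟩ := hex
  have ht'1 : t' < -t1' := by
    rcases lt_or_eq_of_le ht'.2 with h | h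
    · exact h
    · rw [h, hzero] at hkt'
      linarith
  have ht'0 : 0 ≤ t' := ht'.1
  have hseg : ∀ t, 0 ≤ t → t ≤ t' → S.ct t ∈ S.seg := fun t h0 h1 =>
    S.ct_mem ⟨h0, by linarith⟩
  set F : ℝ → ℝ := fun t => S.h (S.ct t) (k t) - k t with hFd
  have hF : Continuous F := (S.h_cont.comp (S.ct_cont.prodMk hkc)).sub hkc
  have hF0 : F 0 ≤ 0 := by
    have h := PreSt.h_lt (hseg 0 (le_refl 0) ht'0) (y := S.R) ⟨by linarith, le_refl _⟩
    simp only [hFd]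
    rw [hk0]
    linarith
  have hF1 : 0 < F t' := by
    have h := TangAux.h_gt S hLb (hseg t' ht'0 (le_refl _)) (k := k t')
      (by simp only [hk]; ring) (by rw [hkt']; exact hm0) (by rw [hkt']; linarith)
    simp only [hFd]
    linarith
  obtain ⟨T, hT0, hTt, hFT, hTd⟩ := TangAux.last_zero hF ht'0 hF0 hF1
  refine ⟨T, t', hT0, hTt, by linarith, fun t ht => ?_, ?_, fun t h1 h2 => ?_⟩
  · have h := hpos t (hT0.trans ht.1) (lt_of_le_of_lt ht.2 ht'1)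
    simp only [hk] at h
    linarith
  · simp only [hFd, hk] at hFT
    linarith
  · have h := hTd t h1 h2
    simp only [hFd, hk] at h
    linarith

end JC
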