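import Pool.Agent.Lib.JC.MkA
import Pool.Agent.Lib.JC.Tang
import Pool.Agent.Lib.JC.NearT
import Pool.Agent.Lib.JC.Cross

/-!
# JC.Move1 : Move 1 (renormalize)

`tang` gives `T < t'`; `nearT` gives `R'`, `k0`, `t''`. For `t ∈ [T, t'']`, `c = S.ct t ∈ S.seg`, `k = -y0 c`.
* `v_j(t) = h^[j] (-R')`, `w_j(t) = h^[j] R'` are continuous in `t` (`h_cont`), `v_j < w_j` (induction: `h` strictly increasing on
 `[y0, R]`, all points `v_j, w_j` are in `[y0, R]`: `-R' > y0`, `h ≥ 0 > y0`, `h_lt`).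
* At `T`: `k(T) = h k(T)`, `w_j(T) < k(T)` for all `j`: `R' < h R' < k(T)`... induction, `w_j < k` gives `w_{j+1} = h w_j < h k = k`
 (strict monotonicity).
* At `t''`: `k(t'') < h k(t'')` (`tang`, as `T < t'' ≤ t'`). `h_fix` with `p = k(t'')`, or with `p = 0` (`y0 < 0 < h 0`): `β` the fixed point;
 `k < β` because `k < h k` and `h y < y` for `y > β` (and `k ≠ β`). `v_{j} → β` (`h_fix` last clause at the point
 `h (-R') ∈ [0, R]`), so there is `j ≥ k0` with `v_{j+1}(t'') > k(t'')`. Fix this `j`.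
* `crossing` on `[T, t'']` with `k`, `v_{j+1}`, `w_{j+1}`: `b0 < b1`, `T < b0`, `b1 ≤ t''`. Put `p0 = S.ct b0`, `p1 = S.ct b1`
 (`p0 ≠ p1` by `ct_inj`). Every `c ∈ uIcc p0 p1` is `S.ct t`, `t ∈ [b0, b1]` (`mem_uIcc_ct`). For such `c` `S.RenIn c` holds (`tang`, since
 `T < t ≤ t'`), so `-2 < c < 0` by `hS`.
* `mkA` gives `S'` with `S'.seg = uIcc p0 p1`, `S'.n = S.n * (j + 2) > S.n` (`S.n ≥ 1`).
-/

open Set Filter Topology

namespace JC

namespace Move1Aux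

theorem iter_cont (S : PreSt) (x : ℝ) (j : ℕ) :
    Continuous fun t : ℝ => (S.h (S.ct t))^[j] x := by
  induction j with
  | zero => exact continuous_const
  | succ j ih =>
    have h : Continuous fun t : ℝ => S.h (S.ct t) ((S.h (S.ct t))^[j] x) :=
      S.h_cont.comp (S.ct_cont.prodMk ih)
    have e : (fun t : ℝ => (S.h (S.ct t))^[j + 1] x) =
        fun t : ℝ => S.h (S.ct t) ((S.h (S.ct t))^[j] x) := by
      funext t
      rw [Function.iterate_succ_apply']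
    rw [e]
    exact h

theorem iter_lt {S : PreSt} {c R' : ℝ} (hc : c ∈ S.seg) (hR' : 0 < R') (h1 : S.y0 c < -R')
    (j : ℕ) : (S.h c)^[j] (-R') ∈ Icc (S.y0 c) S.R ∧ (S.h c)^[j] R' ∈ Icc (S.y0 c) S.R ∧
      (S.h c)^[j] (-R') < (S.h c)^[j] R' := by
  have h0 := PreSt.y0_mem hc
  induction j with
  | zero =>
    simp only [Function.iterate_zero, id_eq]
    exact ⟨⟨h1.le, by linarith [h0.1]⟩, ⟨by linarith, by linarith [h0.1]⟩, by linarith⟩
  | succ j ih =>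
    obtain ⟨ha, hb, hab⟩ := ih
    rw [Function.iterate_succ_apply', Function.iterate_succ_apply']
    have key : ∀ y ∈ Icc (S.y0 c) S.R, S.h c y ∈ Icc (S.y0 c) S.R := by
      intro y hy
      have h2 := PreSt.h_nonneg S c y
      have h3 := PreSt.h_lt hc (y := y) ⟨h0.1.trans hy.1, hy.2⟩
      exact ⟨by linarith, h3.le⟩
    exact ⟨key _ ha, key _ hb, PreSt.h_mono hc ha hb hab⟩

theorem iter_lt_fix {S : PreSt} {c R' k : ℝ} (hc : c ∈ S.seg) (hR' : 0 < R')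
    (h1 : S.y0 c < -R') (hk : k ∈ Icc (S.y0 c) S.R) (hkf : S.h c k = k) (h2 : R' < k) (j : ℕ) :
    (S.h c)^[j] R' < k := by
  induction j with
  | zero => simpa only [Function.iterate_zero, id_eq] using h2
  | succ j ih =>
    rw [Function.iterate_succ_apply']
    have h3 := PreSt.h_mono hc (iter_lt hc hR' h1 j).2.1 hk ih
    rwa [hkf] at h3

theorem exists_iter {S : PreSt} {c R' : ℝ} (hc : c ∈ S.seg) (hR' : 0 < R')
    (h1 : S.y0 c < -R') (h2 : -S.y0 c < S.h c (-S.y0 c)) (k0 : ℕ) :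
    ∃ j ≥ k0, -S.y0 c < (S.h c)^[j + 1] (-R') := by
  have h0 := PreSt.y0_mem hc
  have hy : S.y0 c < 0 := by linarith
  have hR := S.hR
  have hpos : 0 < S.h c 0 := PreSt.h_pos hc ⟨hy, hR.le⟩
  obtain ⟨β, hβ, hβf, _, hgt, hlim⟩ := PreSt.h_fix hc hy hR hpos
  have hk : -S.y0 c ∈ Icc 0 S.R := ⟨by linarith, by linarith [h0.1]⟩
  have hkβ : -S.y0 c < β := by
    rcases lt_trichotomy (-S.y0 c) β with h | h | h
    · exact h
    · rw [h, hβf] at h2
      exact absurd h2 (lt_irrefl _)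
    · have h3 := hgt _ hk h
      linarith
  have hm : S.h c (-R') ∈ Icc 0 S.R :=
    ⟨PreSt.h_nonneg S c _, (PreSt.h_lt hc (y := -R') ⟨by linarith [h0.1], by linarith [h0.1]⟩).le⟩
  have hev := (hlim _ hm).eventually (lt_mem_nhds hkβ)
  obtain ⟨N, hN⟩ := Filter.eventually_atTop.1 hev
  refine ⟨max N k0, le_max_right _ _, ?_⟩
  rw [Function.iterate_succ_apply]
  exact hN _ (le_max_left _ _)

end Move1Aux

theorem move1 (S : PreSt) (hS : ∀ c ∈ S.seg, S.RenIn c → -2 < c ∧ c < 0) :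
    ∃ S' : St, S'.seg ⊆ S.seg ∧ S.n < S'.n ∧ ∀ c ∈ S'.seg, S.RenIn c := by
  obtain ⟨T, t', hT0, hTt, ht'1, hneg, hfix, hgt⟩ := tang S
  obtain ⟨R', k0, t'', hR', hTt'', ht''t', H⟩ := nearT S hT0 hTt ht'1 hneg hfix
  have hseg : ∀ t ∈ Icc T t'', S.ct t ∈ S.seg := fun t ht =>
    S.ct_mem ⟨hT0.trans ht.1, ht.2.trans (ht''t'.trans ht'1)⟩
  have hTm : T ∈ Icc T t'' := ⟨le_refl _, hTt''.le⟩
  have ht''m : t'' ∈ Icc T t'' := ⟨hTt''.le, le_refl _⟩
  obtain ⟨j, hjk, hj⟩ := Move1Aux.exists_iter (hseg t'' ht''m) hR' (H t'' ht''m).1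
    (hgt t'' hTt'' ht''t') k0
  have hkT : -S.y0 (S.ct T) ∈ Icc (S.y0 (S.ct T)) S.R := by
    have h0 := PreSt.y0_mem (hseg T hTm)
    have h1 := hneg T ⟨le_refl _, hTt.le⟩
    exact ⟨by linarith, by linarith [h0.1]⟩
  have hwT := Move1Aux.iter_lt_fix (hseg T hTm) hR' (H T hTm).1 hkT hfix
    (by linarith [(H T hTm).2.2.1, (H T hTm).2.2.2.1]) (j + 1)
  have hkc : Continuous fun t => -S.y0 (S.ct t) := (S.y0_cont.comp S.ct_cont).neg
  obtain ⟨b0, b1, hTb0, hb01, hb1t, hk0, hk1, hk⟩ := crossing (k := fun t => -S.y0 (S.ct t))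
    (v := fun t => (S.h (S.ct t))^[j + 1] (-R')) (w := fun t => (S.h (S.ct t))^[j + 1] R')
    hTt'' hkc.continuousOn (Move1Aux.iter_cont S (-R') (j + 1)).continuousOn
    (Move1Aux.iter_cont S R' (j + 1)).continuousOn
    (fun t ht => (Move1Aux.iter_lt (hseg t ht) hR' (H t ht).1 (j + 1)).2.2) hwT hj
  have hsurj : ∀ c ∈ uIcc (S.ct b0) (S.ct b1), ∃ t ∈ Icc b0 b1, S.ct t = c :=
    fun c hc => (S.mem_uIcc_ct hb01.le).1 hc
  have hmem : ∀ t ∈ Icc b0 b1, t ∈ Icc T t'' := fun t ht =>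
    ⟨hTb0.le.trans ht.1, ht.2.trans hb1t⟩
  have hsub : uIcc (S.ct b0) (S.ct b1) ⊆ S.seg := by
    intro c hc
    obtain ⟨t, ht, rfl⟩ := hsurj c hc
    exact hseg t (hmem t ht)
  have hren : ∀ c ∈ uIcc (S.ct b0) (S.ct b1), S.RenIn c := by
    intro c hc
    obtain ⟨t, ht, rfl⟩ := hsurj c hc
    exact ⟨hneg t ⟨(hmem t ht).1, (hmem t ht).2.trans ht''t'⟩,
      hgt t (lt_of_lt_of_le hTb0 ht.1) ((hmem t ht).2.trans ht''t')⟩
  obtain ⟨S', ha0, ha1, _, hn⟩ := mkA S j (R' := R') (p0 := S.ct b0) (p1 := S.ct b1)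
    (fun h => hb01.ne (S.ct_inj h)) hR' hsub
    (fun c hc => by obtain ⟨t, ht, rfl⟩ := hsurj c hc; exact (H t (hmem t ht)).1)
    (fun c hc => by obtain ⟨t, ht, rfl⟩ := hsurj c hc; exact (H t (hmem t ht)).2.1)
    (fun c hc => by obtain ⟨t, ht, rfl⟩ := hsurj c hc; exact (H t (hmem t ht)).2.2.2.1)
    (fun c hc => by obtain ⟨t, ht, rfl⟩ := hsurj c hc; exact (hk t ht).1)
    (fun c hc => by obtain ⟨t, ht, rfl⟩ := hsurj c hc; exact (hk t ht).2)
    hk0 hk1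
    (fun c hc => by
      obtain ⟨t, ht, rfl⟩ := hsurj c hc
      exact (H t (hmem t ht)).2.2.2.2 j hjk)
    (fun c hc => hS c (hsub hc) (hren c hc))
  have hseg' : S'.seg = uIcc (S.ct b0) (S.ct b1) := by
    unfold PreSt.seg
    rw [ha0, ha1]
  refine ⟨S', ?_, ?_, ?_⟩
  · rw [hseg']
    exact hsub
  · rw [hn]
    have h1 : 0 < S.n := Nat.succ_pos _
    nlinarith
  · rw [hseg']
    exact hren

end JC
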