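import Pool.Agent.Lib.JC.Core
import Pool.Agent.Lib.JC.DiskDouble

/-!
# JC.QLike : the quadratic-like map

`V = ball 0 R`, `g` holomorphic on `V`, `F` entire with `F (g v) = v` on `V`, `c ∈ g '' V`,
`U = {z | z^2 + c ∈ g '' V}` with `closure U ⊆ V`. Then `z ↦ F (z^2 + c)` is quadratic-like `U → V`.

Proof. `g` is injective on `V` (left inverse `F`). `diskU`: `disk_double` with `y0` such that `g y0 = c`;
`diskV`: `isDisk_ball` (`R > 0` since `V` is nonempty). `compact`: `closure U` is closed and bounded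
(inside `V`). `maps`: `z^2 + c = g v`, `F (g v) = v ∈ V`. `holo`: clear.
`proper`: let `K ⊆ V` be compact. `U ∩ {z | F (z^2+c) ∈ K} = {z | z^2 + c ∈ g '' K}`: if `z ∈ U`, `z^2+c = g v`,
`F (z^2+c) = v ∈ K`; conversely clear. `g '' K` is compact (`g` continuous on `V`), the preimage under
`z ↦ z^2 + c` of a compact set is closed and bounded, hence compact.
`degree`: let `v ∈ V`, `w = g v`, `a` a square root of `w - c`, `b = -a`: both in `U`.
`F ω - v = F ω - F w = (ω - w) * dslope F w ω` (`sub_smul_dslope`, `dslope` of an entire function is entire: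
`Differentiable`/`AnalyticAt` API, `Complex.differentiableOn_dslope`), so with `ω = z^2 + c`:
`F (z^2+c) - v = (z - a) (z + a) H(z)`, `H z = dslope F w (z^2 + c)`. `H` is entire. Zero-free on `U`: for
`z ∈ U`, `ω = g v'`. If `ω ≠ w` then `v' ≠ v`, `F ω - F w = v' - v ≠ 0`. If `ω = w`, `dslope F w w = deriv F w`, and
`deriv F (g v) * deriv g v = 1` by the chain rule (`F ∘ g = id` near `v`), so it is nonzero.
-/

open Set Filter Topology

namespace JC

theorem quadLike_of {c : ℂ} {R : ℝ} {F g : ℂ → ℂ} (hF : Differentiable ℂ F)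
    (hg : DifferentiableOn ℂ g (Metric.ball 0 R)) (hFg : ∀ v ∈ Metric.ball (0 : ℂ) R, F (g v) = v)
    (hc : c ∈ g '' Metric.ball 0 R)
    (hcl : closure {z : ℂ | z ^ 2 + c ∈ g '' Metric.ball 0 R} ⊆ Metric.ball 0 R) :
    QuadLike (fun z => F (z ^ 2 + c)) {z : ℂ | z ^ 2 + c ∈ g '' Metric.ball 0 R}
      (Metric.ball 0 R) := by
  have inj : InjOn g (Metric.ball 0 R) := by
    intro x hx y hy h
    have := congrArg F h
    rwa [hFg x hx, hFg y hy] at this
  obtain ⟨y0, hy0, hgy0⟩ := hc
  have hRpos : 0 < R := Metric.pos_of_mem_ball hy0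
  have hbdd : Bornology.IsBounded (closure {z : ℂ | z ^ 2 + c ∈ g '' Metric.ball 0 R}) :=
    Metric.isBounded_ball.subset hcl
  refine ⟨?_, isDisk_ball hRpos, ?_, hcl, ?_, ?_, ?_, ?_⟩
  · have h := disk_double hg inj hy0
    rwa [hgy0] at h
  · exact Metric.isCompact_of_isClosed_isBounded isClosed_closure hbdd
  · rintro z ⟨v, hv, h⟩
    show F (z ^ 2 + c) ∈ Metric.ball (0 : ℂ) R
    rw [← h, hFg v hv]
    exact hv
  · exact (hF.comp (by fun_prop : Differentiable ℂ (fun z : ℂ => z ^ 2 + c))).differentiableOn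
  · intro K hKV hK
    have heq : {z : ℂ | z ^ 2 + c ∈ g '' Metric.ball 0 R} ∩ (fun z => F (z ^ 2 + c)) ⁻¹' K
        = {z : ℂ | z ^ 2 + c ∈ g '' K} := by
      ext z
      constructor
      · rintro ⟨⟨v, hv, h⟩, hz⟩
        have hz' : F (z ^ 2 + c) ∈ K := hz
        rw [← h, hFg v hv] at hz'
        exact ⟨v, hz', h⟩
      · rintro ⟨v, hv, h⟩
        refine ⟨⟨v, hKV hv, h⟩, ?_⟩
        show F (z ^ 2 + c) ∈ K
        rw [← h, hFg v (hKV hv)]
        exact hv
    rw [heq]
    have hgK : IsCompact (g '' K) := hK.image_of_continuousOn (hg.continuousOn.mono hKV)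
    refine Metric.isCompact_of_isClosed_isBounded ?_ ?_
    · exact hgK.isClosed.preimage (by fun_prop : Continuous (fun z : ℂ => z ^ 2 + c))
    · refine hbdd.subset (Subset.trans ?_ subset_closure)
      rintro z ⟨v, hv, h⟩
      exact ⟨v, hKV hv, h⟩
  · intro v hv
    obtain ⟨a, ha⟩ := IsAlgClosed.exists_pow_nat_eq (g v - c) (n := 2) (by norm_num)
    have haU : a ∈ {z : ℂ | z ^ 2 + c ∈ g '' Metric.ball 0 R} := by
      refine ⟨v, hv, ?_⟩
      rw [ha]; ring
    have hbU : -a ∈ {z : ℂ | z ^ 2 + c ∈ g '' Metric.ball 0 R} := by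
      refine ⟨v, hv, ?_⟩
      rw [neg_sq, ha]; ring
    have hds : Differentiable ℂ (dslope F (g v)) := by
      have := (Complex.differentiableOn_dslope (s := univ) (c := g v) (f := F) univ_mem).2
        hF.differentiableOn
      exact differentiableOn_univ.1 this
    refine ⟨a, haU, -a, hbU, fun z => dslope F (g v) (z ^ 2 + c), ?_, ?_, ?_⟩
    · exact (hds.comp (by fun_prop : Differentiable ℂ (fun z : ℂ => z ^ 2 + c))).differentiableOn
    · rintro z ⟨v', hv', h⟩
      show dslope F (g v) (z ^ 2 + c) ≠ 0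
      rw [← h]
      by_cases hvv : v' = v
      · subst hvv
        rw [dslope_same]
        intro h0
        have h1 : HasDerivAt g (deriv g v') v' :=
          ((hg v' hv').differentiableAt (Metric.isOpen_ball.mem_nhds hv')).hasDerivAt
        have h2 : HasDerivAt F (deriv F (g v')) (g v') := (hF (g v')).hasDerivAt
        have h3 : HasDerivAt (F ∘ g) (deriv F (g v') * deriv g v') v' := h2.comp v' h1
        have h4 : HasDerivAt (F ∘ g) 1 v' := by
          refine (hasDerivAt_id v').congr_of_eventuallyEq ?_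
          filter_upwards [Metric.isOpen_ball.mem_nhds hv'] with u hu
          exact hFg u hu
        have h5 := h3.unique h4
        rw [h0, zero_mul] at h5
        exact zero_ne_one h5
      · have hne : g v' ≠ g v := fun h' => hvv (inj hv' hv h')
        intro h0
        have h1 := sub_smul_dslope F (g v) (g v')
        rw [h0, smul_zero, hFg v' hv', hFg v hv] at h1
        exact hvv (sub_eq_zero.1 h1.symm)
    · rintro z -
      show F (z ^ 2 + c) - v = (z - a) * (z - -a) * dslope F (g v) (z ^ 2 + c)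
      have h1 := sub_smul_dslope F (g v) (z ^ 2 + c)
      rw [hFg v hv, smul_eq_mul] at h1
      rw [← h1]
      have h2 : z ^ 2 + c - g v = (z - a) * (z - -a) := by
        have : g v = a ^ 2 + c := by rw [ha]; ring
        rw [this]; ring
      rw [h2]

end JC
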