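import Pool.Agent.Lib.JC.StBasic
import Pool.Agent.Lib.JC.PK
import Pool.Agent.Lib.JC.FixPt

/-!
# JC.StFix : derivative, expansion inequality and fixed points of `h`

`S.h c y = br c (1 :: S.τ) (S.ε * y)` by definition. The word `w = 1 :: τ` is nonempty, with product `ε`. On
`I = {ε * y | y ∈ (y0, R]}` it is `Ok` (`S.ok`, `ok_mono`; the outer root is of `ψ y - c > 0`, since `ψ` is increasing
and `ψ y0 = c`).
* `h_deriv`: `h' y = ε * brD c w (ε y)`: `hasDerivAt_br` and the chain rule with `y ↦ ε y`. Positive by `brD_sign`.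
 The inequality is `pk` at `ε x`, `ε y`, with `(ε x - ε y)^2 = (x - y)^2` and
 `h' x * h' y = brD (ε x) * brD (ε y)`.
* `h_fix`: `fix_unique` on `[p, R]` with `h p > p`, `h R < R` (`h_lt`); `iter_tendsto` for the convergence: `h` maps
 `[p, R]` into itself, because `h y ≥ h p > p`.
* `h_tangent`: `tangent_unique` on `(p, R)`.
-/

open Set Filter Topology

namespace JC

namespace PreSt

variable {S : PreSt} {c : ℝ}

namespace StFixAux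

theorem ok_one (hc : c ∈ S.seg) :
    Ok c (1 :: S.τ) ((fun y => S.ε * y) '' Ioc (S.y0 c) S.R) := by
  have hy0 : S.y0 c ∈ Icc (-S.R) S.R := y0_mem hc
  refine ⟨Or.inl rfl, ok_mono (S.ok c hc) ?_, ?_⟩
  · rintro _ ⟨y, hy, rfl⟩
    exact eps_mem S ⟨hy0.1.trans hy.1.le, hy.2⟩
  · rintro _ ⟨y, hy, rfl⟩
    have h1 : S.psi c (S.y0 c) < S.psi c y :=
      psi_mono hc hy0 ⟨hy0.1.trans hy.1.le, hy.2⟩ hy.1
    rw [psi_y0 hc] at h1
    exact h1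

theorem h_eq (S : PreSt) (c y : ℝ) : S.h c y = br c (1 :: S.τ) (S.ε * y) := by
  show Real.sqrt (S.psi c y - c) = 1 * Real.sqrt (br c S.τ (S.ε * y) - c)
  rw [one_mul]
  rfl

theorem maps (hc : c ∈ S.seg) {p : ℝ} (hp : S.y0 c < p) (hpp : p < S.h c p) (hpR : p < S.R) :
    ∀ y ∈ Icc p S.R, S.h c y ∈ Icc p S.R := by
  intro y hy
  have hy0 : S.y0 c ∈ Icc (-S.R) S.R := y0_mem hc
  have h1 : p ∈ Icc (-S.R) S.R := ⟨hy0.1.trans hp.le, hpR.le⟩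
  have h2 : y ∈ Icc (-S.R) S.R := ⟨h1.1.trans hy.1, hy.2⟩
  exact ⟨hpp.le.trans (h_monotone hc h1 h2 hy.1), (h_lt hc h2).le⟩

end StFixAux

open StFixAux

theorem h_deriv (hc : c ∈ S.seg) : ∃ h' : ℝ → ℝ,
    (∀ y ∈ Ioc (S.y0 c) S.R, HasDerivAt (S.h c) (h' y) y ∧ 0 < h' y) ∧
      ∀ x ∈ Ioc (S.y0 c) S.R, ∀ y ∈ Ioc (S.y0 c) S.R, x ≠ y →
        (S.h c x - S.h c y) ^ 2 < h' x * h' y * (x - y) ^ 2 := by
  have hok := ok_one hc
  have heps := eps_mul_self S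
  refine ⟨fun y => S.ε * brD c (1 :: S.τ) (S.ε * y), fun y hy => ⟨?_, ?_⟩,
    fun x hx y hy hxy => ?_⟩
  · have h1 : HasDerivAt (br c (1 :: S.τ)) (brD c (1 :: S.τ) (S.ε * y)) (S.ε * y) :=
      hasDerivAt_br hok ⟨y, hy, rfl⟩
    have h2 : HasDerivAt (fun y : ℝ => S.ε * y) S.ε y := by
      have h0 := (hasDerivAt_id y).const_mul S.ε
      rw [mul_one] at h0
      exact h0
    have h3 := HasDerivAt.comp y h1 h2
    have h4 : S.h c = br c (1 :: S.τ) ∘ fun y : ℝ => S.ε * y := funext fun z => h_eq S c z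
    show HasDerivAt (S.h c) (S.ε * brD c (1 :: S.τ) (S.ε * y)) y
    rw [h4, mul_comm S.ε (brD c (1 :: S.τ) (S.ε * y))]
    exact h3
  · have h1 := brD_sign hok (y := S.ε * y) ⟨y, hy, rfl⟩
    rw [List.prod_cons, one_mul, S.hprod] at h1
    exact h1
  · have hne : S.ε * x ≠ S.ε * y := by
      intro h1
      apply hxy
      have h2 : S.ε * (S.ε * x) = S.ε * (S.ε * y) := by rw [h1]
      rwa [← mul_assoc, ← mul_assoc, heps, one_mul, one_mul] at h2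
    have h1 := pk hok (List.cons_ne_nil _ _) (x := S.ε * x) (y := S.ε * y) ⟨x, hx, rfl⟩
      ⟨y, hy, rfl⟩ hne
    rw [h_eq, h_eq]
    refine h1.trans_eq ?_
    have h2 : (S.ε * x - S.ε * y) ^ 2 = (S.ε * S.ε) * (x - y) ^ 2 := by ring
    have h3 : S.ε * brD c (1 :: S.τ) (S.ε * x) * (S.ε * brD c (1 :: S.τ) (S.ε * y))
        = (S.ε * S.ε) * (brD c (1 :: S.τ) (S.ε * x) * brD c (1 :: S.τ) (S.ε * y)) := by ring
    show _ = S.ε * brD c (1 :: S.τ) (S.ε * x) * (S.ε * brD c (1 :: S.τ) (S.ε * y)) * (x - y) ^ 2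
    rw [h2, h3, heps, one_mul, one_mul]

theorem h_fix (hc : c ∈ S.seg) {p : ℝ} (hp : S.y0 c < p) (hpR : p < S.R) (hpp : p < S.h c p) :
    ∃ β ∈ Ioo p S.R, S.h c β = β ∧ (∀ y ∈ Icc p S.R, y < β → y < S.h c y) ∧
      (∀ y ∈ Icc p S.R, β < y → S.h c y < y) ∧
      ∀ y ∈ Icc p S.R, Tendsto (fun l => (S.h c)^[l] y) atTop (𝓝 β) := by
  obtain ⟨h', h1, h2⟩ := h_deriv hc
  have hsub : ∀ y ∈ Icc p S.R, y ∈ Ioc (S.y0 c) S.R := fun y hy => ⟨hp.trans_le hy.1, hy.2⟩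
  have hy0 : S.y0 c ∈ Icc (-S.R) S.R := y0_mem hc
  have hsub' : Icc p S.R ⊆ Icc (-S.R) S.R := fun y hy =>
    ⟨(hy0.1.trans hp.le).trans hy.1, hy.2⟩
  have hRR : S.R ∈ Icc (-S.R) S.R := ⟨by linarith [S.hR], le_refl _⟩
  obtain ⟨β, hβ, e1, e2, e3⟩ := fix_unique (g := S.h c) (g' := h') hpR
    (fun y hy => (h1 y (hsub y hy)).1) (fun y hy => (h1 y (hsub y hy)).2.le)
    (fun x hx y hy hxy => h2 x (hsub x hx) y (hsub y hy) hxy) hpp (h_lt hc hRR)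
  have hcont : Continuous (S.h c) :=
    (S.h_cont).comp (Continuous.prodMk continuous_const continuous_id)
  exact ⟨β, hβ, e1, e2, e3, fun y hy => iter_tendsto ((h_monotone hc).mono hsub')
    (maps hc hp hpp hpR) hcont.continuousOn ⟨hβ.1.le, hβ.2.le⟩ e1 e2 e3 hy⟩

theorem h_tangent (hc : c ∈ S.seg) (hle : ∀ y ∈ Ioo (S.y0 c) S.R, S.h c y ≤ y) {b1 b2 : ℝ}
    (h1 : b1 ∈ Ioo (S.y0 c) S.R) (h2 : b2 ∈ Ioo (S.y0 c) S.R) (e1 : S.h c b1 = b1)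
    (e2 : S.h c b2 = b2) : b1 = b2 := by
  obtain ⟨h', g1, g2⟩ := h_deriv hc
  have hsub : ∀ y ∈ Ioo (S.y0 c) S.R, y ∈ Ioc (S.y0 c) S.R := fun y hy => ⟨hy.1, hy.2.le⟩
  exact tangent_unique (g := S.h c) (g' := h') (fun y hy => (g1 y (hsub y hy)).1)
    (fun x hx y hy hxy => g2 x (hsub x hx) y (hsub y hy) hxy) hle h1 h2 e1 e2

end PreSt

end JC
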