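import Pool.Agent.Lib.JC.StTheta
import Pool.Agent.Lib.JC.StOrbit
import Pool.Agent.Lib.JC.StFix
import Pool.Agent.Lib.JC.DiscBr
import Pool.Agent.Lib.JC.QLike

/-!
# JC.Renorm : renormalizability with period `n`

`S : St`, `c ∈ S.seg`, `RenIn`: `y0 < 0` and `-y0 < h (-y0)`. `n = τ.length + 1 ≥ 2` (`hτ`). `V = ball 0 R`, `g = brC c τ`,
`F = (fc c)^[τ.length]` (entire), `U = {z | z^2 + c ∈ g '' V}`; `F (z^2 + c) = (fc c)^[n] z` (`Function.iterate_succ_apply`).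
* `V = Dc (-R) R`. `brC_disc` with `p = -R`, `q = R` (`S.ok`): `g` is differentiable on `V`, `F (g v) = v`, and `g v` is in the disc
 with diameter `[ψ(-R), ψ R]` (the two numbers `br c τ (±R)` are `ψ(±R)` in some order, `ψ(-R) < ψ R`).
* `c ∈ g '' V`: `c = ψ y0 = br c τ (ε y0) = g (ε y0)` (`brC_real`), and `|y0| < R`: `y0 < 0`, `-y0 < h (-y0) < R`.
* `closure U ⊆ ball 0 R`: for `z ∈ closure U`, `z^2 + c` is in the closed disc with diameter `[ψ(-R), ψ R]`, and so is `c` (`S.lo`, `S.hi`), so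
 `‖z‖^2 = ‖(z^2 + c) - c‖ ≤ ψ R - ψ(-R) < θ(-R)^2 < R^2` (`S.small`, `theta_mem`).
* `quadLike_of`: `QuadLike ((fc c)^[n]) U V`. `0 ∈ V`, `0 ∈ U` (`0^2 + c = c`).
* Orbit: `h_fix` with `p = -y0 > 0`: `β ∈ (-y0, R)` with `h β = β`. For real `x` with `|x| ≤ β`: `|x| ≤ β = h β ≤ h R`, so `y = Gr |x| = Gr x` satisfies
 `y ∈ [y0, R]`, `h y = |x|` (`h_Gr`), and `y ≤ β` (otherwise `|x| = h y > h β = β`), so `|Gr x| ≤ β` (`y ≥ y0 > -β`); and
 `x^2 + c = (h y)^2 + c = ψ y = g (ε y)` with `|ε y| < R`: so `x ∈ U`. `(fc c)^[k n] 0 = ε * (Gr c)^[k] 0` for `k ≥ 1` (`Gr_iter`, `fr_fc_iter`), real, of absolute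
 value `≤ β`; so it is in `U`; `k = 0`: `0 ∈ U`.
-/

open Set Filter Topology

namespace JC

theorem renorm_of (S : St) {c : ℝ} (hc : c ∈ S.seg) (h : S.RenIn c) :
    Renormalizable (c : ℂ) S.n := by
  obtain ⟨hy0, hpp⟩ := h
  have hR : 0 < S.R := S.hR
  have hεε : S.ε * S.ε = 1 := S.toPreSt.eps_mul_self
  have hy0m : S.y0 c ∈ Icc (-S.R) S.R := PreSt.y0_mem hc
  have hny0 : -S.y0 c ∈ Icc (-S.R) S.R := ⟨by linarith [hy0m.2], by linarith [hy0m.1]⟩
  have hhR : S.h c (-S.y0 c) < S.R := PreSt.h_lt hc hny0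
  have habs : ∀ y : ℝ, |S.ε * y| = |y| := by
    intro y
    rcases S.hε with h | h <;> rw [h] <;> simp
  have hl : (-S.R) ∈ Icc (-S.R) S.R := ⟨le_refl _, by linarith⟩
  have hr : S.R ∈ Icc (-S.R) S.R := ⟨by linarith, le_refl _⟩
  obtain ⟨hgd, hgm⟩ := brC_disc (c := c) (w := S.τ) (p := -S.R) (q := S.R) (by linarith) (S.ok c hc)
  have hV : Dc (-S.R) S.R = Metric.ball (0 : ℂ) S.R := by
    unfold Dc
    have e1 : ((-S.R + S.R) / 2 : ℝ) = 0 := by ring
    have e2 : ((S.R - -S.R) / 2 : ℝ) = S.R := by ring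
    rw [e1, e2, Complex.ofReal_zero]
  rw [hV] at hgd hgm
  have hψ : S.psi c (-S.R) < S.psi c S.R := PreSt.psi_mono hc hl hr (by linarith)
  have hmin : min (br c S.τ (-S.R)) (br c S.τ S.R) = S.psi c (-S.R) := by
    unfold PreSt.psi at hψ ⊢
    rcases S.hε with h | h
    · rw [h] at hψ ⊢
      rw [one_mul, one_mul] at hψ
      rw [one_mul]
      exact min_eq_left hψ.le
    · rw [h] at hψ ⊢
      simp only [neg_mul, one_mul, neg_neg] at hψ ⊢
      exact min_eq_right hψ.le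
  have hmax : max (br c S.τ (-S.R)) (br c S.τ S.R) = S.psi c S.R := by
    unfold PreSt.psi at hψ ⊢
    rcases S.hε with h | h
    · rw [h] at hψ ⊢
      rw [one_mul, one_mul] at hψ
      rw [one_mul]
      exact max_eq_right hψ.le
    · rw [h] at hψ ⊢
      simp only [neg_mul, one_mul, neg_neg] at hψ ⊢
      exact max_eq_left hψ.le
  rw [hmin, hmax] at hgm
  -- real points
  have hgreal : ∀ y ∈ Icc (-S.R) S.R, brC c S.τ ((S.ε * y : ℝ) : ℂ) = ((S.psi c y : ℝ) : ℂ) := by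
    intro y hy
    exact brC_real (S.ok c hc) (S.toPreSt.eps_mem hy)
  have hball : ∀ y : ℝ, |y| < S.R → ((S.ε * y : ℝ) : ℂ) ∈ Metric.ball (0 : ℂ) S.R := by
    intro y hy
    rw [mem_ball_zero_iff, Complex.norm_real, Real.norm_eq_abs, habs]
    exact hy
  have hcg : (c : ℂ) ∈ brC c S.τ '' Metric.ball 0 S.R := by
    refine ⟨((S.ε * S.y0 c : ℝ) : ℂ), hball _ ?_, ?_⟩
    · rw [abs_lt]
      exact ⟨by linarith, by linarith⟩
    · rw [hgreal _ hy0m, PreSt.psi_y0 hc]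
  have hF : Differentiable ℂ ((fc (c : ℂ))^[S.τ.length]) := by
    have hf : Differentiable ℂ (fc (c : ℂ)) := by
      unfold fc
      fun_prop
    have : ∀ m : ℕ, Differentiable ℂ ((fc (c : ℂ))^[m]) := by
      intro m
      induction m with
      | zero => exact differentiable_id
      | succ m ih =>
        rw [Function.iterate_succ]
        exact ih.comp hf
    exact this _
  have hsm : S.psi c S.R - S.psi c (-S.R) < (S.theta c (-S.R)) ^ 2 := S.small c hc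
  have hθ := St.theta_mem hc hl
  have hlo : S.psi c (-S.R) ≤ c := S.lo c hc
  have hhi : c ≤ S.psi c S.R := S.hi c hc
  have hcl : closure {z : ℂ | z ^ 2 + (c : ℂ) ∈ brC c S.τ '' Metric.ball 0 S.R} ⊆
      Metric.ball 0 S.R := by
    have hcb : (c : ℂ) ∈ Metric.closedBall (((S.psi c (-S.R) + S.psi c S.R) / 2 : ℝ) : ℂ)
        ((S.psi c S.R - S.psi c (-S.R)) / 2) := by
      rw [mem_closedBall_iff_norm, ← Complex.ofReal_sub, Complex.norm_real, Real.norm_eq_abs, abs_le]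
      constructor <;> linarith
    have hclosed : IsClosed {z : ℂ | z ^ 2 + (c : ℂ) ∈
        Metric.closedBall (((S.psi c (-S.R) + S.psi c S.R) / 2 : ℝ) : ℂ)
          ((S.psi c S.R - S.psi c (-S.R)) / 2)} := by
      exact Metric.isClosed_closedBall.preimage (by fun_prop : Continuous fun z : ℂ => z ^ 2 + (c : ℂ))
    have hsub : {z : ℂ | z ^ 2 + (c : ℂ) ∈ brC c S.τ '' Metric.ball 0 S.R} ⊆
        {z : ℂ | z ^ 2 + (c : ℂ) ∈ Metric.closedBall (((S.psi c (-S.R) + S.psi c S.R) / 2 : ℝ) : ℂ)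
          ((S.psi c S.R - S.psi c (-S.R)) / 2)} := by
      rintro z ⟨v, hv, hz⟩
      show z ^ 2 + (c : ℂ) ∈ Metric.closedBall _ _
      rw [← hz]
      exact Metric.ball_subset_closedBall (hgm v hv).1
    intro z hz
    have hz1 : z ^ 2 + (c : ℂ) ∈ Metric.closedBall (((S.psi c (-S.R) + S.psi c S.R) / 2 : ℝ) : ℂ)
          ((S.psi c S.R - S.psi c (-S.R)) / 2) := (closure_minimal hsub hclosed) hz
    rw [mem_closedBall_iff_norm] at hz1 hcb
    have h1 : ‖z ^ 2‖ ≤ S.psi c S.R - S.psi c (-S.R) := by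
      have e : z ^ 2 = (z ^ 2 + (c : ℂ) - (((S.psi c (-S.R) + S.psi c S.R) / 2 : ℝ) : ℂ)) -
          ((c : ℂ) - (((S.psi c (-S.R) + S.psi c S.R) / 2 : ℝ) : ℂ)) := by ring
      rw [e]
      refine (norm_sub_le _ _).trans ?_
      linarith
    rw [norm_pow] at h1
    rw [mem_ball_zero_iff]
    have h2 : (S.theta c (-S.R)) ^ 2 < S.R ^ 2 := pow_lt_pow_left₀ hθ.2.2 hθ.2.1.le (by norm_num)
    exact lt_of_pow_lt_pow_left₀ 2 hR.le (by linarith)
  have hQ := quadLike_of (c := (c : ℂ)) (R := S.R) hF hgd (fun v hv => (hgm v hv).2) hcg hcl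
  -- the invariant interval
  obtain ⟨β, hβ, hβf, -, -, -⟩ := PreSt.h_fix hc (p := -S.y0 c) (by linarith) (by linarith) hpp
  have hβ0 : 0 < β := by linarith [hβ.1]
  have hβI : β ∈ Icc (-S.R) S.R := ⟨by linarith, hβ.2.le⟩
  have hβR : β ≤ S.h c S.R := by
    have := PreSt.h_monotone hc hβI hr hβ.2.le
    linarith
  have hA : ∀ x : ℝ, |x| ≤ β → |S.Gr c x| ≤ β ∧
      (x : ℂ) ∈ {z : ℂ | z ^ 2 + (c : ℂ) ∈ brC c S.τ '' Metric.ball 0 S.R} := by
    intro x hx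
    have hG : S.Gr c x = S.Gr c |x| := by
      rcases abs_choice x with h | h
      · rw [h]
      · rw [h, PreSt.Gr_neg]
    obtain ⟨hy1, hy2⟩ := PreSt.h_Gr hc (abs_nonneg x) (hx.trans hβR)
    rw [← hG] at hy1 hy2
    have hyβ : S.Gr c x ≤ β := by
      by_contra hlt
      push Not at hlt
      have := PreSt.h_mono hc ⟨by linarith [hβ.1], hβ.2.le⟩ hy1 hlt
      rw [hβf, hy2] at this
      linarith
    have hyabs : |S.Gr c x| ≤ β := by
      rw [abs_le]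
      exact ⟨by linarith [hy1.1, hβ.1], hyβ⟩
    refine ⟨hyabs, ((S.ε * S.Gr c x : ℝ) : ℂ), hball _ (lt_of_le_of_lt hyabs hβ.2), ?_⟩
    have hyI : S.Gr c x ∈ Icc (-S.R) S.R := ⟨by linarith [hy1.1, hy0m.1], hy1.2⟩
    rw [hgreal _ hyI]
    have h3 := PreSt.h_sq hc hy1
    rw [hy2, sq_abs] at h3
    have h4 : S.psi c (S.Gr c x) = x ^ 2 + c := by linarith
    rw [h4]
    push_cast
    ring
  have hB : ∀ k : ℕ, |(S.Gr c)^[k] 0| ≤ β := by
    intro k
    induction k with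
    | zero => simpa using hβ0.le
    | succ k ih =>
      rw [Function.iterate_succ_apply']
      exact (hA _ ih).1
  have h2n : 2 ≤ S.n := by
    have : 0 < S.τ.length := List.length_pos_of_ne_nil S.hτ
    unfold PreSt.n
    omega
  have hfun : (fc (c : ℂ))^[S.n] = fun z => (fc (c : ℂ))^[S.τ.length] (z ^ 2 + (c : ℂ)) := by
    funext z
    unfold PreSt.n
    rw [Function.iterate_succ_apply]
    rfl
  refine ⟨h2n, {z : ℂ | z ^ 2 + (c : ℂ) ∈ brC c S.τ '' Metric.ball 0 S.R}, Metric.ball 0 S.R, ?_,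
    Metric.mem_ball_self hR, ?_, ?_⟩
  · show (0 : ℂ) ^ 2 + (c : ℂ) ∈ brC c S.τ '' Metric.ball 0 S.R
    rw [zero_pow two_ne_zero, zero_add]
    exact hcg
  · rw [hfun]
    exact hQ
  · intro k
    rcases Nat.eq_zero_or_pos k with rfl | hk
    · show ((fc (c : ℂ))^[0 * S.n] 0) ^ 2 + (c : ℂ) ∈ brC c S.τ '' Metric.ball 0 S.R
      rw [zero_mul, Function.iterate_zero, id, zero_pow two_ne_zero, zero_add]
      exact hcg
    · have e1 : (fc (c : ℂ))^[k * S.n] 0 = (((fr c)^[k * S.n] 0 : ℝ) : ℂ) := by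
        rw [← fr_fc_iter, Complex.ofReal_zero]
      have e2 : (fr c)^[k * S.n] 0 = S.ε * (S.Gr c)^[k] 0 := by
        rw [S.toPreSt.Gr_iter c 0 hk, ← mul_assoc, hεε, one_mul]
      rw [e1, e2]
      refine (hA _ ?_).2
      rw [habs]
      exact hB k

end JC
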