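import Pool.Agent.Lib.JC.Core

/-!
# JC.Grid : dyadic grid points close to a point, distances

* `exists_dpt`: `x = round (z.re * 2^n)`, `y = round (z.im * 2^n)`: both errors are `≤ 1/2` (`abs_sub_round`), so the
  square of the distance times `4^n` is `≤ 1/2 < (71/100)^2 = 0.5041`.
* `near_dist`: triangle inequality: `dist (dpt n x y) z < (71/100 + 29/100) / 2^n`, `infDist ≤ dist`.
* `far_dist`: every point `w` of `K` is outside `ball zs δ`, so `dist w zs ≥ δ > 3 / 2^n` and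
  `dist (dpt n x y) w ≥ 3/2^n - (71/100)/2^n = (229/100) / 2^n`; `infDist` is at least this number
  (`le_infDist`, `K` nonempty) and `229/100 > 2`.
-/

open Set Filter Topology

namespace JC

theorem exists_dpt (n : ℕ) (z : ℂ) : ∃ x y : ℤ, ‖dpt n x y - z‖ ≤ (71 / 100) / 2 ^ n := by
  refine ⟨round (z.re * 2 ^ n), round (z.im * 2 ^ n), ?_⟩
  have h2 : (0 : ℝ) < 2 ^ n := by positivity
  have hx := abs_sub_round (z.re * 2 ^ n)
  have hy := abs_sub_round (z.im * 2 ^ n)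
  rw [abs_le] at hx hy
  set w : ℂ := ⟨(round (z.re * 2 ^ n) : ℝ) - z.re * 2 ^ n,
    (round (z.im * 2 ^ n) : ℝ) - z.im * 2 ^ n⟩ with hw
  have e : dpt n (round (z.re * 2 ^ n)) (round (z.im * 2 ^ n)) - z = w / ((2 ^ n : ℝ) : ℂ) := by
    have h3 : ((2 ^ n : ℝ) : ℂ) ≠ 0 := by exact_mod_cast h2.ne'
    have h4 : ((2 : ℂ) ^ n) = ((2 ^ n : ℝ) : ℂ) := by push_cast; rfl
    have h6 : ((2 : ℂ) ^ n).re = 2 ^ n := by rw [h4, Complex.ofReal_re]
    have h7 : ((2 : ℂ) ^ n).im = 0 := by rw [h4, Complex.ofReal_im]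
    unfold dpt
    rw [h4, eq_div_iff h3, sub_mul, div_mul_cancel₀ _ h3]
    apply Complex.ext
    · simp [hw, h6, h7]
    · simp [hw, h6, h7]
  rw [e, norm_div, Complex.norm_real, Real.norm_of_nonneg h2.le]
  apply div_le_div_of_nonneg_right _ h2.le
  have h5 : ‖w‖ ^ 2 ≤ 1 / 2 := by
    rw [Complex.sq_norm, Complex.normSq_apply, hw]
    nlinarith
  nlinarith [norm_nonneg w]

theorem near_dist {n : ℕ} {x y : ℤ} {zs : ℂ} (h : ‖dpt n x y - zs‖ ≤ (71 / 100) / 2 ^ n)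
    {K : Set ℂ} (hK : ∃ z ∈ Metric.ball zs ((29 / 100) / 2 ^ n), z ∈ K) :
    Metric.infDist (dpt n x y) K < 1 / 2 ^ n := by
  obtain ⟨z, hz, hzK⟩ := hK
  rw [Metric.mem_ball, dist_comm] at hz
  have h1 : dist (dpt n x y) zs ≤ (71 / 100) / 2 ^ n := by rwa [dist_eq_norm]
  calc Metric.infDist (dpt n x y) K ≤ dist (dpt n x y) z := Metric.infDist_le_dist_of_mem hzK
    _ ≤ dist (dpt n x y) zs + dist zs z := dist_triangle _ _ _
    _ < (71 / 100) / 2 ^ n + (29 / 100) / 2 ^ n := by linarith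
    _ = 1 / 2 ^ n := by ring

theorem far_dist {n : ℕ} {x y : ℤ} {zs : ℂ} (h : ‖dpt n x y - zs‖ ≤ (71 / 100) / 2 ^ n)
    {K : Set ℂ} (hne : K.Nonempty) {δ : ℝ} (hδ : 3 / 2 ^ n < δ)
    (hK : ∀ z ∈ Metric.ball zs δ, z ∉ K) :
    2 * (1 / 2 ^ n) < Metric.infDist (dpt n x y) K := by
  have h2 : (0 : ℝ) < 1 / 2 ^ n := by positivity
  have h1 : dist (dpt n x y) zs ≤ (71 / 100) / 2 ^ n := by rwa [dist_eq_norm]
  have h3 : (229 / 100) / 2 ^ n ≤ Metric.infDist (dpt n x y) K := by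
    rw [Metric.le_infDist hne]
    intro w hw
    have h4 : δ ≤ dist w zs := by
      by_contra h5
      exact hK w (Metric.mem_ball.2 (not_le.1 h5)) hw
    have h5 : dist w zs ≤ dist w (dpt n x y) + dist (dpt n x y) zs := dist_triangle _ _ _
    rw [dist_comm w (dpt n x y)] at h5
    have h6 : (3 : ℝ) / 2 ^ n = (229 / 100) / 2 ^ n + (71 / 100) / 2 ^ n := by ring
    linarith
  have h4 : (229 / 100 : ℝ) / 2 ^ n = 229 / 100 * (1 / 2 ^ n) := by ring
  rw [h4] at h3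
  linarith

end JC
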