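import Pool.Agent.Lib.JC.StConv
import Pool.Agent.Lib.JC.StFix
import Pool.Agent.Lib.JC.StOrbit

/-!
# JC.HitT : parameters where the target is hit after exactly `N` steps

`D : CuspData S t0 b`, `i ≥ 1`, `x_i(t) = S.xs (S.ct t) i`, continuous on `[0,1]` (`xs_cont`, `ct_cont`, `ct_mem`),
`F_N(t) = h_t^[N] (x_i(t)) - y0(t)` continuous on `[t0, 1]`.
* At `t0`: `x_i > h R ≥ h b = b` (`xs_gt`, `h_mono`/`h_monotone`), and `h` maps `(b, R]` into itself (`h y > h b = b`, `h_lt`), so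
 `h^[N] x_i > b > y0`: `F_N(t0) > 0` for every `N`. Also `h^[k] x_i > b > y0` for all `k`.
* Let `t1 = min (t0 + δ/2) 1`, so `t0 < t1 ≤ 1` and `t1 < t0 + δ`. At `t1` `y0 > 0` and `h y < y` on `[y0, R]` (`ypos'`, `gate`). There is `k` with
 `h^[k] x_i < y0`: otherwise the sequence `h^[k] x_i ∈ [y0, R]` decreases and converges to a fixed point of `h` in `[y0, R]`.
 Then `h^[k+1] x_i = 0` (`h_zero`; `h^[k] x_i ∈ [-R, R]`), and `h 0 = 0` because `0 < y0`. So for all `N > k`: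
 `h^[N] x_i = 0 < y0`, `F_N(t1) < 0`.
* Let `N ≥ K`, `N > k`, `tN = sInf {t ∈ [t0, t1] | F_N t ≤ 0}`: `t0 < tN`, `F_N(tN) = 0`, and `F_N > 0` on `[t0, tN)`. `y0(tN) > 0`
 (`ypos'`). For `j < N`: `h^[j] x_i > y0` at `tN`; otherwise `h^[j+1] x_i = 0` (`h_zero`) and then `h^[N] x_i = 0 ≠ y0`.
-/

open Set Filter Topology

namespace JC

private theorem iter_joint (S : St) (N : ℕ) :
    Continuous fun p : ℝ × ℝ => (S.h p.1)^[N] p.2 := by
  induction N with
  | zero => exact continuous_snd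
  | succ N ih =>
    have h1 : (fun p : ℝ × ℝ => (S.h p.1)^[N + 1] p.2)
        = fun p : ℝ × ℝ => S.h p.1 ((S.h p.1)^[N] p.2) := by
      funext p
      rw [Function.iterate_succ_apply']
    rw [h1]
    exact S.toPreSt.h_cont.comp (continuous_fst.prodMk ih)

private theorem iter_zero_aux {S : St} {c : ℝ} (hc : c ∈ S.seg) (hy0 : 0 < S.y0 c) {x : ℝ}
    (hx : x ∈ Icc (-S.R) S.R) {k : ℕ} (hk : (S.h c)^[k] x ≤ S.y0 c) {N : ℕ} (hN : k < N) :
    (S.h c)^[N] x = 0 := by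
  induction N with
  | zero => exact absurd hN (Nat.not_lt_zero _)
  | succ N ih =>
    rw [Function.iterate_succ_apply']
    rcases Nat.lt_succ_iff_lt_or_eq.mp hN with h | h
    · rw [ih h]
      exact PreSt.h_zero hc ⟨by linarith [S.hR], hy0.le⟩
    · subst h
      exact PreSt.h_zero hc ⟨(PreSt.h_iter_maps hc hx k).1, hk⟩

theorem hitT {S : St} {t0 b : ℝ} (D : CuspData S t0 b) {i : ℕ} (hi : 1 ≤ i) {δ : ℝ} (hδ : 0 < δ)
    (K : ℕ) : ∃ (N : ℕ) (tN : ℝ), K ≤ N ∧ t0 < tN ∧ tN < t0 + δ ∧ tN ≤ 1 ∧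
      (S.h (S.ct tN))^[N] (S.xs (S.ct tN) i) = S.y0 (S.ct tN) ∧
      (∀ k < N, S.y0 (S.ct tN) < (S.h (S.ct tN))^[k] (S.xs (S.ct tN) i)) ∧
      ∀ t, t0 ≤ t → t < tN → S.y0 (S.ct t) < (S.h (S.ct t))^[N] (S.xs (S.ct t) i) := by
  have hseg : ∀ t, t0 ≤ t → t ≤ 1 → S.ct t ∈ S.seg := fun t h0 h1 =>
    S.toPreSt.ct_mem ⟨D.ht0.trans h0, h1⟩
  have hxmem : ∀ t, t0 ≤ t → t ≤ 1 → S.xs (S.ct t) i ∈ Icc (-S.R) S.R := fun t h0 h1 =>
    St.xs_mem (hseg t h0 h1) i
  have hcont : ∀ N : ℕ, ContinuousOn (fun t => (S.h (S.ct t))^[N] (S.xs (S.ct t) i) - S.y0 (S.ct t))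
      (Icc t0 1) := by
    intro N
    have h1 : ContinuousOn (fun t => S.xs (S.ct t) i) (Icc t0 1) :=
      (St.xs_cont S i).comp S.toPreSt.ct_cont.continuousOn (fun t ht => hseg t ht.1 ht.2)
    have h2 : ContinuousOn (fun t => ((S.ct t, S.xs (S.ct t) i) : ℝ × ℝ)) (Icc t0 1) :=
      S.toPreSt.ct_cont.continuousOn.prodMk h1
    have h3 : ContinuousOn (fun t => (S.h (S.ct t))^[N] (S.xs (S.ct t) i)) (Icc t0 1) :=
      (iter_joint S N).comp_continuousOn h2
    exact h3.sub (S.toPreSt.y0_cont.comp S.toPreSt.ct_cont).continuousOn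
  -- at `t0`
  have hc0 : S.ct t0 ∈ S.seg := hseg t0 le_rfl D.ht1.le
  have hbR : b ∈ Icc (-S.R) S.R := ⟨by linarith [S.hR, D.ypos, D.yb], D.bR.le⟩
  have hb0 : ∀ N : ℕ, b < (S.h (S.ct t0))^[N] (S.xs (S.ct t0) i) := by
    intro N
    induction N with
    | zero =>
      have h1 := St.xs_gt hc0 hi
      have h2 := PreSt.h_monotone hc0 hbR ⟨by linarith [S.hR], le_rfl⟩ D.bR.le
      rw [D.fix] at h2
      exact lt_of_le_of_lt h2 h1
    | succ N ih =>
      rw [Function.iterate_succ_apply']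
      have h1 := PreSt.h_iter_maps hc0 (hxmem t0 le_rfl D.ht1.le) N
      have h2 := PreSt.h_mono hc0 ⟨D.yb.le, D.bR.le⟩ ⟨D.yb.le.trans ih.le, h1.2⟩ ih
      rw [D.fix] at h2
      exact h2
  -- at `t1`
  set t1 := min (t0 + δ / 2) 1 with ht1def
  have ht01 : t0 < t1 := lt_min (by linarith) D.ht1
  have ht11 : t1 ≤ 1 := min_le_right _ _
  have ht1δ : t1 < t0 + δ := lt_of_le_of_lt (min_le_left _ _) (by linarith)
  have hc1 : S.ct t1 ∈ S.seg := hseg t1 ht01.le ht11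
  have hx1 := hxmem t1 ht01.le ht11
  have hy1 := D.ypos' t1 ht01 ht11
  have hgate := D.gate t1 ht01 ht11
  obtain ⟨k, hk⟩ : ∃ k : ℕ, (S.h (S.ct t1))^[k] (S.xs (S.ct t1) i) < S.y0 (S.ct t1) := by
    by_contra hcon
    push Not at hcon
    set u : ℕ → ℝ := fun k => (S.h (S.ct t1))^[k] (S.xs (S.ct t1) i) with hu
    have hmem : ∀ k, u k ∈ Icc (S.y0 (S.ct t1)) S.R := fun k =>
      ⟨hcon k, (PreSt.h_iter_maps hc1 hx1 k).2⟩
    have hstep : ∀ k, u (k + 1) = S.h (S.ct t1) (u k) := fun k => by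
      rw [hu]
      exact Function.iterate_succ_apply' _ _ _
    have hanti : Antitone u := antitone_nat_of_succ_le fun k => by
      rw [hstep]
      exact (hgate _ (hmem k)).le
    have hbdd : BddBelow (range u) := ⟨S.y0 (S.ct t1), by
      rintro _ ⟨k, rfl⟩
      exact (hmem k).1⟩
    have hlim := tendsto_atTop_ciInf hanti hbdd
    set L := ⨅ k, u k with hL
    have hLmem : L ∈ Icc (S.y0 (S.ct t1)) S.R :=
      isClosed_Icc.mem_of_tendsto hlim (Eventually.of_forall hmem)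
    have hcy : Continuous (S.h (S.ct t1)) :=
      S.toPreSt.h_cont.comp (continuous_const.prodMk continuous_id)
    have h1 : Tendsto (fun k => u (k + 1)) atTop (𝓝 L) := (tendsto_add_atTop_iff_nat 1).mpr hlim
    have h2 : Tendsto (fun k => u (k + 1)) atTop (𝓝 (S.h (S.ct t1) L)) := by
      have : (fun k => u (k + 1)) = fun k => S.h (S.ct t1) (u k) := funext hstep
      rw [this]
      exact (hcy.tendsto L).comp hlim
    have h3 := tendsto_nhds_unique h1 h2
    have h4 := hgate L hLmem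
    rw [← h3] at h4
    exact lt_irrefl _ h4
  set N := max K (k + 1) with hN
  have hkN : k < N := lt_of_lt_of_le (Nat.lt_succ_self k) (le_max_right _ _)
  set F : ℝ → ℝ := fun t => (S.h (S.ct t))^[N] (S.xs (S.ct t) i) - S.y0 (S.ct t) with hF
  have hF0 : 0 < F t0 := by
    have := hb0 N
    have := D.yb
    simp only [hF]
    linarith
  have hF1 : F t1 < 0 := by
    have h1 := iter_zero_aux hc1 hy1 hx1 hk.le hkN
    simp only [hF]
    rw [h1]
    linarith
  have hFc : ContinuousOn F (Icc t0 t1) := (hcont N).mono (Icc_subset_Icc_right ht11)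
  have hZ : IsCompact (Icc t0 t1 ∩ F ⁻¹' Iic 0) :=
    isCompact_Icc.of_isClosed_subset
      (hFc.preimage_isClosed_of_isClosed isClosed_Icc isClosed_Iic) inter_subset_left
  obtain ⟨tN, htN, hmin⟩ := hZ.exists_isLeast ⟨t1, ⟨ht01.le, le_rfl⟩, hF1.le⟩
  have hFle : F tN ≤ 0 := htN.2
  have ht0N : t0 < tN := by
    refine lt_of_le_of_ne htN.1.1 ?_
    intro h
    rw [← h] at hFle
    linarith
  have hFpos : ∀ t, t0 ≤ t → t < tN → 0 < F t := by
    intro t h0 h1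
    by_contra hcon
    push Not at hcon
    have := hmin ⟨⟨h0, h1.le.trans htN.1.2⟩, hcon⟩
    linarith
  have hFN : F tN = 0 := by
    have h1 : (0 : ℝ) ∈ F '' Icc t0 tN :=
      intermediate_value_Icc' ht0N.le (hFc.mono (Icc_subset_Icc_right htN.1.2)) ⟨hFle, hF0.le⟩
    obtain ⟨t, ht, hFt⟩ := h1
    rcases lt_or_eq_of_le ht.2 with h | h
    · have := hFpos t ht.1 h
      linarith
    · rw [← h]
      exact hFt
  have htN1 : tN ≤ 1 := htN.1.2.trans ht11
  have hhit : (S.h (S.ct tN))^[N] (S.xs (S.ct tN) i) = S.y0 (S.ct tN) := by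
    have := hFN
    simp only [hF] at this
    linarith
  refine ⟨N, tN, le_max_left _ _, ht0N, lt_of_le_of_lt htN.1.2 ht1δ, htN1, hhit, ?_, ?_⟩
  · intro j hj
    by_contra hcon
    push Not at hcon
    have h1 := iter_zero_aux (hseg tN ht0N.le htN1) (D.ypos' tN ht0N htN1)
      (hxmem tN ht0N.le htN1) hcon hj
    rw [hhit] at h1
    have := D.ypos' tN ht0N htN1
    linarith
  · intro t h0 h1
    have := hFpos t h0 h1
    simp only [hF] at this
    linarith

end JC
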