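import Pool.Agent.Lib.JC.MkB
import Pool.Agent.Lib.JC.HitT
import Pool.Agent.Lib.JC.Cross

/-!
# JC.Move2 : Move 2 (pass the gate and hit the target `x_i`)

`hitT` gives `N ≥ K` and `tN ∈ (t0, t0 + δ)`, `tN ≤ 1`. Let `c1 = S.ct tN`.
(1) There are `t' ∈ (t0, tN)` and `l0` such that for all `t ∈ [t', tN]`, `l ≥ l0`, `y ∈ [-R, R]`, `c = S.ct t`:
 `|E c i l y - x_i(c)| < δ` and `y0 c < (h c)^[k] (E c i l y)` for all `k < N`. Proof: for each `k < N` the function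
 `(c, x) ↦ (h c)^[k] x - y0 c` is continuous and positive at `(c1, x_i(c1))`, so it is positive for `|c - c1| < ω`, `|x - x_i(c1)| < ω`, for some
 `ω > 0` independent of `k < N`; now `E_close` with `min ω δ`, and continuity of `ct`.
(2) At `t'`: `(h)^[N] (x_i) > y0` (last clause of `hitT`), and `E c i l (-R) → x_i` (`E_tendsto`), so for all large `l`, in particular for some odd
 `l ≥ l0`: `y0 < h^[N] (E c i l (-R))` at `c = S.ct t'`. Fix it.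
(3) At `tN`: `E c1 i l R < x_i(c1)` (`E_lt`), both are in `[-R, R]`, and `h^[k]` of both is in `(y0, R]` for `k < N` ((1), `hitT`), so by strict monotonicity of `h` on
 `[y0, R]` (induction on `k ≤ N`) `h^[N] (E c1 i l R) < h^[N] (x_i(c1)) = y0`; if `N = 0` this is `E_lt`.
(4) In the same way, for every `t ∈ [t', tN]`: `h^[N] (E c i l (-R)) < h^[N] (E c i l R)` (`E_mono`).
(5) `crossing` on `[t', tN]` with `k = -y0`, `w = -h^[N] (E (-R))`, `v = -h^[N] (E R)` gives `b0 < b1` in `(t', tN]` with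
 `y0 = h^[N] (E (-R))` at `b0`, `y0 = h^[N] (E R)` at `b1`, and `h^[N] (E (-R)) ≤ y0 ≤ h^[N] (E R)` on `[b0, b1]`.
(6) `p0 = S.ct b0 ≠ p1 = S.ct b1`; every `c ∈ uIcc p0 p1` is `S.ct t` with `t ∈ [b0, b1]` (`mem_uIcc_ct`). `mkB` gives `S'` with
 `S'.seg = uIcc p0 p1`, `S'.n = S.n + S.n N + s (i + l + 1) > S.n` (`s ≥ 1`). `passesB` gives, for each `c`, `y` with
 `Passes c N (E c i l y)`, and `|E c i l y - x_i(c)| < δ` by (1).
-/

open Set Filter Topology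

namespace JC

namespace Move2Aux

theorem hk_cont (S : PreSt) (k : ℕ) : Continuous fun q : ℝ × ℝ => (S.h q.1)^[k] q.2 := by
  induction k with
  | zero => exact continuous_snd
  | succ k ih =>
    have h1 : (fun q : ℝ × ℝ => (S.h q.1)^[k + 1] q.2) =
        fun q : ℝ × ℝ => S.h q.1 ((S.h q.1)^[k] q.2) := by
      funext q
      rw [Function.iterate_succ_apply']
    rw [h1]
    exact S.h_cont.comp (continuous_fst.prodMk ih)

theorem iter_lt {S : PreSt} {c : ℝ} (hc : c ∈ S.seg) {x y : ℝ} (hx : x ∈ Icc (-S.R) S.R)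
    (hy : y ∈ Icc (-S.R) S.R) (hxy : x < y) (N : ℕ) (hb : ∀ k < N, S.y0 c < (S.h c)^[k] x) :
    (S.h c)^[N] x < (S.h c)^[N] y := by
  induction N with
  | zero => exact hxy
  | succ N ih =>
    have h1 := ih (fun k hk => hb k (Nat.lt_succ_of_lt hk))
    have h2 := hb N (Nat.lt_succ_self N)
    rw [Function.iterate_succ_apply', Function.iterate_succ_apply']
    exact PreSt.h_mono hc ⟨h2.le, (PreSt.h_iter_maps hc hx N).2⟩
      ⟨(h2.trans h1).le, (PreSt.h_iter_maps hc hy N).2⟩ h1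

end Move2Aux

theorem move2 (S : St) {t0 b : ℝ} (D : CuspData S t0 b) {i : ℕ} (hi : 1 ≤ i) {δ : ℝ}
    (hδ : 0 < δ) (K : ℕ) :
    ∃ (S' : St) (N : ℕ), K ≤ N ∧ S.n < S'.n ∧ ∀ c ∈ S'.seg,
      ∃ t, t0 < t ∧ t < t0 + δ ∧ t ≤ 1 ∧ c = S.ct t ∧
        ∃ e, |e - S.xs c i| < δ ∧ Passes S.toPreSt c N e := by
  obtain ⟨N, tN, hKN, ht0N, htNδ, htN1, hhit, hbefore, hlt⟩ := hitT D hi hδ K
  have htN0 : 0 ≤ tN := D.ht0.trans ht0N.le
  have hc1 : S.ct tN ∈ S.seg := S.ct_mem ⟨htN0, htN1⟩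
  have hRm : S.R ∈ Icc (-S.R) S.R := ⟨by linarith [S.hR], le_rfl⟩
  have hLm : -S.R ∈ Icc (-S.R) S.R := ⟨le_rfl, by linarith [S.hR]⟩
  -- step (1)
  have ev : ∀ᶠ q : ℝ × ℝ in 𝓝 (S.ct tN, S.xs (S.ct tN) i), ∀ k ∈ Finset.range N,
      S.y0 q.1 < (S.h q.1)^[k] q.2 := by
    rw [Filter.eventually_all_finset]
    intro k hk
    exact ((S.y0_cont.comp continuous_fst).continuousAt).eventually_lt
      ((Move2Aux.hk_cont S.toPreSt k).continuousAt) (hbefore k (Finset.mem_range.1 hk))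
  obtain ⟨ω, hω, hev⟩ := Metric.eventually_nhds_iff.1 ev
  obtain ⟨δ', hδ', l0, hE⟩ := St.E_close S i hc1 (ω := min ω δ) (lt_min hω hδ)
  have evc : ∀ᶠ t in 𝓝 tN, |S.ct t - S.ct tN| < min δ' ω := by
    have h1 := (S.ct_cont.continuousAt (x := tN)).eventually
      (Metric.ball_mem_nhds (S.ct tN) (lt_min hδ' hω))
    filter_upwards [h1] with t ht
    rw [← Real.dist_eq]
    exact ht
  obtain ⟨ρ, hρ, hct⟩ := Metric.eventually_nhds_iff.1 evc
  obtain ⟨t', ht1, ht2, ht3⟩ : ∃ t', t0 < t' ∧ t' < tN ∧ tN - t' < ρ := by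
    refine ⟨max ((t0 + tN) / 2) (tN - ρ / 2), lt_max_of_lt_left (by linarith),
      max_lt (by linarith) (by linarith), ?_⟩
    have := le_max_right ((t0 + tN) / 2) (tN - ρ / 2)
    linarith
  have hseg : ∀ t ∈ Icc t' tN, S.ct t ∈ S.seg := fun t ht =>
    S.ct_mem ⟨D.ht0.trans (ht1.le.trans ht.1), ht.2.trans htN1⟩
  have H1 : ∀ t ∈ Icc t' tN, ∀ l ≥ l0, ∀ y ∈ Icc (-S.R) S.R,
      |S.E (S.ct t) i l y - S.xs (S.ct t) i| < δ ∧
      ∀ k < N, S.y0 (S.ct t) < (S.h (S.ct t))^[k] (S.E (S.ct t) i l y) := by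
    intro t ht l hl y hy
    have h1 : |S.ct t - S.ct tN| < min δ' ω := by
      apply hct
      rw [Real.dist_eq, abs_sub_lt_iff]
      constructor
      · linarith [ht.2]
      · linarith [ht.1]
    obtain ⟨h2, h3⟩ := hE (S.ct t) (hseg t ht) (h1.trans_le (min_le_left _ _)) l hl y hy
    refine ⟨h3.trans_le (min_le_right _ _), fun k hk => ?_⟩
    have h4 : dist ((S.ct t, S.E (S.ct t) i l y) : ℝ × ℝ) (S.ct tN, S.xs (S.ct tN) i) < ω := by
      rw [Prod.dist_eq, max_lt_iff]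
      constructor
      · rw [Real.dist_eq]
        exact h1.trans_le (min_le_right _ _)
      · rw [Real.dist_eq]
        exact h2.trans_le (min_le_left _ _)
    exact hev h4 k (Finset.mem_range.2 hk)
  -- step (2)
  have ht'm : t' ∈ Icc t' tN := ⟨le_rfl, ht2.le⟩
  have htNm : tN ∈ Icc t' tN := ⟨ht2.le, le_rfl⟩
  have h2 : Tendsto (fun l => (S.h (S.ct t'))^[N] (S.E (S.ct t') i l (-S.R))) atTop
      (𝓝 ((S.h (S.ct t'))^[N] (S.xs (S.ct t') i))) := by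
    have h3 : Continuous fun x : ℝ => (S.h (S.ct t'))^[N] x :=
      (Move2Aux.hk_cont S.toPreSt N).comp (continuous_const.prodMk continuous_id)
    exact (h3.tendsto _).comp (St.E_tendsto (hseg t' ht'm) i hLm)
  have h3 := h2.eventually (lt_mem_nhds (hlt t' ht1.le ht2))
  obtain ⟨l1, hl1⟩ := eventually_atTop.1 h3
  obtain ⟨l, hl0, hl1', hodd⟩ : ∃ l, l0 ≤ l ∧ l1 ≤ l ∧ Odd l :=
    ⟨2 * (l0 + l1) + 1, by omega, by omega, ⟨l0 + l1, rfl⟩⟩
  have H2 : S.y0 (S.ct t') < (S.h (S.ct t'))^[N] (S.E (S.ct t') i l (-S.R)) := hl1 l hl1'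
  -- step (3)
  have H3 : (S.h (S.ct tN))^[N] (S.E (S.ct tN) i l S.R) < S.y0 (S.ct tN) := by
    rw [← hhit]
    exact Move2Aux.iter_lt hc1 (St.E_mem hc1 i l hRm) (St.xs_mem hc1 i)
      (St.E_lt hc1 i hodd hRm) N (H1 tN htNm l hl0 S.R hRm).2
  -- step (4)
  have H4 : ∀ t ∈ Icc t' tN, (S.h (S.ct t))^[N] (S.E (S.ct t) i l (-S.R)) <
      (S.h (S.ct t))^[N] (S.E (S.ct t) i l S.R) := by
    intro t ht
    exact Move2Aux.iter_lt (hseg t ht) (St.E_mem (hseg t ht) i l hLm)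
      (St.E_mem (hseg t ht) i l hRm)
      (St.E_mono (hseg t ht) i hodd hLm hRm (by linarith [S.hR])) N
      (H1 t ht l hl0 (-S.R) hLm).2
  -- step (5)
  have hcy : Continuous fun t => -S.y0 (S.ct t) := (S.y0_cont.comp S.ct_cont).neg
  have hcE : ∀ y : ℝ, Continuous fun t => -(S.h (S.ct t))^[N] (S.E (S.ct t) i l y) := by
    intro y
    have h4 : Continuous fun t => S.E (S.ct t) i l y :=
      (St.E_cont S i l).comp (S.ct_cont.prodMk continuous_const)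
    exact ((Move2Aux.hk_cont S.toPreSt N).comp (S.ct_cont.prodMk h4)).neg
  obtain ⟨b0, b1, hb0, hb01, hb1, hk0, hk1, hkk⟩ := crossing ht2 hcy.continuousOn
    (hcE S.R).continuousOn (hcE (-S.R)).continuousOn (fun t ht => neg_lt_neg (H4 t ht))
    (neg_lt_neg H2) (neg_lt_neg H3)
  have hb0' : S.y0 (S.ct b0) = (S.h (S.ct b0))^[N] (S.E (S.ct b0) i l (-S.R)) := neg_inj.1 hk0
  have hb1' : S.y0 (S.ct b1) = (S.h (S.ct b1))^[N] (S.E (S.ct b1) i l S.R) := neg_inj.1 hk1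
  -- step (6)
  have hm : ∀ r ∈ Icc b0 b1, r ∈ Icc t' tN := fun r hr =>
    ⟨hb0.le.trans hr.1, hr.2.trans hb1⟩
  have hne : S.ct b0 ≠ S.ct b1 := fun h => hb01.ne (S.ct_inj h)
  have h01 : ∀ r ∈ Icc b0 b1, r ∈ Icc (0 : ℝ) 1 := fun r hr =>
    ⟨D.ht0.trans (ht1.le.trans (hm r hr).1), (hm r hr).2.trans htN1⟩
  have hsub : uIcc (S.ct b0) (S.ct b1) ⊆ S.seg :=
    S.uIcc_ct_subset (h01 b0 ⟨le_rfl, hb01.le⟩) (h01 b1 ⟨hb01.le, le_rfl⟩)
  have hpar : ∀ c ∈ uIcc (S.ct b0) (S.ct b1), ∃ r ∈ Icc b0 b1, S.ct r = c := fun c hc =>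
    (S.mem_uIcc_ct hb01.le).1 hc
  have q1 : ∀ c ∈ uIcc (S.ct b0) (S.ct b1), ∀ y ∈ Icc (-S.R) S.R, ∀ k < N,
      S.y0 c < (S.h c)^[k] (S.E c i l y) := by
    intro c hc y hy k hk
    obtain ⟨r, hr, rfl⟩ := hpar c hc
    exact (H1 r (hm r hr) l hl0 y hy).2 k hk
  have q2 : ∀ c ∈ uIcc (S.ct b0) (S.ct b1), (S.h c)^[N] (S.E c i l (-S.R)) ≤ S.y0 c := by
    intro c hc
    obtain ⟨r, hr, rfl⟩ := hpar c hc
    exact neg_le_neg_iff.1 (hkk r hr).2
  have q3 : ∀ c ∈ uIcc (S.ct b0) (S.ct b1), S.y0 c ≤ (S.h c)^[N] (S.E c i l S.R) := by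
    intro c hc
    obtain ⟨r, hr, rfl⟩ := hpar c hc
    exact neg_le_neg_iff.1 (hkk r hr).1
  obtain ⟨S', ha0, ha1, hn⟩ := mkB S i N hodd hne hsub q1 q2 q3 hb0'.symm hb1'.symm
  have hs : 1 ≤ S.s := by
    rw [St.s]
    exact List.length_pos_iff.2 S.hη
  refine ⟨S', N, hKN, ?_, ?_⟩
  · rw [hn]
    have h5 : 1 ≤ S.s * (i + l + 1) := Nat.mul_pos hs (Nat.succ_pos _)
    omega
  · intro c hc
    have hc' : c ∈ uIcc (S.ct b0) (S.ct b1) := by
      rw [← ha0, ← ha1]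
      exact hc
    obtain ⟨y, hy, hp⟩ := passesB S i N l (hsub hc') (q1 c hc') (q2 c hc') (q3 c hc')
    obtain ⟨r, hr, rfl⟩ := hpar c hc'
    refine ⟨r, ?_, ?_, (h01 r hr).2, rfl, S.E (S.ct r) i l y,
      (H1 r (hm r hr) l hl0 y hy).1, hp⟩
    · exact ht1.trans_le (hm r hr).1
    · exact (hm r hr).2.trans_lt htNδ

end JC
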