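import Pool.Agent.Lib.JC.AnDef

/-!
# JC.PhiOpen : the coordinates are open near the base points

* `phi_open`. `Φ` is holomorphic near `z0 = S.y0 (S.ct t0)`, `Φ z0 = 0`, `deriv Φ z0 ≠ 0`. The derivative is
  continuous (holomorphic), so `deriv Φ z ≠ 0` on a small ball; the image of this ball under `Φ` is a
  neighbourhood of `0` (open mapping theorem or inverse function theorem,
  `HasStrictDerivAt.map_nhds_eq_of_equiv` / `AnalyticAt` versions).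
* `chi_deriv`. `deriv χ` is continuous at `0` and `deriv χ 0 ≠ 0`.
-/

open Set Filter Topology

namespace JC

namespace PhiOpenAux

theorem deriv_ev {f : ℂ → ℂ} {z0 : ℂ} {R : ℝ} (hR : 0 < R)
    (hf : DifferentiableOn ℂ f (Metric.ball z0 R)) (h1 : deriv f z0 ≠ 0) :
    ∀ᶠ z in 𝓝 z0, deriv f z ≠ 0 := by
  have hA : AnalyticAt ℂ f z0 := hf.analyticAt (Metric.ball_mem_nhds _ hR)
  exact hA.deriv.continuousAt.eventually_ne h1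

end PhiOpenAux

theorem phi_open {S : St} {t0 : ℝ} {Φ : ℂ → ℂ} {rL : ℝ} {χ : ℂ → ℂ} {κ : ℝ} {X : ℝ → ℝ}
    (D : AnData S t0 Φ rL χ κ X) :
    ∃ r > 0, ∀ ρ : ℂ, ‖ρ‖ < r →
      ∃ z ∈ Metric.ball (S.y0 (S.ct t0) : ℂ) rL, Φ z = ρ ∧ deriv Φ z ≠ 0 := by
  have hA : AnalyticAt ℂ Φ (S.y0 (S.ct t0) : ℂ) := D.Φd.analyticAt (Metric.ball_mem_nhds _ D.hrL)
  have hs : HasStrictDerivAt Φ (deriv Φ (S.y0 (S.ct t0) : ℂ)) (S.y0 (S.ct t0) : ℂ) :=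
    hA.hasStrictDerivAt
  have hm := hs.map_nhds_eq D.Φ1
  have hU : {z : ℂ | z ∈ Metric.ball (S.y0 (S.ct t0) : ℂ) rL ∧ deriv Φ z ≠ 0} ∈
      𝓝 (S.y0 (S.ct t0) : ℂ) :=
    Filter.inter_mem (Metric.ball_mem_nhds _ D.hrL) (PhiOpenAux.deriv_ev D.hrL D.Φd D.Φ1)
  have hI : Φ '' {z : ℂ | z ∈ Metric.ball (S.y0 (S.ct t0) : ℂ) rL ∧ deriv Φ z ≠ 0} ∈ 𝓝 (0 : ℂ) := by
    have := Filter.image_mem_map (m := Φ) hU
    rwa [hm, D.Φ0] at this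
  obtain ⟨r, hr, hsub⟩ := Metric.mem_nhds_iff.1 hI
  refine ⟨r, hr, fun ρ hρ => ?_⟩
  have h2 : ρ ∈ Metric.ball (0 : ℂ) r := by simpa using hρ
  obtain ⟨z, ⟨hz, hz'⟩, rfl⟩ := hsub h2
  exact ⟨z, hz, rfl, hz'⟩

theorem chi_deriv {S : St} {t0 : ℝ} {Φ : ℂ → ℂ} {rL : ℝ} {χ : ℂ → ℂ} {κ : ℝ} {X : ℝ → ℝ}
    (D : AnData S t0 Φ rL χ κ X) : ∃ r > 0, r ≤ 1 / 8 ∧ ∀ z : ℂ, ‖z‖ < r → deriv χ z ≠ 0 := by
  have h := PhiOpenAux.deriv_ev (by norm_num) D.χd D.χ1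
  obtain ⟨r, hr, hsub⟩ := Metric.mem_nhds_iff.1 h
  refine ⟨min r (1 / 8), lt_min hr (by norm_num), min_le_right _ _, fun z hz => ?_⟩
  have h2 : z ∈ Metric.ball (0 : ℂ) r := by
    simpa using lt_of_lt_of_le hz (min_le_left _ _)
  exact hsub h2

end JC
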