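import Pool.Agent.Lib.JC.Core
import Pool.Agent.Lib.JC.KBasic
import Pool.Agent.Lib.JC.BetaK
import Pool.Agent.Lib.JC.BrBasic

/-!
# JC.Sens : sensitivity (section 8 of the paper proof)

`c` real, `-2 < c ≤ 0`, `K = filled c`, `J = julia c`, `B = bet c`. `χ` is holomorphic on
`ball 0 (1/8)`, real on the reals, `X` is a real function near `p` with `χ (X Y) = Y`,
`|X Y| ≤ 1/32`, strictly increasing, `X p = 0`, continuous at `p`. `x i` increases to `p`; put
`ξ i = X (x i)` (for `|x i - p| < κ`), so `ξ i < ξ (i+1) < 0`, `ξ i → 0`.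

Proof.
0. `χ` is not constant on the ball (`χ (X Y) = Y` takes two different values), so it is an open map
   there (`AnalyticOnNhd.is_constant_or_isOpen` on the connected ball).
1. Choose `i0 ≥ 1` with `|x i - p| < κ` and `|ξ i| < r' := min (r / 4) (1/64)` for all `i ≥ i0` (continuity
   of `X` at `p`, `X p = 0`). Put `a = ξ i0`, `T = ξ (i0 + 1) - ξ i0 > 0`, so
   `[a, a + T] ⊆ (-r', 0)`.
2. `q ζ = ε * (fc c)^[s * i0] (χ ζ)`, continuous on the ball. `q a = α < 0` (by `hx`, `fr_fc_iter`,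
   `ε ^ 2 = 1`), `q (a + T) = -α > 0` (by `hx'`), `q (a + t)` is real for `t ∈ [0, T]` (`χ` is real on the
   reals, `fr_fc_iter`), i.e. its imaginary part is `0`.
3. By uniform continuity (compact segment `[a, a+T]`; or `IsCompact` + tube argument) there is
   `d ∈ (0, r')` such that for every `ζb` with `‖ζb - a‖ < d`:
   `(q ζb).re < 0`, `(q (ζb + T)).re > 0`, `|(q (ζb + t)).im| < √(c + B)` for all `t ∈ [0, T]`
   (`add_bet_pos`). All points `ζb + t` are in the ball of radius `2 r' ≤ 1/32`.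
4. `x i0 ∈ J`, so arbitrarily close to `x i0 = χ a` there are points not in `K`
   (`J = frontier K ⊆ closure Kᶜ`). As `χ` is open, `χ '' ball a d` is a neighbourhood of `x i0`: choose `ζb` with
   `‖ζb - a‖ < d`, `χ ζb ∉ K`.
5. Intermediate value theorem for `t ↦ (q (ζb + t)).re` on `[0, T]`: there is `t1` with
   `(q (ζb + t1)).re = 0`, so `q (ζb + t1) = σ I` with `σ ^ 2 < c + B`, in `K` (`hair_mem_filled`). By
   `neg_mem_filled_iff` and `iter_mem_filled_iff`, `χ (ζb + t1) ∈ K`.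
6. `A = {t ∈ [0, T] | χ (ζb + t) ∈ K}` is compact (`isCompact_filled` is closed; continuity) and nonempty; let
   `ts` be its least element. `ts > 0` since `χ ζb ∉ K`. `χ (ζb + ts) ∈ K` is the limit of
   `χ (ζb + t) ∉ K`, `t ↑ ts`, so it is in `J` (frontier = closure ∩ closure of the complement).
7. Choose `i ≥ i0` with `h := ξ (i+1) - ξ i < ts` (possible since `ξ i → 0`). `ρ := ζb + ts - ξ (i+1)`.
   `ξ (i+1) + ρ = ζb + ts`: in `J`. `ξ i + ρ = ζb + (ts - h)` with `0 < ts - h < ts ≤ T`: not in `K` by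
   minimality. `‖ρ‖ ≤ ‖ζb - a‖ + |a + ts - ξ (i+1)| < d + r' + r' ≤ 3 r' < r`, because `a + ts` and
   `ξ (i+1)` are in `[-r', 0]`.
-/

open Set Filter Topology

namespace JC

theorem sens {c : ℝ} (h1 : -2 < c) (h2 : c ≤ 0) {χ : ℂ → ℂ}
    (hχ : DifferentiableOn ℂ χ (Metric.ball 0 (1 / 8)))
    (hχr : ∀ x : ℝ, |x| < 1 / 8 → (χ (x : ℂ)).im = 0) {p κ : ℝ} (hκ : 0 < κ) {X : ℝ → ℝ}
    (hX1 : ∀ Y, |Y - p| < κ → |X Y| ≤ 1 / 32 ∧ χ (X Y : ℂ) = (Y : ℂ))
    (hXm : StrictMonoOn X (Ioo (p - κ) (p + κ))) (hXp : X p = 0) (hXc : ContinuousAt X p)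
    {x : ℕ → ℝ} (hxm : ∀ i, x i < x (i + 1)) (hxp : ∀ i, x i < p)
    (hxl : Tendsto x atTop (𝓝 p)) {α : ℝ} (hα : α < 0) {ε : ℝ} (hε : ε = 1 ∨ ε = -1) {s : ℕ}
    (hx : ∀ i, 1 ≤ i → (fr c)^[s * i] (x i) = ε * α)
    (hx' : ∀ i, 1 ≤ i → (fr c)^[s * i] (x (i + 1)) = ε * -α)
    (hJ : ∀ i, 1 ≤ i → (x i : ℂ) ∈ julia (c : ℂ)) {r : ℝ} (hr : 0 < r) :
    ∃ (i : ℕ) (ρ : ℂ), 1 ≤ i ∧ ‖ρ‖ < r ∧ |x i - p| < κ ∧ |x (i + 1) - p| < κ ∧
      |X (x i)| < r ∧ |X (x (i + 1))| < r ∧ χ ((X (x (i + 1)) : ℂ) + ρ) ∈ julia (c : ℂ) ∧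
      χ ((X (x i) : ℂ) + ρ) ∉ filled (c : ℂ) := by
  have hc2 : ‖(c : ℂ)‖ ≤ 2 := by
    rw [Complex.norm_real, Real.norm_eq_abs, abs_le]
    constructor <;> linarith
  have hKc : IsClosed (filled (c : ℂ)) := (isCompact_filled hc2).isClosed
  -- step 1: the starting index
  obtain ⟨r', hr'0, hr'1, hr'2⟩ : ∃ r' : ℝ, 0 < r' ∧ r' ≤ r / 4 ∧ r' ≤ 1 / 64 :=
    ⟨min (r / 4) (1 / 64), lt_min (by linarith) (by norm_num), min_le_left _ _, min_le_right _ _⟩
  have hXx : Tendsto (fun i => X (x i)) atTop (𝓝 0) := by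
    have h3 := hXc.tendsto.comp hxl
    rw [hXp] at h3
    exact h3
  obtain ⟨N1, hN1⟩ := (Metric.tendsto_atTop.1 hxl) κ hκ
  obtain ⟨N2, hN2⟩ := (Metric.tendsto_atTop.1 hXx) r' hr'0
  obtain ⟨i0, hi0, hi01, hi02⟩ : ∃ i0 : ℕ, 1 ≤ i0 ∧ N1 ≤ i0 ∧ N2 ≤ i0 :=
    ⟨max 1 (max N1 N2), le_max_left _ _, (le_max_left _ _).trans (le_max_right _ _),
      (le_max_right _ _).trans (le_max_right _ _)⟩
  have hnear : ∀ i, i0 ≤ i → |x i - p| < κ := fun i hi => by
    have h3 := hN1 i (hi01.trans hi)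
    rwa [Real.dist_eq] at h3
  have hsmall : ∀ i, i0 ≤ i → |X (x i)| < r' := fun i hi => by
    have h3 := hN2 i (hi02.trans hi)
    rwa [Real.dist_eq, sub_zero] at h3
  have hmem : ∀ i, i0 ≤ i → x i ∈ Ioo (p - κ) (p + κ) := fun i hi => by
    have h3 := abs_lt.1 (hnear i hi)
    exact ⟨by linarith, by linarith⟩
  have hpm : p ∈ Ioo (p - κ) (p + κ) := ⟨by linarith, by linarith⟩
  have hXlt : ∀ i, i0 ≤ i → X (x i) < X (x (i + 1)) := fun i hi =>
    hXm (hmem i hi) (hmem (i + 1) (by omega)) (hxm i)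
  have hXneg : ∀ i, i0 ≤ i → X (x i) < 0 := fun i hi => by
    have h3 := hXm (hmem i hi) hpm (hxp i)
    rwa [hXp] at h3
  have hχx : ∀ i, i0 ≤ i → χ (X (x i) : ℂ) = (x i : ℂ) := fun i hi => (hX1 _ (hnear i hi)).2
  obtain ⟨a, ha⟩ : ∃ a, a = X (x i0) := ⟨_, rfl⟩
  obtain ⟨T, hT⟩ : ∃ T, T = X (x (i0 + 1)) - X (x i0) := ⟨_, rfl⟩
  have hT0 : 0 < T := by
    rw [hT]
    linarith [hXlt i0 le_rfl]
  have haT : a + T = X (x (i0 + 1)) := by
    rw [ha, hT]
    ring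
  have ha1 : -r' < a := by
    rw [ha]
    exact (abs_lt.1 (hsmall i0 le_rfl)).1
  have haT0 : a + T < 0 := by
    rw [haT]
    exact hXneg _ (by omega)
  -- step 0: the map is open
  have hopen : ∀ U ⊆ Metric.ball (0 : ℂ) (1 / 8), IsOpen U → IsOpen (χ '' U) := by
    have h3 : AnalyticOnNhd ℂ χ (Metric.ball 0 (1 / 8)) := hχ.analyticOnNhd Metric.isOpen_ball
    rcases h3.is_constant_or_isOpen (convex_ball (0 : ℂ) (1 / 8)).isPreconnected with
      ⟨w, hw⟩ | h4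
    · exfalso
      have h5 : ∀ Y, |Y - p| < κ → (Y : ℂ) = w := by
        intro Y hY
        obtain ⟨h6, h7⟩ := hX1 Y hY
        rw [← h7]
        apply hw
        rw [mem_ball_zero_iff, Complex.norm_real, Real.norm_eq_abs]
        linarith
      have h6 := h5 p (by rw [sub_self, abs_zero]; exact hκ)
      have h7 := h5 (x i0) (hnear i0 le_rfl)
      rw [← h6] at h7
      have h8 := Complex.ofReal_injective h7
      exact absurd h8 (hxp i0).ne
    · exact h4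
  -- step 2: the map `q`
  obtain ⟨q, hq⟩ : ∃ q : ℂ → ℂ, ∀ z, q z = (ε : ℂ) * (fc (c : ℂ))^[s * i0] (χ z) :=
    ⟨_, fun _ => rfl⟩
  have hε2 : (ε : ℂ) * (ε : ℂ) = 1 := by
    rcases hε with h | h <;> rw [h] <;> norm_num
  have hqx : ∀ (z : ℂ) (y b : ℝ), χ z = (y : ℂ) → (fr c)^[s * i0] y = ε * b → q z = (b : ℂ) := by
    intro z y b h3 h4
    rw [hq, h3, fr_fc_iter, h4, Complex.ofReal_mul, ← mul_assoc, hε2, one_mul]
  have hqa : q (a : ℂ) = (α : ℂ) := by
    refine hqx _ (x i0) α ?_ (hx i0 hi0)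
    rw [ha]
    exact hχx i0 le_rfl
  have hqT : q ((a : ℂ) + (T : ℂ)) = ((-α : ℝ) : ℂ) := by
    refine hqx _ (x (i0 + 1)) (-α) ?_ (hx' i0 hi0)
    rw [← Complex.ofReal_add, haT]
    exact hχx (i0 + 1) (by omega)
  have hqr : ∀ t ∈ Icc (0 : ℝ) T, (q ((a : ℂ) + (t : ℂ))).im = 0 := by
    intro t ht
    have h3 : (χ ((a : ℂ) + (t : ℂ))).im = 0 := by
      rw [← Complex.ofReal_add]
      apply hχr
      rw [abs_lt]
      constructor
      · linarith [ht.1]
      · linarith [ht.2]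
    have h4 : χ ((a : ℂ) + (t : ℂ)) = (((χ ((a : ℂ) + (t : ℂ))).re : ℝ) : ℂ) := by
      apply Complex.ext
      · rw [Complex.ofReal_re]
      · rw [Complex.ofReal_im, h3]
    rw [hq, h4, fr_fc_iter, ← Complex.ofReal_mul, Complex.ofReal_im]
  have hχcont : ContinuousOn χ (Metric.closedBall 0 (1 / 16)) :=
    hχ.continuousOn.mono (Metric.closedBall_subset_ball (by norm_num))
  have hqcont : ContinuousOn q (Metric.closedBall 0 (1 / 16)) := by
    have h3 : ContinuousOn (fun z => (ε : ℂ) * (fc (c : ℂ))^[s * i0] (χ z))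
        (Metric.closedBall 0 (1 / 16)) :=
      continuousOn_const.mul
        ((fc_iter_differentiable (c : ℂ) (s * i0)).continuous.comp_continuousOn hχcont)
    exact h3.congr fun z _ => hq z
  -- step 3: uniform continuity
  have hB := add_bet_pos h1 h2
  obtain ⟨η, hη0, hη1, hη2⟩ : ∃ η : ℝ, 0 < η ∧ η ≤ -α ∧ η ≤ Real.sqrt (c + bet c) :=
    ⟨min (-α) (Real.sqrt (c + bet c)), lt_min (by linarith) (Real.sqrt_pos.2 hB),
      min_le_left _ _, min_le_right _ _⟩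
  have huc := (isCompact_closedBall (0 : ℂ) (1 / 16)).uniformContinuousOn_of_continuous hqcont
  rw [Metric.uniformContinuousOn_iff] at huc
  obtain ⟨δ, hδ0, hδ⟩ := huc η hη0
  obtain ⟨d, hd0, hd1, hd2⟩ : ∃ d : ℝ, 0 < d ∧ d ≤ δ ∧ d ≤ r' :=
    ⟨min δ r', lt_min hδ0 hr'0, min_le_left _ _, min_le_right _ _⟩
  have hball : ∀ z : ℂ, ‖z - (a : ℂ)‖ < d → ∀ t ∈ Icc (0 : ℝ) T,
      z + (t : ℂ) ∈ Metric.closedBall (0 : ℂ) (1 / 16) := by
    intro z hz t ht
    rw [mem_closedBall_zero_iff]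
    have h3 : z + (t : ℂ) = (z - (a : ℂ)) + ((a + t : ℝ) : ℂ) := by
      rw [Complex.ofReal_add]
      ring
    rw [h3]
    have h4 : |a + t| ≤ r' := by
      rw [abs_le]
      constructor
      · linarith [ht.1]
      · linarith [ht.2]
    calc ‖(z - (a : ℂ)) + ((a + t : ℝ) : ℂ)‖ ≤ ‖z - (a : ℂ)‖ + ‖((a + t : ℝ) : ℂ)‖ :=
          norm_add_le _ _
      _ ≤ r' + r' := by
          rw [Complex.norm_real, Real.norm_eq_abs]
          linarith
      _ ≤ 1 / 16 := by linarith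
  have hclose : ∀ z : ℂ, ‖z - (a : ℂ)‖ < d → ∀ t ∈ Icc (0 : ℝ) T,
      ‖q (z + (t : ℂ)) - q ((a : ℂ) + (t : ℂ))‖ < η := by
    intro z hz t ht
    have h3 := hδ (z + (t : ℂ)) (hball z hz t ht) ((a : ℂ) + (t : ℂ))
      (hball (a : ℂ) (by rw [sub_self, norm_zero]; exact hd0) t ht)
    rw [dist_eq_norm, dist_eq_norm] at h3
    apply h3
    have h4 : z + (t : ℂ) - ((a : ℂ) + (t : ℂ)) = z - (a : ℂ) := by ring
    rw [h4]
    linarith
  -- step 4: a point near `a` outside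
  have haball : Metric.ball (a : ℂ) d ⊆ Metric.ball (0 : ℂ) (1 / 8) := by
    intro z hz
    rw [Metric.mem_ball, dist_eq_norm] at hz
    have h3 := hball z hz 0 ⟨le_rfl, hT0.le⟩
    rw [Complex.ofReal_zero, add_zero] at h3
    exact Metric.closedBall_subset_ball (by norm_num) h3
  obtain ⟨zb, hzb1, hzb2⟩ : ∃ zb : ℂ, ‖zb - (a : ℂ)‖ < d ∧ χ zb ∉ filled (c : ℂ) := by
    have h3 := hopen _ haball Metric.isOpen_ball
    have h4 : (x i0 : ℂ) ∈ χ '' Metric.ball (a : ℂ) d := by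
      refine ⟨(a : ℂ), Metric.mem_ball_self hd0, ?_⟩
      rw [ha]
      exact hχx i0 le_rfl
    have h5 := hJ i0 hi0
    unfold julia at h5
    rw [frontier_eq_closure_inter_closure] at h5
    obtain ⟨w, hw1, hw2⟩ := mem_closure_iff.1 h5.2 _ h3 h4
    obtain ⟨zb, hzb, rfl⟩ := hw1
    rw [Metric.mem_ball, dist_eq_norm] at hzb
    exact ⟨zb, hzb, hw2⟩
  -- continuity along the segment
  have hline : Continuous fun t : ℝ => zb + (t : ℂ) := by fun_prop
  have hqline : ContinuousOn (fun t : ℝ => q (zb + (t : ℂ))) (Icc 0 T) :=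
    hqcont.comp hline.continuousOn fun t ht => hball zb hzb1 t ht
  have hχline : ContinuousOn (fun t : ℝ => χ (zb + (t : ℂ))) (Icc 0 T) :=
    hχcont.comp hline.continuousOn fun t ht => hball zb hzb1 t ht
  -- step 5: the intermediate value theorem
  obtain ⟨t1, ht1, ht1K⟩ : ∃ t1 ∈ Icc (0 : ℝ) T, χ (zb + (t1 : ℂ)) ∈ filled (c : ℂ) := by
    have h3 : (q (zb + ((0 : ℝ) : ℂ))).re ≤ 0 := by
      have h4 := hclose zb hzb1 0 ⟨le_rfl, hT0.le⟩
      rw [Complex.ofReal_zero, add_zero, add_zero, hqa] at h4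
      have h5 := (Complex.abs_re_le_norm _).trans_lt h4
      rw [Complex.sub_re, Complex.ofReal_re] at h5
      have h6 := (abs_lt.1 h5).2
      rw [Complex.ofReal_zero, add_zero]
      linarith
    have h3' : 0 ≤ (q (zb + (T : ℂ))).re := by
      have h4 := hclose zb hzb1 T ⟨hT0.le, le_rfl⟩
      rw [hqT] at h4
      have h5 := (Complex.abs_re_le_norm _).trans_lt h4
      rw [Complex.sub_re, Complex.ofReal_re] at h5
      have h6 := (abs_lt.1 h5).1
      linarith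
    have h7 : ContinuousOn (fun t : ℝ => (q (zb + (t : ℂ))).re) (Icc 0 T) :=
      Complex.continuous_re.comp_continuousOn hqline
    obtain ⟨t1, ht1, h8⟩ := intermediate_value_Icc hT0.le h7 ⟨h3, h3'⟩
    refine ⟨t1, ht1, ?_⟩
    obtain ⟨σ, hσ⟩ : ∃ σ : ℝ, σ = (q (zb + (t1 : ℂ))).im := ⟨_, rfl⟩
    have h9 : q (zb + (t1 : ℂ)) = (σ : ℂ) * Complex.I := by
      apply Complex.ext
      · rw [Complex.re_ofReal_mul, Complex.I_re, mul_zero]
        exact h8
      · rw [Complex.im_ofReal_mul, Complex.I_im, mul_one, hσ]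
    have h10 : |σ| < η := by
      have h4 := hclose zb hzb1 t1 ht1
      have h5 := (Complex.abs_im_le_norm _).trans_lt h4
      rw [Complex.sub_im, hqr t1 ht1, sub_zero, ← hσ] at h5
      exact h5
    have h11 : σ ^ 2 ≤ c + bet c := by
      have h12 : |σ| ≤ Real.sqrt (c + bet c) := by linarith
      have h13 := pow_le_pow_left₀ (abs_nonneg σ) h12 2
      rwa [sq_abs, Real.sq_sqrt hB.le] at h13
    have h12 := hair_mem_filled h1.le h2 h11
    rw [← h9, hq] at h12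
    have h13 : (fc (c : ℂ))^[s * i0] (χ (zb + (t1 : ℂ))) ∈ filled (c : ℂ) := by
      rcases hε with h | h
      · rw [h, Complex.ofReal_one, one_mul] at h12
        exact h12
      · rw [h, Complex.ofReal_neg, Complex.ofReal_one, neg_one_mul, neg_mem_filled_iff] at h12
        exact h12
    exact (iter_mem_filled_iff _).1 h13
  -- step 6: the first time
  have hAcomp : IsCompact {t : ℝ | t ∈ Icc (0 : ℝ) T ∧ χ (zb + (t : ℂ)) ∈ filled (c : ℂ)} := by
    refine isCompact_Icc.of_isClosed_subset ?_ fun t ht => ht.1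
    exact hχline.preimage_isClosed_of_isClosed isClosed_Icc hKc
  obtain ⟨ts, hts, htsmin⟩ := hAcomp.exists_isLeast ⟨t1, ht1, ht1K⟩
  have hts0 : 0 < ts := by
    rcases hts.1.1.lt_or_eq with h3 | h3
    · exact h3
    · exfalso
      apply hzb2
      have h4 := hts.2
      rw [← h3, Complex.ofReal_zero, add_zero] at h4
      exact h4
  have hbefore : ∀ t, 0 ≤ t → t < ts → χ (zb + (t : ℂ)) ∉ filled (c : ℂ) := by
    intro t h3 h4 h5
    have h6 := htsmin ⟨⟨h3, by linarith [hts.1.2]⟩, h5⟩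
    linarith
  have htsJ : χ (zb + (ts : ℂ)) ∈ julia (c : ℂ) := by
    unfold julia
    rw [frontier_eq_closure_inter_closure]
    refine ⟨subset_closure hts.2, ?_⟩
    have h3 : Tendsto (fun t : ℝ => χ (zb + (t : ℂ))) (𝓝[Ico 0 ts] ts)
        (𝓝 (χ (zb + (ts : ℂ)))) :=
      (hχline ts hts.1).mono_left
        (nhdsWithin_mono _ fun t ht => ⟨ht.1, ht.2.le.trans hts.1.2⟩)
    have : (𝓝[Ico 0 ts] ts).NeBot := by
      rw [← mem_closure_iff_nhdsWithin_neBot, closure_Ico hts0.ne]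
      exact ⟨hts0.le, le_rfl⟩
    refine mem_closure_of_tendsto h3 ?_
    filter_upwards [self_mem_nhdsWithin] with t ht
    exact hbefore t ht.1 ht.2
  -- step 7: the index and the translation
  obtain ⟨i, hi, hih⟩ : ∃ i, i0 ≤ i ∧ X (x (i + 1)) - X (x i) < ts := by
    have h3 : Tendsto (fun i => X (x (i + 1)) - X (x i)) atTop (𝓝 (0 - 0)) :=
      (hXx.comp (tendsto_add_atTop_nat 1)).sub hXx
    rw [sub_zero] at h3
    obtain ⟨N, hN⟩ := (Metric.tendsto_atTop.1 h3) ts hts0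
    refine ⟨max N i0, le_max_right _ _, ?_⟩
    have h4 := hN (max N i0) (le_max_left _ _)
    rw [Real.dist_eq, sub_zero] at h4
    exact (le_abs_self _).trans_lt h4
  have hi1 : i0 ≤ i + 1 := by omega
  refine ⟨i, zb + (ts : ℂ) - (X (x (i + 1)) : ℂ), hi0.trans hi, ?_, hnear i hi,
    hnear (i + 1) hi1, ?_, ?_, ?_, ?_⟩
  · have h3 : zb + (ts : ℂ) - (X (x (i + 1)) : ℂ) =
        (zb - (a : ℂ)) + ((a + ts - X (x (i + 1)) : ℝ) : ℂ) := by
      rw [Complex.ofReal_sub, Complex.ofReal_add]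
      ring
    rw [h3]
    have h4 := abs_lt.1 (hsmall (i + 1) hi1)
    have h5 := hXneg (i + 1) hi1
    have h6 : |a + ts - X (x (i + 1))| ≤ r' := by
      rw [abs_le]
      constructor
      · linarith
      · linarith [hts.1.2]
    calc ‖(zb - (a : ℂ)) + ((a + ts - X (x (i + 1)) : ℝ) : ℂ)‖
        ≤ ‖zb - (a : ℂ)‖ + ‖((a + ts - X (x (i + 1)) : ℝ) : ℂ)‖ := norm_add_le _ _
      _ < d + r' := by
          rw [Complex.norm_real, Real.norm_eq_abs]
          linarith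
      _ ≤ r := by linarith
  · linarith [hsmall i hi]
  · linarith [hsmall (i + 1) hi1]
  · have h3 : (X (x (i + 1)) : ℂ) + (zb + (ts : ℂ) - (X (x (i + 1)) : ℂ)) = zb + (ts : ℂ) := by
      ring
    rw [h3]
    exact htsJ
  · have h3 : (X (x i) : ℂ) + (zb + (ts : ℂ) - (X (x (i + 1)) : ℂ)) =
        zb + ((ts - (X (x (i + 1)) - X (x i)) : ℝ) : ℂ) := by
      rw [Complex.ofReal_sub, Complex.ofReal_sub]
      ring
    rw [h3]
    apply hbefore
    · linarith
    · linarith [hXlt i hi]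

end JC
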