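import Pool.Agent.Lib.JC.Core
import Pool.Agent.Lib.JC.Ratio

/-!
# JC.Gate : the gate theorem

Family `G c`, jointly continuous, entire in `z`, real on the reals, with uniform window constants
for `|c - c0| < δ0`. `X` a real orbit of `G c0` increasing to `b` with `ρ_m = Lm (G c0) X m → Φ`
uniformly on `ball (X 0) rL`, `‖Φ‖ ≤ 1/32`. `P` a real backward orbit decreasing to `b`, with
`F_m = Fm (G c0) P m → Ψ` uniformly on `ball 0 (1/16)`.

Claim: for every `η > 0` there are `m2 ≥ 1`, `K`, `δ > 0` such that for all `c` with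
`|c - c0| < δ`, all real `x` with `|x - X 0| < δ`, all `N ≥ K` such that the real orbit
`x_k = (G c)^[k] x`, `k ≤ N`, is strictly increasing and `|x_{N-m2} - P m2| < δ`:
`‖(G c)^[N] z - Ψ (Φ z)‖ < η` for all `z ∈ ball (X 0) rL`.

Proof. `Ψ` is uniformly continuous on `ball 0 (1/16)` (uniform limit of the entire functions `F_m`).
Let `ω > 0` be such that `‖a - a'‖ ≤ 4 ω` implies `‖Ψ a - Ψ a'‖ < η/4` (on the ball), `ω ≤ 1/200`. Choose
`lam > 0` with `4 lam ≤ r`, `32 C lam ≤ ω`. Choose `m1` with `b - lam < X m1` and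
`‖ρ_{m1} z - Φ z‖ ≤ ω` on the ball `B = ball (X 0) rL`, and `m2 ≥ 1` with `P m2 < b + lam` and
`‖F_{m2} a - Ψ a‖ < η/4` on `ball 0 (1/16)`. `K = m1 + m2`.
For `c` near `c0`, `x` near `X 0` (joint continuity, finitely many iterates, `B` bounded so the
estimates are uniform on `closedBall (X 0) rL`): with `x_k` real,
(a) `|x_{m1} - X m1|` is small, `x_{m1} > b - lam`; `v_c(x_{m1})` is near `v(X m1) > 0`, and
 `ρ^c(z) := ((G c)^[m1] z - x_{m1}) / v_c(x_{m1})` satisfies `‖ρ^c(z) - ρ_{m1}(z)‖ ≤ ω` on `B`; so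
 `‖ρ^c(z)‖ ≤ 1/32 + 2 ω ≤ 1/2`.
(b) `x_{N-m2} < b + lam`. As the orbit increases, `|x_k - b| ≤ lam` for `m1 ≤ k ≤ N - m2`. `ratio_orbit` for
 `G c` gives `(G c)^[N-m2] z = x' + ρ' v_c(x')`, `x' = x_{N-m2}`, `‖ρ' - ρ^c(z)‖ ≤ ω`. (`v_c(x') > 0`, since
 the orbit is increasing at the index `N - m2 < N`.) Hence `‖ρ' - Φ z‖ ≤ 3 ω`, `‖ρ'‖ < 1/16`.
(c) `(c, x', ρ') ↦ (G c)^[m2] (x' + ρ' v_c(x'))` is continuous, so uniformly for `‖ρ'‖ ≤ 1/16` it is within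
 `η/4` of `(G c0)^[m2] (P m2 + ρ' v(P m2)) = F_{m2}(ρ')` if `|c - c0|`, `|x' - P m2|` are small. Then
 `‖F_{m2}(ρ') - Ψ(ρ')‖ < η/4`, `‖Ψ(ρ') - Ψ(Φ z)‖ < η/4`. Total `< 3 η / 4`.
-/

open Set Filter Topology

namespace JC

namespace GateAux

lemma iter_cont {G : ℝ → ℂ → ℂ} (hG : Continuous fun p : ℝ × ℂ => G p.1 p.2) (m : ℕ) :
    Continuous fun p : ℝ × ℂ => (G p.1)^[m] p.2 := by
  induction m with
  | zero => exact continuous_snd
  | succ m ih =>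
    have h1 : Continuous fun p : ℝ × ℂ => (p.1, G p.1 p.2) := continuous_fst.prodMk hG
    exact ih.comp h1

lemma iter_real {g : ℂ → ℂ} (h : ∀ x : ℝ, (g (x : ℂ)).im = 0) (m : ℕ) (x : ℝ) :
    g^[m] (x : ℂ) = ((g^[m] (x : ℂ)).re : ℂ) := by
  have h0 : ∀ y : ℝ, g (y : ℂ) = ((g (y : ℂ)).re : ℂ) := fun y =>
    Complex.ext (by simp) (by simp [h y])
  cases m with
  | zero => simp
  | succ m =>
    have ih : ∀ (k : ℕ), ∃ y : ℝ, g^[k] (x : ℂ) = (y : ℂ) := by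
      intro k
      induction k with
      | zero => exact ⟨x, rfl⟩
      | succ k ihk =>
        obtain ⟨y, hy⟩ := ihk
        exact ⟨(g (y : ℂ)).re, by rw [Function.iterate_succ_apply', hy]; exact h0 y⟩
    obtain ⟨y, hy⟩ := ih (m + 1)
    rw [hy, Complex.ofReal_re]

lemma unif_close {A : Type*} [TopologicalSpace A] {f : A × ℂ → ℂ} {a0 : A} {K : Set ℂ}
    (hK : IsCompact K) (hf : ∀ z ∈ K, ContinuousAt f (a0, z)) {ε : ℝ} (hε : 0 < ε) :
    ∀ᶠ a in 𝓝 a0, ∀ z ∈ K, ‖f (a, z) - f (a0, z)‖ < ε := by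
  refine hK.eventually_forall_of_forall_eventually
    (P := fun a z => ‖f (a, z) - f (a0, z)‖ < ε) (fun z hz => ?_)
  have h1 : ContinuousAt (fun p : A × ℂ => f (p.1, p.2)) (a0, z) := hf z hz
  have h2 : ContinuousAt (fun p : A × ℂ => f (a0, p.2)) (a0, z) := by
    have h3 : ContinuousAt (fun p : A × ℂ => ((a0, p.2) : A × ℂ)) (a0, z) :=
      continuousAt_const.prodMk continuousAt_snd
    have h4 : Tendsto f (𝓝 ((a0, z) : A × ℂ)) (𝓝 (f (a0, z))) := hf z hz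
    exact Tendsto.comp (g := f) (f := fun p : A × ℂ => ((a0, p.2) : A × ℂ)) h4 h3
  have h5 : ContinuousAt (fun p : A × ℂ => ‖f (p.1, p.2) - f (a0, p.2)‖) (a0, z) :=
    (h1.sub h2).norm
  have h6 : (fun p : A × ℂ => ‖f (p.1, p.2) - f (a0, p.2)‖) (a0, z) < ε := by
    simpa using hε
  exact h5.eventually (gt_mem_nhds h6)

lemma lt_lim {g : ℂ → ℂ} {b : ℝ} {X : ℕ → ℝ} (D : LeftData g b X) (m : ℕ) : X m < b := by
  have hm : StrictMono X := strictMono_nat_of_lt_succ D.mono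
  refine lt_of_lt_of_le (D.mono m) ?_
  refine ge_of_tendsto D.lim ?_
  filter_upwards [eventually_ge_atTop (m + 1)] with n hn
  exact hm.monotone hn

lemma iter_X {g : ℂ → ℂ} {b : ℝ} {X : ℕ → ℝ} (D : LeftData g b X) (m : ℕ) :
    g^[m] (X 0 : ℂ) = (X m : ℂ) := by
  induction m with
  | zero => rfl
  | succ m ih => rw [Function.iterate_succ_apply', ih, D.step m]

end GateAux

open GateAux in
theorem gate (G : ℝ → ℂ → ℂ) (hG : Continuous fun p : ℝ × ℂ => G p.1 p.2)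
    (hd : ∀ c, Differentiable ℂ (G c)) (hr : ∀ (c x : ℝ), (G c (x : ℂ)).im = 0)
    {c0 b r C δ0 : ℝ} (hδ0 : 0 < δ0) (hW : ∀ c, |c - c0| < δ0 → Win (G c) b r C)
    {X : ℕ → ℝ} (DL : LeftData (G c0) b X) {Φ : ℂ → ℂ} {rL : ℝ}
    (hΦ : TendstoUniformlyOn (Lm (G c0) X) Φ atTop (Metric.ball (X 0 : ℂ) rL))
    (hΦb : ∀ z ∈ Metric.ball (X 0 : ℂ) rL, ‖Φ z‖ ≤ 1 / 32)
    {P : ℕ → ℝ} (DR : RightData (G c0) b P) {Ψ : ℂ → ℂ}
    (hΨ : TendstoUniformlyOn (Fm (G c0) P) Ψ atTop (Metric.ball 0 (1 / 16)))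
    {η : ℝ} (hη : 0 < η) :
    ∃ (m2 K : ℕ) (δ : ℝ), 0 < δ ∧ m2 ≤ K ∧ ∀ (c x : ℝ) (N : ℕ), |c - c0| < δ → |x - X 0| < δ →
      K ≤ N → (∀ k < N, ((G c)^[k] (x : ℂ)).re < ((G c)^[k + 1] (x : ℂ)).re) →
      |((G c)^[N - m2] (x : ℂ)).re - P m2| < δ →
      ∀ z ∈ Metric.ball (X 0 : ℂ) rL, ‖(G c)^[N] z - Ψ (Φ z)‖ < η := by
  classical
  have hC : 0 < C := (hW c0 (by simpa using hδ0)).hC
  have hr0 : 0 < r := (hW c0 (by simpa using hδ0)).hr
  -- modulus of continuity of `Ψ`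
  obtain ⟨ω, hω0, hω1, hω⟩ : ∃ ω : ℝ, 0 < ω ∧ ω ≤ 1 / 200 ∧ ∀ a a' : ℂ, ‖a‖ < 1 / 16 →
      ‖a'‖ < 1 / 16 → ‖a - a'‖ ≤ 4 * ω → ‖Ψ a - Ψ a'‖ < η / 4 := by
    have h1 := (Metric.tendstoUniformlyOn_iff.1 hΨ) (η / 12) (by positivity)
    obtain ⟨m0, hm0⟩ := h1.exists
    have hc : Continuous (Fm (G c0) P m0) := by
      have h2 : Continuous fun z : ℂ => (G c0)^[m0] z := by
        have h3 := (iter_cont hG m0).comp (Continuous.prodMk (continuous_const (y := c0)) continuous_id)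
        exact h3
      unfold Fm
      exact h2.comp (by fun_prop)
    have hu : UniformContinuousOn (Fm (G c0) P m0) (Metric.closedBall 0 (1 / 16)) :=
      (isCompact_closedBall _ _).uniformContinuousOn_of_continuous hc.continuousOn
    obtain ⟨d, hd0, hd1⟩ := (Metric.uniformContinuousOn_iff.1 hu) (η / 12) (by positivity)
    refine ⟨min (d / 8) (1 / 200), by positivity, min_le_right _ _, fun a a' ha ha' haa => ?_⟩
    have hA := hm0 a (by rwa [mem_ball_zero_iff])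
    have hA' := hm0 a' (by rwa [mem_ball_zero_iff])
    have hB := hd1 a (by rw [mem_closedBall_zero_iff]; exact ha.le) a'
      (by rw [mem_closedBall_zero_iff]; exact ha'.le) (by
        rw [dist_eq_norm]
        have := min_le_left (d / 8) (1 / 200)
        linarith)
    have hT := dist_triangle (Ψ a) (Fm (G c0) P m0 a) (Ψ a')
    have hT' := dist_triangle (Fm (G c0) P m0 a) (Fm (G c0) P m0 a') (Ψ a')
    rw [dist_comm (Fm (G c0) P m0 a') (Ψ a')] at hT'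
    rw [← dist_eq_norm]
    linarith
  -- the window
  obtain ⟨lam, hlam0, hlam4, hlam32, hlam1⟩ : ∃ lam : ℝ, 0 < lam ∧ 4 * lam ≤ r ∧ 32 * C * lam ≤ ω ∧
      32 * C * lam ≤ 1 := by
    refine ⟨min (r / 4) (ω / (32 * C)), by positivity, ?_, ?_, ?_⟩
    · have := min_le_left (r / 4) (ω / (32 * C))
      linarith
    · have := min_le_right (r / 4) (ω / (32 * C))
      rw [le_div_iff₀ (by positivity)] at this
      linarith
    · have := min_le_right (r / 4) (ω / (32 * C))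
      rw [le_div_iff₀ (by positivity)] at this
      linarith
  -- the index `m1`
  obtain ⟨m1, hm1a, hm1b⟩ : ∃ m1 : ℕ, b - lam < X m1 ∧ ∀ z ∈ Metric.ball (X 0 : ℂ) rL,
      dist (Φ z) (Lm (G c0) X m1 z) < ω := by
    have h1 := (Metric.tendstoUniformlyOn_iff.1 hΦ) ω hω0
    have h2 : ∀ᶠ m in atTop, b - lam < X m := DL.lim.eventually (lt_mem_nhds (by linarith))
    obtain ⟨m, hm⟩ := (h2.and h1).exists
    exact ⟨m, hm.1, hm.2⟩
  -- the index `m2`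
  obtain ⟨m2, hm21, hm2a, hm2b⟩ : ∃ m2 : ℕ, 1 ≤ m2 ∧ P m2 < b + lam ∧
      ∀ a ∈ Metric.ball (0 : ℂ) (1 / 16), dist (Ψ a) (Fm (G c0) P m2 a) < η / 4 := by
    have h1 := (Metric.tendstoUniformlyOn_iff.1 hΨ) (η / 4) (by positivity)
    have h2 : ∀ᶠ m in atTop, P m < b + lam := DR.lim.eventually (gt_mem_nhds (by linarith))
    obtain ⟨m, hm⟩ := ((h2.and h1).and (eventually_ge_atTop 1)).exists
    exact ⟨m, hm.2, hm.1.1, hm.1.2⟩
  -- continuity on the left side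
  have hcl : ∀ᶠ a : ℝ × ℝ in 𝓝 (c0, X 0), ∀ z ∈ Metric.closedBall (X 0 : ℂ) rL,
      ‖((G a.1)^[m1] z - (G a.1)^[m1] (a.2 : ℂ)) /
          ((G a.1)^[m1 + 1] (a.2 : ℂ) - (G a.1)^[m1] (a.2 : ℂ)) - Lm (G c0) X m1 z‖ < ω := by
    have hf : ∀ z ∈ Metric.closedBall (X 0 : ℂ) rL,
        ContinuousAt (fun q : (ℝ × ℝ) × ℂ => ((G q.1.1)^[m1] q.2 - (G q.1.1)^[m1] (q.1.2 : ℂ)) /
          ((G q.1.1)^[m1 + 1] (q.1.2 : ℂ) - (G q.1.1)^[m1] (q.1.2 : ℂ))) ((c0, X 0), z) := by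
      intro z _
      have e1 : Continuous fun q : (ℝ × ℝ) × ℂ => (G q.1.1)^[m1] q.2 :=
        (iter_cont hG m1).comp (continuous_fst.fst.prodMk continuous_snd)
      have e2 : ∀ m, Continuous fun q : (ℝ × ℝ) × ℂ => (G q.1.1)^[m] (q.1.2 : ℂ) := fun m =>
        (iter_cont hG m).comp (continuous_fst.fst.prodMk
          (Complex.continuous_ofReal.comp continuous_fst.snd))
      refine ContinuousAt.div (e1.sub (e2 m1)).continuousAt ((e2 (m1 + 1)).sub (e2 m1)).continuousAt ?_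
      show (G c0)^[m1 + 1] (X 0 : ℂ) - (G c0)^[m1] (X 0 : ℂ) ≠ 0
      rw [iter_X DL, iter_X DL, ← Complex.ofReal_sub]
      exact_mod_cast (sub_pos.2 (DL.mono m1)).ne'
    have h1 := unif_close (isCompact_closedBall (X 0 : ℂ) rL) hf hω0
    filter_upwards [h1] with a ha z hz
    have h2 := ha z hz
    have h3 : ((G c0)^[m1] z - (G c0)^[m1] (X 0 : ℂ)) /
          ((G c0)^[m1 + 1] (X 0 : ℂ) - (G c0)^[m1] (X 0 : ℂ)) = Lm (G c0) X m1 z := by
      unfold Lm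
      rw [iter_X DL, iter_X DL, DL.step m1]
    simp only [h3] at h2
    exact h2
  have hcl1 : ∀ᶠ a : ℝ × ℝ in 𝓝 (c0, X 0), b - lam < ((G a.1)^[m1] (a.2 : ℂ)).re := by
    have e2 : Continuous fun q : ℝ × ℝ => ((G q.1)^[m1] (q.2 : ℂ)).re :=
      Complex.continuous_re.comp ((iter_cont hG m1).comp
        (continuous_fst.prodMk (Complex.continuous_ofReal.comp continuous_snd)))
    have h1 : b - lam < (fun q : ℝ × ℝ => ((G q.1)^[m1] (q.2 : ℂ)).re) (c0, X 0) := by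
      show b - lam < ((G c0)^[m1] (X 0 : ℂ)).re
      rw [iter_X DL, Complex.ofReal_re]
      exact hm1a
    exact e2.continuousAt.eventually (lt_mem_nhds h1)
  -- continuity on the right side
  have hcr : ∀ᶠ a : ℝ × ℝ in 𝓝 (c0, P m2), ∀ z ∈ Metric.closedBall (0 : ℂ) (1 / 16),
      ‖(G a.1)^[m2] ((a.2 : ℂ) + z * (G a.1 (a.2 : ℂ) - (a.2 : ℂ))) - Fm (G c0) P m2 z‖ < η / 4 := by
    have hf : ∀ z ∈ Metric.closedBall (0 : ℂ) (1 / 16),
        ContinuousAt (fun q : (ℝ × ℝ) × ℂ =>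
          (G q.1.1)^[m2] ((q.1.2 : ℂ) + q.2 * (G q.1.1 (q.1.2 : ℂ) - (q.1.2 : ℂ))))
          ((c0, P m2), z) := by
      intro z _
      have e0 : Continuous fun q : (ℝ × ℝ) × ℂ => (q.1.2 : ℂ) :=
        Complex.continuous_ofReal.comp continuous_fst.snd
      have e1 : Continuous fun q : (ℝ × ℝ) × ℂ => G q.1.1 (q.1.2 : ℂ) :=
        hG.comp (continuous_fst.fst.prodMk e0)
      have e2 : Continuous fun q : (ℝ × ℝ) × ℂ =>
          (q.1.2 : ℂ) + q.2 * (G q.1.1 (q.1.2 : ℂ) - (q.1.2 : ℂ)) :=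
        e0.add (continuous_snd.mul (e1.sub e0))
      exact ((iter_cont hG m2).comp (continuous_fst.fst.prodMk e2)).continuousAt
    have h1 := unif_close (isCompact_closedBall (0 : ℂ) (1 / 16)) hf (show 0 < η / 4 by positivity)
    filter_upwards [h1] with a ha z hz
    exact ha z hz
  have hcr1 : ∀ᶠ a : ℝ × ℝ in 𝓝 (c0, P m2), a.2 < b + lam := by
    exact continuous_snd.continuousAt.eventually (gt_mem_nhds (show ((c0, P m2) : ℝ × ℝ).2 < b + lam from hm2a))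
  obtain ⟨δ1, hδ1, hL⟩ := Metric.eventually_nhds_iff.1 (hcl.and hcl1)
  obtain ⟨δ2, hδ2, hR⟩ := Metric.eventually_nhds_iff.1 (hcr.and hcr1)
  refine ⟨m2, m1 + m2, min δ0 (min δ1 δ2), by positivity, Nat.le_add_left _ _, ?_⟩
  intro c x N hc hx hN hmono hxN z hz
  have hc0 : |c - c0| < δ0 := lt_of_lt_of_le hc (min_le_left _ _)
  have hc1 : |c - c0| < δ1 := lt_of_lt_of_le hc ((min_le_right _ _).trans (min_le_left _ _))
  have hc2 : |c - c0| < δ2 := lt_of_lt_of_le hc ((min_le_right _ _).trans (min_le_right _ _))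
  have hx1 : |x - X 0| < δ1 := lt_of_lt_of_le hx ((min_le_right _ _).trans (min_le_left _ _))
  have hx2 : |((G c)^[N - m2] (x : ℂ)).re - P m2| < δ2 :=
    lt_of_lt_of_le hxN ((min_le_right _ _).trans (min_le_right _ _))
  have W := hW c hc0
  obtain ⟨hLa, hLb⟩ := @hL (c, x) (by
    rw [Prod.dist_eq, Real.dist_eq, Real.dist_eq]
    exact max_lt hc1 hx1)
  obtain ⟨hRa, hRb⟩ := @hR (c, ((G c)^[N - m2] (x : ℂ)).re) (by
    rw [Prod.dist_eq, Real.dist_eq, Real.dist_eq]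
    exact max_lt hc2 hx2)
  simp only at hLa hLb hRa hRb
  -- the real orbit
  set y : ℕ → ℝ := fun k => ((G c)^[k] (x : ℂ)).re with hy
  have hyc : ∀ k, (G c)^[k] (x : ℂ) = (y k : ℂ) := fun k => iter_real (hr c) k x
  have hystep : ∀ k, G c (y k : ℂ) = (y (k + 1) : ℂ) := by
    intro k
    rw [← hyc k, ← hyc (k + 1), Function.iterate_succ_apply']
  have hym : ∀ k < N, y k < y (k + 1) := fun k hk => hmono k hk
  have hyle : ∀ j k, j ≤ k → k ≤ N → y j ≤ y k := by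
    intro j k hjk
    induction k, hjk using Nat.le_induction with
    | base => intro _; exact le_rfl
    | succ k hk ih => intro h; exact (ih (by omega)).trans (hym k (by omega)).le
  have hLa' := hLa z (Metric.ball_subset_closedBall hz)
  rw [hyc, hyc] at hLa'
  set ρ : ℂ := ((G c)^[m1] z - (y m1 : ℂ)) / ((y (m1 + 1) : ℂ) - (y m1 : ℂ)) with hρ
  have hvne : (y (m1 + 1) : ℂ) - (y m1 : ℂ) ≠ 0 := by
    rw [← Complex.ofReal_sub]
    exact_mod_cast (sub_pos.2 (hym m1 (by omega))).ne'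
  have hz1 : (G c)^[m1] z = (y m1 : ℂ) + ρ * (G c (y m1 : ℂ) - (y m1 : ℂ)) := by
    rw [hystep, hρ, div_mul_cancel₀ _ hvne]
    ring
  have hρΦ : ‖ρ - Φ z‖ ≤ 2 * ω := by
    have h1 := hm1b z hz
    rw [dist_eq_norm, norm_sub_rev] at h1
    calc ‖ρ - Φ z‖ = ‖(ρ - Lm (G c0) X m1 z) + (Lm (G c0) X m1 z - Φ z)‖ := by
          rw [sub_add_sub_cancel]
      _ ≤ _ := norm_add_le _ _
      _ ≤ 2 * ω := by linarith
  have hρ1 : ‖ρ‖ ≤ 1 / 2 := by
    have h1 := hΦb z hz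
    calc ‖ρ‖ = ‖(ρ - Φ z) + Φ z‖ := by rw [sub_add_cancel]
      _ ≤ _ := norm_add_le _ _
      _ ≤ 1 / 2 := by linarith
  obtain ⟨ρ', hρ'1, hρ'2, -⟩ := ratio_orbit W hlam0 hlam4 hlam1 (N - m2 - m1)
    (fun k => y (m1 + k)) (fun k _ => hystep (m1 + k)) (fun k hk => hym (m1 + k) (by omega))
    (by
      show y (m1 + (N - m2 - m1)) < (G c (y (m1 + (N - m2 - m1)) : ℂ)).re
      rw [hystep, Complex.ofReal_re]
      exact hym _ (by omega))
    (by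
      intro k hk
      have h1 : y m1 ≤ y (m1 + k) := hyle _ _ (by omega) (by omega)
      have h2 : y (m1 + k) ≤ y (N - m2) := hyle _ _ (by omega) (by omega)
      rw [abs_le]
      constructor <;> linarith)
    ρ hρ1
  have hidx : m1 + (N - m2 - m1) = N - m2 := by omega
  simp only [add_zero, hidx] at hρ'2
  rw [← hz1, ← Function.iterate_add_apply, show N - m2 - m1 + m1 = N - m2 by omega] at hρ'2
  have hρ'ω : ‖ρ' - ρ‖ ≤ ω := by
    refine hρ'1.trans ?_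
    calc 32 * C * lam * ‖ρ‖ ≤ ω * 1 := by
          apply mul_le_mul hlam32 (by linarith) (norm_nonneg _) hω0.le
      _ = ω := mul_one _
  have hρ'Φ : ‖ρ' - Φ z‖ ≤ 3 * ω := by
    calc ‖ρ' - Φ z‖ = ‖(ρ' - ρ) + (ρ - Φ z)‖ := by rw [sub_add_sub_cancel]
      _ ≤ _ := norm_add_le _ _
      _ ≤ 3 * ω := by linarith
  have hΦ1 := hΦb z hz
  have hρ'n : ‖ρ'‖ < 1 / 16 := by
    calc ‖ρ'‖ = ‖(ρ' - Φ z) + Φ z‖ := by rw [sub_add_cancel]
      _ ≤ _ := norm_add_le _ _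
      _ < 1 / 16 := by linarith
  have hfin : (G c)^[N] z = (G c)^[m2] ((y (N - m2) : ℂ) +
      ρ' * (G c (y (N - m2) : ℂ) - (y (N - m2) : ℂ))) := by
    rw [← hρ'2, ← Function.iterate_add_apply, show m2 + (N - m2) = N by omega]
  have hE1 := hRa ρ' (by rw [mem_closedBall_zero_iff]; exact hρ'n.le)
  have hE2 := hm2b ρ' (by rw [mem_ball_zero_iff]; exact hρ'n)
  have hE3 := hω ρ' (Φ z) hρ'n (by linarith) (by linarith)
  rw [dist_eq_norm, norm_sub_rev] at hE2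
  rw [hfin]
  have hsum : (G c)^[m2] ((y (N - m2) : ℂ) + ρ' * (G c (y (N - m2) : ℂ) - (y (N - m2) : ℂ))) -
      Ψ (Φ z) = ((G c)^[m2] ((y (N - m2) : ℂ) +
        ρ' * (G c (y (N - m2) : ℂ) - (y (N - m2) : ℂ))) - Fm (G c0) P m2 ρ') +
      (Fm (G c0) P m2 ρ' - Ψ ρ') + (Ψ ρ' - Ψ (Φ z)) := by ring
  rw [hsum]
  refine lt_of_le_of_lt (norm_add_le _ _) ?_
  have h7 := norm_add_le ((G c)^[m2] ((y (N - m2) : ℂ) +
        ρ' * (G c (y (N - m2) : ℂ) - (y (N - m2) : ℂ))) - Fm (G c0) P m2 ρ')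
      (Fm (G c0) P m2 ρ' - Ψ ρ')
  linarith

end JC
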