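import Pool.Agent.Lib.JC.StTheta

/-!
# JC.StConv : locally uniform convergence `(-θ)^l → α`, continuity of `α` and `x_i` in `c`

`S : St`, `R = S.R`.
* `al_close`: fix `c1 ∈ S.seg`, `ω > 0`. The sets `(-θ_c)^l [-R, R]` are nested. At `c1`,
 `(-θ)^l (-R) → α`, `(-θ)^l R → α` (`negtheta_tendsto`) and `(-θ)^l` is monotone or antitone on `[-R, R]`
 (composition of antitone maps), so there is `l0` with `|(-θ_{c1})^{l0} y - α(c1)| < ω/3` for all `y ∈ [-R, R]`. By joint
 continuity of `(c, y) ↦ (-θ_c)^{l0} y` and compactness of `[-R,R]` there is `δ > 0` with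
 `|(-θ_c)^{l0} y - (-θ_{c1})^{l0} y| < ω/3` for `|c - c1| < δ`, `y ∈ [-R, R]`. For `l ≥ l0` and `c ∈ S.seg`, `|c - c1| < δ`:
 `(-θ_c)^l y = (-θ_c)^{l0} ((-θ_c)^{l-l0} y)`, so it is within `2ω/3` of `α(c1)`. Also `α(c) = (-θ_c)^{l0} (α(c))` is
 within `2ω/3` of `α(c1)`.
* `al_cont`: from the last statement. `xs_cont`: `(c, y) ↦ (θ_c)^i y` is jointly continuous.
* `E_close`: `E c i l y = (θ_c)^i ((-θ_c)^l (θ_c (-y)))`; `(θ_c)^i` is jointly continuous at `(c1, α(c1))`; use `al_close` with a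
 small `ω'` for the inner point. The conclusion compares with the value `x_i(c1)` and with `x_i(c)`.
* `E_mono`: for `l` odd, `y ↦ θ(-y)` is strictly decreasing, `(-θ)^l` strictly decreasing, `θ^i` strictly increasing on
 `[-R, R]`. `E_lt`: `θ(-y) > 0 > α`, `(-θ)^l` strictly decreasing with `(-θ)^l α = α`, so `(-θ)^l (θ(-y)) < α`, apply `θ^i`.
 `E_tendsto`: `negtheta_tendsto` and continuity of `θ^i`.
-/

open Set Filter Topology

namespace JC

namespace StConvAux

theorem iter_cont {F : ℝ → ℝ → ℝ} (hF : Continuous fun p : ℝ × ℝ => F p.1 p.2) (l : ℕ) :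
    Continuous fun p : ℝ × ℝ => (F p.1)^[l] p.2 := by
  induction l with
  | zero => exact continuous_snd
  | succ l ih =>
    have h : (fun p : ℝ × ℝ => (F p.1)^[l + 1] p.2) =
        fun p : ℝ × ℝ => F p.1 ((F p.1)^[l] p.2) := by
      funext p
      rw [Function.iterate_succ_apply']
    rw [h]
    exact hF.comp (continuous_fst.prodMk ih)

theorem neg_mem {R y : ℝ} (hy : y ∈ Icc (-R) R) : -y ∈ Icc (-R) R :=
  ⟨by linarith [hy.2], by linarith [hy.1]⟩

theorem negtheta_cont (S : St) : Continuous fun p : ℝ × ℝ => -S.theta p.1 p.2 :=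
  S.theta_cont.neg

theorem negiter_cont (S : St) (l : ℕ) :
    Continuous fun p : ℝ × ℝ => (fun x => -S.theta p.1 x)^[l] p.2 :=
  iter_cont (F := fun c x => -S.theta c x) (negtheta_cont S) l

variable {S : St} {c : ℝ}

theorem theta_iter_mono (hc : c ∈ S.seg) (i : ℕ) :
    StrictMonoOn ((S.theta c)^[i]) (Icc (-S.R) S.R) := by
  induction i with
  | zero => exact fun x _ y _ h => h
  | succ i ih =>
    intro x hx y hy h
    rw [Function.iterate_succ_apply, Function.iterate_succ_apply]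
    exact ih (St.theta_maps hc hx) (St.theta_maps hc hy) (St.theta_mono hc hx hy h)

theorem negiter_mono (hc : c ∈ S.seg) (l : ℕ) :
    (Even l → StrictMonoOn ((fun x => -S.theta c x)^[l]) (Icc (-S.R) S.R)) ∧
      (Odd l → StrictAntiOn ((fun x => -S.theta c x)^[l]) (Icc (-S.R) S.R)) := by
  induction l with
  | zero => exact ⟨fun _ x _ y _ h => h, fun h => absurd h (by decide)⟩
  | succ l ih =>
    constructor
    · intro he x hx y hy h
      have ho : Odd l := by
        rcases Nat.even_or_odd l with h1 | h1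
        · exact absurd he (Nat.not_even_iff_odd.2 h1.add_one)
        · exact h1
      rw [Function.iterate_succ_apply, Function.iterate_succ_apply]
      exact ih.2 ho (St.negtheta_maps hc hy) (St.negtheta_maps hc hx)
        (neg_lt_neg (St.theta_mono hc hx hy h))
    · intro ho x hx y hy h
      have he : Even l := by
        rcases Nat.even_or_odd l with h1 | h1
        · exact h1
        · exact absurd h1.add_one (Nat.not_even_iff_odd.2 ho)
      rw [Function.iterate_succ_apply, Function.iterate_succ_apply]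
      exact ih.1 he (St.negtheta_maps hc hy) (St.negtheta_maps hc hx)
        (neg_lt_neg (St.theta_mono hc hx hy h))

theorem al_mem' (hc : c ∈ S.seg) : S.al c ∈ Icc (-S.R) S.R := by
  have h := St.al_mem hc
  have hR := S.hR
  exact ⟨h.1.le, by linarith [h.2]⟩

theorem negiter_al (hc : c ∈ S.seg) (l : ℕ) :
    (fun x => -S.theta c x)^[l] (S.al c) = S.al c := by
  apply Function.iterate_fixed
  simp only [St.theta_al hc, neg_neg]

theorem R_mem (S : St) : S.R ∈ Icc (-S.R) S.R := by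
  have hR := S.hR
  exact ⟨by linarith, le_refl _⟩

end StConvAux

namespace St

variable {S : St} {c : ℝ}

theorem E_cont (S : St) (i l : ℕ) : Continuous fun p : ℝ × ℝ => S.E p.1 i l p.2 := by
  have h1 : Continuous fun p : ℝ × ℝ => S.theta p.1 (-p.2) :=
    S.theta_cont.comp (continuous_fst.prodMk continuous_snd.neg)
  have h2 : Continuous fun p : ℝ × ℝ => (fun x => -S.theta p.1 x)^[l] (S.theta p.1 (-p.2)) :=
    (StConvAux.negiter_cont S l).comp (continuous_fst.prodMk h1)
  exact (StConvAux.iter_cont S.theta_cont i).comp (continuous_fst.prodMk h2)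

theorem E_mem (hc : c ∈ S.seg) (i l : ℕ) {y : ℝ} (hy : y ∈ Icc (-S.R) S.R) :
    S.E c i l y ∈ Icc (-S.R) S.R :=
  theta_iter_maps hc (negtheta_iter_maps hc (theta_maps hc (StConvAux.neg_mem hy)) l) i

theorem E_mono (hc : c ∈ S.seg) (i : ℕ) {l : ℕ} (hl : Odd l) :
    StrictMonoOn (S.E c i l) (Icc (-S.R) S.R) := by
  intro x hx y hy h
  have hx' := StConvAux.neg_mem hx
  have hy' := StConvAux.neg_mem hy
  have h1 : S.theta c (-y) < S.theta c (-x) := theta_mono hc hy' hx' (neg_lt_neg h)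
  have h2 := (StConvAux.negiter_mono hc l).2 hl (theta_maps hc hy') (theta_maps hc hx') h1
  exact StConvAux.theta_iter_mono hc i (negtheta_iter_maps hc (theta_maps hc hx') l)
    (negtheta_iter_maps hc (theta_maps hc hy') l) h2

theorem E_lt (hc : c ∈ S.seg) (i : ℕ) {l : ℕ} (hl : Odd l) {y : ℝ} (hy : y ∈ Icc (-S.R) S.R) :
    S.E c i l y < S.xs c i := by
  have hy' := StConvAux.neg_mem hy
  have h1 : S.al c < S.theta c (-y) := (al_mem hc).2.trans (theta_mem hc hy').2.1
  have h2 := (StConvAux.negiter_mono hc l).2 hl (StConvAux.al_mem' hc) (theta_maps hc hy') h1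
  rw [StConvAux.negiter_al hc] at h2
  exact StConvAux.theta_iter_mono hc i (negtheta_iter_maps hc (theta_maps hc hy') l)
    (StConvAux.al_mem' hc) h2

theorem E_tendsto (hc : c ∈ S.seg) (i : ℕ) {y : ℝ} (hy : y ∈ Icc (-S.R) S.R) :
    Tendsto (fun l => S.E c i l y) atTop (𝓝 (S.xs c i)) := by
  have h1 := negtheta_tendsto hc (theta_maps hc (StConvAux.neg_mem hy))
  have h2 : Continuous ((S.theta c)^[i]) :=
    (StConvAux.iter_cont S.theta_cont i).comp (continuous_const.prodMk continuous_id)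
  exact (h2.tendsto (S.al c)).comp h1

theorem al_close (S : St) {c1 : ℝ} (h1 : c1 ∈ S.seg) {ω : ℝ} (hω : 0 < ω) :
    ∃ δ > 0, ∃ l0 : ℕ, ∀ c ∈ S.seg, |c - c1| < δ → |S.al c - S.al c1| < ω ∧
      ∀ l ≥ l0, ∀ y ∈ Icc (-S.R) S.R, |(fun x => -S.theta c x)^[l] y - S.al c1| < ω := by
  have hR := StConvAux.R_mem S
  have hR' := StConvAux.neg_mem hR
  have e1 := (Metric.tendsto_nhds.1 (negtheta_tendsto h1 hR)) ω hω
  have e2 := (Metric.tendsto_nhds.1 (negtheta_tendsto h1 hR')) ω hω
  obtain ⟨l0, k1, k2⟩ := (e1.and e2).exists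
  rw [Real.dist_eq, abs_lt] at k1 k2
  -- at the parameter c1 the iterate is close to the fixed point on the whole interval
  have h2 : ∀ y ∈ Icc (-S.R) S.R, |(fun x => -S.theta c1 x)^[l0] y - S.al c1| < ω := by
    intro y hy
    rw [abs_lt]
    rcases Nat.even_or_odd l0 with he | ho
    · have m := ((StConvAux.negiter_mono h1 l0).1 he).monotoneOn
      have m1 := m hR' hy hy.1
      have m2 := m hy hR hy.2
      exact ⟨by linarith [k2.1], by linarith [k1.2]⟩
    · have m := ((StConvAux.negiter_mono h1 l0).2 ho).antitoneOn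
      have m1 := m hR' hy hy.1
      have m2 := m hy hR hy.2
      exact ⟨by linarith [k1.1], by linarith [k2.2]⟩
  have h3 : ∀ᶠ c in 𝓝 c1, ∀ y ∈ Icc (-S.R) S.R,
      |(fun x => -S.theta c x)^[l0] y - S.al c1| < ω := by
    apply isCompact_Icc.eventually_forall_of_forall_eventually
    intro y hy
    have hcont : Continuous fun p : ℝ × ℝ => |(fun x => -S.theta p.1 x)^[l0] p.2 - S.al c1| :=
      ((StConvAux.negiter_cont S l0).sub continuous_const).abs
    exact hcont.continuousAt.eventually (gt_mem_nhds (h2 y hy))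
  obtain ⟨δ, hδ, h4⟩ := Metric.eventually_nhds_iff.1 h3
  refine ⟨δ, hδ, l0, fun c hc hcδ => ?_⟩
  have h5 := h4 (show dist c c1 < δ by rwa [Real.dist_eq])
  constructor
  · have h6 := h5 _ (StConvAux.al_mem' hc)
    rwa [StConvAux.negiter_al hc] at h6
  · intro l hl y hy
    obtain ⟨m, rfl⟩ := Nat.exists_eq_add_of_le hl
    rw [Function.iterate_add_apply]
    exact h5 _ (negtheta_iter_maps hc hy m)

theorem al_cont (S : St) : ContinuousOn S.al S.seg := by
  rw [Metric.continuousOn_iff]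
  intro c1 h1 ω hω
  obtain ⟨δ, hδ, l0, h⟩ := al_close S h1 hω
  refine ⟨δ, hδ, fun c hc hcδ => ?_⟩
  rw [Real.dist_eq] at hcδ ⊢
  exact (h c hc hcδ).1

theorem xs_cont (S : St) (i : ℕ) : ContinuousOn (fun c => S.xs c i) S.seg :=
  (StConvAux.iter_cont S.theta_cont i).comp_continuousOn (continuousOn_id.prodMk (al_cont S))

theorem E_close (S : St) (i : ℕ) {c1 : ℝ} (h1 : c1 ∈ S.seg) {ω : ℝ} (hω : 0 < ω) :
    ∃ δ > 0, ∃ l0 : ℕ, ∀ c ∈ S.seg, |c - c1| < δ → ∀ l ≥ l0, ∀ y ∈ Icc (-S.R) S.R,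
      |S.E c i l y - S.xs c1 i| < ω ∧ |S.E c i l y - S.xs c i| < ω := by
  have hcont := (StConvAux.iter_cont S.theta_cont i)
  have h2 := (Metric.continuous_iff.1 hcont) (c1, S.al c1) (ω / 2) (half_pos hω)
  obtain ⟨ρ, hρ, h3⟩ := h2
  have h4 : ∀ c y : ℝ, |c - c1| < ρ → |y - S.al c1| < ρ →
      |(S.theta c)^[i] y - S.xs c1 i| < ω / 2 := by
    intro c y hc hy
    have h5 : dist (c, y) (c1, S.al c1) < ρ := by
      rw [Prod.dist_eq, max_lt_iff, Real.dist_eq, Real.dist_eq]
      exact ⟨hc, hy⟩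
    have h6 := h3 (c, y) h5
    rw [Real.dist_eq] at h6
    exact h6
  obtain ⟨δ, hδ, l0, h5⟩ := al_close S h1 hρ
  refine ⟨min δ ρ, lt_min hδ hρ, l0, fun c hc hcδ l hl y hy => ?_⟩
  have hc1 := lt_of_lt_of_le hcδ (min_le_left _ _)
  have hc2 := lt_of_lt_of_le hcδ (min_le_right _ _)
  obtain ⟨h6, h7⟩ := h5 c hc hc1
  have h8 := h4 c _ hc2 (h7 l hl _ (theta_maps hc (StConvAux.neg_mem hy)))
  have h9 := h4 c _ hc2 h6
  have h10 : |S.E c i l y - S.xs c1 i| < ω / 2 := h8
  have h11 : |S.xs c i - S.xs c1 i| < ω / 2 := h9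
  refine ⟨by linarith, ?_⟩
  rw [abs_lt] at h10 h11 ⊢
  exact ⟨by linarith [h10.1, h11.2], by linarith [h10.2, h11.1]⟩

end St

end JC
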