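import Pool.Agent.Lib.JC.AnDef
import Pool.Agent.Lib.JC.Ct
import Pool.Agent.Lib.JC.CuspUse
import Pool.Agent.Lib.JC.StConv
import Pool.Agent.Lib.JC.ExistsWin
import Pool.Agent.Lib.JC.Gate

/-!
# JC.GateUse : the gate theorem for the states produced by Move 2 with target `x_i`

Move 2 gives for its parameters `c = S.ct t` a point `e` which is `δ`-close to the target `x_i(c)` with
`Passes S c N e`: `e ≤ R`, `h_c^N e = y0(c)` and all earlier points are `> y0(c)`.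

`gate_use`. `c0 = S.ct t0`. Use `gate` for `G = S.G` with
* `hW`: `exists_win` (with `cusp_deriv C`) gives `r`, `C`, `δ0`;
* `DL := cusp_left C`, `X m = (S.Gr c0)^[m] (S.y0 c0)`, `X 0 = S.y0 c0`; `Φ` from `D` (`ΦL`, `Φb`);
* `P m = (S.h c0)^[m] (S.xs c0 i)`, `DR := cusp_right C` with `Y = S.xs c0 i ∈ (b, R)` (`cusp_pf`, `xs_lt_pf`,
  `pf_lt_R`); `Ψ ρ = χ (X (S.xs c0 i) + ρ)`, `hΨ` from `D.X1` (as `|xs - pf| < κ`).
`gate` gives `m2 ≤ K0` and `δ1`. Let `c = S.ct t`, `x = S.y0 c`. For `t` close to `t0`: `|c - c0| < δ1`,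
`|S.y0 c - S.y0 c0| < δ1` (`y0_continuous`). For `k ≤ N`: `(S.Gr c)^[k] (S.y0 c) = (S.h c)^[N-k] e` by induction on
`k`: it is true for `k = 0`, and `S.Gr c (S.h c y) = y` for `y = (S.h c)^[N-k-1] e ∈ [y0 c, R]` (`Gr_h`; it is
`> y0 c` by hypothesis and `≤ R` because `e ≤ R` and `S.h c y < y` (`openh`), so all iterates are `≤ e`). The orbit is
strictly increasing: `(S.h c)^[j+1] e < (S.h c)^[j] e` for `j < N` by `openh` (`t0 < t ≤ 1`). The complex iterates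
are the real ones (`G_real`), so the hypotheses of `gate` on real parts hold. Finally
`(S.Gr c)^[N-m2] (S.y0 c) = (S.h c)^[m2] e` is close to `(S.h c0)^[m2] (S.xs c0 i) = P m2`: the map
`(c, y) ↦ (S.h c)^[m2] y` is continuous (`h_continuous`, induction), `|e - S.xs c i| < δ` and
`S.xs c i → S.xs c0 i` as `c → c0` inside `S.seg` (`xs_continuousOn`, `ct_mem`).
-/

open Set Filter Topology

namespace JC

theorem gate_use {S : St} {t0 b : ℝ} (C : CuspData S t0 b) {Φ : ℂ → ℂ} {rL : ℝ} {χ : ℂ → ℂ} {κ : ℝ}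
    {X : ℝ → ℝ} (D : AnData S t0 Φ rL χ κ X) {i : ℕ} (hi : 1 ≤ i)
    (hik : |S.xs (S.ct t0) i - S.pf (S.ct t0)| < κ) {η : ℝ} (hη : 0 < η) :
    ∃ (K : ℕ) (δ : ℝ), 0 < δ ∧ ∀ (t e : ℝ) (N : ℕ), t0 < t → t < t0 + δ → t ≤ 1 → K ≤ N →
      |e - S.xs (S.ct t) i| < δ → Passes S.toPreSt (S.ct t) N e →
        ∀ z ∈ Metric.ball (S.y0 (S.ct t0) : ℂ) rL,
          ‖(S.G (S.ct t))^[N] z - χ ((X (S.xs (S.ct t0) i) : ℂ) + Φ z)‖ < η := by
  have hc := C.mem_seg
  have hxR : S.xs (S.ct t0) i ∈ Ioo b S.R :=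
    ⟨C.b_lt_xs hi, (St.xs_lt_pf hc i).trans (St.pf_mem hc).2⟩
  obtain ⟨r, Cc, δ0, hδ0, hW⟩ := exists_win S.G S.G_cont S.G_diff
    (fun c x => by rw [S.G_real, Complex.ofReal_im]) (S.ct t0) b C.deriv_G_b
  obtain ⟨hX1, hX2, hX3⟩ := D.X1 (S.xs (S.ct t0) i) hik
  obtain ⟨m2, K0, δ1, hδ1, hm2, hgate⟩ := gate S.G S.G_cont S.G_diff
    (fun c x => by rw [S.G_real, Complex.ofReal_im]) hδ0 hW C.left_data D.ΦL D.Φb
    (C.right_data hxR) hX3 hη
  -- continuity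
  have hcont1 : ∀ m : ℕ, Continuous fun p : ℝ × ℝ => (S.h p.1)^[m] p.2 := by
    intro m
    induction m with
    | zero => exact continuous_snd
    | succ m ih =>
      simp only [Function.iterate_succ_apply']
      exact S.h_cont.comp (continuous_fst.prodMk ih)
  obtain ⟨δ2, hδ2, h2⟩ := Metric.continuous_iff.1 (hcont1 m2) (S.ct t0, S.xs (S.ct t0) i) δ1 hδ1
  obtain ⟨δ3, hδ3, h3⟩ := Metric.continuousOn_iff.1 (S.xs_cont i) (S.ct t0) hc (δ2 / 2) (half_pos hδ2)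
  obtain ⟨δ4, hδ4, h4⟩ := Metric.continuous_iff.1 S.y0_cont (S.ct t0) δ1 hδ1
  obtain ⟨δ5, hδ5, h5⟩ := Metric.continuous_iff.1 S.ct_continuous t0 (min (min δ1 δ2) (min δ3 δ4))
    (lt_min (lt_min hδ1 hδ2) (lt_min hδ3 hδ4))
  refine ⟨K0, min δ5 (δ2 / 2), lt_min hδ5 (half_pos hδ2), ?_⟩
  intro t e N ht htδ ht1 hKN he hp
  have htt : 0 ≤ t := C.ht0.trans ht.le
  have hct : S.ct t ∈ S.seg := S.ct_mem_seg htt ht1
  have hd := h5 t (by
    rw [Real.dist_eq, abs_of_pos (sub_pos.2 ht)]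
    have := min_le_left δ5 (δ2 / 2)
    linarith)
  have hd1 : |S.ct t - S.ct t0| < δ1 := by
    rw [← Real.dist_eq]
    exact hd.trans_le ((min_le_left _ _).trans (min_le_left _ _))
  have hd2 : dist (S.ct t) (S.ct t0) < δ2 := hd.trans_le ((min_le_left _ _).trans (min_le_right _ _))
  have hd3 : dist (S.ct t) (S.ct t0) < δ3 := hd.trans_le ((min_le_right _ _).trans (min_le_left _ _))
  have hd4 : dist (S.ct t) (S.ct t0) < δ4 := hd.trans_le ((min_le_right _ _).trans (min_le_right _ _))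
  have hx := h3 _ hct hd3
  have he2 : |e - S.xs (S.ct t) i| < δ2 / 2 := he.trans_le (min_le_right _ _)
  have he3 : dist e (S.xs (S.ct t0) i) < δ2 := by
    rw [Real.dist_eq] at hx ⊢
    calc |e - S.xs (S.ct t0) i| = |(e - S.xs (S.ct t) i) + (S.xs (S.ct t) i - S.xs (S.ct t0) i)| := by
          ring_nf
      _ ≤ |e - S.xs (S.ct t) i| + |S.xs (S.ct t) i - S.xs (S.ct t0) i| := abs_add_le _ _
      _ < δ2 := by linarith
  refine hgate (S.ct t) (S.y0 (S.ct t)) N hd1 ?_ hKN ?_ ?_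
  · have := h4 _ hd4
    rw [Real.dist_eq] at this
    exact this
  · intro k hk
    rw [S.G_iter_real, S.G_iter_real, Complex.ofReal_re, Complex.ofReal_re,
      PreSt.orbit_passes hct hp hk.le, PreSt.orbit_passes hct hp (Nat.succ_le_of_lt hk)]
    obtain ⟨j, rfl⟩ : ∃ j, N = k + 1 + j := ⟨N - (k + 1), by omega⟩
    have e1 : k + 1 + j - k = j + 1 := by omega
    have e2 : k + 1 + j - (k + 1) = j := by omega
    rw [e1, e2, Function.iterate_succ_apply']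
    exact C.gate t ht ht1 _ (PreSt.passes_mem hct hp (by omega))
  · rw [S.G_iter_real, Complex.ofReal_re, PreSt.orbit_passes hct hp (Nat.sub_le _ _)]
    have e1 : N - (N - m2) = m2 := by omega
    rw [e1]
    have := h2 (S.ct t, e) (by
      rw [Prod.dist_eq]
      exact max_lt hd2 he3)
    rw [Real.dist_eq] at this
    exact this

end JC
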