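import Pool.Agent.Lib.JC.Core
import Pool.Agent.Lib.JC.KBasic

/-!
# JC.Inv : the return map preserves the filled Julia set and the Julia set

`S.G c z = ε * (fc c)^[n] z` with `ε = 1` or `ε = -1`: `neg_mem_filled_iff`, `iter_mem_filled_iff`, and the same for
`julia`. Then induction on `N` (`Function.iterate_succ_apply'`).
-/

open Set Filter Topology

namespace JC

theorem G_mem_filled (S : PreSt) (c : ℝ) (z : ℂ) :
    S.G c z ∈ filled (c : ℂ) ↔ z ∈ filled (c : ℂ) := by
  rcases S.hε with h | h
  · simp only [PreSt.G, h, Complex.ofReal_one, one_mul]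
    exact iter_mem_filled_iff _
  · simp only [PreSt.G, h, Complex.ofReal_neg, Complex.ofReal_one, neg_mul, one_mul]
    rw [neg_mem_filled_iff]
    exact iter_mem_filled_iff _

theorem G_iter_mem_filled (S : PreSt) (c : ℝ) (N : ℕ) (z : ℂ) :
    (S.G c)^[N] z ∈ filled (c : ℂ) ↔ z ∈ filled (c : ℂ) := by
  induction N with
  | zero => simp
  | succ N ih => rw [Function.iterate_succ_apply', G_mem_filled, ih]

theorem G_mem_julia (S : PreSt) (c : ℝ) (z : ℂ) :
    S.G c z ∈ julia (c : ℂ) ↔ z ∈ julia (c : ℂ) := by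
  rcases S.hε with h | h
  · simp only [PreSt.G, h, Complex.ofReal_one, one_mul]
    exact iter_mem_julia_iff _
  · simp only [PreSt.G, h, Complex.ofReal_neg, Complex.ofReal_one, neg_mul, one_mul]
    rw [neg_mem_julia_iff]
    exact iter_mem_julia_iff _

theorem G_iter_mem_julia (S : PreSt) (c : ℝ) (N : ℕ) (z : ℂ) :
    (S.G c)^[N] z ∈ julia (c : ℂ) ↔ z ∈ julia (c : ℂ) := by
  induction N with
  | zero => simp
  | succ N ih => rw [Function.iterate_succ_apply', G_mem_julia, ih]

end JC
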