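import Pool.Agent.Lib.JC.Core

/-!
# JC.Harnack : Harnack inequality for zero-free holomorphic functions

* `harnack_re`: `L` holomorphic on `ball w ρ` with `0 ≤ Re L`. Let `A = L w`. If `Re A = 0` then
 `exp (-L)` has modulus `≤ 1` with equality at the centre, so `Re L = 0` everywhere (maximum
 principle) and the inequalities are trivial; or replace `L` by `L + e`, `e > 0`, and let `e → 0`. If
 `Re A > 0`: `T z = (L z - A) / (L z + conj A)` maps the ball into the unit ball, `T w = 0`; by the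
 Schwarz lemma (`Complex.dist_le_div_mul_dist_of_mapsTo_ball` or the versions in
 `Mathlib/Analysis/Complex/Schwarz.lean`) `‖T z‖ ≤ q := ‖z - w‖ / ρ`. With `L z = (A + conj A T) / (1 - T)`
 and `Re L z = Re A * (1 - ‖T‖^2) / ‖1 - T‖^2` one gets
 `Re A (1 - q)/(1 + q) ≤ Re L z ≤ Re A (1 + q)/(1 - q)`.
 (Check: `L - A = T (L + conj A)`, so `L (1 - T) = A + T conj A`; take real parts of
 `(A + T conj A)(1 - conj T) / ‖1 - T‖^2`.)
 An alternative is the Poisson integral: `re_herglotzRieszKernel_le` and `le_re_herglotzRieszKernel`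
 in `Mathlib/Analysis/Complex/Poisson.lean`.
* `harnack_log`: `F` holomorphic on `ball w ρ` with `1 ≤ ‖F z‖`. The ball is simply connected (convex),
 so `F = exp ∘ L` with `L` holomorphic (`Mathlib/Analysis/Complex/BranchLogRoot.lean`,
 or a primitive of `F' / F`, `Mathlib/Analysis/Complex/HasPrimitives.lean`), `Re L = log ‖F‖ ≥ 0`.
-/

open Set Filter Topology

namespace JC

namespace HarnackAux

theorem pos_case {L : ℂ → ℂ} {w : ℂ} {ρ : ℝ} (hL : DifferentiableOn ℂ L (Metric.ball w ρ))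
    (h0 : ∀ z ∈ Metric.ball w ρ, 0 < (L z).re) {z : ℂ} {r : ℝ} (hr : r < ρ) (hz : ‖z - w‖ ≤ r) :
    (ρ - r) * (L w).re ≤ (L z).re * (ρ + r) ∧ (L z).re * (ρ - r) ≤ (ρ + r) * (L w).re := by
  have hr0 : 0 ≤ r := le_trans (norm_nonneg _) hz
  have hρ : 0 < ρ := lt_of_le_of_lt hr0 hr
  have hwb : w ∈ Metric.ball w ρ := Metric.mem_ball_self hρ
  have hzb : z ∈ Metric.ball w ρ := by
    rw [Metric.mem_ball, dist_eq_norm]; exact lt_of_le_of_lt hz hr
  have ha : 0 < (L w).re := h0 w hwb
  set T : ℂ → ℂ := fun u => (L u - L w) / (L u + (starRingEnd ℂ) (L w)) with hT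
  have hden : ∀ u ∈ Metric.ball w ρ, L u + (starRingEnd ℂ) (L w) ≠ 0 := by
    intro u hu h
    have h1 := congrArg Complex.re h
    have h2 := h0 u hu
    simp only [Complex.add_re, Complex.conj_re, Complex.zero_re] at h1
    linarith
  have hTd : DifferentiableOn ℂ T (Metric.ball w ρ) := by
    apply DifferentiableOn.div
    · exact hL.sub_const _
    · exact hL.add_const _
    · exact hden
  have hTw : T w = 0 := by simp [hT]
  have hnum : ∀ u, ‖L u - L w‖ ^ 2 = ((L u).re - (L w).re) ^ 2 + ((L u).im - (L w).im) ^ 2 := by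
    intro u
    rw [← Complex.normSq_eq_norm_sq, Complex.normSq_apply]
    simp only [Complex.sub_re, Complex.sub_im]
    ring
  have hdn : ∀ u, ‖L u + (starRingEnd ℂ) (L w)‖ ^ 2 =
      ((L u).re + (L w).re) ^ 2 + ((L u).im - (L w).im) ^ 2 := by
    intro u
    rw [← Complex.normSq_eq_norm_sq, Complex.normSq_apply]
    simp only [Complex.add_re, Complex.add_im, Complex.conj_re, Complex.conj_im]
    ring
  have hmaps : Set.MapsTo T (Metric.ball w ρ) (Metric.closedBall (T w) 1) := by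
    intro u hu
    rw [hTw, Metric.mem_closedBall, dist_zero_right]
    simp only [hT]
    rw [norm_div, div_le_one (norm_pos_iff.mpr (hden u hu))]
    have h1 := hnum u
    have h2 := hdn u
    have h3 := h0 u hu
    have h4 : ‖L u - L w‖ ^ 2 ≤ ‖L u + (starRingEnd ℂ) (L w)‖ ^ 2 := by
      rw [h1, h2]; nlinarith [mul_pos h3 ha]
    exact le_of_sq_le_sq h4 (norm_nonneg _)
  have hS := Complex.dist_le_div_mul_dist_of_mapsTo_ball hTd hmaps hzb
  rw [hTw, dist_zero_right, dist_eq_norm] at hS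
  have hq : ‖T z‖ ≤ r / ρ := by
    refine le_trans hS ?_
    rw [one_div, div_eq_mul_inv, mul_comm]
    exact mul_le_mul_of_nonneg_right hz (inv_nonneg.mpr hρ.le)
  have hq2 : ‖L z - L w‖ * ρ ≤ r * ‖L z + (starRingEnd ℂ) (L w)‖ := by
    have hdp := norm_pos_iff.mpr (hden z hzb)
    simp only [hT] at hq
    rw [norm_div, div_le_div_iff₀ hdp hρ] at hq
    exact hq
  have hsq : ‖L z - L w‖ ^ 2 * ρ ^ 2 ≤ r ^ 2 * ‖L z + (starRingEnd ℂ) (L w)‖ ^ 2 := by
    have := mul_self_le_mul_self (mul_nonneg (norm_nonneg _) hρ.le) hq2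
    nlinarith [this]
  rw [hnum z, hdn z] at hsq
  have hx : 0 < (L z).re := h0 z hzb
  have hrr : r ^ 2 ≤ ρ ^ 2 := pow_le_pow_left₀ hr0 hr.le 2
  have hsq2 : (((L z).re - (L w).re) * ρ) ^ 2 ≤ (r * ((L z).re + (L w).re)) ^ 2 := by
    nlinarith [mul_nonneg (sub_nonneg.mpr hrr) (sq_nonneg ((L z).im - (L w).im))]
  have habs := abs_le_of_sq_le_sq' hsq2 (mul_nonneg hr0 (by linarith))
  constructor
  · nlinarith [habs.1]
  · nlinarith [habs.2]

end HarnackAux

theorem harnack_re {L : ℂ → ℂ} {w : ℂ} {ρ : ℝ} (hL : DifferentiableOn ℂ L (Metric.ball w ρ))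
    (h0 : ∀ z ∈ Metric.ball w ρ, 0 ≤ (L z).re) {z : ℂ} {r : ℝ} (hr : r < ρ) (hz : ‖z - w‖ ≤ r) :
    (ρ - r) / (ρ + r) * (L w).re ≤ (L z).re ∧ (L z).re ≤ (ρ + r) / (ρ - r) * (L w).re := by
  have hr0 : 0 ≤ r := le_trans (norm_nonneg _) hz
  have hρ : 0 < ρ := lt_of_le_of_lt hr0 hr
  have key : ∀ e : ℝ, 0 < e →
      (ρ - r) * ((L w).re + e) ≤ ((L z).re + e) * (ρ + r) ∧
        ((L z).re + e) * (ρ - r) ≤ (ρ + r) * ((L w).re + e) := by
    intro e he
    have h := HarnackAux.pos_case (L := fun u => L u + (e : ℂ)) (w := w) (ρ := ρ)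
      (hL.add_const _) (fun u hu => by
        have := h0 u hu
        simp only [Complex.add_re, Complex.ofReal_re]
        linarith) hr hz
    simpa only [Complex.add_re, Complex.ofReal_re] using h
  have h1 : (ρ - r) * (L w).re ≤ (L z).re * (ρ + r) := by
    refine le_of_forall_pos_le_add fun d hd => ?_
    have hp : 0 < 2 * r + 1 := by linarith
    have h2 := (key (d / (2 * r + 1)) (div_pos hd hp)).1
    have h3 : d / (2 * r + 1) * (2 * r + 1) = d := div_mul_cancel₀ d hp.ne'
    have h4 : 0 < d / (2 * r + 1) := div_pos hd hp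
    nlinarith
  have h2 : (L z).re * (ρ - r) ≤ (ρ + r) * (L w).re := by
    refine le_of_forall_pos_le_add fun d hd => ?_
    have hp : 0 < 2 * r + 1 := by linarith
    have h2 := (key (d / (2 * r + 1)) (div_pos hd hp)).2
    have h3 : d / (2 * r + 1) * (2 * r + 1) = d := div_mul_cancel₀ d hp.ne'
    have h4 : 0 < d / (2 * r + 1) := div_pos hd hp
    nlinarith
  constructor
  · rw [div_mul_eq_mul_div, div_le_iff₀ (by linarith)]
    exact h1
  · rw [div_mul_eq_mul_div, le_div_iff₀ (by linarith)]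
    exact h2

theorem harnack_log {F : ℂ → ℂ} {w : ℂ} {ρ : ℝ} (hF : DifferentiableOn ℂ F (Metric.ball w ρ))
    (h0 : ∀ z ∈ Metric.ball w ρ, 1 ≤ ‖F z‖) {z : ℂ} {r : ℝ} (hr : r < ρ) (hz : ‖z - w‖ ≤ r) :
    (ρ - r) / (ρ + r) * Real.log ‖F w‖ ≤ Real.log ‖F z‖ ∧
      Real.log ‖F z‖ ≤ (ρ + r) / (ρ - r) * Real.log ‖F w‖ := by
  have hr0 : 0 ≤ r := le_trans (norm_nonneg _) hz
  have hρ : 0 < ρ := lt_of_le_of_lt hr0 hr
  have hwb : w ∈ Metric.ball w ρ := Metric.mem_ball_self hρ
  have hzb : z ∈ Metric.ball w ρ := by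
    rw [Metric.mem_ball, dist_eq_norm]; exact lt_of_le_of_lt hz hr
  have hF0 : ∀ u ∈ Metric.ball w ρ, F u ≠ 0 := by
    intro u hu h
    have := h0 u hu
    rw [h, norm_zero] at this
    linarith
  have hopen : IsOpen (Metric.ball w ρ) := Metric.isOpen_ball
  have hFd : DifferentiableOn ℂ (deriv F) (Metric.ball w ρ) := hF.deriv hopen
  have hquot : DifferentiableOn ℂ (fun u => deriv F u / F u) (Metric.ball w ρ) := hFd.div hF hF0
  obtain ⟨L, hLw, hLd⟩ := (hquot.isExactOn_ball).with_val_at w (Complex.log (F w))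
  have hLdiff : DifferentiableOn ℂ L (Metric.ball w ρ) := fun u hu =>
    (hLd u hu).differentiableAt.differentiableWithinAt
  have hexp : ∀ u ∈ Metric.ball w ρ, F u * Complex.exp (-L u) = 1 := by
    intro u hu
    have hder : ∀ v ∈ Metric.ball w ρ,
        HasDerivAt (fun x => F x * Complex.exp (-L x)) 0 v := by
      intro v hv
      have e1 : HasDerivAt F (deriv F v) v :=
        (hF.differentiableAt (hopen.mem_nhds hv)).hasDerivAt
      have e2 : HasDerivAt (fun x => Complex.exp (-L x))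
          (Complex.exp (-L v) * (-(deriv F v / F v))) v := ((hLd v hv).neg).cexp
      have e3 := e1.mul e2
      have e4 : deriv F v * Complex.exp (-L v) +
          F v * (Complex.exp (-L v) * (-(deriv F v / F v))) = 0 := by
        have := hF0 v hv
        field_simp
        ring
      rw [e4] at e3
      exact e3
    have hc := hopen.is_const_of_deriv_eq_zero (convex_ball w ρ).isPreconnected
      (f := fun x => F x * Complex.exp (-L x))
      (fun v hv => (hder v hv).differentiableAt.differentiableWithinAt)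
      (fun v hv => (hder v hv).deriv) hu hwb
    rw [hc, hLw, Complex.exp_neg, Complex.exp_log (hF0 w hwb)]
    exact mul_inv_cancel₀ (hF0 w hwb)
  have hre : ∀ u ∈ Metric.ball w ρ, Real.log ‖F u‖ = (L u).re := by
    intro u hu
    have h1 := hexp u hu
    rw [Complex.exp_neg, mul_inv_eq_one₀ (Complex.exp_ne_zero _)] at h1
    rw [h1, Complex.norm_exp, Real.log_exp]
  have h0' : ∀ u ∈ Metric.ball w ρ, 0 ≤ (L u).re := by
    intro u hu
    rw [← hre u hu]
    exact Real.log_nonneg (h0 u hu)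
  have h := harnack_re hLdiff h0' hr hz
  rw [hre z hzb, hre w hwb]
  exact h

end JC
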