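import Pool.Agent.Lib.JC.Core
import Pool.Agent.Lib.JC.KBasic
import Pool.Agent.Lib.JC.Harnack

/-!
# JC.LSC : lower semicontinuity of the Julia set

Let `‖c0‖ ≤ 2`, `w ∈ julia c0`, `δ > 0`. Then for all `c` with `‖c‖ ≤ 2` close to `c0` the set
`julia c` meets `ball w δ`.

Proof. `w` is in the closure of the complement of `filled c0`: choose `z1 ∉ filled c0` with
`‖z1 - w‖ < δ/2`; `w ∈ filled c0`. Choose `j1` with `‖f_{c0}^{j1} z1‖ ≥ 3` (unbounded orbit), and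
`j2 ≥ j1` so large that `log 4 * 2^(j1) * 5 < (1/2) * 2^(j2)` [this is the final contradiction]. For `c` close
to `c0` (continuity of finitely many iterates): `‖f_c^{j1} z1‖ ≥ 2.9` and `‖f_c^{j2} w‖ ≤ 3`
(as `‖f_{c0}^j w‖ ≤ 2`). Fix such `c`, `‖c‖ ≤ 2`, and suppose `julia c ∩ ball w δ = ∅`.
(a) `z1 ∉ filled c` (`filled_iff`, as `2.9 > 2`). `ball w δ` is connected, disjoint from
 `frontier (filled c)` and contains `z1 ∉ filled c`; hence `ball w δ ∩ filled c = ∅`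
 (`IsPreconnected.subset_or_subset`, or `isPreconnected_iff...`: a preconnected set meeting a set and its
 complement meets the frontier, `IsPreconnected.inter_frontier_nonempty`).
(b) `closedBall w (3δ/4)` is compact and covered by the increasing open sets `{z | 2 < ‖f_c^m z‖}`
 (increasing: `‖z‖ > 2` implies `‖f z‖ > 2`, see the proof of `filled_iff`); so there is `m0` such that
 `2 < ‖f_c^m z‖` on it for all `m ≥ m0`.
(c) Growth from below: if `‖y‖ ≥ 2.9` then `‖f_c y‖ ≥ ‖y‖^2 - 2 ≥ (3/4) ‖y‖^2 ≥ 2.9`. So `u_k = log (3/4 ‖f^k y‖)`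
 satisfies `u_{k+1} ≥ 2 u_k`, `u_0 ≥ log (2.175) ≥ 1/2`, so `log ‖f_c^{m} z1‖ ≥ 2^(m - j1) / 2`.
 Growth from above: `(‖y‖ + 1)^2 ≥ ‖y‖^2 + 3` if `‖y‖ ≥ 1`; so with `a = max (‖y‖ + 1) 2`... precisely: by
 induction `‖f^k y‖ + 1 ≤ 4^(2^k)` if `‖y‖ ≤ 3`: if `‖y'‖ + 1 ≤ E` with `E ≥ 4` then
 `‖f y'‖ + 1 ≤ ‖y'‖^2 + 3 ≤ (E - 1)^2 + 3 ≤ E^2`. So `log ‖f_c^m w‖ ≤ 2^(m - j2) log 4`.
(d) Harnack (`harnack_log`) for `F = f_c^m` on `ball w (3δ/4)`, `r = δ/2`, `m ≥ max m0 j2`: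
 `log ‖F z1‖ ≤ (5/4)/(1/4) log ‖F w‖ = 5 log ‖F w‖`. So `2^(m-j1)/2 ≤ 5 * 2^(m-j2) log 4`: contradiction
 with the choice of `j2`.
-/

open Set Filter Topology

namespace JC

namespace LSCAux

private theorem above {c y : ℂ} (hc : ‖c‖ ≤ 2) (hy : ‖y‖ ≤ 3) (k : ℕ) :
    ‖(fc c)^[k] y‖ + 1 ≤ (4 : ℝ) ^ (2 ^ k) := by
  induction k with
  | zero =>
    simp only [Function.iterate_zero, id_eq, pow_zero, pow_one]
    linarith
  | succ k ih =>
    rw [Function.iterate_succ_apply']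
    have hE : (4 : ℝ) ≤ 4 ^ (2 ^ k) := by
      calc (4 : ℝ) = 4 ^ 1 := (pow_one _).symm
        _ ≤ 4 ^ (2 ^ k) := pow_le_pow_right₀ (by norm_num) Nat.one_le_two_pow
    have h2 : (4 : ℝ) ^ (2 ^ (k + 1)) = (4 ^ (2 ^ k)) ^ 2 := by
      rw [pow_succ 2 k, pow_mul]
    have h1 : ‖fc c ((fc c)^[k] y)‖ ≤ ‖(fc c)^[k] y‖ ^ 2 + 2 := by
      unfold fc
      refine (norm_add_le _ _).trans ?_
      rw [norm_pow]
      exact add_le_add le_rfl hc
    rw [h2]
    have h0 := norm_nonneg ((fc c)^[k] y)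
    generalize ‖(fc c)^[k] y‖ = x at *
    generalize (4 : ℝ) ^ (2 ^ k) = E at *
    nlinarith

private theorem below {c y : ℂ} (hc : ‖c‖ ≤ 2) (hy : 29 / 10 ≤ ‖y‖) (k : ℕ) :
    29 / 10 ≤ ‖(fc c)^[k] y‖ ∧ Real.exp (2 ^ k / 2) ≤ (3 / 4) * ‖(fc c)^[k] y‖ := by
  induction k with
  | zero =>
    simp only [Function.iterate_zero, id_eq, pow_zero]
    refine ⟨hy, ?_⟩
    have h1 : Real.exp (1 / 2) ^ 2 = Real.exp 1 := by
      rw [← Real.exp_nat_mul]
      norm_num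
    have h2 := Real.exp_one_lt_d9
    have h3 := Real.exp_pos (1 / 2)
    nlinarith
  | succ k ih =>
    rw [Function.iterate_succ_apply']
    obtain ⟨ih1, ih2⟩ := ih
    have h1 : ‖(fc c)^[k] y‖ ^ 2 - 2 ≤ ‖fc c ((fc c)^[k] y)‖ := by
      unfold fc
      have := norm_sub_norm_le (((fun z => z ^ 2 + c)^[k] y) ^ 2) (-c)
      rw [sub_neg_eq_add, norm_neg, norm_pow] at this
      linarith
    have h2 : Real.exp (2 ^ (k + 1) / 2) = Real.exp (2 ^ k / 2) ^ 2 := by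
      rw [← Real.exp_nat_mul]
      congr 1
      rw [pow_succ]
      push_cast
      ring
    have h3 := Real.exp_pos (2 ^ k / 2)
    rw [h2]
    generalize ‖(fc c)^[k] y‖ = x at *
    generalize Real.exp (2 ^ k / 2) = E at *
    generalize ‖fc c ((fc c)^[k] y)‖ = x' at *
    constructor
    · nlinarith
    · have h4 : E ^ 2 ≤ (3 / 4 * x) ^ 2 := pow_le_pow_left₀ h3.le ih2 2
      nlinarith

private theorem escape {c : ℂ} (hc : ‖c‖ ≤ 2) {K : Set ℂ} (hK : IsCompact K)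
    (hd : ∀ z ∈ K, z ∉ filled c) :
    ∃ m0 : ℕ, ∀ m, m0 ≤ m → ∀ z ∈ K, 2 < ‖(fc c)^[m] z‖ := by
  have hmono : ∀ z, 2 < ‖z‖ → 2 < ‖fc c z‖ := by
    intro z hz
    have h1 : ‖z‖ ^ 2 - 2 ≤ ‖fc c z‖ := by
      unfold fc
      have := norm_sub_norm_le (z ^ 2) (-c)
      rw [sub_neg_eq_add, norm_neg, norm_pow] at this
      linarith
    nlinarith
  have hmono' : ∀ (k m : ℕ) (z : ℂ), 2 < ‖(fc c)^[m] z‖ → 2 < ‖(fc c)^[m + k] z‖ := by
    intro k
    induction k with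
    | zero => intro m z hz; exact hz
    | succ k ih =>
      intro m z hz
      rw [← add_assoc, Function.iterate_succ_apply']
      exact hmono _ (ih m z hz)
  let U : ℕ → Set ℂ := fun m => {z | 2 < ‖(fc c)^[m] z‖}
  have hU : ∀ m, IsOpen (U m) := fun m =>
    isOpen_lt continuous_const (fc_iter_differentiable c m).continuous.norm
  have hcov : K ⊆ ⋃ m, U m := by
    intro z hz
    have h := hd z hz
    rw [filled_iff hc] at h
    push Not at h
    exact mem_iUnion.2 h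
  have hdir : Directed (· ⊆ ·) U := by
    intro a b
    refine ⟨a + b, fun z hz => hmono' b a z hz, fun z hz => ?_⟩
    have := hmono' a b z hz
    rwa [add_comm] at this
  obtain ⟨m0, hm0⟩ := hK.elim_directed_cover U hU hcov hdir
  refine ⟨m0, fun m hm z hz => ?_⟩
  obtain ⟨k, rfl⟩ := Nat.exists_eq_add_of_le hm
  exact hmono' k m0 z (hm0 hz)

private theorem disj {B K : Set ℂ} (hB : IsPreconnected B) (hK : IsClosed K)
    (hf : ¬ (frontier K ∩ B).Nonempty) {z1 : ℂ} (h1 : z1 ∈ B) (h1K : z1 ∉ K) :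
    ∀ z ∈ B, z ∉ K := by
  intro z hz hzK
  have key : ∀ y ∈ B, y ∈ K → y ∈ interior K := by
    intro y hy hyK
    by_contra hyi
    exact hf ⟨y, ⟨subset_closure hyK, hyi⟩, hy⟩
  obtain ⟨y, -, hyi, hyK⟩ := hB (interior K) Kᶜ isOpen_interior hK.isOpen_compl
    (fun y hy => by
      by_cases hyK : y ∈ K
      · exact Or.inl (key y hy hyK)
      · exact Or.inr hyK) ⟨z, hz, key z hz hzK⟩ ⟨z1, h1, h1K⟩
  exact hyK (interior_subset hyi)

end LSCAux

theorem julia_lsc {c0 w : ℂ} (hc0 : ‖c0‖ ≤ 2) (hw : w ∈ julia c0) {δ : ℝ} (hδ : 0 < δ) :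
    ∃ δ' > 0, ∀ c : ℂ, ‖c‖ ≤ 2 → ‖c - c0‖ < δ' → (julia c ∩ Metric.ball w δ).Nonempty := by
  have hwf : w ∈ filled c0 := julia_subset hc0 hw
  have hwc : w ∈ closure (filled c0)ᶜ := by
    unfold julia at hw
    rw [frontier_eq_closure_inter_closure] at hw
    exact hw.2
  obtain ⟨z1, hz1, hdist⟩ := Metric.mem_closure_iff.1 hwc (δ / 2) (by linarith)
  obtain ⟨j1, hj1⟩ : ∃ j1 : ℕ, 3 < ‖(fc c0)^[j1] z1‖ := by
    by_contra hcon
    push Not at hcon
    exact hz1 ⟨3, hcon⟩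
  have hj2 : ‖(fc c0)^[j1 + 5] w‖ < 3 := by
    have := (filled_iff hc0 w).1 hwf (j1 + 5)
    linarith
  have hc1 : Continuous fun c : ℂ => ‖(fc c)^[j1] z1‖ :=
    ((fc_iter_continuous j1).comp (continuous_id.prodMk continuous_const)).norm
  have hc2 : Continuous fun c : ℂ => ‖(fc c)^[j1 + 5] w‖ :=
    ((fc_iter_continuous (j1 + 5)).comp (continuous_id.prodMk continuous_const)).norm
  have he1 : ∀ᶠ c in 𝓝 c0, 3 < ‖(fc c)^[j1] z1‖ :=
    hc1.continuousAt.eventually (lt_mem_nhds hj1)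
  have he2 : ∀ᶠ c in 𝓝 c0, ‖(fc c)^[j1 + 5] w‖ < 3 :=
    hc2.continuousAt.eventually (gt_mem_nhds hj2)
  obtain ⟨δ', hδ', hev⟩ := Metric.eventually_nhds_iff.1 (he1.and he2)
  refine ⟨δ', hδ', fun c hc hcc => ?_⟩
  obtain ⟨h1, h2⟩ := hev (y := c) (by rw [dist_eq_norm]; exact hcc)
  by_contra hcon
  have hz1b : z1 ∈ Metric.ball w δ := by
    rw [Metric.mem_ball, dist_comm]
    linarith
  have hz1f : z1 ∉ filled c := by
    intro h
    have := (filled_iff hc z1).1 h j1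
    linarith
  have hdis := LSCAux.disj (convex_ball w δ).isPreconnected (isCompact_filled hc).isClosed hcon
    hz1b hz1f
  have hsub : Metric.closedBall w (3 * δ / 4) ⊆ Metric.ball w δ :=
    Metric.closedBall_subset_ball (by linarith)
  obtain ⟨m0, hm0⟩ := LSCAux.escape hc (isCompact_closedBall w (3 * δ / 4))
    (fun z hz => hdis z (hsub hz))
  have hm := hm0 (m0 + (j1 + 5)) (by omega)
  have hH := (harnack_log (F := fun z => (fc c)^[m0 + (j1 + 5)] z) (w := w) (ρ := 3 * δ / 4)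
    (fc_iter_differentiable c _).differentiableOn
    (fun z hz => by
      have := hm z (Metric.ball_subset_closedBall hz)
      linarith) (z := z1) (r := δ / 2) (by linarith)
    (by
      rw [← dist_eq_norm, dist_comm]
      exact hdist.le)).2
  have hq : (3 * δ / 4 + δ / 2) / (3 * δ / 4 - δ / 2) = 5 := by
    field_simp
    ring
  rw [hq] at hH
  have hb := (LSCAux.below hc (y := (fc c)^[j1] z1) (by linarith) (m0 + 5)).2
  rw [← Function.iterate_add_apply, show m0 + 5 + j1 = m0 + (j1 + 5) by omega] at hb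
  have ha := LSCAux.above hc (y := (fc c)^[j1 + 5] w) h2.le m0
  rw [← Function.iterate_add_apply] at ha
  have hpos1 : 0 < ‖(fc c)^[m0 + (j1 + 5)] z1‖ := by
    have := Real.exp_pos (2 ^ (m0 + 5) / 2)
    linarith
  have hlow : (2 : ℝ) ^ (m0 + 5) / 2 ≤ Real.log ‖(fc c)^[m0 + (j1 + 5)] z1‖ := by
    rw [Real.le_log_iff_exp_le hpos1]
    linarith
  have hwpos : 0 < ‖(fc c)^[m0 + (j1 + 5)] w‖ := by
    have := hm w (Metric.mem_closedBall_self (by linarith))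
    linarith
  have hup : Real.log ‖(fc c)^[m0 + (j1 + 5)] w‖ ≤ 2 ^ m0 * Real.log 4 := by
    have h3 : Real.log ((4 : ℝ) ^ (2 ^ m0)) = 2 ^ m0 * Real.log 4 := by
      rw [Real.log_pow]
      push_cast
      rfl
    rw [← h3]
    exact Real.log_le_log hwpos (by linarith)
  have h4 : Real.log 4 = 2 * Real.log 2 := by
    rw [show (4 : ℝ) = 2 ^ 2 by norm_num, Real.log_pow]
    norm_num
  have hl2 := Real.log_two_lt_d9
  have hp : (0 : ℝ) < 2 ^ m0 := by positivity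
  rw [h4] at hup
  rw [pow_add] at hlow
  have hfin : (2 : ℝ) ^ m0 * 16 ≤ 2 ^ m0 * (10 * Real.log 2) := by
    linarith
  have := le_of_mul_le_mul_left hfin hp
  linarith

end JC
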