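import Pool.Agent.Lib.JC.Core

/-!
# JC.OpenRobust : quantitative open mapping, stable under perturbation

`F` holomorphic on `ball z0 r`, `deriv F z0 ≠ 0`, `0 < ra`. Then there is `ε > 0` such that every `g`
holomorphic on `ball z0 r` with `‖g - F‖ < ε` on `ball z0 r` satisfies
`ball (F z0) ε ⊆ g '' ball z0 ra`.

Proof. Since `deriv F z0 ≠ 0`, `F z ≠ F z0` for `z ≠ z0` near `z0`
(`HasDerivAt.eventually_ne`), so there is `0 < r1 < min ra r` with `F z ≠ F z0` on the sphere
`sphere z0 r1`; by compactness `‖F z - F z0‖ ≥ 8 ε` there, for some `ε > 0`. Let `g` be as above, `v ∈ ball (F z0) ε`.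
On the sphere `‖g z - v‖ ≥ 8 ε - ε - ε = 6 ε`, and at the centre `‖g z0 - v‖ ≤ 2 ε`. If `g - v` had no zero in
`closedBall z0 r1` then `1 / (g - v)` would violate the maximum principle
(`Complex.norm_le_of_forall_mem_frontier_norm_le`). Or use `DiffContOnCl.ball_subset_image_closedBall`
for `g` (`Mathlib/Analysis/Complex/OpenMapping.lean`): on the sphere `‖g z - g z0‖ ≥ 6 ε`, so
`ball (g z0) (3 ε) ⊆ g '' closedBall z0 r1`, and `‖v - g z0‖ ≤ 2 ε < 3 ε`.
-/

open Set Filter Topology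

namespace JC

theorem open_robust {F : ℂ → ℂ} {z0 : ℂ} {r : ℝ} (hr : 0 < r)
    (hF : DifferentiableOn ℂ F (Metric.ball z0 r)) (hd : deriv F z0 ≠ 0) {ra : ℝ} (hra : 0 < ra) :
    ∃ ε > 0, ∀ g : ℂ → ℂ, DifferentiableOn ℂ g (Metric.ball z0 r) →
      (∀ z ∈ Metric.ball z0 r, ‖g z - F z‖ < ε) → Metric.ball (F z0) ε ⊆ g '' Metric.ball z0 ra := by
  have hz0 : z0 ∈ Metric.ball z0 r := Metric.mem_ball_self hr
  have hFd : HasDerivAt F (deriv F z0) z0 :=
    (hF.differentiableAt (Metric.isOpen_ball.mem_nhds hz0)).hasDerivAt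
  have hne := hFd.eventually_ne (c := F z0) hd
  rw [eventually_nhdsWithin_iff, Metric.eventually_nhds_iff] at hne
  obtain ⟨δ, hδ, hne⟩ := hne
  obtain ⟨r1, hr1, hr1'⟩ := exists_between (lt_min hδ (lt_min hra hr))
  have hr1δ : r1 < δ := hr1'.trans_le (min_le_left _ _)
  have hr1a : r1 < ra := hr1'.trans_le ((min_le_right _ _).trans (min_le_left _ _))
  have hr1r : r1 < r := hr1'.trans_le ((min_le_right _ _).trans (min_le_right _ _))
  have hcb : Metric.closedBall z0 r1 ⊆ Metric.ball z0 r := Metric.closedBall_subset_ball hr1r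
  have hsb : Metric.sphere z0 r1 ⊆ Metric.ball z0 r := Metric.sphere_subset_closedBall.trans hcb
  have hcont : ContinuousOn (fun z => ‖F z - F z0‖) (Metric.sphere z0 r1) :=
    ((hF.continuousOn.mono hsb).sub continuousOn_const).norm
  have hsne : (Metric.sphere z0 r1).Nonempty := NormedSpace.sphere_nonempty.2 hr1.le
  obtain ⟨w, hw, hwmin⟩ := (isCompact_sphere z0 r1).exists_isMinOn hsne hcont
  have hmin : ∀ z ∈ Metric.sphere z0 r1, ‖F w - F z0‖ ≤ ‖F z - F z0‖ := fun z hz => hwmin hz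
  have hwne : F w ≠ F z0 := by
    apply hne
    · rw [Metric.mem_sphere.1 hw]
      exact hr1δ
    · intro h
      rw [Set.mem_singleton_iff] at h
      rw [h, Metric.mem_sphere, dist_self] at hw
      exact hr1.ne hw
  have hm : 0 < ‖F w - F z0‖ := norm_pos_iff.2 (sub_ne_zero.2 hwne)
  refine ⟨‖F w - F z0‖ / 8, by positivity, fun g hg hgF v hv => ?_⟩
  set ε := ‖F w - F z0‖ / 8 with hε
  have hεpos : 0 < ε := by positivity
  have h8 : ‖F w - F z0‖ = 8 * ε := by rw [hε]; ring
  have hg0 : ‖g z0 - F z0‖ < ε := hgF z0 hz0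
  -- on the sphere
  have hsph : ∀ z ∈ Metric.sphere z0 r1, 6 * ε ≤ ‖g z - g z0‖ := by
    intro z hz
    have h1 := hmin z hz
    have h2 := hgF z (hsb hz)
    have h3 : F z - F z0 = (g z - g z0) - (g z - F z) + (g z0 - F z0) := by ring
    have h4 : ‖F z - F z0‖ ≤ ‖g z - g z0‖ + ‖g z - F z‖ + ‖g z0 - F z0‖ := by
      rw [h3]
      exact (norm_add_le _ _).trans (add_le_add_left (norm_sub_le _ _) _)
    rw [h8] at h1
    linarith
  have hgcl : DiffContOnCl ℂ g (Metric.ball z0 r1) := by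
    apply DifferentiableOn.diffContOnCl
    rw [closure_ball z0 hr1.ne']
    exact hg.mono hcb
  have hfreq : ∃ᶠ z in 𝓝 z0, g z ≠ g z0 := by
    intro hcon
    have hcon' : ∀ᶠ z in 𝓝 z0, g z = g z0 := by
      filter_upwards [hcon] with z hz
      exact not_not.1 hz
    have hA : AnalyticOnNhd ℂ g (Metric.ball z0 r) :=
      hg.analyticOnNhd Metric.isOpen_ball
    have hEq : EqOn g (fun _ => g z0) (Metric.ball z0 r) :=
      hA.eqOn_of_preconnected_of_eventuallyEq analyticOnNhd_const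
        (convex_ball z0 r).isPreconnected hz0 hcon'
    have h1 := hsph w hw
    rw [hEq (hsb hw), sub_self, norm_zero] at h1
    linarith
  have hsub := hgcl.ball_subset_image_closedBall hr1 hsph hfreq
  have hv' : v ∈ Metric.ball (g z0) (6 * ε / 2) := by
    rw [Metric.mem_ball, dist_eq_norm] at hv ⊢
    have h1 : v - g z0 = (v - F z0) - (g z0 - F z0) := by ring
    rw [h1]
    have h2 := norm_sub_le (v - F z0) (g z0 - F z0)
    linarith
  obtain ⟨z, hz, hzv⟩ := hsub hv'
  exact ⟨z, Metric.closedBall_subset_ball hr1a hz, hzv⟩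

end JC
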