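import Pool.Agent.Lib.JC.AnDef
import Pool.Agent.Lib.JC.Ct
import Pool.Agent.Lib.JC.GateUse
import Pool.Agent.Lib.JC.Inv
import Pool.Agent.Lib.JC.OpenRobust
import Pool.Agent.Lib.JC.LSC

/-!
# JC.StepA : a point of the Julia set close to `zs`

`c0 = S.ct t0`, `ξ = X (S.xs c0 i)`, `F z = χ (ξ + Φ z)`. `zs` is in the open ball `ball (y0 c0) rL`; choose `r1 > 0`
with `ball zs r1 ⊆ ball (y0 c0) rL`. On it `‖ξ + Φ z‖ ≤ 1/32 + 1/32 < 1/8` (`D.X1`, `D.Φb`), so `F` is holomorphic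
and `deriv F zs = deriv χ (ξ + ρ) * deriv Φ zs ≠ 0` (chain rule). `open_robust` gives `ε1 > 0`: every `g`
holomorphic on `ball zs r1` with `‖g - F‖ < ε1` satisfies `ball (F zs) ε1 ⊆ g '' ball zs ra`. `julia_lsc` for
`w = F zs ∈ julia c0` and `δ = ε1` gives `δ'`: `julia c` meets `ball (F zs) ε1` for `‖c‖ ≤ 2`, `‖c - c0‖ < δ'`.
Apply `gate_use` with `η = ε1`; `δ` smaller than its `δ` and so small that `|S.ct t - S.ct t0| < δ'`
(`ct` is affine). `‖c‖ ≤ 2` by `St.norm_ct` (JC.Ct). So some `w ∈ julia c` is `(S.G c)^[N] z` with `z ∈ ball zs ra`;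
by `G_iter_mem_julia`, `z ∈ julia c`.
-/

open Set Filter Topology

namespace JC

theorem stepA {S : St} {t0 b : ℝ} (C : CuspData S t0 b) {Φ : ℂ → ℂ} {rL : ℝ} {χ : ℂ → ℂ} {κ : ℝ}
    {X : ℝ → ℝ} (D : AnData S t0 Φ rL χ κ X) {i : ℕ} (hi : 1 ≤ i)
    (hik : |S.xs (S.ct t0) i - S.pf (S.ct t0)| < κ) {ρ zs : ℂ}
    (hz : zs ∈ Metric.ball (S.y0 (S.ct t0) : ℂ) rL) (hΦ : Φ zs = ρ) (hΦ' : deriv Φ zs ≠ 0)
    (hχ' : deriv χ ((X (S.xs (S.ct t0) i) : ℂ) + ρ) ≠ 0)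
    (hJ : χ ((X (S.xs (S.ct t0) i) : ℂ) + ρ) ∈ julia ((S.ct t0 : ℝ) : ℂ)) {ra : ℝ} (hra : 0 < ra) :
    ∃ (K : ℕ) (δ : ℝ), 0 < δ ∧ ∀ (t e : ℝ) (N : ℕ), t0 < t → t < t0 + δ → t ≤ 1 → K ≤ N →
      |e - S.xs (S.ct t) i| < δ → Passes S.toPreSt (S.ct t) N e →
        ∃ z ∈ Metric.ball zs ra, z ∈ julia ((S.ct t : ℝ) : ℂ) := by
  obtain ⟨hX1, -, -⟩ := D.X1 (S.xs (S.ct t0) i) hik
  generalize hξ : (X (S.xs (S.ct t0) i) : ℂ) = ξ at *
  have hξn : ‖ξ‖ ≤ 1 / 32 := by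
    rw [← hξ, Complex.norm_real, Real.norm_eq_abs]
    exact hX1
  obtain ⟨r1, hr1, hsub⟩ := Metric.isOpen_iff.1 Metric.isOpen_ball zs hz
  have hball : ∀ z ∈ Metric.ball (S.y0 (S.ct t0) : ℂ) rL, ξ + Φ z ∈ Metric.ball (0 : ℂ) (1 / 8) := by
    intro z hz
    rw [mem_ball_zero_iff]
    have h1 := D.Φb z hz
    have h2 := norm_add_le ξ (Φ z)
    linarith
  have hF : DifferentiableOn ℂ (fun z => χ (ξ + Φ z)) (Metric.ball zs r1) := by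
    refine D.χd.comp (t := Metric.ball (0 : ℂ) (1 / 8)) ((D.Φd.mono hsub).const_add ξ) ?_
    intro z hz
    exact hball z (hsub hz)
  have hd : deriv (fun z => χ (ξ + Φ z)) zs ≠ 0 := by
    have h1 : HasDerivAt Φ (deriv Φ zs) zs :=
      (D.Φd.differentiableAt (Metric.isOpen_ball.mem_nhds hz)).hasDerivAt
    have h2 : HasDerivAt (fun z => ξ + Φ z) (deriv Φ zs) zs := h1.const_add ξ
    have h3 : HasDerivAt χ (deriv χ (ξ + Φ zs)) (ξ + Φ zs) :=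
      (D.χd.differentiableAt (Metric.isOpen_ball.mem_nhds (hball zs hz))).hasDerivAt
    have h4 : HasDerivAt (fun z => χ (ξ + Φ z)) (deriv χ (ξ + Φ zs) * deriv Φ zs) zs :=
      HasDerivAt.comp zs h3 h2
    rw [h4.deriv, hΦ]
    exact mul_ne_zero hχ' hΦ'
  obtain ⟨ε1, hε1, hop⟩ := open_robust hr1 hF hd hra
  obtain ⟨δ', hδ', hlsc⟩ := julia_lsc (S.norm_ct C.ht0 C.ht1.le) hJ hε1
  obtain ⟨K, δ, hδ, hg⟩ := gate_use C D hi hik hε1
  have hA : 0 < |S.a1 - S.a0| + 1 := by positivity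
  refine ⟨K, min δ (δ' / (|S.a1 - S.a0| + 1)), lt_min hδ (div_pos hδ' hA), ?_⟩
  intro t e N ht htδ ht1 hKN he hp
  have ht0 : 0 ≤ t := C.ht0.trans ht.le
  have hdist : ‖((S.ct t : ℝ) : ℂ) - ((S.ct t0 : ℝ) : ℂ)‖ < δ' := by
    rw [← Complex.ofReal_sub, Complex.norm_real, Real.norm_eq_abs, S.ct_sub, abs_mul]
    have h1 : |t - t0| < δ' / (|S.a1 - S.a0| + 1) := by
      rw [abs_of_pos (sub_pos.2 ht)]
      have := min_le_right δ (δ' / (|S.a1 - S.a0| + 1))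
      linarith
    rw [lt_div_iff₀ hA] at h1
    have h2 : |t - t0| * |S.a1 - S.a0| ≤ |t - t0| * (|S.a1 - S.a0| + 1) :=
      mul_le_mul_of_nonneg_left (by linarith) (abs_nonneg _)
    linarith
  obtain ⟨w, hwJ, hwb⟩ := hlsc ((S.ct t : ℝ) : ℂ) (S.norm_ct ht0 ht1) hdist
  have hgt := hg t e N ht (htδ.trans_le (add_le_add_right (min_le_left _ _) _)) ht1 hKN
    (he.trans_le (min_le_left _ _)) hp
  have hdiff : DifferentiableOn ℂ ((S.G (S.ct t))^[N]) (Metric.ball zs r1) := by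
    apply Differentiable.differentiableOn
    apply Differentiable.iterate
    exact (fc_iter_differentiable _ _).const_mul _
  have himg := hop ((S.G (S.ct t))^[N]) hdiff (fun z hz => by
    have := hgt z (hsub hz)
    rw [hξ] at this
    exact this)
  simp only [hΦ] at himg
  obtain ⟨z, hz1, hz2⟩ := himg hwb
  refine ⟨z, hz1, ?_⟩
  rw [← G_iter_mem_julia S.toPreSt (S.ct t) N z]
  exact hz2 ▸ hwJ

end JC
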