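import Pool.Agent.Lib.JC.AnDef
import Pool.Agent.Lib.JC.Ct
import Pool.Agent.Lib.JC.GateUse
import Pool.Agent.Lib.JC.Inv

/-!
# JC.StepB : a ball around `zs` free of the filled Julia set

`c0 = S.ct t0`, `w0 = χ (X (S.xs c0 i) + ρ) ∉ filled c0`. The set `{(c, z) | ‖c‖ ≤ 2 ∧ z ∈ filled c}` is closed
(`isClosed_filled2`) and does not contain `(c0, w0)`, so there is `η > 0` with: `‖c‖ ≤ 2`, `‖c - c0‖ < η`,
`‖w - w0‖ < η` imply `w ∉ filled c`. `F z = χ (X (S.xs c0 i) + Φ z)` is continuous at `zs` (the argument stays in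
`ball 0 (1/8)`: `D.X1`, `D.Φb`), `F zs = w0`; so `‖F z - w0‖ < η / 2` on `ball zs r1 ⊆ ball (y0 c0) rL`. `gate_use`
with `η / 2` gives `K`, `δ`; make `δ` smaller: `δ ≤ r1` and `|S.ct t - S.ct t0| < η` for `|t - t0| < δ`. For
`z ∈ ball zs δ`: `‖(S.G c)^[N] z - w0‖ < η`, so it is not in `filled c`, hence `z ∉ filled c`
(`G_iter_mem_filled`). `‖c‖ ≤ 2` by `St.norm_ct` (JC.Ct).
-/

open Set Filter Topology

namespace JC

theorem stepB {S : St} {t0 b : ℝ} (C : CuspData S t0 b) {Φ : ℂ → ℂ} {rL : ℝ} {χ : ℂ → ℂ} {κ : ℝ}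
    {X : ℝ → ℝ} (D : AnData S t0 Φ rL χ κ X) {i : ℕ} (hi : 1 ≤ i)
    (hik : |S.xs (S.ct t0) i - S.pf (S.ct t0)| < κ) {ρ zs : ℂ}
    (hz : zs ∈ Metric.ball (S.y0 (S.ct t0) : ℂ) rL) (hΦ : Φ zs = ρ)
    (hK : χ ((X (S.xs (S.ct t0) i) : ℂ) + ρ) ∉ filled ((S.ct t0 : ℝ) : ℂ)) :
    ∃ (K : ℕ) (δ : ℝ), 0 < δ ∧ ∀ (t e : ℝ) (N : ℕ), t0 < t → t < t0 + δ → t ≤ 1 → K ≤ N →
      |e - S.xs (S.ct t) i| < δ → Passes S.toPreSt (S.ct t) N e →
        ∀ z ∈ Metric.ball zs δ, z ∉ filled ((S.ct t : ℝ) : ℂ) := by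
  have hX := (D.X1 _ hik).1
  -- closedness
  have hopen : IsOpen {p : ℂ × ℂ | ‖p.1‖ ≤ 2 ∧ p.2 ∈ filled p.1}ᶜ := isClosed_filled2.isOpen_compl
  have hmem : (((S.ct t0 : ℝ) : ℂ), χ ((X (S.xs (S.ct t0) i) : ℂ) + ρ)) ∈
      {p : ℂ × ℂ | ‖p.1‖ ≤ 2 ∧ p.2 ∈ filled p.1}ᶜ := fun h => hK h.2
  obtain ⟨η, hη, hball⟩ := Metric.isOpen_iff.1 hopen _ hmem
  -- continuity of the map
  have harg : (X (S.xs (S.ct t0) i) : ℂ) + Φ zs ∈ Metric.ball (0 : ℂ) (1 / 8) := by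
    rw [Metric.mem_ball, dist_zero_right]
    have h1 := D.Φb zs hz
    have h2 : ‖(X (S.xs (S.ct t0) i) : ℂ)‖ ≤ 1 / 32 := by
      rw [Complex.norm_real, Real.norm_eq_abs]
      exact hX
    have h3 := norm_add_le (X (S.xs (S.ct t0) i) : ℂ) (Φ zs)
    linarith
  have hcΦ : ContinuousAt Φ zs :=
    (D.Φd.differentiableAt (Metric.isOpen_ball.mem_nhds hz)).continuousAt
  have hcχ : ContinuousAt χ ((X (S.xs (S.ct t0) i) : ℂ) + Φ zs) :=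
    (D.χd.differentiableAt (Metric.isOpen_ball.mem_nhds harg)).continuousAt
  have hcF : ContinuousAt (fun z => χ ((X (S.xs (S.ct t0) i) : ℂ) + Φ z)) zs :=
    ContinuousAt.comp (f := fun z => (X (S.xs (S.ct t0) i) : ℂ) + Φ z) (g := χ) hcχ
      (continuousAt_const.add hcΦ)
  obtain ⟨r1, hr1, hF⟩ := Metric.continuousAt_iff.1 hcF (η / 2) (by linarith)
  obtain ⟨r2, hr2, hsub⟩ := Metric.isOpen_iff.1 Metric.isOpen_ball zs hz
  obtain ⟨δ2, hδ2, hct⟩ := Metric.continuousAt_iff.1 (S.ct_continuous.continuousAt (x := t0)) η hη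
  obtain ⟨K, δ1, hδ1, hgate⟩ := gate_use C D hi hik (η := η / 2) (by linarith)
  refine ⟨K, min (min δ1 δ2) (min r1 r2), by positivity, ?_⟩
  intro t e N ht1 ht2 ht3 hN he hP z hz'
  have hd1 : min (min δ1 δ2) (min r1 r2) ≤ δ1 := (min_le_left _ _).trans (min_le_left _ _)
  have hd2 : min (min δ1 δ2) (min r1 r2) ≤ δ2 := (min_le_left _ _).trans (min_le_right _ _)
  have hd3 : min (min δ1 δ2) (min r1 r2) ≤ r1 := (min_le_right _ _).trans (min_le_left _ _)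
  have hd4 : min (min δ1 δ2) (min r1 r2) ≤ r2 := (min_le_right _ _).trans (min_le_right _ _)
  rw [Metric.mem_ball] at hz'
  have hzL : z ∈ Metric.ball (S.y0 (S.ct t0) : ℂ) rL :=
    hsub (Metric.mem_ball.2 (lt_of_lt_of_le hz' hd4))
  have h1 := hgate t e N ht1 (by linarith) ht3 hN (lt_of_lt_of_le he hd1) hP z hzL
  have h2 := hF (lt_of_lt_of_le hz' hd3)
  have h3 : dist (S.ct t) (S.ct t0) < η := by
    apply hct
    rw [Real.dist_eq, abs_of_pos (by linarith)]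
    linarith
  intro hzf
  have h4 : (S.toPreSt.G (S.ct t))^[N] z ∈ filled ((S.ct t : ℝ) : ℂ) :=
    (G_iter_mem_filled S.toPreSt (S.ct t) N z).2 hzf
  have h5 : ‖((S.ct t : ℝ) : ℂ)‖ ≤ 2 := S.norm_ct (by have := C.ht0; linarith) ht3
  have h6 : (((S.ct t : ℝ) : ℂ), (S.toPreSt.G (S.ct t))^[N] z) ∈ Metric.ball
      ((((S.ct t0 : ℝ) : ℂ), χ ((X (S.xs (S.ct t0) i) : ℂ) + ρ)) : ℂ × ℂ) η := by
    rw [Metric.mem_ball, Prod.dist_eq, max_lt_iff]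
    refine ⟨?_, ?_⟩
    · change dist ((S.ct t : ℝ) : ℂ) ((S.ct t0 : ℝ) : ℂ) < η
      rw [Complex.dist_eq, ← Complex.ofReal_sub, Complex.norm_real, ← dist_eq_norm]
      exact h3
    · change dist ((S.toPreSt.G (S.ct t))^[N] z) (χ ((X (S.xs (S.ct t0) i) : ℂ) + ρ)) < η
      have h7 := dist_triangle ((S.toPreSt.G (S.ct t))^[N] z)
        (χ ((X (S.xs (S.ct t0) i) : ℂ) + Φ z)) (χ ((X (S.xs (S.ct t0) i) : ℂ) + ρ))
      rw [← hΦ] at h7 ⊢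
      rw [dist_eq_norm ((S.toPreSt.G (S.ct t))^[N] z)
        (χ ((X (S.xs (S.ct t0) i) : ℂ) + Φ z))] at h7
      linarith
  exact hball h6 ⟨h5, h4⟩

end JC
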