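import Mathlib
import Pool.Agent.Lib.JC.Core2

/-!
# The conclusion of section 9 (definition only)
-/

open Set Filter Topology

namespace JC

/-- Section 9 for the state `S`, with a precision `n0 ≥ K0`: a dyadic point `z` of precision
`2 ^ -n0`, a parameter `c0` and a side `sg`, such that arbitrarily close to `c0` on that side there are
states `Sa`, `Sb` inside `S` of larger period, with `z` close to the Julia set for all parameters of `Sa` and far
from it for all parameters of `Sb`. -/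
def StepAt (S : St) (K0 : ℕ) : Prop :=
  ∃ (n0 : ℕ) (x y : ℤ) (c0 sg : ℝ), K0 ≤ n0 ∧ (sg = 1 ∨ sg = -1) ∧ ‖dpt n0 x y‖ ≤ 3 ∧
    ∀ δ > 0, ∃ Sa Sb : St, S.n < Sa.n ∧ S.n < Sb.n ∧ Sa.seg ⊆ S.seg ∧ Sb.seg ⊆ S.seg ∧
      (∀ c ∈ Sa.seg, 0 < sg * (c - c0) ∧ sg * (c - c0) < δ ∧
        Metric.infDist (dpt n0 x y) (julia (c : ℂ)) < 1 / 2 ^ n0) ∧
      ∀ c ∈ Sb.seg, 0 < sg * (c - c0) ∧ sg * (c - c0) < δ ∧
        2 * (1 / 2 ^ n0) < Metric.infDist (dpt n0 x y) (julia (c : ℂ))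

end JC
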