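import Pool.Agent.Lib.JC.Ct
import Pool.Agent.Lib.JC.Cusp
import Pool.Agent.Lib.JC.Move2
import Pool.Agent.Lib.JC.AlphaJ
import Pool.Agent.Lib.JC.Sens
import Pool.Agent.Lib.JC.AnEx
import Pool.Agent.Lib.JC.PhiOpen
import Pool.Agent.Lib.JC.StepA
import Pool.Agent.Lib.JC.StepB
import Pool.Agent.Lib.JC.Grid
import Pool.Agent.Lib.JC.StepDef

/-!
# JC.Step : one step of the construction (section 9)

Assembly. `cusp` gives `t0`, `b`, `C : CuspData S t0 b`; `an_exists` gives `Φ rL χ κ X` and `D`; `sens` gives the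
index `i` and the displacement `ρ`; `phi_open` a point `zs` with `Φ zs = ρ`. `stepB` for `i` gives the radius of a
ball around `zs` without points of the filled Julia set, the precision `n0` is chosen after it; `stepA` for
`i + 1` gives points of the Julia set near `zs`. The states are those of `move2` with the targets `i + 1` and `i`.
-/

open Set Filter Topology

namespace JC

theorem step (S : St) (K0 : ℕ) : StepAt S K0 := by
  obtain ⟨t0, b, C⟩ := cusp S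
  obtain ⟨Φ, rL, χ, κ, X, D⟩ := an_exists C
  have ht1 : t0 ≤ 1 := C.ht1.le
  have hc : S.ct t0 ∈ S.seg := S.ct_mem_seg C.ht0 ht1
  obtain ⟨hc1, hc2⟩ := S.cneg _ hc
  obtain ⟨r1, hr1, hΦo⟩ := phi_open D
  obtain ⟨r2, hr2, -, hχo⟩ := chi_deriv D
  have hr : 0 < min r1 (r2 / 2) := lt_min hr1 (by linarith)
  -- the index and the displacement
  obtain ⟨i, ρ, hi, hρ, hik, hik1, hXi, hXi1, hJ, hK⟩ := sens (c := S.ct t0) hc1 hc2.le D.χd D.χr D.hκ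
    (fun Y hY => ⟨(D.X1 Y hY).1, (D.X1 Y hY).2.1⟩) D.Xm D.Xp D.Xc (x := S.xs (S.ct t0))
    (fun i => (St.xs_lt_ys hc i).trans (St.ys_lt_xs hc i)) (St.xs_lt_pf hc) (St.xs_tendsto hc)
    (St.al_mem hc).2 S.hε (s := S.s) (fun i hi => St.xs_iter hc hi) (fun i hi => St.xs_succ_iter hc hi)
    (fun i hi => St.xs_mem_julia hc hi) hr
  obtain ⟨zs, hzs, hzΦ, hzΦ'⟩ := hΦo ρ (hρ.trans_le (min_le_left _ _))
  have hχ' : deriv χ ((X (S.xs (S.ct t0) (i + 1)) : ℂ) + ρ) ≠ 0 := by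
    apply hχo
    have h1 : ‖(X (S.xs (S.ct t0) (i + 1)) : ℂ)‖ < r2 / 2 := by
      rw [Complex.norm_real, Real.norm_eq_abs]
      exact hXi1.trans_le (min_le_right _ _)
    have h2 := hρ.trans_le (min_le_right r1 (r2 / 2))
    calc ‖(X (S.xs (S.ct t0) (i + 1)) : ℂ) + ρ‖ ≤ ‖(X (S.xs (S.ct t0) (i + 1)) : ℂ)‖ + ‖ρ‖ := norm_add_le _ _
      _ < r2 := by linarith
  -- the ball without points of the filled set, the precision, the grid point
  obtain ⟨K1, δ1, hδ1, HB⟩ := stepB C D hi hik hzs hzΦ hK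
  obtain ⟨n1, hn1⟩ : ∃ n1 : ℕ, (3 : ℝ) / 2 ^ n1 < δ1 := by
    obtain ⟨n, hn⟩ := exists_pow_lt_of_lt_one (show (0 : ℝ) < δ1 / 3 by positivity)
      (show (1 / 2 : ℝ) < 1 by norm_num)
    refine ⟨n, ?_⟩
    have h1 : (3 : ℝ) / 2 ^ n = 3 * (1 / 2) ^ n := by
      rw [one_div, inv_pow]
      ring
    rw [h1]
    linarith
  obtain ⟨n0, hn0, hn0'⟩ : ∃ n0 : ℕ, K0 ≤ n0 ∧ (3 : ℝ) / 2 ^ n0 < δ1 := by
    refine ⟨max K0 n1, le_max_left _ _, lt_of_le_of_lt ?_ hn1⟩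
    have h2 : (2 : ℝ) ^ n1 ≤ 2 ^ (max K0 n1) := pow_le_pow_right₀ (by norm_num) (le_max_right _ _)
    exact div_le_div_of_nonneg_left (by norm_num) (by positivity) h2
  obtain ⟨x, y, hxy⟩ := exists_dpt n0 zs
  obtain ⟨K2, δ2, hδ2, HA⟩ := stepA C D (i := i + 1) (by omega) hik1 hzs hzΦ hzΦ' hχ' hJ
    (ra := (29 / 100) / 2 ^ n0) (by positivity)
  -- the side
  obtain ⟨sg, hsg, hsga⟩ : ∃ sg : ℝ, (sg = 1 ∨ sg = -1) ∧ sg * (S.a1 - S.a0) = |S.a1 - S.a0| := by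
    rcases lt_or_gt_of_ne (sub_ne_zero.2 S.hne.symm) with h | h
    · exact ⟨-1, Or.inr rfl, by rw [abs_of_neg h]; ring⟩
    · exact ⟨1, Or.inl rfl, by rw [abs_of_pos h]; ring⟩
  have hL : 0 < |S.a1 - S.a0| := abs_pos.2 (sub_ne_zero.2 S.hne.symm)
  have hside : ∀ t, sg * (S.ct t - S.ct t0) = (t - t0) * |S.a1 - S.a0| := by
    intro t
    rw [S.ct_sub, ← hsga]
    ring
  -- the two families of states
  have key : ∀ δ > 0, ∃ Sa Sb : St, S.n < Sa.n ∧ S.n < Sb.n ∧ Sa.seg ⊆ S.seg ∧ Sb.seg ⊆ S.seg ∧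
      (∀ c ∈ Sa.seg, 0 < sg * (c - S.ct t0) ∧ sg * (c - S.ct t0) < δ ∧
        Metric.infDist (dpt n0 x y) (julia (c : ℂ)) < 1 / 2 ^ n0) ∧
      ∀ c ∈ Sb.seg, 0 < sg * (c - S.ct t0) ∧ sg * (c - S.ct t0) < δ ∧
        2 * (1 / 2 ^ n0) < Metric.infDist (dpt n0 x y) (julia (c : ℂ)) := by
    intro δ hδ
    obtain ⟨d, hd, hd1, hd2, hd3⟩ : ∃ d > 0, d ≤ δ1 ∧ d ≤ δ2 ∧ d * |S.a1 - S.a0| ≤ δ := by
      refine ⟨min (min δ1 δ2) (δ / |S.a1 - S.a0|), lt_min (lt_min hδ1 hδ2) (div_pos hδ hL),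
        (min_le_left _ _).trans (min_le_left _ _), (min_le_left _ _).trans (min_le_right _ _), ?_⟩
      rw [← le_div_iff₀ hL]
      exact min_le_right _ _
    obtain ⟨Sa, Na, hNa, hna, Ha⟩ := move2 S C (i := i + 1) (by omega) hd K2
    obtain ⟨Sb, Nb, hNb, hnb, Hb⟩ := move2 S C hi hd K1
    have hpos : ∀ t, t0 < t → t < t0 + d →
        0 < sg * (S.ct t - S.ct t0) ∧ sg * (S.ct t - S.ct t0) < δ := by
      intro t h1 h2
      rw [hside]
      constructor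
      · exact mul_pos (by linarith) hL
      · have h3 : (t - t0) * |S.a1 - S.a0| < d * |S.a1 - S.a0| := by
          apply mul_lt_mul_of_pos_right _ hL
          linarith
        linarith
    refine ⟨Sa, Sb, hna, hnb, ?_, ?_, ?_, ?_⟩
    · intro c hcs
      obtain ⟨t, h1, h2, h3, rfl, -⟩ := Ha c hcs
      exact S.ct_mem_seg (C.ht0.trans h1.le) h3
    · intro c hcs
      obtain ⟨t, h1, h2, h3, rfl, -⟩ := Hb c hcs
      exact S.ct_mem_seg (C.ht0.trans h1.le) h3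
    · intro c hcs
      obtain ⟨t, h1, h2, h3, rfl, e, he, hP⟩ := Ha c hcs
      refine ⟨(hpos t h1 h2).1, (hpos t h1 h2).2, near_dist hxy ?_⟩
      exact HA t e Na h1 (by linarith) h3 hNa (he.trans_le hd2) hP
    · intro c hcs
      obtain ⟨t, h1, h2, h3, rfl, e, he, hP⟩ := Hb c hcs
      have h0t : 0 ≤ t := C.ht0.trans h1.le
      obtain ⟨hn1', hn2'⟩ := S.ct_neg h0t h3
      refine ⟨(hpos t h1 h2).1, (hpos t h1 h2).2, far_dist hxy ⟨_, bet_mem_julia hn1'.le hn2'.le⟩ hn0' ?_⟩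
      intro z hz hzJ
      exact HB t e Nb h1 (by linarith) h3 hNb (he.trans_le hd1) hP z hz
        (julia_subset (S.norm_ct h0t h3) hzJ)
  refine ⟨n0, x, y, S.ct t0, sg, hn0, hsg, ?_, key⟩
  -- the norm bound
  obtain ⟨Sa, -, -, -, hsa, -, H, -⟩ := key 1 one_pos
  have hm : Sa.a0 ∈ Sa.seg := left_mem_uIcc
  obtain ⟨-, -, hdist⟩ := H _ hm
  obtain ⟨g1, g2⟩ := S.cneg _ (hsa hm)
  have hcn : ‖((Sa.a0 : ℝ) : ℂ)‖ ≤ 2 := by
    rw [Complex.norm_real, Real.norm_eq_abs, abs_le]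
    constructor <;> linarith
  have hne : (julia ((Sa.a0 : ℝ) : ℂ)).Nonempty := ⟨_, bet_mem_julia g1.le g2.le⟩
  obtain ⟨w, hw, hwd⟩ := (Metric.infDist_lt_iff hne).1 hdist
  have hw2 : ‖w‖ ≤ 2 := by
    have := (filled_iff hcn w).1 (julia_subset hcn hw) 0
    simpa using this
  have h1 : (1 : ℝ) / 2 ^ n0 ≤ 1 := by
    rw [div_le_one (by positivity)]
    exact one_le_pow₀ (by norm_num)
  rw [dist_eq_norm] at hwd
  calc ‖dpt n0 x y‖ = ‖(dpt n0 x y - w) + w‖ := by rw [sub_add_cancel]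
    _ ≤ ‖dpt n0 x y - w‖ + ‖w‖ := norm_add_le _ _
    _ ≤ 3 := by linarith

end JC
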