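import Pool.Agent.Lib.JC.Diag2
import Pool.Agent.Lib.JC.Base
import Pool.Agent.Lib.JC.CountM
import Pool.Agent.Lib.JC.Move1
import Pool.Agent.Lib.JC.Renorm
import Pool.Agent.Lib.JC.Step

/-!
# JC.Final : the main theorem
-/

open Set Filter Topology

namespace JC

/-- For every countable family of time bounds and every countable set of parameters to be avoided there is an
infinitely renormalizable real parameter whose Julia set is not computable, at all large precisions and at points of
absolute value at most `3`, by any oracle machine within any of these time bounds; in particular it is not computable in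
polynomial time. -/
theorem main (TT : Set (ℕ → ℕ)) (hTT : TT.Countable) (Z : Set ℝ) (hZ : Z.Countable) :
    ∃ c : ℝ, -2 < c ∧ c < 0 ∧ c ∉ Z ∧ InfinitelyRenormalizable (c : ℂ) ∧ ¬ PolyTimeJulia c ∧
      OracleFor c (truncOracle c) ∧
      ∀ M : OTM, ∀ T ∈ TT, ∀ N : ℕ, ∃ n ≥ N, ∃ x y : ℤ, ‖dpt n x y‖ ≤ 3 ∧
        ¬ CorrectIn M (truncOracle c) (julia (c : ℂ)) (T n) n x y := by
  obtain ⟨P, -, hP⟩ := exists_base
  obtain ⟨S0, -⟩ := move1 P hP
  exact diag3 step (fun S h => move1 S h) (fun S c hc h => renorm_of S hc h) S0 TT hTT Z hZ countable_otm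

/-- The infinitely renormalizable real parameters whose Julia set is not computable in polynomial time form an
uncountable set. -/
theorem not_poly : ¬ {c : ℝ | -2 < c ∧ c < 0 ∧ InfinitelyRenormalizable (c : ℂ) ∧ ¬ PolyTimeJulia c}.Countable := by
  intro h
  obtain ⟨c, h1, h2, h3, h4, h5, -⟩ := main ∅ countable_empty _ h
  exact h3 ⟨h1, h2, h4, h5⟩

end JC
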