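import Mathlib

/-!
# Oracle machines for subsets of the plane with an oracle for a real parameter

Definition of oracle machines (finitely many states, finitely many stacks; two stacks are one
two-sided tape), with the cost of a query equal to the length of the answer, of polynomial-time
computability of a set in the plane with an oracle for a real number, and the abstract
diagonalisation over nested intervals of parameters.
-/

set_option autoImplicit false

namespace Pool.Agent.Lib.JC

/-- The symbols on the stacks: the binary digits `some false`, `some true` and a separator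
`none`. -/
abbrev Sym := Option Bool

/-- A dyadic rational in fixed point notation: sign, integer part, and the binary digits after the
point. -/
structure Dyadic where
  /-- is it negative? -/
  neg : Bool
  /-- the integer part of the absolute value -/
  int : ℕ
  /-- the binary digits after the point -/
  frac : List Bool

namespace Dyadic

/-- the number `0.b₁b₂…` in base `2` -/
noncomputable def fracVal : List Bool → ℝ
  | [] => 0
  | b :: l => ((if b then 1 else 0) + fracVal l) / 2

/-- the value of a dyadic rational -/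
noncomputable def val (d : Dyadic) : ℝ := (if d.neg then -1 else 1) * (d.int + fracVal d.frac)

/-- the string of symbols of a dyadic rational: the sign, the binary digits of the integer part,
the separator, the digits after the point -/
def code (d : Dyadic) : List Sym :=
  some d.neg :: (d.int.bits.map some ++ none :: d.frac.map some)

end Dyadic

/-- `φ` is an oracle for the real number `c`: asked `m` it returns a dyadic rational within
`2 ^ (-m)` of `c`. -/
def IsOracle (φ : ℕ → Dyadic) (c : ℝ) : Prop := ∀ m : ℕ, |(φ m).val - c| ≤ (1 / 2) ^ m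

/-- Instructions of a machine with `k + 4` stacks and the states `0, …, q`. -/
inductive Instr (k q : ℕ)
  /-- stop with output `b` -/
  | halt (b : Bool) : Instr k q
  /-- call the oracle and continue in state `s` -/
  | ask (s : Fin (q + 1)) : Instr k q
  /-- depending on the top symbols of all stacks, go to a new state and, on every stack, remove
  the top symbol or not and then push a symbol or not -/
  | act (f : (Fin (k + 4) → Option Sym) → Fin (q + 1) × (Fin (k + 4) → Bool × Option Sym)) :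
      Instr k q

/-- An oracle machine with finitely many states and finitely many stacks (two stacks are one
two-sided tape): its program gives an instruction for every state.  The initial state is `0`.
Stack `0` is used for the queries and answers of the oracle, the stacks `1`, `2`, `3` contain the
input. -/
structure OracleMachine where
  /-- number of further stacks -/
  k : ℕ
  /-- number of further states -/
  q : ℕ
  /-- the program -/
  prog : Fin (q + 1) → Instr k q

namespace OracleMachine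

/-- A configuration: the state and the contents of the stacks. -/
structure Config (M : OracleMachine) where
  /-- the current state -/
  state : Fin (M.q + 1)
  /-- the contents of the stacks, the top symbol is the head of the list -/
  stack : Fin (M.k + 4) → List Sym

variable (M : OracleMachine)

/-- The new content of a stack after `act`. -/
def upd (l : List Sym) (x : Bool × Option Sym) : List Sym :=
  x.2.toList ++ (if x.1 then l.tail else l)

/-- The configuration after the instruction `act f`. -/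
def Config.act {M : OracleMachine} (c : Config M)
    (f : (Fin (M.k + 4) → Option Sym) → Fin (M.q + 1) × (Fin (M.k + 4) → Bool × Option Sym)) :
    Config M where
  state := (f fun i => (c.stack i).head?).1
  stack i := upd (c.stack i) ((f fun i => (c.stack i).head?).2 i)

/-- The number whose binary digits, least significant first, are the digits of the string up to
the first separator. -/
def value : List Sym → ℕ
  | [] => 0
  | none :: _ => 0
  | some b :: l => (if b then 1 else 0) + 2 * value l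

/-- `Halts M φ c t b`: started in the configuration `c` the machine `M` with the oracle `φ` stops
with output `b` after time exactly `t`.  Every instruction costs one unit of time, and a query costs
in addition the length of the answer.  The number asked is the number on stack `0`; the answer
replaces the content of this stack. -/
inductive Halts (φ : ℕ → Dyadic) : Config M → ℕ → Bool → Prop
  | halt (c : Config M) (b : Bool) : M.prog c.state = Instr.halt b → Halts φ c 1 b
  | act (c : Config M)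
      (f : (Fin (M.k + 4) → Option Sym) → Fin (M.q + 1) × (Fin (M.k + 4) → Bool × Option Sym))
      (t : ℕ) (b : Bool) :
      M.prog c.state = Instr.act f → Halts φ (c.act f) t b → Halts φ c (t + 1) b
  | ask (c : Config M) (s : Fin (M.q + 1)) (t : ℕ) (b : Bool) :
      M.prog c.state = Instr.ask s →
      Halts φ ⟨s, Function.update c.stack 0 (φ (value (c.stack 0))).code⟩ t b →
      Halts φ c (t + (φ (value (c.stack 0))).code.length + 1) b

/-- The string of an integer: the sign and the binary digits of the absolute value. -/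
def intCode (a : ℤ) : List Sym := some (decide (a < 0)) :: a.natAbs.bits.map some

/-- The initial configuration for the input `(n, a, b)`, i.e. the precision `n` and the point
`(a + b i) / 2 ^ n`: stack `1` contains `n` in unary notation, the stacks `2` and `3` contain `a` and
`b`. -/
def init (n : ℕ) (a b : ℤ) : Config M where
  state := 0
  stack i :=
    if i.val = 1 then List.replicate n (some true)
    else if i.val = 2 then intCode a
    else if i.val = 3 then intCode b
    else []

end OracleMachine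

/-- The point `(a + b i) / 2 ^ n`. -/
noncomputable def pt (n : ℕ) (a b : ℤ) : ℂ := ((a : ℂ) + (b : ℂ) * Complex.I) / 2 ^ n

/-- `M` with the oracle `φ` computes the set `K` in time `P`: for every `n` and every point `z` with
dyadic coordinates of precision `2 ^ (-n)` and absolute value at most `4` it stops within time `P n`,
with output `1` if the distance of `z` to `K` is `< 2 ^ (-n)` and with output `0` if it is
`> 2 * 2 ^ (-n)`. -/
def Computes (M : OracleMachine) (P : Polynomial ℕ) (φ : ℕ → Dyadic) (K : Set ℂ) : Prop :=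
  ∀ (n : ℕ) (a b : ℤ), |a| ≤ 4 * 2 ^ n → |b| ≤ 4 * 2 ^ n →
    ∃ (t : ℕ) (out : Bool), t ≤ P.eval n ∧ M.Halts φ (M.init n a b) t out ∧
      (Metric.infDist (pt n a b) K < (1 / 2) ^ n → out = true) ∧
      (2 * (1 / 2) ^ n < Metric.infDist (pt n a b) K → out = false)

/-- The compact set `K` is polynomial-time computable with an oracle for the real number `c`. -/
def PolyTimeComputable (K : Set ℂ) (c : ℝ) : Prop :=
  ∃ (M : OracleMachine) (P : Polynomial ℕ), ∀ φ : ℕ → Dyadic, IsOracle φ c → Computes M P φ K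

/-! ### The canonical oracle -/

/-- fixed point notation with `m` digits of `± N / 2 ^ m` -/
def Dyadic.ofNat (s : Bool) (N m : ℕ) : Dyadic where
  neg := s
  int := N / 2 ^ m
  frac := List.ofFn fun i : Fin m => decide (N / 2 ^ (m - 1 - i.val) % 2 = 1)

/-- The canonical oracle: the binary expansion of `c` with `m` digits after the point
(truncated). -/
noncomputable def trunc (c : ℝ) (m : ℕ) : Dyadic :=
  Dyadic.ofNat (decide (c < 0)) ⌊2 ^ m * |c|⌋₊ m

theorem fracVal_ofFn (N m : ℕ) :
    Dyadic.fracVal (List.ofFn fun i : Fin m => decide (N / 2 ^ (m - 1 - i.val) % 2 = 1)) =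
      ((N % 2 ^ m : ℕ) : ℝ) / 2 ^ m := by
  induction m with
  | zero => simp [Dyadic.fracVal, Nat.mod_one]
  | succ m ih =>
    rw [List.ofFn_succ, Dyadic.fracVal]
    have h1 : (List.ofFn fun i : Fin m =>
        decide (N / 2 ^ (m + 1 - 1 - (Fin.succ i).val) % 2 = 1)) =
        List.ofFn fun i : Fin m => decide (N / 2 ^ (m - 1 - i.val) % 2 = 1) := by
      congr 1
      funext i
      have : m + 1 - 1 - (Fin.succ i).val = m - 1 - i.val := by
        simp only [Fin.val_succ]; omega
      rw [this]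
    rw [h1, ih]
    have h2 : N % 2 ^ (m + 1) = N % 2 ^ m + 2 ^ m * (N / 2 ^ m % 2) := by
      rw [pow_succ, Nat.mod_mul]
    rw [h2]
    have h3 : (m + 1 - 1 - ((0 : Fin (m + 1)) : ℕ)) = m := by simp
    rw [h3]
    rcases Nat.mod_two_eq_zero_or_one (N / 2 ^ m) with h | h
    · rw [h]
      simp
      field_simp
      ring
    · rw [h]
      push_cast
      simp
      field_simp
      ring

theorem Dyadic.val_ofNat (s : Bool) (N m : ℕ) :
    (Dyadic.ofNat s N m).val = (if s then -1 else 1) * ((N : ℝ) / 2 ^ m) := by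
  rw [Dyadic.val, Dyadic.ofNat]
  simp only
  congr 1
  rw [fracVal_ofFn]
  have h := Nat.div_add_mod N (2 ^ m)
  have h2 : (N : ℝ) = 2 ^ m * ((N / 2 ^ m : ℕ) : ℝ) + ((N % 2 ^ m : ℕ) : ℝ) := by
    exact_mod_cast h.symm
  have hp : (2 : ℝ) ^ m ≠ 0 := by positivity
  field_simp
  linarith

theorem trunc_isOracle (c : ℝ) : IsOracle (trunc c) c := by
  intro m
  rw [trunc, Dyadic.val_ofNat]
  have hp : (0 : ℝ) < 2 ^ m := by positivity
  have h1 : (⌊2 ^ m * |c|⌋₊ : ℝ) ≤ 2 ^ m * |c| := Nat.floor_le (by positivity)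
  have h2 : 2 ^ m * |c| < ⌊2 ^ m * |c|⌋₊ + 1 := Nat.lt_floor_add_one _
  have h3 : (⌊2 ^ m * |c|⌋₊ : ℝ) / 2 ^ m ≤ |c| := by
    rw [div_le_iff₀ hp]; linarith
  have h4 : |c| - (1 / 2) ^ m ≤ (⌊2 ^ m * |c|⌋₊ : ℝ) / 2 ^ m := by
    rw [le_div_iff₀ hp]
    have : ((1 : ℝ) / 2) ^ m * 2 ^ m = 1 := by
      rw [← mul_pow]; norm_num
    nlinarith
  by_cases hc : c < 0
  · have hc' : |c| = -c := abs_of_neg hc
    rw [hc'] at h3 h4 ⊢
    simp only [hc, decide_true, if_true]
    rw [abs_le]
    constructor <;> linarith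
  · have hc' : |c| = c := abs_of_nonneg (not_lt.mp hc)
    rw [hc'] at h3 h4 ⊢
    simp only [hc, decide_false]
    have h5 : ((1 : ℝ) / 2) ^ m = (2 ^ m)⁻¹ := by rw [one_div, inv_pow]
    have h6 : (0 : ℝ) < (2 ^ m)⁻¹ := by positivity
    rw [h5] at h4 ⊢
    rw [abs_le]
    constructor <;> (simp; linarith)

theorem code_length_trunc (c : ℝ) (m : ℕ) : m < (trunc c m).code.length := by
  simp [trunc, Dyadic.ofNat, Dyadic.code]
  omega

/-! ### Use principle -/

theorem OracleMachine.Halts.congr {M : OracleMachine} {φ ψ : ℕ → Dyadic} {T : ℕ}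
    (hφ : ∀ m, m < (φ m).code.length) (hψ : ∀ m < T, ψ m = φ m)
    {c : M.Config} {t : ℕ} {b : Bool} (h : M.Halts φ c t b) (ht : t ≤ T) : M.Halts ψ c t b := by
  induction h with
  | halt c b hp => exact .halt c b hp
  | act c f t b hp _ ih => exact .act c f t b hp (ih (by omega))
  | ask c s t b hp _ ih =>
    have h1 := hφ (OracleMachine.value (c.stack 0))
    have h2 := hψ (OracleMachine.value (c.stack 0)) (by omega)
    have ih' := ih (by omega)
    rw [← h2] at ih' ⊢
    exact .ask c s t b hp ih'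

theorem OracleMachine.Halts.pos {M : OracleMachine} {φ : ℕ → Dyadic}
    {c : M.Config} {t : ℕ} {b : Bool} (h : M.Halts φ c t b) : 0 < t := by
  cases h <;> omega

theorem OracleMachine.Halts.det {M : OracleMachine} {φ : ℕ → Dyadic}
    {c : M.Config} {t t' : ℕ} {b b' : Bool} (h : M.Halts φ c t b) (h' : M.Halts φ c t' b') :
    b = b' := by
  induction h generalizing t' with
  | halt c b hp =>
    cases h' with
    | halt _ _ hp' =>
      rw [hp] at hp'
      injection hp'
    | act _ f _ _ hp' _ => rw [hp] at hp'; exact absurd hp' (by simp)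
    | ask _ s _ _ hp' _ => rw [hp] at hp'; exact absurd hp' (by simp)
  | act c f t b hp _ ih =>
    cases h' with
    | halt _ _ hp' => rw [hp] at hp'; exact absurd hp' (by simp)
    | act _ f' _ _ hp' h'' =>
      rw [hp] at hp'
      injection hp' with hf
      subst hf
      exact ih h''
    | ask _ s _ _ hp' _ => rw [hp] at hp'; exact absurd hp' (by simp)
  | ask c s t b hp _ ih =>
    cases h' with
    | halt _ _ hp' => rw [hp] at hp'; exact absurd hp' (by simp)
    | act _ f' _ _ hp' h'' => rw [hp] at hp'; exact absurd hp' (by simp)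
    | ask _ s' _ _ hp' h'' =>
      rw [hp] at hp'
      injection hp' with hf
      subst hf
      exact ih h''

/-! ### Countability -/

instance (k q : ℕ) : Countable (Instr k q) := by
  let e : Instr k q → Bool ⊕ Fin (q + 1) ⊕
      ((Fin (k + 4) → Option Sym) → Fin (q + 1) × (Fin (k + 4) → Bool × Option Sym)) :=
    fun x => match x with
      | .halt b => Sum.inl b
      | .ask s => Sum.inr (Sum.inl s)
      | .act f => Sum.inr (Sum.inr f)
  refine Function.Injective.countable (f := e) ?_
  intro x y h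
  cases x <;> cases y <;> simp_all [e]

instance : Countable OracleMachine := by
  let e : OracleMachine → Σ k : ℕ, Σ q : ℕ, (Fin (q + 1) → Instr k q) :=
    fun M => ⟨M.k, M.q, M.prog⟩
  refine Function.Injective.countable (f := e) ?_
  rintro ⟨k, q, p⟩ ⟨k', q', p'⟩ h
  simp only [e, Sigma.mk.injEq] at h
  obtain ⟨rfl, h⟩ := h
  simp only [heq_eq_eq, Sigma.mk.injEq] at h
  obtain ⟨rfl, h⟩ := h
  simp only [heq_eq_eq] at h
  rw [h]

instance : Countable (Polynomial ℕ) := by
  refine Function.Injective.countable (f := fun p : Polynomial ℕ =>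
    (⟨p.support, fun i => p.coeff i⟩ : Σ s : Finset ℕ, (s → ℕ))) ?_
  intro p q h
  simp only [Sigma.mk.injEq] at h
  obtain ⟨h1, h2⟩ := h
  have h3 : ∀ (s : Finset ℕ), p.support = s →
      HEq (fun i : p.support => p.coeff i) (fun i : s => q.coeff i) →
      ∀ i ∈ s, p.coeff i = q.coeff i := by
    rintro s rfl h i hi
    exact congrFun (eq_of_heq h) ⟨i, hi⟩
  ext i
  by_cases hi : i ∈ q.support
  · exact h3 _ h1 h2 i hi
  · have hi' : i ∉ p.support := by rw [h1]; exact hi
    rw [Polynomial.notMem_support_iff] at hi hi'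
    rw [hi, hi']

instance : Inhabited OracleMachine := ⟨⟨0, 0, fun _ => .halt false⟩⟩

/-! ### One-sided constancy of the canonical oracle -/

/-- Two parameters with the same sign and the same floors have the same canonical answer. -/
theorem trunc_congr {c c' : ℝ} {m : ℕ} (h : c < 0 ↔ c' < 0)
    (h' : ⌊2 ^ m * |c|⌋₊ = ⌊2 ^ m * |c'|⌋₊) : trunc c m = trunc c' m := by
  rw [trunc, trunc, h']
  congr 1
  simp [h]

/-- Right continuity of the floor: on a right neighbourhood of `x` the floor is constant. -/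
theorem floor_right (x : ℝ) (hx : 0 ≤ x) (m : ℕ) :
    ∃ δ > 0, ∀ y, x < y → y < x + δ → ⌊2 ^ m * y⌋₊ = ⌊2 ^ m * x⌋₊ := by
  have hp : (0 : ℝ) < 2 ^ m := by positivity
  refine ⟨(⌊2 ^ m * x⌋₊ + 1 - 2 ^ m * x) / 2 ^ m, ?_, ?_⟩
  · have := Nat.lt_floor_add_one (2 ^ m * x)
    apply div_pos _ hp
    linarith
  · intro y hy hy'
    have h1 : 2 ^ m * y < ⌊2 ^ m * x⌋₊ + 1 := by
      have : y - x < (⌊2 ^ m * x⌋₊ + 1 - 2 ^ m * x) / 2 ^ m := by linarith
      rw [lt_div_iff₀ hp] at this
      linarith
    have h2 : (⌊2 ^ m * x⌋₊ : ℝ) ≤ 2 ^ m * y :=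
      (Nat.floor_le (by positivity)).trans (by nlinarith)
    rw [Nat.floor_eq_iff (by nlinarith)]
    exact ⟨h2, by exact_mod_cast h1⟩

/-- The floor is constant on a left neighbourhood. -/
theorem floor_left (x : ℝ) (hx : 0 < x) (m : ℕ) :
    ∃ N : ℕ, ∃ δ > 0, ∀ y, y < x → x - δ < y → ⌊2 ^ m * y⌋₊ = N := by
  have hp : (0 : ℝ) < 2 ^ m := by positivity
  have hpx : 0 < 2 ^ m * x := by positivity
  -- `N` is the largest integer `< 2 ^ m x`
  obtain ⟨N, hN, hN'⟩ : ∃ N : ℕ, (N : ℝ) < 2 ^ m * x ∧ 2 ^ m * x ≤ N + 1 := by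
    refine ⟨⌈2 ^ m * x⌉₊ - 1, ?_, ?_⟩
    · have h1 : 0 < ⌈2 ^ m * x⌉₊ := Nat.ceil_pos.mpr hpx
      have h2 := Nat.ceil_lt_add_one hpx.le
      rw [Nat.cast_sub h1]
      push_cast
      linarith
    · have h1 : 0 < ⌈2 ^ m * x⌉₊ := Nat.ceil_pos.mpr hpx
      have h2 := Nat.le_ceil (2 ^ m * x)
      rw [Nat.cast_sub h1]
      push_cast
      linarith
  refine ⟨N, (2 ^ m * x - N) / 2 ^ m, div_pos (by linarith) hp, ?_⟩
  intro y hy hy'
  have h1 : (N : ℝ) < 2 ^ m * y := by
    have : x - y < (2 ^ m * x - N) / 2 ^ m := by linarith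
    rw [lt_div_iff₀ hp] at this
    linarith
  have h2 : 2 ^ m * y < N + 1 := by nlinarith
  rw [Nat.floor_eq_iff (by have : (0 : ℝ) ≤ N := Nat.cast_nonneg N; linarith)]
  exact ⟨h1.le, h2⟩

theorem trunc_right_one (c₀ : ℝ) (m : ℕ) :
    ∃ δ > 0, ∀ c c', c ∈ Set.Ioo c₀ (c₀ + δ) → c' ∈ Set.Ioo c₀ (c₀ + δ) →
      trunc c m = trunc c' m := by
  rcases le_or_gt 0 c₀ with h0 | h0
  · obtain ⟨δ, hδ, h⟩ := floor_right c₀ h0 m
    refine ⟨δ, hδ, fun c c' hc hc' => ?_⟩
    have h1 : 0 < c := lt_of_le_of_lt h0 hc.1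
    have h2 : 0 < c' := lt_of_le_of_lt h0 hc'.1
    refine trunc_congr (by constructor <;> intro h <;> linarith) ?_
    rw [abs_of_pos h1, abs_of_pos h2, h c hc.1 hc.2, h c' hc'.1 hc'.2]
  · obtain ⟨N, δ, hδ, h⟩ := floor_left (-c₀) (by linarith) m
    refine ⟨min δ (-c₀), lt_min hδ (by linarith), fun c c' hc hc' => ?_⟩
    have h1 : c < 0 := by have := min_le_right δ (-c₀); linarith [hc.2]
    have h2 : c' < 0 := by have := min_le_right δ (-c₀); linarith [hc'.2]
    have h3 := min_le_left δ (-c₀)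
    refine trunc_congr (by constructor <;> intro h <;> linarith) ?_
    rw [abs_of_neg h1, abs_of_neg h2, h (-c) (by linarith [hc.1]) (by linarith [hc.2]),
      h (-c') (by linarith [hc'.1]) (by linarith [hc'.2])]

theorem trunc_left_one (c₀ : ℝ) (m : ℕ) :
    ∃ δ > 0, ∀ c c', c ∈ Set.Ioo (c₀ - δ) c₀ → c' ∈ Set.Ioo (c₀ - δ) c₀ →
      trunc c m = trunc c' m := by
  rcases le_or_gt c₀ 0 with h0 | h0
  · obtain ⟨δ, hδ, h⟩ := floor_right (-c₀) (by linarith) m
    refine ⟨δ, hδ, fun c c' hc hc' => ?_⟩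
    have h1 : c < 0 := lt_of_lt_of_le hc.2 h0
    have h2 : c' < 0 := lt_of_lt_of_le hc'.2 h0
    refine trunc_congr (by constructor <;> intro h <;> linarith) ?_
    rw [abs_of_neg h1, abs_of_neg h2, h (-c) (by linarith [hc.2]) (by linarith [hc.1]),
      h (-c') (by linarith [hc'.2]) (by linarith [hc'.1])]
  · obtain ⟨N, δ, hδ, h⟩ := floor_left c₀ h0 m
    refine ⟨min δ c₀, lt_min hδ h0, fun c c' hc hc' => ?_⟩
    have h1 : 0 < c := by have := min_le_right δ c₀; linarith [hc.1]
    have h2 : 0 < c' := by have := min_le_right δ c₀; linarith [hc'.1]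
    have h3 := min_le_left δ c₀
    refine trunc_congr (by constructor <;> intro h <;> linarith) ?_
    rw [abs_of_pos h1, abs_of_pos h2, h c hc.2 (by linarith [hc.1]),
      h c' hc'.2 (by linarith [hc'.1])]

theorem trunc_right (c₀ : ℝ) (T : ℕ) :
    ∃ δ > 0, ∀ m < T, ∀ c c', c ∈ Set.Ioo c₀ (c₀ + δ) → c' ∈ Set.Ioo c₀ (c₀ + δ) →
      trunc c m = trunc c' m := by
  induction T with
  | zero => exact ⟨1, one_pos, fun m hm => absurd hm (Nat.not_lt_zero m)⟩
  | succ T ih =>
    obtain ⟨δ, hδ, h⟩ := ih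
    obtain ⟨δ', hδ', h'⟩ := trunc_right_one c₀ T
    refine ⟨min δ δ', lt_min hδ hδ', fun m hm c c' hc hc' => ?_⟩
    rcases Nat.lt_succ_iff_lt_or_eq.mp hm with hm | rfl
    · exact h m hm c c' ⟨hc.1, hc.2.trans_le (by gcongr; exact min_le_left _ _)⟩
        ⟨hc'.1, hc'.2.trans_le (by gcongr; exact min_le_left _ _)⟩
    · exact h' c c' ⟨hc.1, hc.2.trans_le (by gcongr; exact min_le_right _ _)⟩
        ⟨hc'.1, hc'.2.trans_le (by gcongr; exact min_le_right _ _)⟩

theorem trunc_left (c₀ : ℝ) (T : ℕ) :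
    ∃ δ > 0, ∀ m < T, ∀ c c', c ∈ Set.Ioo (c₀ - δ) c₀ → c' ∈ Set.Ioo (c₀ - δ) c₀ →
      trunc c m = trunc c' m := by
  induction T with
  | zero => exact ⟨1, one_pos, fun m hm => absurd hm (Nat.not_lt_zero m)⟩
  | succ T ih =>
    obtain ⟨δ, hδ, h⟩ := ih
    obtain ⟨δ', hδ', h'⟩ := trunc_left_one c₀ T
    refine ⟨min δ δ', lt_min hδ hδ', fun m hm c c' hc hc' => ?_⟩
    have h1 := min_le_left δ δ'
    have h2 := min_le_right δ δ'
    rcases Nat.lt_succ_iff_lt_or_eq.mp hm with hm | rfl
    · exact h m hm c c' ⟨by linarith [hc.1], hc.2⟩ ⟨by linarith [hc'.1], hc'.2⟩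
    · exact h' c c' ⟨by linarith [hc.1], hc.2⟩ ⟨by linarith [hc'.1], hc'.2⟩

/-! ### The diagonalisation -/

/-- If the canonical answers of all parameters of an interval `S` agree up to `P n` and two sets
`I₁, I₀ ⊆ S` of parameters decide the question `z` in different ways then `M` fails on one of
them. -/
theorem fails_of_split (M : OracleMachine) (P : Polynomial ℕ) (K : ℝ → Set ℂ) (n : ℕ) (a b : ℤ)
    (ha : |a| ≤ 4 * 2 ^ n) (hb : |b| ≤ 4 * 2 ^ n) (S I₁ I₀ : Set ℝ) (h₁ : I₁ ⊆ S) (h₀ : I₀ ⊆ S)
    (hS : ∀ m < P.eval n, ∀ c c', c ∈ S → c' ∈ S → trunc c m = trunc c' m)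
    (hI₁ : ∀ c ∈ I₁, Metric.infDist (pt n a b) (K c) < (1 / 2) ^ n)
    (hI₀ : ∀ c ∈ I₀, 2 * (1 / 2) ^ n < Metric.infDist (pt n a b) (K c)) :
    (∀ c ∈ I₁, ¬ Computes M P (trunc c) (K c)) ∨ (∀ c ∈ I₀, ¬ Computes M P (trunc c) (K c)) := by
  by_contra hcon
  rw [not_or] at hcon
  obtain ⟨hc1, hc0⟩ := hcon
  push Not at hc1 hc0
  obtain ⟨c, hc, hcM⟩ := hc1
  obtain ⟨c', hc', hcM'⟩ := hc0
  obtain ⟨t, out, ht, hH, h1, -⟩ := hcM n a b ha hb
  obtain ⟨t', out', ht', hH', -, h0⟩ := hcM' n a b ha hb
  have e1 := h1 (hI₁ c hc)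
  have e0 := h0 (hI₀ c' hc')
  subst e1
  subst e0
  have hH2 : M.Halts (trunc c') (M.init n a b) t true :=
    hH.congr (code_length_trunc c) (fun m hm => hS m hm c' c (h₀ hc') (h₁ hc)) ht
  exact absurd (hH2.det hH') (by simp)

/-- **Abstract diagonalisation.**  `K c` is any family of sets, `G i` a class of compact intervals of
parameters (of level `i`).  Assume that for every interval `I` of level `i` there are a point
`z = (a + b i) / 2 ^ n` and a parameter `c₀` such that arbitrarily close to `c₀`, on one of its sides,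
there are intervals `I₁, I₀ ⊆ I` of level `i + 1`, such that `dist (z, K c) < 2 ^ (-n)` for all
`c ∈ I₁` and `dist (z, K c) > 2 * 2 ^ (-n)` for all `c ∈ I₀`.  Then some `c` is contained in a nested
sequence of intervals of all levels, and no machine computes `K c` in polynomial time, even if only
the canonical oracle is used. -/
theorem diagonal (K : ℝ → Set ℂ) (G : ℕ → Set (Set ℝ)) (hG : ∀ i, ∀ I ∈ G i, IsCompact I)
    (hG' : ∀ i, ∀ I ∈ G i, I.Nonempty) (J : Set ℝ) (hJ : J ∈ G 0)
    (hstep : ∀ i, ∀ I ∈ G i, ∃ (n : ℕ) (a b : ℤ) (c₀ : ℝ), |a| ≤ 4 * 2 ^ n ∧ |b| ≤ 4 * 2 ^ n ∧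
      ∀ δ > 0, ∃ I₁ ∈ G (i + 1), ∃ I₀ ∈ G (i + 1), I₁ ⊆ I ∧ I₀ ⊆ I ∧
        ((I₁ ⊆ Set.Ioo c₀ (c₀ + δ) ∧ I₀ ⊆ Set.Ioo c₀ (c₀ + δ)) ∨
          (I₁ ⊆ Set.Ioo (c₀ - δ) c₀ ∧ I₀ ⊆ Set.Ioo (c₀ - δ) c₀)) ∧
        (∀ c ∈ I₁, Metric.infDist (pt n a b) (K c) < (1 / 2) ^ n) ∧
        (∀ c ∈ I₀, 2 * (1 / 2) ^ n < Metric.infDist (pt n a b) (K c))) :
    ∃ (I : ℕ → Set ℝ) (c : ℝ), I 0 = J ∧ (∀ i, I i ∈ G i) ∧ (∀ i, I (i + 1) ⊆ I i) ∧
      (∀ i, c ∈ I i) ∧
      ∀ (M : OracleMachine) (P : Polynomial ℕ), ¬ Computes M P (trunc c) (K c) := by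
  classical
  obtain ⟨E, hE⟩ := exists_surjective_nat (OracleMachine × Polynomial ℕ)
  have key : ∀ i, ∀ I ∈ G i, ∃ I' ∈ G (i + 1), I' ⊆ I ∧
      ∀ c ∈ I', ¬ Computes (E i).1 (E i).2 (trunc c) (K c) := by
    intro i I hI
    obtain ⟨n, a, b, c₀, ha, hb, h⟩ := hstep i I hI
    obtain ⟨δ, hδ, hr⟩ := trunc_right c₀ ((E i).2.eval n)
    obtain ⟨δ', hδ', hl⟩ := trunc_left c₀ ((E i).2.eval n)
    obtain ⟨I₁, hI₁, I₀, hI₀, hs₁, hs₀, hside, hd₁, hd₀⟩ := h (min δ δ') (lt_min hδ hδ')
    have hm1 := min_le_left δ δ'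
    have hm2 := min_le_right δ δ'
    have : (∀ c ∈ I₁, ¬ Computes (E i).1 (E i).2 (trunc c) (K c)) ∨
        (∀ c ∈ I₀, ¬ Computes (E i).1 (E i).2 (trunc c) (K c)) := by
      rcases hside with ⟨h1, h0⟩ | ⟨h1, h0⟩
      · refine fails_of_split (E i).1 (E i).2 K n a b ha hb (Set.Ioo c₀ (c₀ + δ)) I₁ I₀ ?_ ?_ hr
          hd₁ hd₀
        · exact h1.trans (Set.Ioo_subset_Ioo_right (by linarith))
        · exact h0.trans (Set.Ioo_subset_Ioo_right (by linarith))
      · refine fails_of_split (E i).1 (E i).2 K n a b ha hb (Set.Ioo (c₀ - δ') c₀) I₁ I₀ ?_ ?_ hl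
          hd₁ hd₀
        · exact h1.trans (Set.Ioo_subset_Ioo_left (by linarith))
        · exact h0.trans (Set.Ioo_subset_Ioo_left (by linarith))
    rcases this with h | h
    · exact ⟨I₁, hI₁, hs₁, h⟩
    · exact ⟨I₀, hI₀, hs₀, h⟩
  choose! next hn1 hn2 hn3 using key
  let I : ℕ → Set ℝ := fun i => Nat.rec J (fun j A => next j A) i
  have hI0 : I 0 = J := rfl
  have hIs : ∀ i, I (i + 1) = next i (I i) := fun i => rfl
  have hIG : ∀ i, I i ∈ G i := by
    intro i
    induction i with
    | zero => exact hJ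
    | succ i ih => rw [hIs]; exact hn1 i _ ih
  have hmono : ∀ i, I (i + 1) ⊆ I i := fun i => by rw [hIs]; exact hn2 i _ (hIG i)
  obtain ⟨c, hc⟩ := IsCompact.nonempty_iInter_of_sequence_nonempty_isCompact_isClosed I hmono
    (fun i => hG' i _ (hIG i)) (hG 0 _ (hIG 0)) (fun i => (hG i _ (hIG i)).isClosed)
  rw [Set.mem_iInter] at hc
  refine ⟨I, c, hI0, hIG, hmono, hc, fun M P => ?_⟩
  obtain ⟨i, hi⟩ := hE (M, P)
  have := hn3 i (I i) (hIG i) c (by rw [← hIs]; exact hc (i + 1))
  rw [hi] at this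
  exact this

/-- The conclusion of `diagonal` in the form needed: no polynomial-time computation with an oracle. -/
theorem not_polyTimeComputable {K : Set ℂ} {c : ℝ}
    (h : ∀ (M : OracleMachine) (P : Polynomial ℕ), ¬ Computes M P (trunc c) K) :
    ¬ PolyTimeComputable K c := by
  rintro ⟨M, P, hM⟩
  exact h M P (hM _ (trunc_isOracle c))

end Pool.Agent.Lib.JC
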