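import Pool.Agent.Lib.JC.WordA
import Pool.Agent.Lib.JC.StOrbit

/-!
# JC.MkA : the new state of Move 1

Fields of the new state: `a0 = p0`, `a1 = p1`, `τ' = S.wA j`, `ε' = -S.ε`, `R'`, `η' = S.wAe`. By `br_wA` (note
`ε' * y = -S.ε * y`): `ψ'(y) = ψ (-(h^[j+1] (-y)))`, by `br_wAe` `θ'(y) = h (-(h (-y)))`.
`R' < -y0 ≤ R` by `h1` and `y0_mem`. Write `v = h^[j+1] (-R')`, `w = h^[j+1] R'`; `ψ'(R') = ψ(-v)`, `ψ'(-R') = ψ(-w)`.
* `hprod`, `hηprod`: `prod_wA`, `prod_wAe`. `ok`, `okη`: `ok_wA`, `ok_wAe`.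
* `lo`: `ψ (-w) ≤ ψ y0 = c` since `-w ≤ y0` (`h5`) and all points are in `[-R, R]` (`h_iter_maps`). `hi`: `y0 ≤ -v` (`h4`).
* `th0`: `θ'(-R') = h (-(h R')) > 0`, since `-(h R') > y0` (`h3`, `h_pos`).
* `th1`: `θ'(R') = h (-(h (-R'))) ≤ h 0 < R'`, since `h ≥ 0` and `h` is monotone on `[-R, R]` (`h2`).
* `small`: `sm`. `esc`: `ψ' R' - c ≤ ψ' R' - ψ'(-R') < θ'(-R')^2 < R'^2`, with `0 < θ'(-R') ≤ h 0 < R'`.
* `e0`, `e1`: `ψ (y0 p0) = p0` with `e0 : -y0 p0 = w(p0)`; likewise `e1`.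
* `hτ`, `hη`: the lists contain `-ε :: τ`.
* `n' = (S.wA j).length + 1 = S.n * (j + 2)`.
-/

open Set Filter Topology

namespace JC

theorem mkA (S : PreSt) (j : ℕ) {R' p0 p1 : ℝ} (hne : p0 ≠ p1) (hR' : 0 < R')
    (hsub : uIcc p0 p1 ⊆ S.seg) (h1 : ∀ c ∈ uIcc p0 p1, S.y0 c < -R')
    (h2 : ∀ c ∈ uIcc p0 p1, S.h c 0 < R') (h3 : ∀ c ∈ uIcc p0 p1, S.h c R' < -S.y0 c)
    (h4 : ∀ c ∈ uIcc p0 p1, (S.h c)^[j + 1] (-R') ≤ -S.y0 c)
    (h5 : ∀ c ∈ uIcc p0 p1, -S.y0 c ≤ (S.h c)^[j + 1] R')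
    (e0 : -S.y0 p0 = (S.h p0)^[j + 1] R') (e1 : -S.y0 p1 = (S.h p1)^[j + 1] (-R'))
    (sm : ∀ c ∈ uIcc p0 p1, S.psi c (-(S.h c)^[j + 1] (-R')) - S.psi c (-(S.h c)^[j + 1] R') <
      S.h c (-S.h c R') ^ 2)
    (hneg : ∀ c ∈ uIcc p0 p1, -2 < c ∧ c < 0) :
    ∃ S' : St, S'.a0 = p0 ∧ S'.a1 = p1 ∧ S'.R = R' ∧ S'.n = S.n * (j + 2) := by
  have hRR : ∀ c ∈ uIcc p0 p1, R' ≤ S.R := fun c hc => by
    have h := (PreSt.y0_mem (hsub hc)).1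
    have h' := h1 c hc
    linarith
  have mR : ∀ c ∈ uIcc p0 p1, R' ∈ Icc (-S.R) S.R := fun c hc =>
    ⟨by have := S.hR; linarith, hRR c hc⟩
  have mR' : ∀ c ∈ uIcc p0 p1, -R' ∈ Icc (-S.R) S.R := fun c hc =>
    ⟨by have := hRR c hc; linarith, by have := S.hR; linarith⟩
  have neg_mem : ∀ x ∈ Icc (-S.R) S.R, -x ∈ Icc (-S.R) S.R := fun x hx =>
    ⟨by linarith [hx.2], by linarith [hx.1]⟩
  have mw : ∀ c ∈ uIcc p0 p1, -(S.h c)^[j + 1] R' ∈ Icc (-S.R) S.R := fun c hc =>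
    neg_mem _ (PreSt.h_iter_maps (hsub hc) (mR c hc) _)
  have mv : ∀ c ∈ uIcc p0 p1, -(S.h c)^[j + 1] (-R') ∈ Icc (-S.R) S.R := fun c hc =>
    neg_mem _ (PreSt.h_iter_maps (hsub hc) (mR' c hc) _)
  have m0 : (0 : ℝ) ∈ Icc (-S.R) S.R := ⟨by have := S.hR; linarith, S.hR.le⟩
  have mh : ∀ c ∈ uIcc p0 p1, ∀ y ∈ Icc (-S.R) S.R, -S.h c y ∈ Icc (-S.R) S.R :=
    fun c hc y hy => neg_mem _ (PreSt.h_maps (hsub hc) hy)
  have evlo : ∀ c : ℝ, br c (S.wA j) (-S.ε * -R') = S.psi c (-(S.h c)^[j + 1] R') := fun c => by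
    rw [PreSt.br_wA, neg_neg]
  have evhi : ∀ c : ℝ, br c (S.wA j) (-S.ε * R') = S.psi c (-(S.h c)^[j + 1] (-R')) := fun c => by
    rw [PreSt.br_wA]
  have evelo : ∀ c : ℝ, br c S.wAe (-S.ε * -R') = S.h c (-S.h c R') := fun c => by
    rw [PreSt.br_wAe, neg_neg]
  have evehi : ∀ c : ℝ, br c S.wAe (-S.ε * R') = S.h c (-S.h c (-R')) := fun c => by
    rw [PreSt.br_wAe]
  have hlo : ∀ c ∈ uIcc p0 p1, S.psi c (-(S.h c)^[j + 1] R') ≤ c := fun c hc => by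
    have h := (PreSt.psi_mono (hsub hc)).monotoneOn (mw c hc) (PreSt.y0_mem (hsub hc))
      (by linarith [h5 c hc])
    rwa [PreSt.psi_y0 (hsub hc)] at h
  have hhi : ∀ c ∈ uIcc p0 p1, c ≤ S.psi c (-(S.h c)^[j + 1] (-R')) := fun c hc => by
    have h := (PreSt.psi_mono (hsub hc)).monotoneOn (PreSt.y0_mem (hsub hc)) (mv c hc)
      (by linarith [h4 c hc])
    rwa [PreSt.psi_y0 (hsub hc)] at h
  have hle0 : ∀ c ∈ uIcc p0 p1, ∀ y ∈ Icc (-S.R) S.R, S.h c (-S.h c y) ≤ S.h c 0 :=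
    fun c hc y hy => PreSt.h_monotone (hsub hc) (mh c hc y hy) m0
      (by linarith [PreSt.h_nonneg S c y])
  have hth0 : ∀ c ∈ uIcc p0 p1, 0 < S.h c (-S.h c R') := fun c hc =>
    PreSt.h_pos (hsub hc) ⟨by linarith [h3 c hc], (mh c hc R' (mR c hc)).2⟩
  have hesc : ∀ c ∈ uIcc p0 p1, S.psi c (-(S.h c)^[j + 1] (-R')) - c < R' ^ 2 := fun c hc => by
    have a1 := sm c hc
    have a2 := hlo c hc
    have a3 := hle0 c hc R' (mR c hc)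
    have a4 := h2 c hc
    have a5 := hth0 c hc
    have a6 : S.h c (-S.h c R') ^ 2 < R' ^ 2 := by
      apply pow_lt_pow_left₀ (lt_of_le_of_lt a3 a4) a5.le (by norm_num)
    linarith
  refine ⟨{ a0 := p0, a1 := p1, τ := S.wA j, ε := -S.ε, R := R', hne := hne, hR := hR'
            hε := ?_, hprod := PreSt.prod_wA S j
            ok := fun c hc => PreSt.ok_wA (hsub hc) hR' (h1 c hc) (hRR c hc) j
            lo := fun c hc => ?_, hi := fun c hc => ?_, esc := fun c hc => ?_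
            e0 := ?_, e1 := ?_, η := S.wAe, hτ := ?_, hη := ?_, hηprod := PreSt.prod_wAe S
            okη := fun c hc => PreSt.ok_wAe (hsub hc) hR' (h1 c hc) (hRR c hc) (h3 c hc)
            th0 := fun c hc => ?_, th1 := fun c hc => ?_, small := fun c hc => ?_
            cneg := hneg }, rfl, rfl, rfl, PreSt.length_wA S j⟩
  · rcases S.hε with h | h
    · right; rw [h]
    · left; rw [h, neg_neg]
  · rw [evlo]; exact hlo c hc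
  · rw [evhi]; exact hhi c hc
  · rw [evhi]; exact hesc c hc
  · rw [evlo, ← e0, neg_neg]; exact PreSt.psi_y0 (hsub left_mem_uIcc)
  · rw [evhi, ← e1, neg_neg]; exact PreSt.psi_y0 (hsub right_mem_uIcc)
  · simp [PreSt.wA]
  · simp [PreSt.wAe]
  · show 0 < br c S.wAe (-S.ε * -R')
    rw [evelo]; exact hth0 c hc
  · show br c S.wAe (-S.ε * R') < R'
    rw [evehi]; exact lt_of_le_of_lt (hle0 c hc (-R') (mR' c hc)) (h2 c hc)
  · show br c (S.wA j) (-S.ε * R') - br c (S.wA j) (-S.ε * -R') < (br c S.wAe (-S.ε * -R')) ^ 2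
    rw [evhi, evlo, evelo]; exact sm c hc

end JC
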