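import Pool.Agent.Lib.JC.WordB
import Pool.Agent.Lib.JC.StConv
import Pool.Agent.Lib.JC.StOrbit

/-!
# JC.MkB : the new state of Move 2

Fields of the new state: `a0 = p0`, `a1 = p1`, `τ'' = S.wB i l N`, `ε'' = -S.ε`, `R'' = S.R`, `η'' = S.wBe`. By `br_wB`
(`ε'' * y = -S.ε * y`): `ψ''(y) = ψ (h^[N] (E y))`, by `br_wBe` `θ''(y) = θ (-θ (-y))`. `ψ` is strictly increasing on `[-R, R]`,
`ψ y0 = c`, and `E y`, `h^[N] (E y)` are in `[-R, R]` for `y ∈ [-R, R]` (`E_mem`, `h_iter_maps`).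
* `hprod`, `hηprod`: `prod_wB`, `prod_wBe`. `ok`, `okη`: `ok_wB` with `h1`, `ok_wBe`.
* `lo`: `h2`; `hi`: `h3`; `esc`: `ψ''(R) ≤ ψ R`, so `ψ''(R) - c ≤ ψ R - c < R^2` (`S.esc`). `e0`, `e1`: `ψ (y0 p0) = p0`.
* `th0`, `th1`: all values of `θ` on `[-R, R]` are in `(0, R)`.
* `small`: `ψ''(R) - ψ''(-R) ≤ ψ R - ψ (-R) < θ(-R)^2 ≤ θ''(-R)^2`, because `θ''(-R) = θ (-θ R) ≥ θ (-R) > 0`.
* `cneg`: `S.cneg`. `hτ`: the word contains `flip1 ε η ≠ []`; `hη`.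
* `passes`: let `c ∈ uIcc p0 p1`. `y ↦ h^[N] (E y)` is continuous on `[-R, R]` (`h_cont`, `E_cont`), `≤ y0` at `-R` (`h2`), `≥ y0` at `R`
 (`h3`): the intermediate value theorem gives `y` with `h^[N] (E y) = y0`; `e = E y`, `before` is `h1`, `eR` is `E_mem`.
-/

open Set Filter Topology

namespace JC

namespace MkBAux

variable {S : St} {c : ℝ}

theorem neg_R_mem (S : St) : -S.R ∈ Icc (-S.R) S.R :=
  ⟨le_rfl, by linarith [S.hR]⟩

theorem R_mem (S : St) : S.R ∈ Icc (-S.R) S.R :=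
  ⟨by linarith [S.hR], le_rfl⟩

theorem psi_le (hc : c ∈ S.seg) {x y : ℝ} (hx : x ∈ Icc (-S.R) S.R) (hy : y ∈ Icc (-S.R) S.R)
    (h : x ≤ y) : S.psi c x ≤ S.psi c y :=
  ((PreSt.psi_mono (S := S.toPreSt) hc).monotoneOn) hx hy h

theorem theta_le (hc : c ∈ S.seg) {x y : ℝ} (hx : x ∈ Icc (-S.R) S.R) (hy : y ∈ Icc (-S.R) S.R)
    (h : x ≤ y) : S.theta c x ≤ S.theta c y :=
  ((St.theta_mono (S := S) hc).monotoneOn) hx hy h

theorem w_mem (hc : c ∈ S.seg) (i l N : ℕ) {y : ℝ} (hy : y ∈ Icc (-S.R) S.R) :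
    (S.h c)^[N] (S.E c i l y) ∈ Icc (-S.R) S.R :=
  PreSt.h_iter_maps (S := S.toPreSt) hc (St.E_mem hc i l hy) N

end MkBAux

open MkBAux in
theorem mkB (S : St) (i N : ℕ) {l : ℕ} (hl : Odd l) {p0 p1 : ℝ} (hne : p0 ≠ p1)
    (hsub : uIcc p0 p1 ⊆ S.seg)
    (h1 : ∀ c ∈ uIcc p0 p1, ∀ y ∈ Icc (-S.R) S.R, ∀ k < N, S.y0 c < (S.h c)^[k] (S.E c i l y))
    (h2 : ∀ c ∈ uIcc p0 p1, (S.h c)^[N] (S.E c i l (-S.R)) ≤ S.y0 c)
    (h3 : ∀ c ∈ uIcc p0 p1, S.y0 c ≤ (S.h c)^[N] (S.E c i l S.R))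
    (e0 : (S.h p0)^[N] (S.E p0 i l (-S.R)) = S.y0 p0)
    (e1 : (S.h p1)^[N] (S.E p1 i l S.R) = S.y0 p1) :
    ∃ S' : St, S'.a0 = p0 ∧ S'.a1 = p1 ∧ S'.n = S.n + S.n * N + S.s * (i + l + 1) := by
  have hnη : flip1 S.ε S.η ≠ [] := by
    intro h
    have h4 := congrArg List.length h
    rw [length_flip1, List.length_nil] at h4
    exact S.hη (List.length_eq_zero_iff.1 h4)
  have hp0 : p0 ∈ S.seg := hsub left_mem_uIcc
  have hp1 : p1 ∈ S.seg := hsub right_mem_uIcc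
  have hesc : ∀ c ∈ S.seg, S.psi c S.R - c < S.R ^ 2 := S.esc
  have hsmall : ∀ c ∈ S.seg, S.psi c S.R - S.psi c (-S.R) < S.theta c (-S.R) ^ 2 := S.small
  refine ⟨{ a0 := p0, a1 := p1, τ := S.wB i l N, ε := -S.ε, R := S.R,
            hne := hne, hR := S.hR, hε := ?_, hprod := St.prod_wB S i N hl,
            ok := fun c hc => St.ok_wB (hsub hc) i l N (h1 c hc), lo := ?_, hi := ?_, esc := ?_,
            e0 := ?_, e1 := ?_, η := S.wBe, hτ := ?_, hη := ?_, hηprod := St.prod_wBe S,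
            okη := fun c hc => St.ok_wBe (hsub hc), th0 := ?_, th1 := ?_, small := ?_,
            cneg := fun c hc => S.cneg c (hsub hc) }, rfl, rfl, St.length_wB S i l N⟩
  · rcases S.hε with h | h
    · right; rw [h]
    · left; rw [h]; norm_num
  · intro c hc
    have hc' := hsub hc
    rw [St.br_wB]
    calc S.psi c ((S.h c)^[N] (S.E c i l (-S.R))) ≤ S.psi c (S.y0 c) :=
          psi_le hc' (w_mem hc' i l N (neg_R_mem S)) (PreSt.y0_mem (S := S.toPreSt) hc') (h2 c hc)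
      _ = c := PreSt.psi_y0 (S := S.toPreSt) hc'
  · intro c hc
    have hc' := hsub hc
    rw [St.br_wB]
    calc c = S.psi c (S.y0 c) := (PreSt.psi_y0 (S := S.toPreSt) hc').symm
      _ ≤ S.psi c ((S.h c)^[N] (S.E c i l S.R)) :=
          psi_le hc' (PreSt.y0_mem (S := S.toPreSt) hc') (w_mem hc' i l N (R_mem S)) (h3 c hc)
  · intro c hc
    have hc' := hsub hc
    rw [St.br_wB]
    have h4 := psi_le hc' (w_mem hc' i l N (R_mem S)) (R_mem S) (w_mem hc' i l N (R_mem S)).2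
    linarith [hesc c hc']
  · rw [St.br_wB, e0]
    exact PreSt.psi_y0 (S := S.toPreSt) hp0
  · rw [St.br_wB, e1]
    exact PreSt.psi_y0 (S := S.toPreSt) hp1
  · intro h
    have h4 : S.wB i l N ≠ [] := List.append_ne_nil_of_right_ne_nil _ hnη
    exact h4 h
  · intro h
    have h4 : S.wBe ≠ [] := List.append_ne_nil_of_left_ne_nil S.hη _
    exact h4 h
  · intro c hc
    have hc' := hsub hc
    rw [St.br_wBe, neg_neg]
    exact (St.theta_mem hc' (St.negtheta_maps hc' (R_mem S))).2.1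
  · intro c hc
    have hc' := hsub hc
    rw [St.br_wBe]
    exact (St.theta_mem hc' (St.negtheta_maps hc' (neg_R_mem S))).2.2
  · intro c hc
    have hc' := hsub hc
    rw [St.br_wBe, St.br_wB, St.br_wB, neg_neg]
    have h4 := psi_le hc' (w_mem hc' i l N (R_mem S)) (R_mem S) (w_mem hc' i l N (R_mem S)).2
    have h5 := psi_le hc' (neg_R_mem S) (w_mem hc' i l N (neg_R_mem S))
      (w_mem hc' i l N (neg_R_mem S)).1
    have h6 := hsmall c hc'
    have h7 : S.theta c (-S.R) ≤ S.theta c (-S.theta c S.R) :=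
      theta_le hc' (neg_R_mem S) (St.negtheta_maps hc' (R_mem S))
        (St.negtheta_maps hc' (R_mem S)).1
    have h8 : 0 < S.theta c (-S.R) := (St.theta_mem hc' (neg_R_mem S)).2.1
    have h9 : S.theta c (-S.R) ^ 2 ≤ S.theta c (-S.theta c S.R) ^ 2 :=
      pow_le_pow_left₀ h8.le h7 2
    linarith

open MkBAux in
theorem passesB (S : St) (i N l : ℕ) {c : ℝ} (hc : c ∈ S.seg)
    (h1 : ∀ y ∈ Icc (-S.R) S.R, ∀ k < N, S.y0 c < (S.h c)^[k] (S.E c i l y))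
    (h2 : (S.h c)^[N] (S.E c i l (-S.R)) ≤ S.y0 c) (h3 : S.y0 c ≤ (S.h c)^[N] (S.E c i l S.R)) :
    ∃ y ∈ Icc (-S.R) S.R, Passes S.toPreSt c N (S.E c i l y) := by
  have hh : Continuous (S.h c) :=
    (PreSt.h_cont S.toPreSt).comp (continuous_const.prodMk continuous_id)
  have hE : Continuous (S.E c i l) :=
    (St.E_cont S i l).comp (continuous_const.prodMk continuous_id)
  have hcont : Continuous fun y => (S.h c)^[N] (S.E c i l y) := (hh.iterate N).comp hE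
  have hle : -S.R ≤ S.R := by linarith [S.hR]
  obtain ⟨y, hy, he⟩ := intermediate_value_Icc hle hcont.continuousOn ⟨h2, h3⟩
  exact ⟨y, hy, (St.E_mem hc i l hy).2, he, h1 y hy⟩

end JC
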