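import Pool.Agent.Lib.JC.StCont

/-!
# JC.StBasic : elementary facts about a state `S : PreSt`, part 2 (the inverse branch `h`)

Write `R = S.R`, `ψ = S.psi c`, `h = S.h c`, `h y = √(ψ y - c)`, `y0 = S.y0 c`, `ψ y0 = c` (`psi_y0`), `ψ` strictly
increasing on `[-R, R]` (`psi_mono`).
* `h_sq`, `h_zero`, `h_pos`, `h_mono`, `h_monotone`: immediate.
* `h_lt`: `ψ y - c ≤ ψ R - c < R ^ 2` by `S.esc`, so `h y < R` (`Real.sqrt_lt'`). `h_iter_maps`: induction.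
* `Gr_h`: for `y ∈ [y0, R]`, `fr c (h y) = ψ y` (`h_sq`), so `(fr c)^[n] (h y) = ε y` by `iter_psi`, times `ε`.
* `h_Gr`: for `0 ≤ x ≤ h R`: `x^2 + c ∈ [ψ y0, ψ R]`, by the intermediate value theorem `ψ y = x^2 + c` for some
 `y ∈ [y0, R]`; `h y = x`, and `Gr x = Gr (h y) = y` by `Gr_h`.
-/

open Set Filter Topology

namespace JC

namespace PreSt

variable {S : PreSt} {c : ℝ}

theorem h_nonneg (S : PreSt) (c y : ℝ) : 0 ≤ S.h c y := by
  exact Real.sqrt_nonneg _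

theorem h_sq (hc : c ∈ S.seg) {y : ℝ} (hy : y ∈ Icc (S.y0 c) S.R) :
    S.h c y ^ 2 = S.psi c y - c := by
  have hy' : y ∈ Icc (-S.R) S.R := ⟨(y0_mem hc).1.trans hy.1, hy.2⟩
  have h1 := (psi_mono hc).monotoneOn (y0_mem hc) hy' hy.1
  rw [psi_y0 hc] at h1
  exact Real.sq_sqrt (by linarith)

theorem h_zero (hc : c ∈ S.seg) {y : ℝ} (hy : y ∈ Icc (-S.R) (S.y0 c)) : S.h c y = 0 := by
  have hy' : y ∈ Icc (-S.R) S.R := ⟨hy.1, hy.2.trans (y0_mem hc).2⟩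
  have h1 := (psi_mono hc).monotoneOn hy' (y0_mem hc) hy.2
  rw [psi_y0 hc] at h1
  exact Real.sqrt_eq_zero_of_nonpos (by linarith)

theorem h_pos (hc : c ∈ S.seg) {y : ℝ} (hy : y ∈ Ioc (S.y0 c) S.R) : 0 < S.h c y := by
  have hy' : y ∈ Icc (-S.R) S.R := ⟨(y0_mem hc).1.trans hy.1.le, hy.2⟩
  have h1 := psi_mono hc (y0_mem hc) hy' hy.1
  rw [psi_y0 hc] at h1
  exact Real.sqrt_pos.2 (by linarith)

theorem h_mono (hc : c ∈ S.seg) : StrictMonoOn (S.h c) (Icc (S.y0 c) S.R) := by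
  intro x hx y hy hxy
  have hx' : x ∈ Icc (-S.R) S.R := ⟨(y0_mem hc).1.trans hx.1, hx.2⟩
  have hy' : y ∈ Icc (-S.R) S.R := ⟨(y0_mem hc).1.trans hy.1, hy.2⟩
  have h1 := (psi_mono hc).monotoneOn (y0_mem hc) hx' hx.1
  rw [psi_y0 hc] at h1
  have h2 := psi_mono hc hx' hy' hxy
  exact Real.sqrt_lt_sqrt (by linarith) (by linarith)

theorem h_monotone (hc : c ∈ S.seg) : MonotoneOn (S.h c) (Icc (-S.R) S.R) := by
  intro x hx y hy hxy
  have h1 := (psi_mono hc).monotoneOn hx hy hxy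
  exact Real.sqrt_le_sqrt (by linarith)

theorem h_lt (hc : c ∈ S.seg) {y : ℝ} (hy : y ∈ Icc (-S.R) S.R) : S.h c y < S.R := by
  have hR : S.R ∈ Icc (-S.R) S.R := ⟨by linarith [S.hR], le_rfl⟩
  have h1 := (psi_mono hc).monotoneOn hy hR hy.2
  have h2 : S.psi c S.R - c < S.R ^ 2 := S.esc c hc
  exact (Real.sqrt_lt' S.hR).2 (by linarith)

theorem h_maps (hc : c ∈ S.seg) {y : ℝ} (hy : y ∈ Icc (-S.R) S.R) :
    S.h c y ∈ Icc (-S.R) S.R := by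
  have h1 := h_nonneg S c y
  have h2 := S.hR
  exact ⟨by linarith, (h_lt hc hy).le⟩

theorem h_iter_maps (hc : c ∈ S.seg) {y : ℝ} (hy : y ∈ Icc (-S.R) S.R) (k : ℕ) :
    (S.h c)^[k] y ∈ Icc (-S.R) S.R := by
  induction k with
  | zero => exact hy
  | succ k ih =>
    rw [Function.iterate_succ_apply']
    exact h_maps hc ih

theorem Gr_h (hc : c ∈ S.seg) {y : ℝ} (hy : y ∈ Icc (S.y0 c) S.R) : S.Gr c (S.h c y) = y := by
  have hy' : y ∈ Icc (-S.R) S.R := ⟨(y0_mem hc).1.trans hy.1, hy.2⟩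
  have h1 : fr c (S.h c y) = S.psi c y := by
    simp only [fr]
    rw [h_sq hc hy]
    ring
  have h2 : S.Gr c (S.h c y) = S.ε * (fr c)^[S.τ.length + 1] (S.h c y) := rfl
  rw [h2, Function.iterate_succ_apply, h1, iter_psi hc hy', ← mul_assoc, eps_mul_self, one_mul]

theorem h_Gr (hc : c ∈ S.seg) {x : ℝ} (h0 : 0 ≤ x) (h1 : x ≤ S.h c S.R) :
    S.Gr c x ∈ Icc (S.y0 c) S.R ∧ S.h c (S.Gr c x) = x := by
  have hy0 := y0_mem hc
  have hRR : S.R ∈ Icc (S.y0 c) S.R := ⟨hy0.2, le_rfl⟩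
  have h2 := h_sq hc hRR
  have h3 : x ^ 2 ≤ S.h c S.R ^ 2 := pow_le_pow_left₀ h0 h1 2
  have h4 : Continuous fun y => S.psi c y := (psi_cont S).comp (continuous_const.prodMk continuous_id)
  have h5 : x ^ 2 + c ∈ Icc (S.psi c (S.y0 c)) (S.psi c S.R) := by
    rw [psi_y0 hc]
    exact ⟨by nlinarith, by linarith⟩
  obtain ⟨y, hy, hxy⟩ := intermediate_value_Icc hy0.2 h4.continuousOn h5
  have hxy' : S.psi c y = x ^ 2 + c := hxy
  have h6 : S.h c y = x := by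
    have h7 : S.h c y = Real.sqrt (S.psi c y - c) := rfl
    rw [h7, hxy', add_sub_cancel_right, Real.sqrt_sq h0]
  have h8 : S.Gr c x = y := by
    rw [← h6]
    exact Gr_h hc hy
  rw [h8]
  exact ⟨hy, h6⟩

end PreSt

end JC
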