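import Pool.Agent.Lib.JC.Core2
import Pool.Agent.Lib.JC.BrBasic
import Pool.Agent.Lib.JC.BrMono

/-!
# JC.StCont : elementary facts about a state `S : PreSt`, part 1 (continuity, `ψ`, `y0`)

Write `R = S.R`, `ε = S.ε` (`ε = 1` or `-1`, so `ε * ε = 1` and `ε * y ∈ [-R, R]` iff `y ∈ [-R, R]`),
`ψ = S.psi c`, `y0 = S.y0 c`, `n = S.τ.length + 1`.

* Joint continuity: `br_continuous` composed with `(c, y) ↦ (c, ε y)`; `Real.continuous_sqrt`; iterates of
 `fr` and `fc` are jointly continuous (induction).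
* `G_real`: `fr_fc_iter`. `Gr_neg`: `fr_iter_neg` with `k = n ≠ 0`; `G_neg`: `fc_iter_neg`.
* `G_diff`: iterates of `fc c` are polynomial (induction, `Differentiable.comp`).
* `psi_mono`: `psi_strictMonoOn` of BrMono with `S.hprod`, `S.ok`.
* `iter_psi`: `iter_br` with `S.ok` and `ε y ∈ [-R, R]`.
* `y0_mem`, `psi_y0`: by `S.lo`, `S.hi` and the intermediate value theorem there is `y ∈ [-R, R]` with `ψ y = c`.
 Then `(fr c)^[n-1] c = ε y` by `iter_psi`, and `y0 = ε (fr c)^[n] 0 = ε (fr c)^[n-1] (fr c 0) = ε (fr c)^[n-1] c = y`.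
* `y0_a0`: `S.e0` and `iter_psi` at `y = -R`, same computation; `y0_a1` likewise.
-/

open Set Filter Topology

namespace JC

namespace PreSt

namespace StContAux

theorem fr_iter_cont (k : ℕ) : Continuous fun p : ℝ × ℝ => (fr p.1)^[k] p.2 := by
  induction k with
  | zero => exact continuous_snd
  | succ k ih =>
    have h1 : (fun p : ℝ × ℝ => (fr p.1)^[k + 1] p.2) =
        fun p : ℝ × ℝ => ((fr p.1)^[k] p.2) ^ 2 + p.1 := by
      funext p
      rw [Function.iterate_succ_apply']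
      rfl
    rw [h1]
    exact (ih.pow 2).add continuous_fst

theorem fc_iter_cont (k : ℕ) : Continuous fun p : ℝ × ℂ => (fc (p.1 : ℂ))^[k] p.2 := by
  induction k with
  | zero => exact continuous_snd
  | succ k ih =>
    have h1 : (fun p : ℝ × ℂ => (fc (p.1 : ℂ))^[k + 1] p.2) =
        fun p : ℝ × ℂ => ((fc (p.1 : ℂ))^[k] p.2) ^ 2 + (p.1 : ℂ) := by
      funext p
      rw [Function.iterate_succ_apply']
      rfl
    rw [h1]
    exact (ih.pow 2).add (Complex.continuous_ofReal.comp continuous_fst)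

theorem fc_iter_diff (c : ℂ) (k : ℕ) : Differentiable ℂ ((fc c)^[k]) := by
  induction k with
  | zero => exact differentiable_id
  | succ k ih =>
    have h1 : (fc c)^[k + 1] = fun z => ((fc c)^[k] z) ^ 2 + c := by
      funext z
      rw [Function.iterate_succ_apply']
      rfl
    rw [h1]
    exact (ih.pow 2).add_const c

end StContAux

variable (S : PreSt)

theorem eps_mul_self : S.ε * S.ε = 1 := by
  rcases S.hε with h | h <;> rw [h] <;> norm_num

theorem eps_mem {y : ℝ} (hy : y ∈ Icc (-S.R) S.R) : S.ε * y ∈ Icc (-S.R) S.R := by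
  rcases S.hε with h | h
  · rw [h, one_mul]
    exact hy
  · rw [h]
    exact ⟨by linarith [hy.2], by linarith [hy.1]⟩

theorem psi_cont : Continuous fun p : ℝ × ℝ => S.psi p.1 p.2 := by
  have h1 : Continuous fun p : ℝ × ℝ => (p.1, S.ε * p.2) :=
    continuous_fst.prodMk (continuous_const.mul continuous_snd)
  exact (br_continuous S.τ).comp h1

theorem h_cont : Continuous fun p : ℝ × ℝ => S.h p.1 p.2 := by
  exact Real.continuous_sqrt.comp (S.psi_cont.sub continuous_fst)

theorem Gr_cont : Continuous fun p : ℝ × ℝ => S.Gr p.1 p.2 := by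
  exact continuous_const.mul (StContAux.fr_iter_cont S.n)

theorem y0_cont : Continuous S.y0 := by
  exact S.Gr_cont.comp (continuous_id.prodMk continuous_const)

theorem G_cont : Continuous fun p : ℝ × ℂ => S.G p.1 p.2 := by
  exact continuous_const.mul (StContAux.fc_iter_cont S.n)

theorem G_diff (c : ℝ) : Differentiable ℂ (S.G c) := by
  exact (StContAux.fc_iter_diff (c : ℂ) S.n).const_mul _

theorem G_real (c x : ℝ) : S.G c (x : ℂ) = ((S.Gr c x : ℝ) : ℂ) := by
  unfold G Gr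
  rw [fr_fc_iter, Complex.ofReal_mul]

theorem Gr_neg (c x : ℝ) : S.Gr c (-x) = S.Gr c x := by
  unfold Gr
  have hn : S.n ≠ 0 := Nat.succ_ne_zero S.τ.length
  rw [fr_iter_neg c x hn]

theorem G_neg (c : ℝ) (z : ℂ) : S.G c (-z) = S.G c z := by
  unfold G
  have hn : S.n ≠ 0 := Nat.succ_ne_zero S.τ.length
  rw [fc_iter_neg (c : ℂ) z hn]

variable {S} {c : ℝ}

namespace StContAux

theorem y0_eq (hc : c ∈ S.seg) {y : ℝ} (hy : y ∈ Icc (-S.R) S.R) (hyc : S.psi c y = c) :
    S.y0 c = y := by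
  have h1 : (fr c)^[S.τ.length] (S.psi c y) = S.ε * y := iter_br (S.ok c hc) (S.eps_mem hy)
  have h2 : fr c 0 = c := by
    unfold fr
    ring
  have h3 : S.y0 c = S.ε * (fr c)^[S.τ.length] (fr c 0) := rfl
  rw [h3, h2]
  rw [hyc] at h1
  rw [h1, ← mul_assoc, S.eps_mul_self, one_mul]

theorem exists_root (hc : c ∈ S.seg) : ∃ y ∈ Icc (-S.R) S.R, S.psi c y = c := by
  have hcont : ContinuousOn (S.psi c) (Icc (-S.R) S.R) :=
    (S.psi_cont.comp (continuous_const.prodMk continuous_id)).continuousOn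
  have h1 := intermediate_value_Icc (by linarith [S.hR] : -S.R ≤ S.R) hcont
  obtain ⟨y, hy, hyc⟩ := h1 (show c ∈ Icc (S.psi c (-S.R)) (S.psi c S.R) from
    ⟨S.lo c hc, S.hi c hc⟩)
  exact ⟨y, hy, hyc⟩

end StContAux


theorem psi_mono (hc : c ∈ S.seg) : StrictMonoOn (S.psi c) (Icc (-S.R) S.R) := by
  exact psi_strictMonoOn S.hε S.hprod (S.ok c hc)

theorem iter_psi (hc : c ∈ S.seg) {y : ℝ} (hy : y ∈ Icc (-S.R) S.R) :
    (fr c)^[S.τ.length] (S.psi c y) = S.ε * y := by
  exact iter_br (S.ok c hc) (S.eps_mem hy)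

theorem y0_mem (hc : c ∈ S.seg) : S.y0 c ∈ Icc (-S.R) S.R := by
  obtain ⟨y, hy, hyc⟩ := StContAux.exists_root hc
  rw [StContAux.y0_eq hc hy hyc]
  exact hy

theorem psi_y0 (hc : c ∈ S.seg) : S.psi c (S.y0 c) = c := by
  obtain ⟨y, hy, hyc⟩ := StContAux.exists_root hc
  rw [StContAux.y0_eq hc hy hyc]
  exact hyc

theorem y0_a0 : S.y0 S.a0 = -S.R := by
  exact StContAux.y0_eq (left_mem_uIcc) ⟨le_rfl, by linarith [S.hR]⟩ S.e0

theorem y0_a1 : S.y0 S.a1 = S.R := by
  exact StContAux.y0_eq (right_mem_uIcc) ⟨by linarith [S.hR], le_rfl⟩ S.e1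

end PreSt

end JC
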