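import Pool.Agent.Lib.JC.StBasic

/-!
# JC.WordA : the words of Move 1

`wA j = τ ++ (-ε :: τ) ++ (ε :: τ)^j`, `wAe = (1 :: τ) ++ (-ε :: τ)`, evaluated at `-ε * y`. `h x = √(br c τ (ε x) - c)`, so
for every real `x` and every sign `s`: `br c (s :: τ) (ε * x) = s * h x` (definition of `br`).
* By induction `(br c (ε :: τ))^[k] z = ε * h^[k] (ε * z)` for all real `z` (`ε * ε = 1`). With `z = -ε y`, `ε z = -y`:
 `br c (rep j (ε :: τ)) (-ε y) = ε * h^[j] (-y)` (`br_rep`); then `br c (-ε :: τ) (ε * x) = -ε * h x` gives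
 `-ε * h^[j+1] (-y) = ε * (-(h^[j+1] (-y)))` (`Function.iterate_succ_apply'`), and `br c τ (ε * x') = ψ x'`. `br_append`.
* `br_wAe`: `br c (-ε :: τ) (-ε y) = br c (-ε :: τ) (ε * (-y)) = -ε * h (-y) = ε * (-(h (-y)))`, then `br c (1 :: τ)` gives
 `h (-(h (-y)))`.
* products: `ε * (-ε * ε) * (ε * ε)^j = -ε`, `ε * (-ε * ε) = -ε`. Length: `(n - 1) + n + j n = n (j + 2) - 1`.
* `ok_wA`: `c ∈ S.seg`, `y0 < -R'`, `0 < R' ≤ R`. `Ok c (s :: τ)` at the point `ε x` with `x ∈ (y0, R]` holds: `S.ok`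
 (`ε x ∈ [-R, R]`) and `br c τ (ε x) = ψ x > ψ y0 = c`. The points met are: `z = ε * (-y)` with `-y ≥ -R' > y0`; then
 `ε * h^[k] (-y)`, `k ≥ 1`, with `h^[k] (-y) ≥ 0 > y0` and `< R`; finally `Ok c τ` at `ε * (-(h^[j+1] (-y))) ∈ [-R, R]`. Use
 `ok_append`, `ok_rep`, `ok_mono`: it is convenient to prove first `Ok c (s :: τ) {z | ε * z ∈ Ioc y0 R}`.
* `ok_wAe`: in addition `h R' < -y0`: the second root is taken at `ε * (-(h (-y)))` with
 `-(h (-y)) ≥ -(h R') > y0` (`h` monotone on `[-R, R]`).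
-/

open Set Filter Topology

namespace JC

namespace PreSt

variable (S : PreSt)

namespace WordAAux

theorem neg_eps_or : -S.ε = 1 ∨ -S.ε = -1 := by
  rcases S.hε with h | h <;> rw [h]
  · right; rfl
  · left; norm_num

theorem br_cons (s c x : ℝ) : br c (s :: S.τ) (S.ε * x) = s * S.h c x := rfl

theorem br_iter (c x : ℝ) (k : ℕ) :
    (br c (S.ε :: S.τ))^[k] (S.ε * x) = S.ε * (S.h c)^[k] x := by
  induction k with
  | zero => rfl
  | succ k ih =>
    rw [Function.iterate_succ_apply', Function.iterate_succ_apply', ih, br_cons]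

variable {S} {c : ℝ}

theorem eps_eps (x : ℝ) : S.ε * (S.ε * x) = x := by
  rw [← mul_assoc, eps_mul_self, one_mul]

theorem okJ (hc : c ∈ S.seg) {s : ℝ} (hs : s = 1 ∨ s = -1) :
    Ok c (s :: S.τ) {z | S.ε * z ∈ Ioc (S.y0 c) S.R} := by
  have hy0 := y0_mem hc
  have key : ∀ z, S.ε * z ∈ Ioc (S.y0 c) S.R → S.ε * z ∈ Icc (-S.R) S.R := fun z hz =>
    ⟨hy0.1.trans hz.1.le, hz.2⟩
  refine ⟨hs, ok_mono (S.ok c hc) ?_, ?_⟩
  · intro z hz
    have h1 := eps_mem S (key z hz)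
    rwa [eps_eps] at h1
  · intro z hz
    have h1 := psi_mono hc hy0 (key z hz) hz.1
    rw [psi_y0 hc] at h1
    have h2 : S.psi c (S.ε * z) = br c S.τ z := by
      rw [psi, eps_eps]
    rwa [h2] at h1

theorem iter_mem (hc : c ∈ S.seg) {R' : ℝ} (h0 : 0 < R') (h1 : S.y0 c < -R') (hR : R' ≤ S.R)
    {x : ℝ} (hx : x ∈ Icc (-R') R') (i : ℕ) : (S.h c)^[i] x ∈ Ioc (S.y0 c) S.R := by
  cases i with
  | zero => exact ⟨lt_of_lt_of_le h1 hx.1, hx.2.trans hR⟩
  | succ i =>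
    have hx' : x ∈ Icc (-S.R) S.R := ⟨by linarith [hx.1], hx.2.trans hR⟩
    refine ⟨?_, (h_iter_maps hc hx' (i + 1)).2⟩
    rw [Function.iterate_succ_apply']
    have h2 := h_nonneg S c ((S.h c)^[i] x)
    linarith

theorem eps_mem' {R' z : ℝ} (hz : z ∈ Icc (-R') R') : S.ε * z ∈ Icc (-R') R' := by
  rcases S.hε with h | h <;> rw [h]
  · rwa [one_mul]
  · exact ⟨by linarith [hz.2], by linarith [hz.1]⟩

end WordAAux

open WordAAux

theorem br_wA (c : ℝ) (j : ℕ) (y : ℝ) :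
    br c (S.wA j) (-S.ε * y) = S.psi c (-(S.h c)^[j + 1] (-y)) := by
  have h1 : -S.ε * y = S.ε * (-y) := by ring
  rw [wA, br_append, br_append, br_rep, h1, br_iter, br_cons, Function.iterate_succ_apply']
  rw [psi]
  congr 1
  ring

theorem br_wAe (c y : ℝ) : br c S.wAe (-S.ε * y) = S.h c (-S.h c (-y)) := by
  have h1 : -S.ε * y = S.ε * (-y) := by ring
  rw [wAe, br_append, h1, br_cons]
  have h2 : -S.ε * S.h c (-y) = S.ε * (-S.h c (-y)) := by ring
  rw [h2, br_cons, one_mul]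

theorem prod_wA (j : ℕ) : (S.wA j).prod = -S.ε := by
  have h1 := eps_mul_self S
  rw [wA, List.prod_append, List.prod_append, prod_rep, List.prod_cons, List.prod_cons, S.hprod,
    h1, one_pow, mul_one]
  linear_combination (-S.ε) * h1

theorem prod_wAe : S.wAe.prod = -S.ε := by
  have h1 := eps_mul_self S
  rw [wAe, List.prod_append, List.prod_cons, List.prod_cons, S.hprod]
  linear_combination (-S.ε) * h1

theorem length_wA (j : ℕ) : (S.wA j).length + 1 = S.n * (j + 2) := by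
  rw [wA, List.length_append, List.length_append, length_rep, List.length_cons, List.length_cons,
    n]
  ring

variable {S} {c : ℝ}

theorem ok_wA (hc : c ∈ S.seg) {R' : ℝ} (h0 : 0 < R') (h1 : S.y0 c < -R') (hR : R' ≤ S.R) (j : ℕ) :
    Ok c (S.wA j) (Icc (-R') R') := by
  have key : ∀ z ∈ Icc (-R') R', ∀ i, (br c (S.ε :: S.τ))^[i] z = S.ε * (S.h c)^[i] (S.ε * z) := by
    intro z _ i
    rw [← br_iter, eps_eps]
  rw [wA, ok_append, ok_append]
  refine ⟨ok_rep (okJ hc S.hε) ?_, ok_mono (okJ hc (neg_eps_or S)) ?_, ok_mono (S.ok c hc) ?_⟩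
  · intro z hz i _
    rw [mem_ofPred_eq, key z hz i, eps_eps]
    exact iter_mem hc h0 h1 hR (eps_mem' hz) i
  · rintro _ ⟨z, hz, rfl⟩
    rw [mem_ofPred_eq, br_rep, key z hz j, eps_eps]
    exact iter_mem hc h0 h1 hR (eps_mem' hz) j
  · rintro _ ⟨_, ⟨z, hz, rfl⟩, rfl⟩
    rw [br_rep, key z hz j, br_cons, ← Function.iterate_succ_apply' (S.h c) j]
    have h2 := eps_mem' (S := S) hz
    have hx' : S.ε * z ∈ Icc (-S.R) S.R := ⟨by linarith [h2.1], h2.2.trans hR⟩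
    have h3 := h_iter_maps hc hx' (j + 1)
    have h4 : -(S.h c)^[j + 1] (S.ε * z) ∈ Icc (-S.R) S.R :=
      ⟨by linarith [h3.2], by linarith [h3.1]⟩
    have h5 := eps_mem S h4
    have h6 : S.ε * -(S.h c)^[j + 1] (S.ε * z) = -S.ε * (S.h c)^[j + 1] (S.ε * z) := by ring
    rwa [h6] at h5

theorem ok_wAe (hc : c ∈ S.seg) {R' : ℝ} (h0 : 0 < R') (h1 : S.y0 c < -R') (hR : R' ≤ S.R)
    (h2 : S.h c R' < -S.y0 c) : Ok c S.wAe (Icc (-R') R') := by
  rw [wAe, ok_append]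
  refine ⟨ok_mono (okJ hc (neg_eps_or S)) ?_, ok_mono (okJ hc (Or.inl rfl)) ?_⟩
  · intro z hz
    exact iter_mem hc h0 h1 hR (eps_mem' hz) 0
  · rintro _ ⟨z, hz, rfl⟩
    have h3 := eps_mem' (S := S) hz
    have h4 : br c (-S.ε :: S.τ) z = S.ε * (-S.h c (S.ε * z)) := by
      conv_lhs => rw [← eps_eps (S := S) z]
      rw [br_cons]
      ring
    rw [mem_ofPred_eq, h4, eps_eps]
    have h5 : S.h c (S.ε * z) ≤ S.h c R' :=
      h_monotone hc ⟨by linarith [h3.1], h3.2.trans hR⟩ ⟨by linarith, hR⟩ h3.2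
    have h6 := h_nonneg S c (S.ε * z)
    exact ⟨by linarith, by linarith [S.hR]⟩

end PreSt

end JC
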