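import Pool.Agent.Lib.JC.StTheta

/-!
# JC.WordB : the words of Move 2

`wB i l N = τ ++ (ε :: τ)^N ++ (flip1 ε η)^i ++ (flip1 (-ε) η)^l ++ flip1 ε η`, `wBe = η ++ flip1 (-ε) η`, evaluated at
`z = -ε * y`. Rules, valid for all real `x` (`br` is total, `ε * ε = 1`, `br_flip1`, `η ≠ []`):
 `br c (flip1 s η) (ε * x) = s * θ x` (for a sign `s`), `br c (s :: τ) (ε * x) = s * h x`, `br c τ (ε * x) = ψ x`.
So, by induction on the number of repetitions (`br_rep`): `br c (flip1 ε η) z = ε * θ (-y)` (as `z = ε * (-y)`);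
 `br c (rep l (flip1 (-ε) η)) (ε * x) = ε * (-θ)^[l] x`; `br c (rep i (flip1 ε η)) (ε * x) = ε * θ^[i] x`;
 `br c (rep N (ε :: τ)) (ε * x) = ε * h^[N] x`. `br_append`.
* products: `ε * (ε * ε)^N * (ε * ε)^i * (-ε * ε)^l * (ε * ε) = ε * (-1)^l = -ε` for `l` odd; `ε * (-ε * ε) = -ε`.
* length: `(n - 1) + N n + i s + l s + s`.
* `ok_wB`: all intermediate values are in `[-R, R]` (`theta_maps`, `negtheta_iter_maps`, ...), `S.okη` and `ok_flip1` take care of the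
 letters of `η`; for `(ε :: τ)` at the point `ε * x`, `x = h^[k] (E y)`, `k < N`: `Ok c τ` by `S.ok`, and `c = ψ y0 < ψ x` as `x > y0`
 (hypothesis). Finally `Ok c τ` at `ε * h^[N] (E y) ∈ [-R, R]`. `ok_append`, `ok_rep`, `ok_mono`.
* `ok_wBe`: `Ok c (flip1 (-ε) η)` on `[-R, R]`, its image `{-ε θ(-y)}` is in `[-R, R]`, `Ok c η` there.
-/

open Set Filter Topology

namespace JC

namespace WordBAux

variable (S : St)

theorem eps_mul : S.ε * S.ε = 1 := S.toPreSt.eps_mul_self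

theorem neg_eps : -S.ε = 1 ∨ -S.ε = -1 := by
  rcases S.hε with h | h
  · right; rw [h]
  · left; rw [h]; norm_num

theorem br_a (c x : ℝ) : br c (flip1 S.ε S.η) (S.ε * x) = S.ε * S.theta c x :=
  br_flip1 S.hη c _ _

theorem br_b (c x : ℝ) : br c (flip1 (-S.ε) S.η) (S.ε * x) = S.ε * -S.theta c x := by
  rw [br_flip1 S.hη]
  simp only [St.theta]
  ring

theorem br_h (c x : ℝ) : br c (S.ε :: S.τ) (S.ε * x) = S.ε * S.h c x := rfl

theorem iter_conj {F g : ℝ → ℝ} {e : ℝ} (h : ∀ x, F (e * x) = e * g x) (k : ℕ) (x : ℝ) :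
    F^[k] (e * x) = e * g^[k] x := by
  induction k generalizing x with
  | zero => rfl
  | succ k ih => rw [Function.iterate_succ_apply, h, ih, Function.iterate_succ_apply]

theorem neg_mul_eq (y : ℝ) : -S.ε * y = S.ε * -y := by ring

theorem br_tail (c : ℝ) (i l : ℕ) (y : ℝ) :
    br c (rep i (flip1 S.ε S.η)) (br c (rep l (flip1 (-S.ε) S.η))
      (br c (flip1 S.ε S.η) (-S.ε * y))) = S.ε * S.E c i l y := by
  rw [neg_mul_eq, br_a, br_rep, br_rep, iter_conj (br_b S c), iter_conj (br_a S c)]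
  rfl

/-- the signs times the points of the interval -/
theorem sub_eps {y : ℝ} (hy : y ∈ Icc (-S.R) S.R) :
    ∃ x ∈ Icc (-S.R) S.R, y = S.ε * x := by
  refine ⟨S.ε * y, S.toPreSt.eps_mem hy, ?_⟩
  rw [← mul_assoc, eps_mul, one_mul]

theorem maps_a {c : ℝ} (hc : c ∈ S.seg) {y : ℝ} (hy : y ∈ Icc (-S.R) S.R) :
    br c (flip1 S.ε S.η) y ∈ Icc (-S.R) S.R := by
  obtain ⟨x, hx, rfl⟩ := sub_eps S hy
  rw [br_a]
  exact S.toPreSt.eps_mem (St.theta_maps hc hx)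

theorem maps_b {c : ℝ} (hc : c ∈ S.seg) {y : ℝ} (hy : y ∈ Icc (-S.R) S.R) :
    br c (flip1 (-S.ε) S.η) y ∈ Icc (-S.R) S.R := by
  obtain ⟨x, hx, rfl⟩ := sub_eps S hy
  rw [br_b]
  exact S.toPreSt.eps_mem (St.negtheta_maps hc hx)

theorem maps_iter {F : ℝ → ℝ} {I : Set ℝ} (hF : ∀ y ∈ I, F y ∈ I) (k : ℕ) {y : ℝ} (hy : y ∈ I) :
    F^[k] y ∈ I := by
  induction k with
  | zero => exact hy
  | succ k ih => rw [Function.iterate_succ_apply']; exact hF _ ih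

theorem E_mem {c : ℝ} (hc : c ∈ S.seg) (i l : ℕ) {y : ℝ} (hy : y ∈ Icc (-S.R) S.R) :
    S.E c i l y ∈ Icc (-S.R) S.R := by
  have hy' : -y ∈ Icc (-S.R) S.R := ⟨neg_le_neg hy.2, by linarith [hy.1]⟩
  exact St.theta_iter_maps hc (St.negtheta_iter_maps hc (St.theta_maps hc hy') l) i

end WordBAux

open WordBAux

namespace St

variable (S : St)

theorem br_wB (c : ℝ) (i l N : ℕ) (y : ℝ) :
    br c (S.wB i l N) (-S.ε * y) = S.psi c ((S.h c)^[N] (S.E c i l y)) := by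
  rw [St.wB, br_append, br_append, br_append, br_append, br_tail, br_rep, iter_conj (br_h S c)]
  rfl

theorem br_wBe (c y : ℝ) : br c S.wBe (-S.ε * y) = S.theta c (-S.theta c (-y)) := by
  rw [St.wBe, br_append, neg_mul_eq, br_b]
  rfl

theorem prod_wB (i N : ℕ) {l : ℕ} (hl : Odd l) : (S.wB i l N).prod = -S.ε := by
  have h1 : (flip1 S.ε S.η).prod = 1 := by rw [prod_flip1 S.hη, S.hηprod, eps_mul]
  have h2 : (flip1 (-S.ε) S.η).prod = -1 := by
    rw [prod_flip1 S.hη, S.hηprod, neg_mul, eps_mul]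
  have h3 : (S.ε :: S.τ).prod = 1 := by rw [List.prod_cons, S.hprod, eps_mul]
  rw [St.wB, List.prod_append, List.prod_append, List.prod_append, List.prod_append, prod_rep,
    prod_rep, prod_rep, h1, h2, h3, hl.neg_one_pow, S.hprod]
  ring

theorem prod_wBe : S.wBe.prod = -S.ε := by
  rw [St.wBe, List.prod_append, prod_flip1 S.hη, S.hηprod]
  have h := eps_mul S
  linear_combination (-S.ε) * h

theorem length_wB (i l N : ℕ) :
    (S.wB i l N).length + 1 = S.n + S.n * N + S.s * (i + l + 1) := by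
  rw [St.wB, List.length_append, List.length_append, List.length_append, List.length_append,
    length_rep, length_rep, length_rep, length_flip1, length_flip1, List.length_cons]
  simp only [PreSt.n, St.s]
  ring

variable {S} {c : ℝ}

theorem ok_wB (hc : c ∈ S.seg) (i l N : ℕ)
    (h : ∀ y ∈ Icc (-S.R) S.R, ∀ k < N, S.y0 c < (S.h c)^[k] (S.E c i l y)) :
    Ok c (S.wB i l N) (Icc (-S.R) S.R) := by
  have okη : Ok c S.η (Icc (-S.R) S.R) := S.okη c hc
  have okτ : Ok c S.τ (Icc (-S.R) S.R) := S.ok c hc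
  have oka : Ok c (flip1 S.ε S.η) (Icc (-S.R) S.R) := ok_flip1 S.hε okη
  have okb : Ok c (flip1 (-S.ε) S.η) (Icc (-S.R) S.R) := ok_flip1 (neg_eps S) okη
  -- every point of the last image
  have hpt : ∀ y ∈ Icc (-S.R) S.R, ∃ y' ∈ Icc (-S.R) S.R, y = -S.ε * y' := by
    intro y hy
    obtain ⟨x, hx, rfl⟩ := sub_eps S hy
    exact ⟨-x, ⟨neg_le_neg hx.2, by linarith [hx.1]⟩, by ring⟩
  rw [St.wB, ok_append, ok_append, ok_append, ok_append]
  refine ⟨oka, ok_rep okb ?_, ok_rep oka ?_, ?_, ?_⟩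
  · rintro _ ⟨y, hy, rfl⟩ j -
    exact maps_iter (fun z hz => maps_b S hc hz) j (maps_a S hc hy)
  · rintro _ ⟨_, ⟨y, hy, rfl⟩, rfl⟩ j -
    refine maps_iter (fun z hz => maps_a S hc hz) j ?_
    rw [br_rep]
    exact maps_iter (fun z hz => maps_b S hc hz) l (maps_a S hc hy)
  · -- the letters `ε :: τ`
    have okJ : Ok c (S.ε :: S.τ) {z | ∃ x ∈ Icc (-S.R) S.R, S.y0 c < x ∧ z = S.ε * x} := by
      refine ⟨S.hε, ok_mono okτ ?_, ?_⟩
      · rintro _ ⟨x, hx, -, rfl⟩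
        exact S.toPreSt.eps_mem hx
      · rintro _ ⟨x, hx, hxy, rfl⟩
        have h1 := PreSt.psi_mono (S := S.toPreSt) hc (PreSt.y0_mem hc) hx hxy
        rw [PreSt.psi_y0 hc] at h1
        exact h1
    refine ok_rep okJ ?_
    rintro _ ⟨_, ⟨_, ⟨y, hy, rfl⟩, rfl⟩, rfl⟩ j hj
    obtain ⟨y', hy', rfl⟩ := hpt y hy
    rw [br_tail, iter_conj (br_h S c)]
    exact ⟨_, PreSt.h_iter_maps hc (E_mem S hc i l hy') j, h y' hy' j hj, rfl⟩
  · refine ok_mono okτ ?_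
    rintro _ ⟨_, ⟨_, ⟨_, ⟨y, hy, rfl⟩, rfl⟩, rfl⟩, rfl⟩
    obtain ⟨y', hy', rfl⟩ := hpt y hy
    rw [br_tail, br_rep, iter_conj (br_h S c)]
    exact S.toPreSt.eps_mem (PreSt.h_iter_maps hc (E_mem S hc i l hy') N)

theorem ok_wBe (hc : c ∈ S.seg) : Ok c S.wBe (Icc (-S.R) S.R) := by
  have okη : Ok c S.η (Icc (-S.R) S.R) := S.okη c hc
  rw [St.wBe, ok_append]
  refine ⟨ok_flip1 (neg_eps S) okη, ok_mono okη ?_⟩
  rintro _ ⟨y, hy, rfl⟩
  exact maps_b S hc hy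

end St

end JC
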